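import Mathlib

set_option autoImplicit false

namespace Pool.Agent.V11150.DomaticGame

/-! ### The domatic number game -/

section defs

variable {V : Type}

/-- Every closed neighbourhood contains every colour. -/
def Good (G : SimpleGraph V) (k : ℕ) (c : V → Option (Fin k)) : Prop :=
  ∀ x : V, ∀ a : Fin k, ∃ y, (y = x ∨ G.Adj x y) ∧ c y = some a

open Classical in
/-- Alice wins from the position `c` (a partial colouring with colours from `Fin k`) with `n` moves
to go; the Boolean tells whether Alice is to move. -/
def AliceWins (G : SimpleGraph V) (k : ℕ) : ℕ → Bool → (V → Option (Fin k)) → Prop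
  | 0, _, c => Good G k c
  | n + 1, true, c => ∃ v, c v = none ∧ ∃ a, AliceWins G k n false (Function.update c v (some a))
  | n + 1, false, c => ∀ v, c v = none → ∀ a, AliceWins G k n true (Function.update c v (some a))

/-- Alice wins the game on `G` with palette of size `k`; the Boolean tells whether Alice moves
first. -/
def Wins (G : SimpleGraph V) (k : ℕ) (first : Bool) : Prop :=
  AliceWins G k (Nat.card V) first (fun _ => none)

/-- The game domatic number: the largest `k ≥ 1` such that Alice wins the A-game. -/
noncomputable def gammaA (G : SimpleGraph V) : ℕ := sSup {k | 1 ≤ k ∧ Wins G k true}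

/-- The delayed game domatic number: the largest `k ≥ 1` such that Alice wins the B-game. -/
noncomputable def gammaB (G : SimpleGraph V) : ℕ := sSup {k | 1 ≤ k ∧ Wins G k false}

end defs

section strategies

variable {V : Type} [Fintype V] {G : SimpleGraph V} {k : ℕ}

open Classical in
/-- The uncoloured vertices. -/
noncomputable def U (c : V → Option (Fin k)) : Finset V := Finset.univ.filter fun v => c v = none

theorem mem_U {c : V → Option (Fin k)} {v : V} : v ∈ U c ↔ c v = none := by
  classical
  simp [U]

open Classical in
theorem U_update (c : V → Option (Fin k)) (v : V) (a : Fin k) :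
    U (Function.update c v (some a)) = (U c).erase v := by
  ext w
  rw [mem_U, Finset.mem_erase, mem_U]
  by_cases h : w = v
  · subst h
    simp
  · rw [Function.update_of_ne h]
    simp [h]

theorem card_U_none : (U (fun _ : V => (none : Option (Fin k)))).card = Nat.card V := by
  classical
  rw [Nat.card_eq_fintype_card]
  simp [U]

open Classical in
/-- A strategy of Alice, as second player, given by an invariant. -/
theorem alice_of_inv (Inv : (V → Option (Fin k)) → Prop)
    (h0 : ∀ c, Inv c → U c = ∅ → Good G k c)
    (hs : ∀ c, Inv c → ∀ v ∈ U c, ∀ a : Fin k,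
      ((U c).erase v = ∅ ∧ Good G k (Function.update c v (some a))) ∨
        ∃ v' ∈ (U c).erase v, ∃ a' : Fin k,
          Inv (Function.update (Function.update c v (some a)) v' (some a'))) :
    ∀ (n : ℕ) (c : V → Option (Fin k)), (U c).card = n → Inv c → AliceWins G k n false c := by
  intro n
  induction n using Nat.strong_induction_on with
  | _ n ih =>
    intro c hn hI
    rcases n with _ | n
    · exact h0 c hI (Finset.card_eq_zero.1 hn)
    · intro v hv a
      have hvU : v ∈ U c := mem_U.2 hv
      have hcard : ((U c).erase v).card = n := by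
        rw [Finset.card_erase_of_mem hvU, hn]
        rfl
      rcases hs c hI v hvU a with ⟨he, hg⟩ | ⟨v', hv', a', hI'⟩
      · rw [he, Finset.card_empty] at hcard
        subst hcard
        exact hg
      · rcases n with _ | n
        · rw [Finset.card_eq_zero] at hcard
          rw [hcard] at hv'
          simp at hv'
        · refine ⟨v', ?_, a', ?_⟩
          · rw [← mem_U, U_update]
            exact hv'
          · refine ih n (by omega) _ ?_ hI'
            rw [U_update, U_update, Finset.card_erase_of_mem hv', hcard]
            rfl

open Classical in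
/-- A strategy of Bob, as second player, given by an invariant. -/
theorem bob_of_inv (Inv : (V → Option (Fin k)) → Prop)
    (h0 : ∀ c, Inv c → U c = ∅ → ¬ Good G k c)
    (hs : ∀ c, Inv c → ∀ v ∈ U c, ∀ a : Fin k,
      ((U c).erase v = ∅ ∧ ¬ Good G k (Function.update c v (some a))) ∨
        ∃ v' ∈ (U c).erase v, ∃ a' : Fin k,
          Inv (Function.update (Function.update c v (some a)) v' (some a'))) :
    ∀ (n : ℕ) (c : V → Option (Fin k)), (U c).card = n → Inv c → ¬ AliceWins G k n true c := by
  intro n
  induction n using Nat.strong_induction_on with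
  | _ n ih =>
    intro c hn hI hW
    rcases n with _ | n
    · exact h0 c hI (Finset.card_eq_zero.1 hn) hW
    · obtain ⟨v, hv, a, hW⟩ := hW
      have hvU : v ∈ U c := mem_U.2 hv
      have hcard : ((U c).erase v).card = n := by
        rw [Finset.card_erase_of_mem hvU, hn]
        rfl
      rcases hs c hI v hvU a with ⟨he, hg⟩ | ⟨v', hv', a', hI'⟩
      · rw [he, Finset.card_empty] at hcard
        subst hcard
        exact hg hW
      · rcases n with _ | n
        · rw [Finset.card_eq_zero] at hcard
          rw [hcard] at hv'
          simp at hv'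
        · refine ih n (by omega) _ ?_ hI' (hW v' ?_ a')
          · rw [U_update, U_update, Finset.card_erase_of_mem hv', hcard]
            rfl
          · rw [← mem_U, U_update]
            exact hv'

/-- If no full colouring is good, Alice loses. -/
theorem not_wins_of_not_good (hk : 0 < k) (hG : ∀ c : V → Option (Fin k), ¬ Good G k c) :
    ∀ (n : ℕ) (turn : Bool) (c : V → Option (Fin k)), (U c).card = n →
      ¬ AliceWins G k n turn c := by
  classical
  intro n
  induction n with
  | zero => intro turn c _ h; exact hG c h
  | succ n ih =>
    intro turn c hn h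
    cases turn with
    | true =>
      obtain ⟨v, hv, a, h⟩ := h
      refine ih _ _ ?_ h
      rw [U_update, Finset.card_erase_of_mem (mem_U.2 hv), hn]
      rfl
    | false =>
      have hne : (U c).Nonempty := by
        rw [← Finset.card_pos, hn]
        omega
      obtain ⟨v, hv⟩ := hne
      refine ih _ _ ?_ (h v (mem_U.1 hv) ⟨0, hk⟩)
      rw [U_update, Finset.card_erase_of_mem hv, hn]
      rfl

/-- A closed neighbourhood with fewer than `k` vertices. -/
theorem not_wins_of_small (x : V) (N : Finset V) (hN : ∀ y, (y = x ∨ G.Adj x y) → y ∈ N)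
    (hk : N.card < k) (first : Bool) : ¬ Wins G k first := by
  classical
  refine not_wins_of_not_good (by omega) ?_ _ _ _ card_U_none
  intro c hc
  have h1 : ∀ a : Fin k, ∃ y ∈ N, c y = some a := by
    intro a
    obtain ⟨y, hy, hya⟩ := hc x a
    exact ⟨y, hN y hy, hya⟩
  choose f hf hfa using h1
  have hinj : Function.Injective f := by
    intro a b hab
    have := hfa a
    rw [hab, hfa b] at this
    exact (Option.some.inj this).symm
  have := Finset.card_le_card_of_injOn f (s := Finset.univ) (t := N) (fun a _ => hf a)
    (fun a _ b _ h => hinj h)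
  rw [Finset.card_univ, Fintype.card_fin] at this
  omega

theorem wins_one (G : SimpleGraph V) (first : Bool) : Wins G 1 first := by
  classical
  have key : ∀ (n : ℕ) (turn : Bool) (c : V → Option (Fin 1)), (U c).card = n →
      AliceWins G 1 n turn c := by
    intro n
    induction n with
    | zero =>
      intro turn c hn x a
      refine ⟨x, Or.inl rfl, ?_⟩
      rw [Finset.card_eq_zero] at hn
      have hx : x ∉ U c := by rw [hn]; simp
      rw [mem_U] at hx
      obtain ⟨b, hb⟩ := Option.ne_none_iff_exists'.1 hx
      rw [hb, Subsingleton.elim b a]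
    | succ n ih =>
      intro turn c hn
      cases turn with
      | true =>
        have hne : (U c).Nonempty := by
          rw [← Finset.card_pos, hn]
          omega
        obtain ⟨v, hv⟩ := hne
        refine ⟨v, mem_U.1 hv, 0, ih _ _ ?_⟩
        rw [U_update, Finset.card_erase_of_mem hv, hn]
        rfl
      | false =>
        intro v hv a
        refine ih _ _ ?_
        rw [U_update, Finset.card_erase_of_mem (mem_U.2 hv), hn]
        rfl
  exact key _ _ _ card_U_none

/-- Computing the two numbers. -/
theorem gammaA_eq {K : ℕ} (hK : 1 ≤ K) (h1 : Wins G K true) (h2 : ∀ k, K < k → ¬ Wins G k true) :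
    gammaA G = K := by
  refine IsGreatest.csSup_eq ⟨⟨hK, h1⟩, ?_⟩
  rintro k ⟨_, hk⟩
  by_contra h
  exact h2 k (by omega) hk

theorem gammaB_eq {K : ℕ} (hK : 1 ≤ K) (h1 : Wins G K false)
    (h2 : ∀ k, K < k → ¬ Wins G k false) : gammaB G = K := by
  refine IsGreatest.csSup_eq ⟨⟨hK, h1⟩, ?_⟩
  rintro k ⟨_, hk⟩
  by_contra h
  exact h2 k (by omega) hk

/-! #### Perfect matchings -/

theorem fin2_one_sub_ne : ∀ a : Fin 2, 1 - a ≠ a := by decide

theorem fin2_one_sub_of_ne : ∀ a b : Fin 2, ¬ b = a → 1 - b = a := by decide

theorem fin2_one_sub_sub : ∀ a : Fin 2, a = 1 - (1 - a) := by decide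

/-- If `G` has a perfect matching (given by the involution `π`) then Alice wins the B-game with two
colours. -/
theorem wins_matching (π : V → V) (hπ : ∀ v, π (π v) = v) (hne : ∀ v, π v ≠ v)
    (hadj : ∀ v, G.Adj v (π v)) : Wins G 2 false := by
  classical
  refine alice_of_inv (fun c => ∀ v, (c v = none ∧ c (π v) = none) ∨
    (∃ a : Fin 2, c v = some a ∧ c (π v) = some (1 - a))) ?_ ?_ _ _ card_U_none ?_
  · intro c hI hU x a
    have hx : x ∉ U c := by rw [hU]; simp
    rw [mem_U] at hx
    rcases hI x with h | ⟨b, hb, hb'⟩
    · exact absurd h.1 hx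
    · by_cases hab : b = a
      · exact ⟨x, Or.inl rfl, by rw [hb, hab]⟩
      · refine ⟨π x, Or.inr (hadj x), ?_⟩
        rw [hb', fin2_one_sub_of_ne a b hab]
  · intro c hI v hv a
    right
    rw [mem_U] at hv
    have hv' : c (π v) = none := by
      rcases hI v with h | ⟨b, hb, _⟩
      · exact h.2
      · rw [hb] at hv; exact absurd hv (by simp)
    refine ⟨π v, ?_, 1 - a, ?_⟩
    · rw [Finset.mem_erase, mem_U]
      exact ⟨hne v, hv'⟩
    · intro w
      by_cases h1 : w = v
      · subst h1
        right
        refine ⟨a, ?_, ?_⟩
        · rw [Function.update_of_ne (hne w).symm, Function.update_self]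
        · rw [Function.update_self]
      · by_cases h2 : w = π v
        · subst h2
          right
          refine ⟨1 - a, ?_, ?_⟩
          · rw [Function.update_self]
          · rw [hπ, Function.update_of_ne (hne v).symm, Function.update_self,
              ← fin2_one_sub_sub]
        · have h3 : π w ≠ v := fun h => h2 (by rw [← h, hπ])
          have h4 : π w ≠ π v := fun h => h1 (by rw [← hπ w, h, hπ])
          rw [Function.update_of_ne h2, Function.update_of_ne h1, Function.update_of_ne h4,
            Function.update_of_ne h3]
          exact hI w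
  · intro v
    exact Or.inl ⟨rfl, rfl⟩

/-! #### Leaves -/

/-- The invariant of Bob for a closed neighbourhood `{u, w}`. -/
def LeafInv (u w : V) (c : V → Option (Fin 2)) : Prop :=
  (∃ a, c u = some a ∧ c w = some a) ∨ (c u = none ∧ c w = none ∧ Even (U c).card)

theorem leaf_not_good {x u w : V} (hN : ∀ y, (y = x ∨ G.Adj x y) → y = u ∨ y = w)
    {c : V → Option (Fin 2)} {a : Fin 2} (hu : c u = some a) (hw : c w = some a) :
    ¬ Good G 2 c := by
  intro h
  obtain ⟨y, hy, hya⟩ := h x (1 - a)
  have : (1 - a : Fin 2) ≠ a := fin2_one_sub_ne a
  rcases hN y hy with rfl | rfl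
  · rw [hu] at hya
    exact this (Option.some.inj hya).symm
  · rw [hw] at hya
    exact this (Option.some.inj hya).symm

theorem leaf_lose {x u w : V} (huw : u ≠ w) (hN : ∀ y, (y = x ∨ G.Adj x y) → y = u ∨ y = w)
    (n : ℕ) (c : V → Option (Fin 2)) (hn : (U c).card = n) (hI : LeafInv u w c) :
    ¬ AliceWins G 2 n true c := by
  classical
  refine bob_of_inv (LeafInv u w) ?_ ?_ n c hn hI
  · rintro c (⟨a, hu, hw⟩ | ⟨hu, _, _⟩) hU
    · exact leaf_not_good hN hu hw
    · rw [← mem_U, hU] at hu
      simp at hu
  · intro c hI v hv a
    rcases hI with ⟨b, hu, hw⟩ | ⟨hu, hw, he⟩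
    · have hvu : u ≠ v := by
        rintro rfl
        rw [mem_U, hu] at hv
        exact absurd hv (by simp)
      have hvw : w ≠ v := by
        rintro rfl
        rw [mem_U, hw] at hv
        exact absurd hv (by simp)
      by_cases hne : ((U c).erase v).Nonempty
      · right
        obtain ⟨v', hv'⟩ := hne
        refine ⟨v', hv', 0, Or.inl ⟨b, ?_, ?_⟩⟩
        · rw [Finset.mem_erase, mem_U] at hv'
          have : u ≠ v' := by
            rintro rfl
            rw [hu] at hv'
            exact absurd hv'.2 (by simp)
          rw [Function.update_of_ne this, Function.update_of_ne hvu, hu]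
        · rw [Finset.mem_erase, mem_U] at hv'
          have : w ≠ v' := by
            rintro rfl
            rw [hw] at hv'
            exact absurd hv'.2 (by simp)
          rw [Function.update_of_ne this, Function.update_of_ne hvw, hw]
      · left
        rw [Finset.not_nonempty_iff_eq_empty] at hne
        refine ⟨hne, leaf_not_good (a := b) hN ?_ ?_⟩
        · rw [Function.update_of_ne hvu, hu]
        · rw [Function.update_of_ne hvw, hw]
    · right
      by_cases hvu : v = u
      · subst hvu
        refine ⟨w, ?_, a, Or.inl ⟨a, ?_, ?_⟩⟩
        · rw [Finset.mem_erase, mem_U]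
          exact ⟨huw.symm, hw⟩
        · rw [Function.update_of_ne huw, Function.update_self]
        · rw [Function.update_self]
      · by_cases hvw : v = w
        · subst hvw
          refine ⟨u, ?_, a, Or.inl ⟨a, ?_, ?_⟩⟩
          · rw [Finset.mem_erase, mem_U]
            exact ⟨huw, hu⟩
          · rw [Function.update_self]
          · rw [Function.update_of_ne huw.symm, Function.update_self]
        · have h3 : 3 ≤ (U c).card := by
            have hsub : ({v, u, w} : Finset V) ⊆ U c := by
              intro y hy
              simp only [Finset.mem_insert, Finset.mem_singleton] at hy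
              rcases hy with rfl | rfl | rfl
              · exact hv
              · exact mem_U.2 hu
              · exact mem_U.2 hw
            have hc : ({v, u, w} : Finset V).card = 3 := Finset.card_eq_three.2
              ⟨v, u, w, hvu, hvw, huw, rfl⟩
            rw [← hc]
            exact Finset.card_le_card hsub
          have h4 : 4 ≤ (U c).card := by
            obtain ⟨q, hq⟩ := he
            omega
          have h5 : ((((U c).erase v).erase u).erase w).Nonempty := by
            rw [← Finset.card_pos]
            have e1 := Finset.card_erase_of_mem hv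
            have e2 := Finset.card_erase_of_mem (s := (U c).erase v) (a := u)
              (Finset.mem_erase.2 ⟨Ne.symm hvu, mem_U.2 hu⟩)
            have e3 := Finset.card_erase_of_mem (s := ((U c).erase v).erase u) (a := w)
              (Finset.mem_erase.2 ⟨huw.symm, Finset.mem_erase.2 ⟨Ne.symm hvw, mem_U.2 hw⟩⟩)
            omega
          obtain ⟨v', hv'⟩ := h5
          rw [Finset.mem_erase, Finset.mem_erase] at hv'
          obtain ⟨hv'w, hv'u, hv'⟩ := hv'
          refine ⟨v', hv', 0, Or.inr ⟨?_, ?_, ?_⟩⟩
          · rw [Function.update_of_ne (Ne.symm hv'u), Function.update_of_ne (Ne.symm hvu), hu]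
          · rw [Function.update_of_ne (Ne.symm hv'w), Function.update_of_ne (Ne.symm hvw), hw]
          · rw [U_update, U_update, Finset.card_erase_of_mem hv', Finset.card_erase_of_mem hv]
            obtain ⟨q, hq⟩ := he
            exact ⟨q - 1, by omega⟩

/-! #### Triangle blocks -/

/-- A triple of values that is fine for Alice (two colours present, or at least two uncoloured). -/
def fine (x y z : Option (Fin 2)) : Prop :=
  (0 ∈ [x, y, z].filterMap id ∧ 1 ∈ [x, y, z].filterMap id) ∨
    2 ≤ ([x, y, z].filter (fun o => o.isNone)).length

instance (x y z : Option (Fin 2)) : Decidable (fine x y z) := by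
  unfold fine
  infer_instance

theorem fine_rot : ∀ x y z, fine x y z → fine y z x := by decide

theorem fine_play : ∀ y z, fine none y z → ∃ a : Fin 2, fine (some a) y z := by decide

theorem fine_reply : ∀ (a : Fin 2) (y z), fine none y z → ¬ fine (some a) y z →
    (y = none ∧ ∃ a' : Fin 2, fine (some a) (some a') z) ∨
      (z = none ∧ ∃ a' : Fin 2, fine (some a) y (some a')) := by decide

theorem fine_full : ∀ x y z : Option (Fin 2), fine x y z → x ≠ none → y ≠ none → z ≠ none →
    ∀ a : Fin 2, x = some a ∨ y = some a ∨ z = some a := by decide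

open Classical in
theorem fine_update (s : V → V) (hs3 : ∀ v, s (s (s v)) = v) (hs1 : ∀ v, s v ≠ v)
    (c : V → Option (Fin 2)) (v : V) (a : Fin 2)
    (hc : ∀ u, u ≠ v → s u ≠ v → s (s u) ≠ v → fine (c u) (c (s u)) (c (s (s u))))
    (hv : fine (some a) (c (s v)) (c (s (s v)))) (u : V) :
    fine (Function.update c v (some a) u) (Function.update c v (some a) (s u))
      (Function.update c v (some a) (s (s u))) := by
  have h2 : ∀ v, s (s v) ≠ v := fun v h => hs1 v (by
    have := hs3 v
    rw [h] at this
    exact this)
  have key : fine (Function.update c v (some a) v) (Function.update c v (some a) (s v))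
      (Function.update c v (some a) (s (s v))) := by
    rw [Function.update_self, Function.update_of_ne (hs1 v), Function.update_of_ne (h2 v)]
    exact hv
  by_cases e1 : u = v
  · rw [e1]; exact key
  · by_cases e2 : s u = v
    · have h := fine_rot _ _ _ (fine_rot _ _ _ key)
      have e : u = s (s v) := by rw [← e2, hs3]
      rw [e, hs3]
      exact h
    · by_cases e3 : s (s u) = v
      · have h := fine_rot _ _ _ key
        have e : u = s v := by rw [← e3, hs3]
        rw [e, hs3]
        exact h
      · rw [Function.update_of_ne e1, Function.update_of_ne e2, Function.update_of_ne e3]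
        exact hc u e1 e2 e3

/-- If the vertex set is partitioned into triples (the orbits of `s`) such that every closed
neighbourhood contains a triple, Alice wins with two colours, whoever starts. -/
theorem wins_blocks (s : V → V) (hs3 : ∀ v, s (s (s v)) = v) (hs1 : ∀ v, s v ≠ v)
    (hN : ∀ v, G.Adj v (s v) ∧ G.Adj v (s (s v))) (first : Bool) [Nonempty V] :
    Wins G 2 first := by
  classical
  have main : ∀ (n : ℕ) (c : V → Option (Fin 2)), (U c).card = n →
      (∀ u, fine (c u) (c (s u)) (c (s (s u)))) → AliceWins G 2 n false c := by
    have hgood : ∀ c : V → Option (Fin 2), (∀ u, fine (c u) (c (s u)) (c (s (s u)))) →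
        U c = ∅ → Good G 2 c := by
      intro c hI hU x a
      have hx : ∀ x, c x ≠ none := by
        intro x hx
        rw [← mem_U, hU] at hx
        simp at hx
      rcases fine_full _ _ _ (hI x) (hx _) (hx _) (hx _) a with h | h | h
      · exact ⟨x, Or.inl rfl, h⟩
      · exact ⟨s x, Or.inr (hN x).1, h⟩
      · exact ⟨s (s x), Or.inr (hN x).2, h⟩
    refine alice_of_inv _ hgood ?_
    intro c hI v hv a
    rw [mem_U] at hv
    have hfv : fine none (c (s v)) (c (s (s v))) := by
      have := hI v
      rwa [hv] at this
    by_cases hf : fine (some a) (c (s v)) (c (s (s v)))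
    · have hI1 := fine_update s hs3 hs1 c v a (fun u _ _ _ => hI u) hf
      by_cases hne : ((U c).erase v).Nonempty
      · right
        obtain ⟨v', hv'⟩ := hne
        have hv'n : Function.update c v (some a) v' = none := by
          rw [← mem_U, U_update]
          exact hv'
        have h1 := hI1 v'
        rw [hv'n] at h1
        obtain ⟨a', ha'⟩ := fine_play _ _ h1
        exact ⟨v', hv', a', fine_update s hs3 hs1 _ v' a' (fun u _ _ _ => hI1 u) ha'⟩
      · left
        rw [Finset.not_nonempty_iff_eq_empty] at hne
        refine ⟨hne, hgood _ hI1 ?_⟩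
        rw [U_update]
        exact hne
    · right
      have h2 : ∀ v, s (s v) ≠ v := fun v h => hs1 v (by
        have := hs3 v
        rw [h] at this
        exact this)
      rcases fine_reply a _ _ hfv hf with ⟨hy, a', ha'⟩ | ⟨hz, a', ha'⟩
      · refine ⟨s v, ?_, a', ?_⟩
        · rw [Finset.mem_erase, mem_U]
          exact ⟨hs1 v, hy⟩
        · refine fine_update s hs3 hs1 _ (s v) a' ?_ ?_
          · intro u h3 h4 h5
            have e1 : u ≠ v := by rintro rfl; exact h4 rfl
            have e2 : s u ≠ v := by
              rintro rfl
              exact h5 rfl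
            have e3 : s (s u) ≠ v := by
              rintro rfl
              exact h3 (hs3 u).symm
            rw [Function.update_of_ne e1, Function.update_of_ne e2, Function.update_of_ne e3]
            exact hI u
          · rw [hs3, Function.update_self, Function.update_of_ne (h2 v)]
            exact fine_rot _ _ _ ha'
      · refine ⟨s (s v), ?_, a', ?_⟩
        · rw [Finset.mem_erase, mem_U]
          exact ⟨h2 v, hz⟩
        · refine fine_update s hs3 hs1 _ (s (s v)) a' ?_ ?_
          · intro u h3 h4 h5
            have e1 : u ≠ v := by rintro rfl; exact h5 rfl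
            have e2 : s u ≠ v := by
              rintro rfl
              exact h3 (hs3 u).symm
            have e3 : s (s u) ≠ v := by
              rintro rfl
              rw [hs3] at h4
              exact h4 rfl
            rw [Function.update_of_ne e1, Function.update_of_ne e2, Function.update_of_ne e3]
            exact hI u
          · rw [hs3, Function.update_self, Function.update_of_ne (hs1 v)]
            exact fine_rot _ _ _ (fine_rot _ _ _ ha')
  have hstart : ∀ u, fine ((fun _ : V => (none : Option (Fin 2))) u)
      ((fun _ : V => (none : Option (Fin 2))) (s u))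
      ((fun _ : V => (none : Option (Fin 2))) (s (s u))) := fun u => by
    show fine none none none
    decide
  cases first with
  | false => exact main _ _ card_U_none hstart
  | true =>
    have hc : (U (fun _ : V => (none : Option (Fin 2)))).card = Nat.card V := card_U_none
    have hpos : 0 < Nat.card V := Nat.card_pos
    obtain ⟨n, hn⟩ : ∃ n, Nat.card V = n + 1 := ⟨Nat.card V - 1, by omega⟩
    unfold Wins
    rw [hn]
    have v : V := Classical.arbitrary V
    refine ⟨v, rfl, 0, main n _ ?_ ?_⟩
    · rw [U_update, Finset.card_erase_of_mem (mem_U.2 rfl), hc, hn]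
      rfl
    · exact fine_update s hs3 hs1 _ v 0 (fun u _ _ _ => hstart u) (by
        show fine (some 0) none none
        decide)

/-! #### Three colours -/

/-- Two vertices of a closed neighbourhood with three vertices have the same colour. -/
theorem three_not_good {x : V} {N : Finset V} (hN : ∀ y, (y = x ∨ G.Adj x y) → y ∈ N)
    (hc3 : N.card = 3) {c : V → Option (Fin 3)} {u w : V} {a : Fin 3} (huw : u ≠ w) (hu : u ∈ N)
    (hw : w ∈ N) (hcu : c u = some a) (hcw : c w = some a) : ¬ Good G 3 c := by
  classical
  intro h
  have h1 : ∀ b : Fin 3, ∃ y ∈ N.erase w, c y = some b := by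
    intro b
    obtain ⟨y, hy, hyb⟩ := h x b
    by_cases hyw : y = w
    · refine ⟨u, Finset.mem_erase.2 ⟨huw, hu⟩, ?_⟩
      rw [hyw, hcw] at hyb
      rw [hcu, hyb]
    · exact ⟨y, Finset.mem_erase.2 ⟨hyw, hN y hy⟩, hyb⟩
  choose f hf hfa using h1
  have hinj : Function.Injective f := by
    intro a b hab
    have := hfa a
    rw [hab, hfa b] at this
    exact (Option.some.inj this).symm
  have := Finset.card_le_card_of_injOn f (s := Finset.univ) (t := N.erase w) (fun a _ => hf a)
    (fun a _ b _ h => hinj h)
  rw [Finset.card_univ, Fintype.card_fin, Finset.card_erase_of_mem hw] at this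
  omega

/-- If the vertex set is partitioned into triples and each triple is a closed neighbourhood, Alice
loses with three colours. -/
theorem not_wins_three (s : V → V) (hs3 : ∀ v, s (s (s v)) = v) (hs1 : ∀ v, s v ≠ v)
    (hN : ∀ v, ∃ x, ∀ y, (y = x ∨ G.Adj x y) → y = v ∨ y = s v ∨ y = s (s v)) (first : Bool)
    [Nonempty V] : ¬ Wins G 3 first := by
  classical
  have h2 : ∀ v, s (s v) ≠ v := fun v h => hs1 v (by
    have := hs3 v
    rw [h] at this
    exact this)
  have h12 : ∀ v, s (s v) ≠ s v := fun v => hs1 (s v)
  -- spoiled positions
  let Sp : (V → Option (Fin 3)) → Prop := fun c => ∃ v a, c v = some a ∧ c (s v) = some a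
  have hSpG : ∀ c, Sp c → ¬ Good G 3 c := by
    rintro c ⟨v, a, h3, h4⟩
    obtain ⟨x, hx⟩ := hN v
    refine three_not_good (x := x) (N := {v, s v, s (s v)}) (fun y hy => ?_) ?_ (hs1 v).symm
      (by simp) (by simp) h3 h4
    · rcases hx y hy with h | h | h <;> simp [h]
    · exact Finset.card_eq_three.2 ⟨v, s v, s (s v), (hs1 v).symm, (h2 v).symm, (h12 v).symm, rfl⟩
  have hSpU : ∀ c, Sp c → ∀ v ∈ U c, ∀ a, Sp (Function.update c v (some a)) := by
    rintro c ⟨u, b, h3, h4⟩ v hv a
    rw [mem_U] at hv
    have e1 : u ≠ v := by rintro rfl; rw [h3] at hv; exact absurd hv (by simp)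
    have e2 : s u ≠ v := by rintro rfl; rw [h4] at hv; exact absurd hv (by simp)
    exact ⟨u, b, by rw [Function.update_of_ne e1, h3], by rw [Function.update_of_ne e2, h4]⟩
  have main : ∀ (n : ℕ) (c : V → Option (Fin 3)), (U c).card = n →
      (Sp c ∨ (c = fun _ => none) ∨ ∃ v a, c = Function.update (fun _ => none) v (some a)) →
      U c ≠ ∅ ∨ Sp c → ¬ AliceWins G 3 n true c := by
    intro n c hn hI hne
    have step : ∀ c : V → Option (Fin 3), (Sp c ∨ (c = fun _ => none) ∨
        ∃ v a, c = Function.update (fun _ => none) v (some a)) → ∀ v ∈ U c, ∀ a : Fin 3,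
        ((U c).erase v = ∅ ∧ ¬ Good G 3 (Function.update c v (some a))) ∨
        ∃ v' ∈ (U c).erase v, ∃ a' : Fin 3,
          Sp (Function.update (Function.update c v (some a)) v' (some a')) := by
      rintro c (hS | rfl | ⟨u, b, rfl⟩) v hv a
      · by_cases hne : ((U c).erase v).Nonempty
        · obtain ⟨v', hv'⟩ := hne
          exact Or.inr ⟨v', hv', 0, hSpU _ (hSpU c hS v hv a) v' (by rw [U_update]; exact hv') 0⟩
        · rw [Finset.not_nonempty_iff_eq_empty] at hne
          exact Or.inl ⟨hne, hSpG _ (hSpU c hS v hv a)⟩
      · right
        refine ⟨s v, ?_, a, v, a, ?_, ?_⟩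
        · rw [Finset.mem_erase, mem_U]
          exact ⟨hs1 v, rfl⟩
        · rw [Function.update_of_ne (hs1 v).symm, Function.update_self]
        · rw [Function.update_self]
      · have hvu : v ≠ u := by
          rintro rfl
          rw [mem_U, Function.update_self] at hv
          exact absurd hv (by simp)
        right
        by_cases hsu : s u = v
        · -- play `s (s u)`, with the colour of `u`
          have e1 : s (s u) ≠ v := by rw [← hsu]; exact h12 u
          refine ⟨s (s u), ?_, b, s (s u), b, ?_, ?_⟩
          · rw [Finset.mem_erase, mem_U, Function.update_of_ne (h2 u)]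
            exact ⟨e1, rfl⟩
          · rw [Function.update_self]
          · rw [hs3, Function.update_of_ne (h2 u).symm, Function.update_of_ne hvu.symm,
              Function.update_self]
        · refine ⟨s u, ?_, b, u, b, ?_, ?_⟩
          · rw [Finset.mem_erase, mem_U, Function.update_of_ne (hs1 u)]
            exact ⟨hsu, rfl⟩
          · rw [Function.update_of_ne (hs1 u).symm, Function.update_of_ne hvu.symm,
              Function.update_self]
          · rw [Function.update_self]
    refine bob_of_inv (fun c => (Sp c ∨ (c = fun _ => none) ∨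
      ∃ v a, c = Function.update (fun _ => none) v (some a)) ∧ (U c ≠ ∅ ∨ Sp c)) ?_ ?_ n c hn
      ⟨hI, hne⟩
    · rintro c ⟨_, h3⟩ hU
      rcases h3 with h3 | h3
      · exact absurd hU h3
      · exact hSpG c h3
    · rintro c ⟨h3, _⟩ v hv a
      rcases step c h3 v hv a with h | ⟨v', hv', a', h⟩
      · exact Or.inl h
      · exact Or.inr ⟨v', hv', a', Or.inl h, Or.inr h⟩
  have hpos : 0 < Nat.card V := Nat.card_pos
  cases first with
  | true =>
    refine main _ _ card_U_none (Or.inr (Or.inl rfl)) (Or.inl ?_)
    intro h
    have hc : (U (fun _ : V => (none : Option (Fin 3)))).card = Nat.card V := card_U_none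
    rw [h, Finset.card_empty] at hc
    omega
  | false =>
    intro hW
    have hc : (U (fun _ : V => (none : Option (Fin 3)))).card = Nat.card V := card_U_none
    obtain ⟨n, hn⟩ : ∃ n, Nat.card V = n + 1 := ⟨Nat.card V - 1, by omega⟩
    unfold Wins at hW
    rw [hn] at hW
    have v : V := Classical.arbitrary V
    refine main n _ ?_ (Or.inr (Or.inr ⟨v, 0, rfl⟩)) (Or.inl ?_) (hW v rfl 0)
    · rw [U_update, Finset.card_erase_of_mem (mem_U.2 rfl), hc, hn]
      rfl
    · rw [U_update]
      intro h
      have : s v ∈ (U (fun _ : V => (none : Option (Fin 3)))).erase v := by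
        rw [Finset.mem_erase, mem_U]
        exact ⟨hs1 v, rfl⟩
      rw [h] at this
      simp at this

end strategies

end Pool.Agent.V11150.DomaticGame
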