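import Mathlib
import Pool.Agent.V11150.DomaticGame

set_option autoImplicit false

namespace Pool.Agent.V11150.DomaticGame

open SimpleGraph

section general

variable {V : Type} [Fintype V] {G : SimpleGraph V}

open Classical in
omit [Fintype V] in
theorem mem_erase_U [Fintype V] {k : ℕ} {c : V → Option (Fin k)} {v v' : V} (h : v' ≠ v)
    (h' : c v' = none) : v' ∈ (U c).erase v :=
  Finset.mem_erase.2 ⟨h, mem_U.2 h'⟩

open Classical in
omit [Fintype V] in
theorem card_U_update [Fintype V] {k : ℕ} {c : V → Option (Fin k)} {v : V} {a : Fin k}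
    (h : c v = none) : (U (Function.update c v (some a))).card = (U c).card - 1 := by
  rw [U_update, Finset.card_erase_of_mem (mem_U.2 h)]

theorem leaf_even {x u w : V} (huw : u ≠ w) (hN : ∀ y, (y = x ∨ G.Adj x y) → y = u ∨ y = w)
    (he : Even (Nat.card V)) : ¬ Wins G 2 true :=
  leaf_lose huw hN _ _ card_U_none (Or.inr ⟨rfl, rfl, by rw [card_U_none]; exact he⟩)

theorem leaf_odd {x u w v : V} (huw : u ≠ w) (hN : ∀ y, (y = x ∨ G.Adj x y) → y = u ∨ y = w)
    (hvu : v ≠ u) (hvw : v ≠ w) (ho : Odd (Nat.card V)) : ¬ Wins G 2 false := by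
  classical
  intro hW
  obtain ⟨q, hq⟩ := ho
  unfold Wins at hW
  rw [hq] at hW
  have hc : (U (fun _ : V => (none : Option (Fin 2)))).card = Nat.card V := card_U_none
  have h1 : (U (Function.update (fun _ : V => (none : Option (Fin 2))) v (some 0))).card
      = 2 * q := by
    rw [U_update, Finset.card_erase_of_mem (mem_U.2 rfl), hc, hq]
    rfl
  refine leaf_lose huw hN _ _ h1 (Or.inr ⟨?_, ?_, ?_⟩) (hW v rfl 0)
  · rw [Function.update_of_ne hvu.symm]
  · rw [Function.update_of_ne hvw.symm]
  · rw [h1]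
    exact ⟨q, by omega⟩

end general

/-- The complete graph `K₂`. -/
abbrev K2 : SimpleGraph (Fin 2) := ⊤

/-- The complete graph `K₃`. -/
abbrev K3 : SimpleGraph (Fin 3) := ⊤

/-- Two triangles `{0,1,2}`, `{3,4,5}` joined by the edge `{0,3}`. -/
def TT : SimpleGraph (Fin 6) where
  Adj i j := i ≠ j ∧ ((i.val / 3 = j.val / 3) ∨ (i = 0 ∧ j = 3) ∨ (i = 3 ∧ j = 0))
  symm := ⟨by
    rintro i j ⟨h1, h2⟩
    refine ⟨h1.symm, ?_⟩
    rcases h2 with h | ⟨h, h'⟩ | ⟨h, h'⟩
    · exact Or.inl h.symm
    · exact Or.inr (Or.inr ⟨h', h⟩)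
    · exact Or.inr (Or.inl ⟨h', h⟩)⟩
  loopless := ⟨fun i h => h.1 rfl⟩

instance : DecidableRel TT.Adj := fun i j => by
  unfold TT
  infer_instance

theorem connected_K2 : K2.Connected := SimpleGraph.connected_top

theorem connected_K3 : K3.Connected := SimpleGraph.connected_top

theorem connected_TT : TT.Connected := by
  have h0 : ∀ i : Fin 6, TT.Reachable 0 i := by
    have h1 : TT.Reachable 0 1 := SimpleGraph.Adj.reachable (by decide)
    have h2 : TT.Reachable 0 2 := SimpleGraph.Adj.reachable (by decide)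
    have h3 : TT.Reachable 0 3 := SimpleGraph.Adj.reachable (by decide)
    have h4 : TT.Reachable 3 4 := SimpleGraph.Adj.reachable (by decide)
    have h5 : TT.Reachable 3 5 := SimpleGraph.Adj.reachable (by decide)
    intro i
    fin_cases i
    · exact SimpleGraph.Reachable.refl _
    · exact h1
    · exact h2
    · exact h3
    · exact h3.trans h4
    · exact h3.trans h5
  exact ⟨fun i j => (h0 i).symm.trans (h0 j)⟩

/-! #### The numbers of `K₃` and `TT` -/

theorem small_K3 (k : ℕ) (hk : 3 < k) (first : Bool) : ¬ Wins K3 k first :=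
  not_wins_of_small (0 : Fin 3) Finset.univ (fun y _ => Finset.mem_univ y) (by simpa using hk) first

theorem K3_two (first : Bool) : Wins K3 2 first :=
  wins_blocks (fun i => i + 1) (by decide) (by decide) (by decide) first

theorem K3_three (first : Bool) : ¬ Wins K3 3 first := by
  refine not_wins_three (fun i => i + 1) (by decide) (by decide) ?_ first
  intro v
  refine ⟨v, ?_⟩
  have : ∀ v y : Fin 3, y = v ∨ y = v + 1 ∨ y = v + 1 + 1 := by decide
  exact fun y _ => this v y

theorem K3_big (k : ℕ) (hk : 2 < k) (first : Bool) : ¬ Wins K3 k first := by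
  by_cases h : k = 3
  · subst h; exact K3_three first
  · exact small_K3 k (by omega) first

/-- Rotation of both triangles. -/
def rot : Fin 6 → Fin 6 := ![1, 2, 0, 4, 5, 3]

/-- The perfect matching of `TT`. -/
def mat : Fin 6 → Fin 6 := ![3, 2, 1, 0, 5, 4]

theorem small_TT (k : ℕ) (hk : 3 < k) (first : Bool) : ¬ Wins TT k first := by
  refine not_wins_of_small (1 : Fin 6) {0, 1, 2} ?_ ?_ first
  · decide
  · simpa using hk

theorem TT_two (first : Bool) : Wins TT 2 first :=
  wins_blocks rot (by decide) (by decide) (by decide) first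

theorem TT_three (first : Bool) : ¬ Wins TT 3 first := by
  refine not_wins_three rot (by decide) (by decide) ?_ first
  intro v
  refine ⟨if v.val < 3 then 1 else 4, ?_⟩
  revert v
  decide

theorem TT_big (k : ℕ) (hk : 2 < k) (first : Bool) : ¬ Wins TT k first := by
  by_cases h : k = 3
  · subst h; exact TT_three first
  · exact small_TT k (by omega) first

theorem gammaA_K3 : gammaA K3 = 2 := gammaA_eq (by norm_num) (K3_two true) fun k hk => K3_big k hk _

theorem gammaB_K3 : gammaB K3 = 2 :=
  gammaB_eq (by norm_num) (K3_two false) fun k hk => K3_big k hk _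

theorem gammaA_TT : gammaA TT = 2 := gammaA_eq (by norm_num) (TT_two true) fun k hk => TT_big k hk _

theorem gammaB_TT : gammaB TT = 2 :=
  gammaB_eq (by norm_num) (TT_two false) fun k hk => TT_big k hk _

/-! #### The unions -/

theorem closed_nbhd {W : Type} (H : SimpleGraph W) (y : Fin 2 ⊕ W)
    (hy : y = Sum.inl 0 ∨ (K2 ⊕g H).Adj (Sum.inl 0) y) : y = Sum.inl 0 ∨ y = Sum.inl 1 := by
  rcases y with y | y
  · have : ∀ y : Fin 2, y = 0 ∨ y = 1 := by decide
    rcases this y with h | h
    · exact Or.inl (by rw [h])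
    · exact Or.inr (by rw [h])
  · rcases hy with h | h
    · exact absurd h (by simp)
    · exact absurd h (by simp)

theorem small_union {W : Type} [Fintype W] (H : SimpleGraph W) (k : ℕ) (hk : 2 < k)
    (first : Bool) : ¬ Wins (K2 ⊕g H) k first := by
  classical
  refine not_wins_of_small (Sum.inl 0 : Fin 2 ⊕ W) {Sum.inl 0, Sum.inl 1} ?_ ?_ first
  · intro y hy
    rcases closed_nbhd H y hy with h | h <;> simp [h]
  · exact lt_of_le_of_lt Finset.card_le_two hk

theorem gammaA_union_TT : gammaA (K2 ⊕g TT) = 1 := by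
  refine gammaA_eq le_rfl (wins_one _ _) fun k hk => ?_
  by_cases h : k = 2
  · subst h
    refine leaf_even (x := Sum.inl 0) (u := Sum.inl 0) (w := Sum.inl 1) (by simp)
      (closed_nbhd TT) ?_
    rw [Nat.card_eq_fintype_card]
    decide
  · exact small_union TT k (by omega) _

theorem gammaB_union_TT : gammaB (K2 ⊕g TT) = 2 := by
  refine gammaB_eq (by norm_num) ?_ fun k hk => small_union TT k hk _
  refine wins_matching (Sum.map (fun i => 1 - i) mat) ?_ ?_ ?_
  · rintro (v | v)
    · revert v; decide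
    · revert v; decide
  · rintro (v | v)
    · revert v; decide
    · revert v; decide
  · rintro (v | v)
    · have : ∀ v : Fin 2, v ≠ 1 - v := by decide
      exact this v
    · have : ∀ v : Fin 6, TT.Adj v (mat v) := by decide
      exact this v

theorem gammaB_union_K3 : gammaB (K2 ⊕g K3) = 1 := by
  refine gammaB_eq le_rfl (wins_one _ _) fun k hk => ?_
  by_cases h : k = 2
  · subst h
    refine leaf_odd (x := Sum.inl 0) (u := Sum.inl 0) (w := Sum.inl 1) (v := Sum.inr 0) (by simp)
      (closed_nbhd K3) (by simp) (by simp) ?_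
    rw [Nat.card_eq_fintype_card]
    decide
  · exact small_union K3 k (by omega) _

/-- The invariant for the A-game on `K₂ ∪ K₃`. -/
def InvA (p q x y z : Option (Fin 2)) : Prop :=
  x = some 0 ∧ ((p = none ∧ q = none) ∨ ∃ a : Fin 2, p = some a ∧ q = some (1 - a)) ∧
    ((y = none ∧ z = none) ∨ (y ≠ none ∧ z ≠ none ∧ (y = some 1 ∨ z = some 1)))

theorem wins_union_K3 : Wins (K2 ⊕g K3) 2 true := by
  classical
  have hcard : Nat.card (Fin 2 ⊕ Fin 3) = 5 := by
    rw [Nat.card_eq_fintype_card]
    decide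
  unfold Wins
  rw [hcard]
  refine ⟨Sum.inr 0, rfl, 0, ?_⟩
  have hc : (U (fun _ : Fin 2 ⊕ Fin 3 => (none : Option (Fin 2)))).card = 5 := by
    rw [card_U_none, hcard]
  refine alice_of_inv (fun c => InvA (c (Sum.inl 0)) (c (Sum.inl 1)) (c (Sum.inr 0))
    (c (Sum.inr 1)) (c (Sum.inr 2))) ?_ ?_ 4 _ ?_ ?_
  · rintro c ⟨hx, hpq, hyz⟩ hU
    have hne : ∀ v, c v ≠ none := by
      intro v hv
      rw [← mem_U, hU] at hv
      simp at hv
    have hpq' : ∃ a : Fin 2, c (Sum.inl 0) = some a ∧ c (Sum.inl 1) = some (1 - a) := by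
      rcases hpq with h | h
      · exact absurd h.1 (hne _)
      · exact h
    have hyz' : c (Sum.inr 1) = some 1 ∨ c (Sum.inr 2) = some 1 := by
      rcases hyz with h | h
      · exact absurd h.1 (hne _)
      · exact h.2.2
    obtain ⟨a, hp, hq⟩ := hpq'
    intro v b
    rcases v with v | v
    · have hv : ∀ v w : Fin 2, (Sum.inl w : Fin 2 ⊕ Fin 3) = Sum.inl v ∨
          (K2 ⊕g K3).Adj (Sum.inl v) (Sum.inl w) := by
        intro v w
        by_cases h : w = v
        · exact Or.inl (by rw [h])
        · exact Or.inr (Ne.symm h)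
      by_cases hab : a = b
      · exact ⟨Sum.inl 0, hv v 0, by rw [hp, hab]⟩
      · exact ⟨Sum.inl 1, hv v 1, by rw [hq, fin2_one_sub_of_ne b a hab]⟩
    · have hv : ∀ v w : Fin 3, (Sum.inr w : Fin 2 ⊕ Fin 3) = Sum.inr v ∨
          (K2 ⊕g K3).Adj (Sum.inr v) (Sum.inr w) := by
        intro v w
        by_cases h : w = v
        · exact Or.inl (by rw [h])
        · exact Or.inr (Ne.symm h)
      have hb : ∀ b : Fin 2, b = 0 ∨ b = 1 := by decide
      rcases hb b with rfl | rfl
      · exact ⟨Sum.inr 0, hv v 0, hx⟩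
      · rcases hyz' with h | h
        · exact ⟨Sum.inr 1, hv v 1, h⟩
        · exact ⟨Sum.inr 2, hv v 2, h⟩
  · rintro c ⟨hx, hpq, hyz⟩ v hv a
    rw [mem_U] at hv
    right
    have hcases : ∀ v : Fin 2 ⊕ Fin 3, v = Sum.inl 0 ∨ v = Sum.inl 1 ∨ v = Sum.inr 0 ∨
        v = Sum.inr 1 ∨ v = Sum.inr 2 := by decide
    rcases hcases v with rfl | rfl | rfl | rfl | rfl
    · have hq : c (Sum.inl 1) = none := by
        rcases hpq with h | ⟨b, h, _⟩
        · exact h.2
        · rw [h] at hv; exact absurd hv (by simp)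
      refine ⟨Sum.inl 1, ?_, 1 - a, ?_, Or.inr ⟨a, ?_, ?_⟩, ?_⟩
      · exact mem_erase_U (by simp) hq
      · simpa using hx
      · simp
      · simp
      · simpa using hyz
    · have hq : c (Sum.inl 0) = none := by
        rcases hpq with h | ⟨b, _, h⟩
        · exact h.1
        · rw [h] at hv; exact absurd hv (by simp)
      refine ⟨Sum.inl 0, ?_, 1 - a, ?_, Or.inr ⟨1 - a, ?_, ?_⟩, ?_⟩
      · exact mem_erase_U (by simp) hq
      · simpa using hx
      · simp
      · rw [← fin2_one_sub_sub]
        simp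
      · simpa using hyz
    · rw [hx] at hv
      exact absurd hv (by simp)
    · have hz : c (Sum.inr 2) = none := by
        rcases hyz with h | h
        · exact h.2
        · exact absurd hv h.1
      refine ⟨Sum.inr 2, ?_, 1, ?_, ?_, Or.inr ⟨?_, ?_, Or.inr ?_⟩⟩
      · exact mem_erase_U (by simp) hz
      · simpa using hx
      · simpa using hpq
      · simp
      · simp
      · simp
    · have hz : c (Sum.inr 1) = none := by
        rcases hyz with h | h
        · exact h.1
        · exact absurd hv h.2.1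
      refine ⟨Sum.inr 1, ?_, 1, ?_, ?_, Or.inr ⟨?_, ?_, Or.inl ?_⟩⟩
      · exact mem_erase_U (by simp) hz
      · simpa using hx
      · simpa using hpq
      · simp
      · simp
      · simp
  · rw [card_U_update rfl, hc]
  · refine ⟨?_, Or.inl ⟨?_, ?_⟩, Or.inl ⟨?_, ?_⟩⟩
    · simp
    · simp
    · simp
    · simp
    · simp

theorem gammaA_union_K3 : gammaA (K2 ⊕g K3) = 2 :=
  gammaA_eq (by norm_num) wins_union_K3 fun k hk => small_union K3 k hk _

end Pool.Agent.V11150.DomaticGame
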