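import Mathlib

set_option autoImplicit false

namespace Pool.Agent.V11150.PInt

/-! ### `p`-intersection representations -/

/-- `S` is a `p`-intersection representation of `G`: two distinct vertices are adjacent if and
only if their sets have at least `p` common elements. -/
def IsRep {V ι : Type} [DecidableEq ι] (p : ℕ) (G : SimpleGraph V) (S : V → Finset ι) : Prop :=
  ∀ u v, u ≠ v → (G.Adj u v ↔ p ≤ (S u ∩ S v).card)

/-- The `p`-intersection number `ϑ_p(G)`: the least `t` such that `G` has a `p`-intersection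
representation by subsets of a set with `t` elements. -/
noncomputable def theta {V : Type} (p : ℕ) (G : SimpleGraph V) : ℕ :=
  sInf {t : ℕ | ∃ S : V → Finset (Fin t), IsRep p G S}

/-- The graph on `α × β` in which two vertices are adjacent if and only if they differ in both
coordinates. `tensor (Fin n) (Fin k)` is the graph `𝒦(n × k)`. -/
def tensor (α β : Type) : SimpleGraph (α × β) where
  Adj u v := u.1 ≠ v.1 ∧ u.2 ≠ v.2
  symm := ⟨fun _ _ h => ⟨h.1.symm, h.2.symm⟩⟩
  loopless := ⟨fun _ h => h.1 rfl⟩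

/-- The graph on `α × β` in which two vertices are adjacent if and only if they differ in the
second coordinate. `multi (Fin n) (Fin k)` is the complete `k`-partite graph with `k` parts of
size `n`. -/
def multi (α β : Type) : SimpleGraph (α × β) where
  Adj u v := u.2 ≠ v.2
  symm := ⟨fun _ _ h => h.symm⟩
  loopless := ⟨fun _ h => h rfl⟩

theorem theta_spec {V ι : Type} [DecidableEq ι] [Fintype ι] {p : ℕ} {G : SimpleGraph V}
    {S : V → Finset ι} (h : IsRep p G S) :
    theta p G ≤ Fintype.card ι ∧ ∃ S' : V → Finset (Fin (theta p G)), IsRep p G S' := by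
  have h1 : Fintype.card ι ∈ {t : ℕ | ∃ S : V → Finset (Fin t), IsRep p G S} := by
    refine ⟨fun v => (S v).map (Fintype.equivFin ι).toEmbedding, fun u v huv => ?_⟩
    rw [h u v huv, ← Finset.map_inter, Finset.card_map]
  exact ⟨Nat.sInf_le h1, Nat.sInf_mem ⟨_, h1⟩⟩

theorem IsRep.comap {V W ι : Type} [DecidableEq ι] {p : ℕ} {G : SimpleGraph V}
    {H : SimpleGraph W} {S : V → Finset ι} (h : IsRep p G S) (f : W → V)
    (hf : Function.Injective f) (hadj : ∀ a b, H.Adj a b ↔ G.Adj (f a) (f b)) :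
    IsRep p H (fun w => S (f w)) := by
  intro u v huv
  rw [hadj, h _ _ (fun e => huv (hf e))]

/-! ### Lower bound for `𝒦(n × k)` -/

theorem quad_ineq (p a b : ℝ) (hp : 1 ≤ p) :
    2 * (2 * p - 1) * (a * b) - 2 * p * ((a * a - a) + (b * b - b)) ≤ 2 * p ^ 2 := by
  have h1 : 0 ≤ p * (a - b) ^ 2 + (p - a) * (p - b) := by
    have h2 : 0 ≤ (p - 1) * (a - b) ^ 2 := mul_nonneg (by linarith) (sq_nonneg _)
    nlinarith [sq_nonneg (2 * p - a - b), sq_nonneg (a - b)]
  nlinarith

/-- Double counting. -/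
theorem sum_inter {ι κ : Type} [Fintype ι] [DecidableEq ι] [Fintype κ] [DecidableEq κ]
    (A B : κ → Finset ι) :
    (∑ l, ∑ m, ((A l ∩ B m).card : ℝ)) =
      ∑ e, ((Finset.univ.filter fun l => e ∈ A l).card : ℝ) *
        ((Finset.univ.filter fun m => e ∈ B m).card : ℝ) := by
  have h1 : ∀ l m, ((A l ∩ B m).card : ℝ) =
      ∑ e, (if e ∈ A l then (1 : ℝ) else 0) * (if e ∈ B m then 1 else 0) := by
    intro l m
    have : ∀ e, (if e ∈ A l then (1 : ℝ) else 0) * (if e ∈ B m then 1 else 0) =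
        if e ∈ A l ∩ B m then 1 else 0 := by
      intro e
      by_cases h1 : e ∈ A l <;> by_cases h2 : e ∈ B m <;> simp [h1, h2]
    rw [Finset.sum_congr rfl fun e _ => this e, Finset.sum_boole, Finset.filter_mem_eq_inter,
      Finset.univ_inter]
  have h2 : ∀ (C : κ → Finset ι) (e : ι), ((Finset.univ.filter fun l => e ∈ C l).card : ℝ) =
      ∑ l, if e ∈ C l then (1 : ℝ) else 0 := by
    intro C e
    simp
  simp_rw [h1, h2]
  calc ∑ l, ∑ m, ∑ e, (if e ∈ A l then (1 : ℝ) else 0) * (if e ∈ B m then 1 else 0)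
      = ∑ l, ∑ e, ∑ m, (if e ∈ A l then (1 : ℝ) else 0) * (if e ∈ B m then 1 else 0) :=
        Finset.sum_congr rfl fun l _ => Finset.sum_comm
    _ = ∑ e, ∑ l, ∑ m, (if e ∈ A l then (1 : ℝ) else 0) * (if e ∈ B m then 1 else 0) :=
        Finset.sum_comm
    _ = _ := by
        refine Finset.sum_congr rfl fun e _ => ?_
        rw [Finset.sum_mul_sum]

theorem sum_offdiag_const {k : ℕ} (c : ℝ) :
    (∑ l : Fin k, ∑ m : Fin k, if l = m then (0 : ℝ) else c) = c * (k * (k - 1)) := by
  have h1 : ∀ l : Fin k, (∑ m : Fin k, if l = m then (0 : ℝ) else c) = c * (k - 1) := by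
    intro l
    have : ∀ m : Fin k, (if l = m then (0 : ℝ) else c) = c - if l = m then c else 0 := by
      intro m
      by_cases h : l = m <;> simp [h]
    rw [Finset.sum_congr rfl fun m _ => this m, Finset.sum_sub_distrib]
    simp
    ring
  rw [Finset.sum_congr rfl fun l _ => h1 l]
  simp
  ring

theorem lower_tensor {n k t p : ℕ} (hn : 2 ≤ n) (hp : 1 ≤ p)
    (S : Fin n × Fin k → Finset (Fin t)) (h : IsRep p (tensor (Fin n) (Fin k)) S) :
    (k : ℝ) * (k - 1) ≤ p * t := by
  have hne : (⟨0, by omega⟩ : Fin n) ≠ ⟨1, by omega⟩ := by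
    intro h
    rw [Fin.ext_iff] at h
    exact absurd h (by norm_num)
  obtain ⟨A, hA⟩ : ∃ A : Fin k → Finset (Fin t), A = fun l => S (⟨0, by omega⟩, l) := ⟨_, rfl⟩
  obtain ⟨B, hB⟩ : ∃ B : Fin k → Finset (Fin t), B = fun l => S (⟨1, by omega⟩, l) := ⟨_, rfl⟩
  have hp' : (1 : ℝ) ≤ p := by exact_mod_cast hp
  -- the sums
  have hAB : (p : ℝ) * (k * (k - 1)) ≤ ∑ l, ∑ m, ((A l ∩ B m).card : ℝ) := by
    rw [← sum_offdiag_const]
    refine Finset.sum_le_sum fun l _ => Finset.sum_le_sum fun m _ => ?_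
    by_cases hlm : l = m
    · rw [if_pos hlm]
      positivity
    · rw [if_neg hlm]
      have h1 : (tensor (Fin n) (Fin k)).Adj (⟨0, by omega⟩, l) (⟨1, by omega⟩, m) := ⟨hne, hlm⟩
      have h2 := (h _ _ h1.ne).1 h1
      subst hA hB
      exact_mod_cast h2
  have hsame : ∀ (C : Fin k → Finset (Fin t)) (α : Fin n), C = (fun l => S (α, l)) →
      (∑ l, ∑ m, ((C l ∩ C m).card : ℝ)) - ∑ l, ((C l).card : ℝ) ≤
        (p - 1 : ℝ) * (k * (k - 1)) := by
    intro C α hC
    rw [← sum_offdiag_const, ← Finset.sum_sub_distrib]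
    refine Finset.sum_le_sum fun l _ => ?_
    have h3 : ((C l).card : ℝ) = ∑ m, if l = m then ((C l ∩ C m).card : ℝ) else 0 := by
      simp
    rw [h3, ← Finset.sum_sub_distrib]
    refine Finset.sum_le_sum fun m _ => ?_
    by_cases hlm : l = m
    · simp [hlm]
    · rw [if_neg hlm, if_neg hlm, sub_zero]
      have h1 : ¬ (tensor (Fin n) (Fin k)).Adj (α, l) (α, m) := fun h => h.1 rfl
      have h2 := mt (h (α, l) (α, m) (fun e => hlm (by simpa using e))).2 h1
      subst hC
      have h4 : (S (α, l) ∩ S (α, m)).card + 1 ≤ p := by omega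
      have h5 : ((S (α, l) ∩ S (α, m)).card : ℝ) + 1 ≤ p := by exact_mod_cast h4
      linarith
  have hsA := hsame A _ hA
  have hsB := hsame B _ hB
  -- the double counting of the sizes
  have hcard : ∀ (C : Fin k → Finset (Fin t)), (∑ l, ((C l).card : ℝ)) =
      ∑ e, ((Finset.univ.filter fun l => e ∈ C l).card : ℝ) := by
    intro C
    have h1 : ∀ l, ((C l).card : ℝ) = ∑ e, if e ∈ C l then (1 : ℝ) else 0 := by
      intro l
      simp
    have h2 : ∀ e, ((Finset.univ.filter fun l => e ∈ C l).card : ℝ) =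
        ∑ l, if e ∈ C l then (1 : ℝ) else 0 := by
      intro e
      simp
    simp_rw [h1, h2]
    exact Finset.sum_comm
  rw [sum_inter] at hAB hsA hsB
  rw [hcard] at hsA hsB
  have hq : ∑ e : Fin t, (2 * (2 * (p : ℝ) - 1) *
        (((Finset.univ.filter fun l => e ∈ A l).card : ℝ) *
          ((Finset.univ.filter fun l => e ∈ B l).card : ℝ)) - 2 * p *
        ((((Finset.univ.filter fun l => e ∈ A l).card : ℝ) *
            ((Finset.univ.filter fun l => e ∈ A l).card : ℝ) -
            ((Finset.univ.filter fun l => e ∈ A l).card : ℝ)) +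
          (((Finset.univ.filter fun l => e ∈ B l).card : ℝ) *
            ((Finset.univ.filter fun l => e ∈ B l).card : ℝ) -
            ((Finset.univ.filter fun l => e ∈ B l).card : ℝ)))) ≤ ∑ e : Fin t, 2 * (p : ℝ) ^ 2 :=
    Finset.sum_le_sum fun e _ => quad_ineq p _ _ hp'
  rw [Finset.sum_sub_distrib, ← Finset.mul_sum, ← Finset.mul_sum, Finset.sum_add_distrib,
    Finset.sum_sub_distrib, Finset.sum_sub_distrib, Finset.sum_const, Finset.card_univ,
    Fintype.card_fin, nsmul_eq_mul] at hq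
  have h6 : 0 ≤ 2 * (2 * (p : ℝ) - 1) := by linarith
  have h7 := mul_le_mul_of_nonneg_left hAB h6
  have h8 : 2 * (p : ℝ) * (k * (k - 1)) ≤ t * (2 * (p : ℝ) ^ 2) := by
    nlinarith
  have hp0 : (0 : ℝ) < 2 * p := by linarith
  have h9 : 2 * (p : ℝ) * (k * (k - 1)) ≤ 2 * (p : ℝ) * (p * t) := by nlinarith
  exact le_of_mul_le_mul_left h9 hp0

end Pool.Agent.V11150.PInt
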