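import Mathlib
import Pool.Agent.V11150.PInt

set_option autoImplicit false

namespace Pool.Agent.V11150.PInt

open scoped Classical

/-! ### Lower bound for complete multipartite graphs -/

/-- The number of subsets with at most `q` elements. -/
theorem card_small_sets (t q : ℕ) :
    ((Finset.univ : Finset (Finset (Fin t))).filter fun X => X.card ≤ q).card ≤ (t + 1) ^ q := by
  obtain ⟨g, hg⟩ : ∃ g : (Fin q → Option (Fin t)) → Finset (Fin t),
      ∀ φ e, e ∈ g φ ↔ ∃ i, φ i = some e :=
    ⟨fun φ => Finset.univ.filter fun e => ∃ i, φ i = some e, fun φ e => by simp⟩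
  have h1 : ((Finset.univ : Finset (Finset (Fin t))).filter fun X => X.card ≤ q) ⊆
      Finset.univ.image g := by
    intro X hX
    rw [Finset.mem_filter] at hX
    rw [Finset.mem_image]
    refine ⟨fun i => if h : (i : ℕ) < X.card then some (X.equivFin.symm ⟨i, h⟩) else none,
      Finset.mem_univ _, ?_⟩
    ext e
    rw [hg]
    constructor
    · rintro ⟨i, hi⟩
      by_cases h : (i : ℕ) < X.card
      · rw [dif_pos h, Option.some_inj] at hi
        rw [← hi]
        exact (X.equivFin.symm ⟨i, h⟩).2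
      · rw [dif_neg h] at hi
        exact absurd hi (by simp)
    · intro he
      refine ⟨⟨X.equivFin ⟨e, he⟩, lt_of_lt_of_le (X.equivFin ⟨e, he⟩).2 hX.2⟩, ?_⟩
      rw [dif_pos (X.equivFin ⟨e, he⟩).2]
      simp
  refine (Finset.card_le_card h1).trans (Finset.card_image_le.trans ?_)
  rw [Finset.card_univ, Fintype.card_fun, Fintype.card_option, Fintype.card_fin, Fintype.card_fin]

/-- Tuza's inequality for equal weights. -/
theorem tuza {κ : Type} {t w : ℕ} (F : Finset κ) (A B : κ → Finset (Fin t))
    (hd : ∀ i ∈ F, Disjoint (A i) (B i)) (hc : ∀ i ∈ F, ∀ j ∈ F, i ≠ j → ¬ Disjoint (A i) (B j))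
    (hw : ∀ i ∈ F, (A i).card + (B i).card ≤ w) : F.card ≤ 2 ^ w := by
  have hdis : (F : Set κ).PairwiseDisjoint fun i => Finset.Icc (A i) (B i)ᶜ := by
    intro i hi j hj hij
    rw [Function.onFun, Finset.disjoint_left]
    intro U hU hU'
    rw [Finset.mem_Icc] at hU hU'
    refine hc i hi j hj hij ?_
    have h1 : A i ≤ (B j)ᶜ := hU.1.trans hU'.2
    exact Finset.subset_compl_iff_disjoint_right.1 h1
  have h1 : ∀ i ∈ F, 2 ^ t ≤ 2 ^ w * (Finset.Icc (A i) (B i)ᶜ).card := by
    intro i hi
    have h2 : A i ⊆ (B i)ᶜ := Finset.subset_compl_iff_disjoint_right.2 (hd i hi)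
    rw [Finset.card_Icc_finset h2, ← pow_add]
    refine Nat.pow_le_pow_right (by norm_num) ?_
    have h3 := Finset.card_compl (B i)
    rw [Fintype.card_fin] at h3
    have h4 := hw i hi
    have h5 := Finset.card_le_card h2
    omega
  have h2 : ∑ i ∈ F, (Finset.Icc (A i) (B i)ᶜ).card ≤ 2 ^ t := by
    rw [← Finset.card_biUnion hdis]
    refine (Finset.card_le_univ _).trans ?_
    rw [Fintype.card_finset, Fintype.card_fin]
  have h3 : F.card * 2 ^ t ≤ 2 ^ w * 2 ^ t := by
    calc F.card * 2 ^ t = ∑ i ∈ F, 2 ^ t := by rw [Finset.sum_const, smul_eq_mul]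
      _ ≤ ∑ i ∈ F, 2 ^ w * (Finset.Icc (A i) (B i)ᶜ).card := Finset.sum_le_sum h1
      _ = 2 ^ w * ∑ i ∈ F, (Finset.Icc (A i) (B i)ᶜ).card := by rw [Finset.mul_sum]
      _ ≤ 2 ^ w * 2 ^ t := Nat.mul_le_mul_left _ h2
  exact Nat.le_of_mul_le_mul_right h3 (by positivity)

/-- The sum of the sizes of `n` sets that pairwise have fewer than `p` common elements. -/
theorem sum_sizes {n t p : ℕ} (hp : 1 ≤ p) (C : Fin n → Finset (Fin t))
    (h : ∀ a b, a ≠ b → (C a ∩ C b).card < p) : ∑ a, (C a).card ≤ t + n * n * p := by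
  have h1 : (∑ l, ∑ m, ((C l ∩ C m).card : ℝ)) - ∑ l, ((C l).card : ℝ) ≤
      (p - 1 : ℝ) * (n * (n - 1)) := by
    rw [← sum_offdiag_const, ← Finset.sum_sub_distrib]
    refine Finset.sum_le_sum fun l _ => ?_
    have h3 : ((C l).card : ℝ) = ∑ m, if l = m then ((C l ∩ C m).card : ℝ) else 0 := by
      simp
    rw [h3, ← Finset.sum_sub_distrib]
    refine Finset.sum_le_sum fun m _ => ?_
    by_cases hlm : l = m
    · simp [hlm]
    · rw [if_neg hlm, if_neg hlm, sub_zero]
      have h5 : ((C l ∩ C m).card : ℝ) + 1 ≤ p := by exact_mod_cast h l m hlm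
      linarith
  have hcard : (∑ l, ((C l).card : ℝ)) =
      ∑ e, ((Finset.univ.filter fun l => e ∈ C l).card : ℝ) := by
    have h1 : ∀ l, ((C l).card : ℝ) = ∑ e, if e ∈ C l then (1 : ℝ) else 0 := by
      intro l
      simp
    have h2 : ∀ e, ((Finset.univ.filter fun l => e ∈ C l).card : ℝ) =
        ∑ l, if e ∈ C l then (1 : ℝ) else 0 := by
      intro e
      simp
    simp_rw [h1, h2]
    exact Finset.sum_comm
  rw [sum_inter] at h1
  have h2 : ∑ e : Fin t, ((Finset.univ.filter fun l => e ∈ C l).card : ℝ) ≤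
      ∑ e : Fin t, (1 + (((Finset.univ.filter fun l => e ∈ C l).card : ℝ) *
        ((Finset.univ.filter fun l => e ∈ C l).card : ℝ) -
        ((Finset.univ.filter fun l => e ∈ C l).card : ℝ))) := by
    refine Finset.sum_le_sum fun e _ => ?_
    nlinarith [sq_nonneg (((Finset.univ.filter fun l => e ∈ C l).card : ℝ) - 1)]
  rw [Finset.sum_add_distrib, Finset.sum_sub_distrib] at h2
  simp only [Finset.sum_const, Finset.card_univ, Fintype.card_fin, nsmul_eq_mul, mul_one] at h2
  rw [← hcard] at h2
  have hp' : (1 : ℝ) ≤ p := by exact_mod_cast hp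
  have hn0 : (0 : ℝ) ≤ n := Nat.cast_nonneg n
  have h3 : (p - 1 : ℝ) * (n * (n - 1)) ≤ n * n * p := by
    have h4 : (n : ℝ) * (n - 1) ≤ n * n := by nlinarith
    calc (p - 1 : ℝ) * (n * (n - 1)) ≤ (p - 1 : ℝ) * (n * n) :=
          mul_le_mul_of_nonneg_left h4 (by linarith)
      _ ≤ p * (n * n) := mul_le_mul_of_nonneg_right (by linarith) (by positivity)
      _ = n * n * p := by ring
  have h5 : (∑ a, ((C a).card : ℝ)) ≤ t + n * n * p := by linarith
  exact_mod_cast h5

/-- The counting lower bound for complete multipartite graphs. -/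
theorem lower_multi {m k t p : ℕ} (hp : 1 ≤ p)
    (S : Fin (m + 2) × Fin k → Finset (Fin t)) (h : IsRep p (multi (Fin (m + 2)) (Fin k)) S) :
    k ≤ 2 ^ (2 * (t + (m + 2) * (m + 2) * p) / (m + 2)) * ((m + 2) * (t + 1) ^ (p - 1)) := by
  have hne : ∀ a : Fin (m + 2), a + 1 ≠ a := by
    intro a ha
    have h0 : (1 : Fin (m + 2)) = 0 := by
      have : a + 1 = a + 0 := by rw [ha, add_zero]
      exact add_left_cancel this
    rw [Fin.ext_iff] at h0
    simp at h0
  have hsmall : ∀ l : Fin k, ∀ a b : Fin (m + 2), a ≠ b → (S (a, l) ∩ S (b, l)).card < p := by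
    intro l a b hab
    by_contra hcon
    push Not at hcon
    have := (h (a, l) (b, l) (fun e => hab (Prod.ext_iff.1 e).1)).2 hcon
    exact this rfl
  have hpair : ∀ l : Fin k, ∃ a : Fin (m + 2),
      (S (a, l)).card + (S (a + 1, l)).card ≤ 2 * (t + (m + 2) * (m + 2) * p) / (m + 2) := by
    intro l
    have h1 := sum_sizes hp (fun a => S (a, l)) (hsmall l)
    have h2 : ∑ a : Fin (m + 2), ((S (a, l)).card + (S (a + 1, l)).card) ≤
        2 * (t + (m + 2) * (m + 2) * p) := by
      rw [Finset.sum_add_distrib]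
      have h3 : ∑ a : Fin (m + 2), (S (a + 1, l)).card = ∑ a : Fin (m + 2), (S (a, l)).card :=
        Equiv.sum_comp (Equiv.addRight (1 : Fin (m + 2))) fun a => (S (a, l)).card
      rw [h3]
      omega
    by_contra hcon
    push Not at hcon
    have h4 : ∑ a : Fin (m + 2), (2 * (t + (m + 2) * (m + 2) * p) / (m + 2) + 1) ≤
        ∑ a : Fin (m + 2), ((S (a, l)).card + (S (a + 1, l)).card) :=
      Finset.sum_le_sum fun a _ => hcon a
    rw [Finset.sum_const, Finset.card_univ, Fintype.card_fin, smul_eq_mul] at h4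
    have h5 := Nat.lt_mul_div_succ (2 * (t + (m + 2) * (m + 2) * p)) (show 0 < m + 2 by omega)
    omega
  choose α hα using hpair
  -- the pigeonhole
  obtain ⟨f, hf⟩ : ∃ f : Fin k → Fin (m + 2) × Finset (Fin t),
      f = fun l => (α l, S (α l, l) ∩ S (α l + 1, l)) := ⟨_, rfl⟩
  have hfib := Finset.card_le_mul_card_image (f := f) (Finset.univ : Finset (Fin k))
    (2 ^ (2 * (t + (m + 2) * (m + 2) * p) / (m + 2))) (by
      rintro ⟨a, X⟩ haX
      refine tuza _ (fun l => S (a, l) \ X) (fun l => S (a + 1, l) \ X) ?_ ?_ ?_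
      · intro l hl
        rw [Finset.mem_filter, hf] at hl
        simp only [Prod.mk.injEq] at hl
        obtain ⟨_, h1, h2⟩ := hl
        rw [h1] at h2
        rw [Finset.disjoint_left]
        intro e he he'
        rw [Finset.mem_sdiff] at he he'
        refine he.2 ?_
        rw [← h2, Finset.mem_inter]
        exact ⟨he.1, he'.1⟩
      · intro l hl l' hl' hll'
        rw [Finset.mem_filter, hf] at hl hl'
        simp only [Prod.mk.injEq] at hl hl'
        obtain ⟨_, h1, h2⟩ := hl
        rw [h1] at h2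
        intro hdis
        have h3 : (multi (Fin (m + 2)) (Fin k)).Adj (a, l) (a + 1, l') := hll'
        have h4 := (h _ _ h3.ne).1 h3
        have h5 : S (a, l) ∩ S (a + 1, l') ⊆ X := by
          intro e he
          rw [Finset.mem_inter] at he
          by_contra heX
          rw [Finset.disjoint_left] at hdis
          exact hdis (Finset.mem_sdiff.2 ⟨he.1, heX⟩) (Finset.mem_sdiff.2 ⟨he.2, heX⟩)
        have h6 := Finset.card_le_card h5
        have h7 := hsmall l a (a + 1) (hne a).symm
        rw [h2] at h7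
        omega
      · intro l hl
        rw [Finset.mem_filter, hf] at hl
        simp only [Prod.mk.injEq] at hl
        obtain ⟨_, h1, h2⟩ := hl
        have h3 := hα l
        rw [h1] at h3
        have h4 := Finset.card_le_card (Finset.sdiff_subset (s := S (a, l)) (t := X))
        have h5 := Finset.card_le_card (Finset.sdiff_subset (s := S (a + 1, l)) (t := X))
        omega)
  rw [Finset.card_univ, Fintype.card_fin] at hfib
  refine hfib.trans (Nat.mul_le_mul_left _ ?_)
  have himg : Finset.univ.image f ⊆ (Finset.univ : Finset (Fin (m + 2))) ×ˢ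
      ((Finset.univ : Finset (Finset (Fin t))).filter fun X => X.card ≤ p - 1) := by
    intro z hz
    rw [Finset.mem_image] at hz
    obtain ⟨l, _, rfl⟩ := hz
    rw [Finset.mem_product, hf]
    refine ⟨Finset.mem_univ _, ?_⟩
    rw [Finset.mem_filter]
    refine ⟨Finset.mem_univ _, ?_⟩
    have := hsmall l (α l) (α l + 1) (hne _).symm
    show (S (α l, l) ∩ S (α l + 1, l)).card ≤ p - 1
    omega
  refine (Finset.card_le_card himg).trans ?_
  rw [Finset.card_product, Finset.card_univ, Fintype.card_fin]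
  exact Nat.mul_le_mul_left _ (card_small_sets t (p - 1))

/-! ### Codes and representations -/

/-- The words `x w` form a code: for two distinct words and all `a ≠ b` there is a coordinate
with `a` in the first and `b` in the second. -/
def IsCode {n : ℕ} {W I : Type} (x : W → I → Fin n) : Prop :=
  ∀ u v, u ≠ v → ∀ a b, a ≠ b → ∃ i, x u i = a ∧ x v i = b

theorem IsCode.pow {n : ℕ} {W I : Type} {x : W → I → Fin n} (h : IsCode x) (J : Type) :
    IsCode (fun (u : J → W) (z : J × I) => x (u z.1) z.2) := by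
  intro u v huv a b hab
  obtain ⟨j, hj⟩ := Function.ne_iff.1 huv
  obtain ⟨i, hi⟩ := h _ _ hj a b hab
  exact ⟨(j, i), hi⟩

theorem theta_le_of_code {n k p : ℕ} (hp : 1 ≤ p) {W I : Type} [Fintype W] [Fintype I]
    {x : W → I → Fin n} (h : IsCode x) (hk : k ≤ Fintype.card W) :
    theta p (multi (Fin n) (Fin k)) ≤ Fintype.card I + n + p ∧
      ∃ S' : Fin n × Fin k → Finset (Fin (theta p (multi (Fin n) (Fin k)))),
        IsRep p (multi (Fin n) (Fin k)) S' := by
  have h2 : Nonempty (Fin k ↪ W) := by
    refine Function.Embedding.nonempty_of_card_le ?_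
    rwa [Fintype.card_fin]
  obtain ⟨f⟩ := h2
  obtain ⟨S, hS⟩ : ∃ S : Fin n × Fin k → Finset ((I ⊕ Fin n) ⊕ Fin (p - 1)),
      ∀ v, S v = ((Finset.univ.filter fun i => x (f v.2) i = v.1).disjSum {v.1}).disjSum
        Finset.univ := ⟨_, fun _ => rfl⟩
  have hrep : IsRep p (multi (Fin n) (Fin k)) S := by
    intro v w hvw
    have hcard : (S v ∩ S w).card = ((Finset.univ.filter fun i => x (f v.2) i = v.1) ∩
        (Finset.univ.filter fun i => x (f w.2) i = w.1)).card +
        (({v.1} : Finset (Fin n)) ∩ {w.1}).card + (p - 1) := by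
      have h3 : S v ∩ S w = (((Finset.univ.filter fun i => x (f v.2) i = v.1) ∩
        (Finset.univ.filter fun i => x (f w.2) i = w.1)).disjSum
        (({v.1} : Finset (Fin n)) ∩ {w.1})).disjSum Finset.univ := by
        rw [hS, hS]
        ext z
        rcases z with (z | z) | z <;> simp
      rw [h3, Finset.card_disjSum, Finset.card_disjSum, Finset.card_univ, Fintype.card_fin]
    rw [hcard]
    constructor
    · intro hadj
      have hadj' : v.2 ≠ w.2 := hadj
      by_cases hc : v.1 = w.1
      · rw [hc, Finset.inter_self, Finset.card_singleton]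
        omega
      · obtain ⟨i, hi1, hi2⟩ := h (f v.2) (f w.2) (fun e => hadj' (f.injective e)) _ _ hc
        have h4 : 0 < ((Finset.univ.filter fun i => x (f v.2) i = v.1) ∩
          (Finset.univ.filter fun i => x (f w.2) i = w.1)).card := by
          rw [Finset.card_pos]
          exact ⟨i, by simp [hi1, hi2]⟩
        omega
    · intro hle hcon
      have hc : v.1 ≠ w.1 := fun e => hvw (Prod.ext e hcon)
      have h4 : (Finset.univ.filter fun i => x (f v.2) i = v.1) ∩
          (Finset.univ.filter fun i => x (f w.2) i = w.1) = ∅ := by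
        rw [Finset.eq_empty_iff_forall_notMem]
        intro i hi
        rw [Finset.mem_inter, Finset.mem_filter, Finset.mem_filter] at hi
        rw [hcon] at hi
        exact hc (hi.1.2.symm.trans hi.2.2)
      have h5 : ({v.1} : Finset (Fin n)) ∩ {w.1} = ∅ := by
        rw [Finset.eq_empty_iff_forall_notMem]
        intro i hi
        rw [Finset.mem_inter, Finset.mem_singleton, Finset.mem_singleton] at hi
        exact hc (hi.1.symm.trans hi.2)
      rw [h4, h5, Finset.card_empty, Finset.card_empty] at hle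
      omega
  obtain ⟨h4, h5⟩ := theta_spec hrep
  refine ⟨h4.trans ?_, h5⟩
  rw [Fintype.card_sum, Fintype.card_sum, Fintype.card_fin, Fintype.card_fin]
  omega

end Pool.Agent.V11150.PInt
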