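import Mathlib
import Pool.Agent.V11150.PIntMulti

set_option autoImplicit false

namespace Pool.Agent.V11150.PInt

open scoped Classical

/-! ### Balanced words -/

/-- Words of length `n m` over `Fin n` in which each symbol occurs exactly `m` times. -/
abbrev Word (n m : ℕ) : Type :=
  {f : Fin n × Fin m → Fin n // ∀ a, (Finset.univ.filter fun i => f i = a).card = m}

theorem word_nonempty (n m : ℕ) : Nonempty (Word n m) := by
  refine ⟨⟨fun i => i.1, fun a => ?_⟩⟩
  have : (Finset.univ.filter fun i : Fin n × Fin m => i.1 = a) =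
      ({a} : Finset (Fin n)) ×ˢ (Finset.univ : Finset (Fin m)) := by
    ext i
    rw [Finset.mem_filter, Finset.mem_product, Finset.mem_singleton]
    simp
  rw [this, Finset.card_product, Finset.card_singleton, Finset.card_univ, Fintype.card_fin,
    one_mul]

/-- The relation for the pair `a, b`. -/
def Rel {n : ℕ} {I : Type} (a b : Fin n) (f g : I → Fin n) : Prop :=
  (∃ i, f i = a ∧ g i = b) ∧ ∃ i, f i = b ∧ g i = a

/-- Replace `b` by `a`. -/
def mergeW {n m : ℕ} (a b : Fin n) (f : Word n m) (i : Fin n × Fin m) : Fin n :=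
  if f.1 i = b then a else f.1 i

theorem rel_of_mergeW {n m : ℕ} {a b : Fin n} (hab : a ≠ b) {f g : Word n m} (hfg : f ≠ g)
    (h : mergeW a b f = mergeW a b g) : Rel a b f.1 g.1 := by
  have h1 : ∀ i, f.1 i ≠ g.1 i → (f.1 i = a ∧ g.1 i = b) ∨ (f.1 i = b ∧ g.1 i = a) := by
    intro i hi
    have h2 := congrFun h i
    unfold mergeW at h2
    by_cases h3 : f.1 i = b
    · by_cases h4 : g.1 i = b
      · exact absurd (h3.trans h4.symm) hi
      · rw [if_pos h3, if_neg h4] at h2
        exact Or.inr ⟨h3, h2.symm⟩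
    · by_cases h4 : g.1 i = b
      · rw [if_neg h3, if_pos h4] at h2
        exact Or.inl ⟨h2, h4⟩
      · rw [if_neg h3, if_neg h4] at h2
        exact absurd h2 hi
  obtain ⟨i, hi⟩ : ∃ i, f.1 i ≠ g.1 i := by
    by_contra hcon
    push Not at hcon
    exact hfg (Subtype.ext (funext hcon))
  have key : ∀ (f g : Word n m) (a : Fin n) (i : Fin n × Fin m), f.1 i = a → g.1 i ≠ a →
      ∃ j, g.1 j = a ∧ f.1 j ≠ a := by
    intro f g a i hf hg
    by_contra hcon
    push Not at hcon
    have hsub : (Finset.univ.filter fun i => g.1 i = a) ⊂ Finset.univ.filter fun i => f.1 i = a := by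
      rw [Finset.ssubset_iff_of_subset]
      · exact ⟨i, by simp [hf], by simp [hg]⟩
      · intro j hj
        rw [Finset.mem_filter] at hj ⊢
        exact ⟨Finset.mem_univ _, hcon j hj.2⟩
    have := Finset.card_lt_card hsub
    rw [f.2, g.2] at this
    exact lt_irrefl _ this
  rcases h1 i hi with ⟨h2, h3⟩ | ⟨h2, h3⟩
  · obtain ⟨j, hj1, hj2⟩ := key f g a i h2 (by rw [h3]; exact hab.symm)
    refine ⟨⟨i, h2, h3⟩, ⟨j, ?_, hj1⟩⟩
    rcases h1 j (fun h => hj2 (h.trans hj1)) with h4 | h4
    · exact absurd h4.1 hj2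
    · exact h4.1
  · obtain ⟨j, hj1, hj2⟩ := key g f a i h3 (by rw [h2]; exact hab.symm)
    refine ⟨⟨j, hj1, ?_⟩, ⟨i, h2, h3⟩⟩
    rcases h1 j (fun h => hj2 (h.symm.trans hj1)) with h4 | h4
    · exact h4.2
    · exact absurd h4.2 hj2

theorem card_image_mergeW {n m : ℕ} {a b : Fin n} (hab : a ≠ b) :
    (2 * m).choose m * ((Finset.univ : Finset (Word n m)).image (mergeW a b)).card ≤
      Fintype.card (Word n m) := by
  have h := Finset.mul_card_image_le_card (f := mergeW a b) (Finset.univ : Finset (Word n m))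
    ((2 * m).choose m) ?_
  · rwa [Finset.card_univ] at h
  · intro c hc
    rw [Finset.mem_image] at hc
    obtain ⟨f, _, rfl⟩ := hc
    obtain ⟨P, hP⟩ : ∃ P : Finset (Fin n × Fin m),
        P = Finset.univ.filter fun i => f.1 i = a ∨ f.1 i = b := ⟨_, rfl⟩
    have hPcard : P.card = 2 * m := by
      rw [hP, Finset.filter_or, Finset.card_union_of_disjoint, f.2, f.2]
      · omega
      · rw [Finset.disjoint_left]
        intro i hi hi'
        rw [Finset.mem_filter] at hi hi'
        exact hab (hi.2.symm.trans hi'.2)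
    have hmemP : ∀ i, i ∈ P ↔ (f.1 i = a ∨ f.1 i = b) := by
      intro i
      rw [hP]
      simp
    -- the word for the subset `U`
    have hword : ∀ U : Finset (Fin n × Fin m), U ⊆ P → U.card = m →
        ∀ c, (Finset.univ.filter fun i =>
          (if i ∈ U then a else if i ∈ P then b else f.1 i) = c).card = m := by
      intro U hU hUc c
      by_cases hca : c = a
      · have : (Finset.univ.filter fun i =>
          (if i ∈ U then a else if i ∈ P then b else f.1 i) = c) = U := by
          ext i
          simp only [Finset.mem_filter, Finset.mem_univ, true_and]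
          by_cases h1 : i ∈ U
          · simp [h1, hca]
          · by_cases h2 : i ∈ P
            · simp [h1, h2, hca, hab.symm]
            · have h3 : f.1 i ≠ a := fun h => h2 ((hmemP i).2 (Or.inl h))
              simp [h1, h2, hca, h3]
        rw [this, hUc]
      · by_cases hcb : c = b
        · have : (Finset.univ.filter fun i =>
            (if i ∈ U then a else if i ∈ P then b else f.1 i) = c) = P \ U := by
            ext i
            simp only [Finset.mem_filter, Finset.mem_univ, true_and, Finset.mem_sdiff]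
            by_cases h1 : i ∈ U
            · simp [h1, hcb, hab]
            · by_cases h2 : i ∈ P
              · simp [h1, h2, hcb]
              · have h3 : f.1 i ≠ b := fun h => h2 ((hmemP i).2 (Or.inr h))
                simp [h1, h2, hcb, h3]
          rw [this, Finset.card_sdiff_of_subset hU, hPcard, hUc]
          omega
        · have : (Finset.univ.filter fun i =>
            (if i ∈ U then a else if i ∈ P then b else f.1 i) = c) =
              Finset.univ.filter fun i => f.1 i = c := by
            ext i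
            simp only [Finset.mem_filter, Finset.mem_univ, true_and]
            by_cases h1 : i ∈ U
            · have h2 := (hmemP i).1 (hU h1)
              have h3 : f.1 i ≠ c := by
                rcases h2 with h2 | h2
                · rw [h2]; exact fun h => hca h.symm
                · rw [h2]; exact fun h => hcb h.symm
              simp only [h1, if_true]
              exact ⟨fun h => absurd h.symm hca, fun h => absurd h h3⟩
            · by_cases h2 : i ∈ P
              · have h2' := (hmemP i).1 h2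
                have h3 : f.1 i ≠ c := by
                  rcases h2' with h2 | h2
                  · rw [h2]; exact fun h => hca h.symm
                  · rw [h2]; exact fun h => hcb h.symm
                simp only [h1, h2, if_true, if_false]
                exact ⟨fun h => absurd h.symm hcb, fun h => absurd h h3⟩
              · simp [h1, h2]
          rw [this, f.2]
    have hcount : (2 * m).choose m = (P.powersetCard m).attach.card := by
      rw [Finset.card_attach, Finset.card_powersetCard, hPcard]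
    rw [hcount]
    refine Finset.card_le_card_of_injOn (fun U =>
      (⟨fun i => if i ∈ U.1 then a else if i ∈ P then b else f.1 i,
        hword U.1 (Finset.mem_powersetCard.1 U.2).1 (Finset.mem_powersetCard.1 U.2).2⟩ :
          Word n m)) ?_ ?_
    · intro U _
      show _ ∈ ((Finset.univ.filter fun w => mergeW a b w = mergeW a b f : Finset (Word n m)) :
        Set (Word n m))
      rw [Finset.mem_coe, Finset.mem_filter]
      refine ⟨Finset.mem_univ _, ?_⟩
      funext i
      unfold mergeW
      simp only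
      have hU := (Finset.mem_powersetCard.1 U.2).1
      by_cases h1 : i ∈ U.1
      · rcases (hmemP i).1 (hU h1) with h3 | h3
        · simp [h1, h3, hab]
        · simp [h1, h3, hab]
      · by_cases h2 : i ∈ P
        · rcases (hmemP i).1 h2 with h3 | h3
          · simp [h1, h2, h3, hab]
          · simp [h1, h2, h3]
        · simp [h1, h2]
    · intro U _ U' _ h
      have h1 := congrArg Subtype.val h
      simp only at h1
      apply Subtype.ext
      ext i
      have h2 := congrFun h1 i
      have hU := (Finset.mem_powersetCard.1 U.2).1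
      have hU' := (Finset.mem_powersetCard.1 U'.2).1
      constructor
      · intro hi
        by_contra hi'
        rw [if_pos hi, if_neg hi', if_pos (hU hi)] at h2
        exact hab h2
      · intro hi
        by_contra hi'
        rw [if_pos hi, if_neg hi', if_pos (hU' hi)] at h2
        exact hab h2.symm

/-! ### The chain trick -/

theorem chain {Y : Type} {q s : ℕ} (κ₁ κ₂ : Y → ZMod q) :
    ∃ κ : (Fin s → Y) → (Fin (s + 1) → ZMod q), ∀ x y, x ≠ y → κ x = κ y →
      (∃ j, x j ≠ y j ∧ κ₁ (x j) = κ₁ (y j)) ∧ ∃ j, x j ≠ y j ∧ κ₂ (x j) = κ₂ (y j) := by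
  refine ⟨fun x t => (if h : (t : ℕ) < s then κ₁ (x ⟨t, h⟩) else 0) -
    (if h : 0 < (t : ℕ) then κ₂ (x ⟨t - 1, by omega⟩) else 0), fun x y hxy h => ?_⟩
  have hne : (Finset.univ.filter fun j => x j ≠ y j).Nonempty := by
    obtain ⟨j, hj⟩ := Function.ne_iff.1 hxy
    exact ⟨j, by simp [hj]⟩
  constructor
  · obtain ⟨j, hj, hmin⟩ := Finset.exists_min_image _ (fun j : Fin s => (j : ℕ)) hne
    rw [Finset.mem_filter] at hj
    refine ⟨j, hj.2, ?_⟩
    have h1 := congrFun h ⟨j, by omega⟩
    simp only at h1
    rw [dif_pos j.2, dif_pos j.2] at h1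
    by_cases h0 : 0 < (j : ℕ)
    · rw [dif_pos h0, dif_pos h0] at h1
      have h2 : x ⟨(j : ℕ) - 1, by omega⟩ = y ⟨(j : ℕ) - 1, by omega⟩ := by
        by_contra hcon
        have h3 := hmin ⟨(j : ℕ) - 1, by omega⟩ (by
          rw [Finset.mem_filter]
          exact ⟨Finset.mem_univ _, hcon⟩)
        simp only at h3
        omega
      rw [h2] at h1
      exact sub_left_injective h1
    · rw [dif_neg h0, dif_neg h0] at h1
      exact sub_left_injective h1
  · obtain ⟨j, hj, hmax⟩ := Finset.exists_max_image _ (fun j : Fin s => (j : ℕ)) hne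
    rw [Finset.mem_filter] at hj
    refine ⟨j, hj.2, ?_⟩
    have h1 := congrFun h ⟨j + 1, by omega⟩
    simp only at h1
    rw [dif_pos (Nat.succ_pos _), dif_pos (Nat.succ_pos _)] at h1
    by_cases h0 : (j : ℕ) + 1 < s
    · rw [dif_pos h0, dif_pos h0] at h1
      have h2 : x ⟨(j : ℕ) + 1, h0⟩ = y ⟨(j : ℕ) + 1, h0⟩ := by
        by_contra hcon
        have h3 := hmax ⟨(j : ℕ) + 1, h0⟩ (by
          rw [Finset.mem_filter]
          exact ⟨Finset.mem_univ _, hcon⟩)
        simp only at h3
        omega
      rw [h2] at h1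
      exact sub_right_injective h1
    · rw [dif_neg h0, dif_neg h0] at h1
      exact sub_right_injective h1

/-- Embedding of a small finite type into `ZMod q`. -/
theorem exists_inj_zmod {D : Type} [Fintype D] {q : ℕ} (hq : 1 ≤ q) (h : Fintype.card D ≤ q) :
    ∃ e : D → ZMod q, Function.Injective e := by
  have : NeZero q := ⟨by omega⟩
  have h2 : Nonempty (D ↪ ZMod q) := by
    refine Function.Embedding.nonempty_of_card_le ?_
    rwa [ZMod.card]
  obtain ⟨f⟩ := h2
  exact ⟨f, f.injective⟩

theorem good_colouring {n m C : ℕ} (hC : 1 ≤ C)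
    (hcol : ∀ a b : Fin n, a ≠ b →
      ((Finset.univ : Finset (Word n m)).image (mergeW a b)).card ≤ C)
    (s : ℕ) (L : List (Fin n × Fin n)) (hL : ∀ z ∈ L, z.1 ≠ z.2) :
    ∃ (J : Type) (_ : Fintype J) (D : Type) (_ : Fintype D) (K : (J → Word n m) → D),
      Fintype.card J = s ^ L.length ∧ Fintype.card D ≤ C ^ ((s + 1) ^ L.length) ∧
      ∀ x y, x ≠ y → K x = K y → ∀ z ∈ L, ∃ j, Rel z.1 z.2 (x j).1 (y j).1 := by
  induction L with
  | nil =>
    refine ⟨Fin 1, inferInstance, Fin 1, inferInstance, fun _ => 0, by simp, ?_, by simp⟩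
    simpa using hC
  | cons z L ih =>
    obtain ⟨J, _, D, _, K, hJ, hD, hK⟩ := ih (fun z hz => hL z (List.mem_cons_of_mem _ hz))
    have hz := hL z List.mem_cons_self
    obtain ⟨q, hq⟩ : ∃ q, q = C ^ ((s + 1) ^ L.length) := ⟨_, rfl⟩
    have hq1 : 1 ≤ q := by
      rw [hq]
      exact Nat.one_le_pow _ _ hC
    have : NeZero q := ⟨by omega⟩
    obtain ⟨e1, he1⟩ := exists_inj_zmod hq1 (by rwa [hq] : Fintype.card D ≤ q)
    -- the colouring for the new pair
    obtain ⟨Im, hIm⟩ : ∃ Im : Finset (Fin n × Fin m → Fin n),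
      Im = (Finset.univ : Finset (Word n m)).image (mergeW z.1 z.2) := ⟨_, rfl⟩
    have hcard2 : Fintype.card (J → Im) ≤ q := by
      rw [Fintype.card_fun, hJ, Fintype.card_coe, hq, hIm]
      calc _ ≤ C ^ (s ^ L.length) := Nat.pow_le_pow_left (hcol _ _ hz) _
        _ ≤ C ^ ((s + 1) ^ L.length) :=
          Nat.pow_le_pow_right hC (Nat.pow_le_pow_left (Nat.le_succ s) _)
    obtain ⟨e2, he2⟩ := exists_inj_zmod hq1 hcard2
    obtain ⟨κ2, hκ2⟩ : ∃ κ2 : (J → Word n m) → (J → Im), ∀ x j, ((κ2 x j) : _) =
        mergeW z.1 z.2 (x j) :=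
      ⟨fun x j => ⟨mergeW z.1 z.2 (x j), by
        rw [hIm]
        exact Finset.mem_image_of_mem _ (Finset.mem_univ _)⟩, fun _ _ => rfl⟩
    obtain ⟨κ, hκ⟩ := chain (s := s) (fun x => e1 (K x)) (fun x => e2 (κ2 x))
    refine ⟨Fin s × J, inferInstance, Fin (s + 1) → ZMod q, inferInstance,
      fun x => κ (fun t j => x (t, j)), ?_, ?_, ?_⟩
    · rw [Fintype.card_prod, Fintype.card_fin, hJ, List.length_cons, pow_succ, mul_comm]
    · rw [Fintype.card_fun, Fintype.card_fin, ZMod.card, hq, ← pow_mul, List.length_cons, pow_succ]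
    · intro x y hxy hxy'
      have hne : (fun (t : Fin s) (j : J) => x (t, j)) ≠ fun t j => y (t, j) := by
        intro h
        apply hxy
        funext ⟨t, j⟩
        exact congrFun (congrFun h t) j
      obtain ⟨⟨t, ht, ht'⟩, ⟨u, hu, hu'⟩⟩ := hκ _ _ hne hxy'
      intro w hw
      rw [List.mem_cons] at hw
      rcases hw with rfl | hw
      · have h1 := he2 hu'
        obtain ⟨j, hj⟩ := Function.ne_iff.1 hu
        refine ⟨(u, j), rel_of_mergeW hz hj ?_⟩
        have h2 := congrFun h1 j
        rw [← hκ2 (fun j => x (u, j)) j, ← hκ2 (fun j => y (u, j)) j, h2]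
      · obtain ⟨j, hj⟩ := hK _ _ ht (he1 ht') w hw
        exact ⟨(t, j), hj⟩

/-- The codes. -/
theorem exists_code (n : ℕ) (hn : 2 ≤ n) : ∃ r : ℕ, ∀ m s : ℕ,
    ∃ (W I : Type) (_ : Fintype W) (_ : Fintype I) (x : W → I → Fin n),
      IsCode x ∧ Fintype.card I = s ^ r * (n * m) ∧
      ((2 * m).choose m) ^ (s ^ r) ≤
        Fintype.card W * ((n ^ (n * m)) ^ ((s + 1) ^ r - s ^ r)) := by
  obtain ⟨L, hL⟩ : ∃ L : List (Fin n × Fin n),
      L = (Finset.univ.filter fun z : Fin n × Fin n => z.1 ≠ z.2).toList := ⟨_, rfl⟩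
  have hmem : ∀ z, z ∈ L ↔ z.1 ≠ z.2 := by
    intro z
    rw [hL, Finset.mem_toList, Finset.mem_filter]
    simp
  refine ⟨L.length, fun m s => ?_⟩
  obtain ⟨c, hc⟩ : ∃ c, c = (2 * m).choose m := ⟨_, rfl⟩
  have hc0 : 0 < c := by
    rw [hc]
    exact Nat.choose_pos (by omega)
  obtain ⟨T, hT⟩ : ∃ T, T = Fintype.card (Word n m) := ⟨_, rfl⟩
  obtain ⟨C, hCdef⟩ : ∃ C, C = T / c := ⟨_, rfl⟩
  have himg : ∀ a b : Fin n, a ≠ b →
      ((Finset.univ : Finset (Word n m)).image (mergeW a b)).card ≤ C := by
    intro a b hab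
    rw [hCdef, Nat.le_div_iff_mul_le hc0, mul_comm, hc, hT]
    exact card_image_mergeW hab
  have hC1 : 1 ≤ C := by
    have h1 : (⟨0, by omega⟩ : Fin n) ≠ ⟨1, by omega⟩ := by
      intro h
      rw [Fin.ext_iff] at h
      exact absurd h (by norm_num)
    refine le_trans ?_ (himg _ _ h1)
    rw [Nat.one_le_iff_ne_zero, Finset.card_ne_zero, Finset.image_nonempty]
    have := word_nonempty n m
    exact Finset.univ_nonempty
  have hCT : c * C ≤ T := by
    rw [hCdef]
    exact Nat.mul_div_le T c
  have hTn : T ≤ n ^ (n * m) := by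
    rw [hT]
    refine (Fintype.card_subtype_le _).trans ?_
    rw [Fintype.card_fun, Fintype.card_prod, Fintype.card_fin, Fintype.card_fin]
  have hCn : C ≤ n ^ (n * m) := by
    refine le_trans ?_ hTn
    rw [hCdef]
    exact Nat.div_le_self T c
  obtain ⟨J, _, D, _, K, hJ, hD, hK⟩ := good_colouring hC1 himg s L
    (fun z hz => (hmem z).1 hz)
  -- the pigeonhole
  have hpig : ∃ d : D, T ^ (s ^ L.length) ≤
      Fintype.card {x : J → Word n m // K x = d} * C ^ ((s + 1) ^ L.length) := by
    by_contra hcon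
    push Not at hcon
    have hne : Nonempty (J → Word n m) := ⟨fun _ => (word_nonempty n m).some⟩
    obtain ⟨x0⟩ := hne
    have h1 : T ^ (s ^ L.length) = ∑ d : D, Fintype.card {x : J → Word n m // K x = d} := by
      have h2 := Finset.card_eq_sum_card_fiberwise (f := K) (s := Finset.univ) (t := Finset.univ)
        (fun x _ => Finset.mem_coe.2 (Finset.mem_univ _))
      rw [Finset.card_univ, Fintype.card_fun, hJ, ← hT] at h2
      rw [h2]
      refine Finset.sum_congr rfl fun d _ => ?_
      rw [Fintype.card_subtype]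
    have h3 : T ^ (s ^ L.length) * C ^ ((s + 1) ^ L.length) <
        Fintype.card D * T ^ (s ^ L.length) := by
      calc T ^ (s ^ L.length) * C ^ ((s + 1) ^ L.length) =
            ∑ d : D, Fintype.card {x : J → Word n m // K x = d} * C ^ ((s + 1) ^ L.length) := by
            rw [← Finset.sum_mul, ← h1]
        _ < ∑ d : D, T ^ (s ^ L.length) :=
            Finset.sum_lt_sum_of_nonempty ⟨K x0, Finset.mem_univ _⟩ fun d _ => hcon d
        _ = Fintype.card D * T ^ (s ^ L.length) := by
            rw [Finset.sum_const, Finset.card_univ, smul_eq_mul]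
    have h4 : Fintype.card D * T ^ (s ^ L.length) ≤
        T ^ (s ^ L.length) * C ^ ((s + 1) ^ L.length) := by
      rw [mul_comm]
      exact Nat.mul_le_mul_left _ hD
    omega
  obtain ⟨d, hd⟩ := hpig
  refine ⟨{x : J → Word n m // K x = d}, J × (Fin n × Fin m), inferInstance, inferInstance,
    fun u z => (u.1 z.1).1 z.2, ?_, ?_, ?_⟩
  · intro u v huv a b hab
    have h1 : u.1 ≠ v.1 := fun h => huv (Subtype.ext h)
    obtain ⟨j, ⟨i, hi⟩, _⟩ := hK u.1 v.1 h1 (u.2.trans v.2.symm) (a, b) ((hmem _).2 hab)
    exact ⟨(j, i), hi⟩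
  · rw [Fintype.card_prod, hJ, Fintype.card_prod, Fintype.card_fin, Fintype.card_fin]
  · rw [← hc]
    have hle : s ^ L.length ≤ (s + 1) ^ L.length := Nat.pow_le_pow_left (Nat.le_succ s) _
    have h1 : c ^ (s ^ L.length) * C ^ (s ^ L.length) ≤
        (Fintype.card {x : J → Word n m // K x = d} *
          C ^ ((s + 1) ^ L.length - s ^ L.length)) * C ^ (s ^ L.length) := by
      calc c ^ (s ^ L.length) * C ^ (s ^ L.length) = (c * C) ^ (s ^ L.length) := by rw [mul_pow]
        _ ≤ T ^ (s ^ L.length) := Nat.pow_le_pow_left hCT _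
        _ ≤ Fintype.card {x : J → Word n m // K x = d} * C ^ ((s + 1) ^ L.length) := hd
        _ = _ := by
          rw [mul_assoc, ← pow_add, Nat.sub_add_cancel hle]
    have h2 := Nat.le_of_mul_le_mul_right h1 (Nat.pow_pos hC1)
    refine h2.trans (Nat.mul_le_mul_left _ ?_)
    exact Nat.pow_le_pow_left hCn _

end Pool.Agent.V11150.PInt
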