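import Mathlib
import Pool.Agent.V11150.PIntCode

set_option autoImplicit false

namespace Pool.Agent.V11150.PInt

open Filter Asymptotics

theorem logb_two_centralBinom {m : ℕ} (hm : 1 ≤ m) :
    2 * (m : ℝ) - Real.logb 2 (2 * m) ≤ Real.logb 2 ((2 * m).choose m : ℕ) := by
  have h1 : 4 ^ m ≤ 2 * m * (2 * m).choose m :=
    Nat.four_pow_le_two_mul_self_mul_centralBinom m (by omega)
  have h2 : (4 : ℝ) ^ m ≤ 2 * m * ((2 * m).choose m : ℕ) := by exact_mod_cast h1
  have hm0 : (0 : ℝ) < 2 * m := by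
    have : (0 : ℝ) < m := by exact_mod_cast hm
    linarith
  have hc0 : (0 : ℝ) < ((2 * m).choose m : ℕ) := by
    exact_mod_cast Nat.choose_pos (show m ≤ 2 * m by omega)
  have h3 := Real.logb_le_logb_of_le (b := 2) (by norm_num) (by positivity) h2
  rw [Real.logb_mul hm0.ne' hc0.ne', Real.logb_pow] at h3
  have h4 : Real.logb 2 4 = 2 := by
    have : (4 : ℝ) = 2 ^ (2 : ℝ) := by norm_num
    rw [this, Real.logb_rpow (by norm_num) (by norm_num)]
  rw [h4] at h3
  linarith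

/-- Codes with rate close to `2 / n`. -/
theorem exists_rate {n : ℕ} (hn : 2 ≤ n) (ε : ℝ) (hε : 0 < ε) (hε2 : ε < 2 / n) :
    ∃ (W I : Type) (_ : Fintype W) (_ : Fintype I) (x : W → I → Fin n),
      IsCode x ∧ 1 ≤ Fintype.card I ∧ 2 ≤ Fintype.card W ∧
      (2 / n - ε) * Fintype.card I ≤ Real.logb 2 (Fintype.card W) := by
  obtain ⟨r, hr⟩ := exists_code n hn
  have hn0 : (0 : ℝ) < n := by
    have : 0 < n := by omega
    exact_mod_cast this
  have hl2 : 0 < Real.log 2 := Real.log_pos (by norm_num)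
  have hm : ∃ m : ℕ, 1 ≤ m ∧ Real.logb 2 (2 * m) ≤ ε / 2 * (n * m) := by
    have h1 := Real.isLittleO_log_id_atTop.bound
      (show 0 < ε / 4 * n * Real.log 2 by positivity)
    have h2 : Tendsto (fun m : ℕ => 2 * (m : ℝ)) atTop atTop :=
      tendsto_natCast_atTop_atTop.const_mul_atTop (by norm_num)
    obtain ⟨m, hm1, hm2⟩ := ((h2.eventually h1).and (eventually_ge_atTop 1)).exists
    refine ⟨m, hm2, ?_⟩
    have hm0 : (1 : ℝ) ≤ m := by exact_mod_cast hm2
    have h3 : Real.log (2 * m) ≤ ε / 4 * n * Real.log 2 * (2 * m) := by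
      refine (le_abs_self _).trans ?_
      have h4 : ‖(2 * (m : ℝ))‖ = 2 * m := by
        rw [Real.norm_eq_abs, abs_of_pos (by linarith)]
      rw [← Real.norm_eq_abs]
      refine hm1.trans ?_
      show _ * ‖(2 * (m : ℝ))‖ ≤ _
      rw [h4]
    rw [Real.logb, div_le_iff₀ hl2]
    linarith
  obtain ⟨m, hm1, hm2⟩ := hm
  have hlogn : 0 ≤ Real.logb 2 n :=
    Real.logb_nonneg (by norm_num) (by exact_mod_cast (show 1 ≤ n by omega))
  have hs : ∃ s : ℕ, 1 ≤ s ∧ (((s + 1 : ℕ) : ℝ) ^ r - (s : ℝ) ^ r) * Real.logb 2 n ≤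
      ε / 2 * (s : ℝ) ^ r := by
    have h1 : Tendsto (fun s : ℕ => (1 + 1 / ((s : ℝ) + 1)) ^ r) atTop (nhds 1) := by
      have h2 := (tendsto_const_nhds (x := (1 : ℝ)) (f := atTop)).add
        (tendsto_one_div_add_atTop_nhds_zero_nat (𝕜 := ℝ))
      rw [add_zero] at h2
      have h3 := h2.pow r
      rwa [one_pow] at h3
    have hη : (1 : ℝ) < 1 + ε / 2 / (Real.logb 2 n + 1) := by
      have : 0 < ε / 2 / (Real.logb 2 n + 1) := by positivity
      linarith
    obtain ⟨s, hs⟩ := (h1.eventually (gt_mem_nhds hη)).exists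
    refine ⟨s + 1, by omega, ?_⟩
    have hs0 : (0 : ℝ) < (s : ℝ) + 1 := by positivity
    have h4 : (((s + 1 + 1 : ℕ) : ℝ)) ^ r = (1 + 1 / ((s : ℝ) + 1)) ^ r * ((s : ℝ) + 1) ^ r := by
      rw [← mul_pow]
      congr 1
      push_cast
      field_simp
    rw [h4]
    push_cast
    have h5 : (0 : ℝ) < ((s : ℝ) + 1) ^ r := by positivity
    have h6 : ((1 + 1 / ((s : ℝ) + 1)) ^ r - 1) * Real.logb 2 n ≤ ε / 2 := by
      have h7 : (1 + 1 / ((s : ℝ) + 1)) ^ r - 1 ≤ ε / 2 / (Real.logb 2 n + 1) := by linarith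
      have h8 : ε / 2 / (Real.logb 2 n + 1) * Real.logb 2 n ≤ ε / 2 := by
        rw [div_mul_eq_mul_div, div_le_iff₀ (by positivity)]
        nlinarith
      exact (mul_le_mul_of_nonneg_right h7 hlogn).trans h8
    calc ((1 + 1 / ((s : ℝ) + 1)) ^ r * ((s : ℝ) + 1) ^ r - ((s : ℝ) + 1) ^ r) * Real.logb 2 n
        = (((1 + 1 / ((s : ℝ) + 1)) ^ r - 1) * Real.logb 2 n) * ((s : ℝ) + 1) ^ r := by ring
      _ ≤ ε / 2 * ((s : ℝ) + 1) ^ r := mul_le_mul_of_nonneg_right h6 h5.le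
  obtain ⟨s, hs1, hs2⟩ := hs
  obtain ⟨W, I, hW, hI, x, hx, hcI, hcW⟩ := hr m s
  have hm0 : (0 : ℝ) < m := by exact_mod_cast hm1
  have hs0 : (0 : ℝ) < s := by exact_mod_cast hs1
  have hsr : (0 : ℝ) < (s : ℝ) ^ r := by positivity
  have hc0 : 0 < (2 * m).choose m := Nat.choose_pos (by omega)
  have hle : s ^ r ≤ (s + 1) ^ r := Nat.pow_le_pow_left (Nat.le_succ s) _
  have hWpos : 0 < Fintype.card W := by
    rcases Nat.eq_zero_or_pos (Fintype.card W) with h | h
    · rw [h, Nat.zero_mul] at hcW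
      have := Nat.pow_pos (n := s ^ r) hc0
      omega
    · exact h
  have hW0 : (0 : ℝ) < Fintype.card W := by exact_mod_cast hWpos
  have h1 : (((2 * m).choose m : ℕ) : ℝ) ^ (s ^ r) ≤
      (Fintype.card W : ℝ) * (((n : ℝ) ^ (n * m)) ^ ((s + 1) ^ r - s ^ r)) := by
    exact_mod_cast hcW
  have hc0' : (0 : ℝ) < ((2 * m).choose m : ℕ) := by exact_mod_cast hc0
  have h2 := Real.logb_le_logb_of_le (b := 2) (by norm_num) (by positivity) h1
  rw [Real.logb_mul hW0.ne' (by positivity), Real.logb_pow, Real.logb_pow, Real.logb_pow] at h2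
  have h3 := logb_two_centralBinom hm1
  rw [Nat.cast_sub hle] at h2
  push_cast at h2 h3 hs2
  have h4 : (s : ℝ) ^ r * (2 * m - Real.logb 2 (2 * m)) ≤
      (s : ℝ) ^ r * Real.logb 2 ((2 * m).choose m : ℕ) := mul_le_mul_of_nonneg_left h3 hsr.le
  have hmain : (2 / n - ε) * Fintype.card I ≤ Real.logb 2 (Fintype.card W) := by
    rw [hcI]
    push_cast
    have h5 : (s : ℝ) ^ r * Real.logb 2 (2 * m) ≤ (s : ℝ) ^ r * (ε / 2 * (n * m)) :=
      mul_le_mul_of_nonneg_left hm2 hsr.le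
    have h6 : (((s : ℝ) + 1) ^ r - (s : ℝ) ^ r) * (n * m * Real.logb 2 n) ≤
        ε / 2 * (s : ℝ) ^ r * (n * m) := by
      calc (((s : ℝ) + 1) ^ r - (s : ℝ) ^ r) * (n * m * Real.logb 2 n) =
            ((((s : ℝ) + 1) ^ r - (s : ℝ) ^ r) * Real.logb 2 n) * (n * m) := by ring
        _ ≤ (ε / 2 * (s : ℝ) ^ r) * (n * m) := mul_le_mul_of_nonneg_right hs2 (by positivity)
    have h7 : (2 / n - ε) * ((s : ℝ) ^ r * (n * m)) =
        (s : ℝ) ^ r * (2 * m) - ε * ((s : ℝ) ^ r * (n * m)) := by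
      field_simp
    rw [h7]
    nlinarith
  have hI1 : 1 ≤ Fintype.card I := by
    rw [hcI]
    have : 0 < s ^ r * (n * m) := by positivity
    omega
  refine ⟨W, I, hW, hI, x, hx, hI1, ?_, hmain⟩
  have hI0 : (1 : ℝ) ≤ Fintype.card I := by exact_mod_cast hI1
  have h8 : 0 < Real.logb 2 (Fintype.card W) := by
    have : 0 < (2 / n - ε) * Fintype.card I := mul_pos (by linarith) (by linarith)
    linarith
  have h9 : 1 < (Fintype.card W : ℝ) := by
    rwa [Real.logb_pos_iff (by norm_num) hW0] at h8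
  exact_mod_cast h9

/-- The upper bound. -/
theorem upper_multi {p n : ℕ} (hp : 1 ≤ p) (hn : 2 ≤ n) (ε : ℝ) (hε : 0 < ε)
    (hε2 : ε < 2 / n) : ∃ C : ℝ, ∀ k : ℕ, 1 ≤ k →
      (theta p (multi (Fin n) (Fin k)) : ℝ) ≤ Real.logb 2 k / (2 / n - ε) + C ∧
      ∃ S' : Fin n × Fin k → Finset (Fin (theta p (multi (Fin n) (Fin k)))),
        IsRep p (multi (Fin n) (Fin k)) S' := by
  obtain ⟨W, I, _, _, x, hx, hI, hW, hrate⟩ := exists_rate hn ε hε hε2
  refine ⟨Fintype.card I + n + p, fun k hk => ?_⟩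
  have hW1 : (1 : ℝ) < Fintype.card W := by exact_mod_cast (show 1 < Fintype.card W by omega)
  have hk0 : (0 : ℝ) < k := by exact_mod_cast hk
  have hk1 : (1 : ℝ) ≤ k := by exact_mod_cast hk
  obtain ⟨j, hj⟩ : ∃ j : ℕ, j = ⌈Real.logb (Fintype.card W) k⌉₊ := ⟨_, rfl⟩
  have hlog0 : 0 ≤ Real.logb (Fintype.card W) k := Real.logb_nonneg hW1 hk1
  have hkj : k ≤ Fintype.card (Fin j → W) := by
    rw [Fintype.card_fun, Fintype.card_fin]
    have h1 : Real.logb (Fintype.card W) k ≤ j := by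
      rw [hj]
      exact Nat.le_ceil _
    rw [Real.logb_le_iff_le_rpow hW1 hk0, Real.rpow_natCast] at h1
    exact_mod_cast h1
  obtain ⟨h1, h2⟩ := theta_le_of_code hp (hx.pow (Fin j)) hkj
  refine ⟨?_, h2⟩
  have h3 : (theta p (multi (Fin n) (Fin k)) : ℝ) ≤ (j : ℝ) * Fintype.card I + n + p := by
    rw [Fintype.card_prod, Fintype.card_fin] at h1
    exact_mod_cast h1
  have h4 : (j : ℝ) ≤ Real.logb (Fintype.card W) k + 1 := by
    rw [hj]
    exact (Nat.ceil_lt_add_one hlog0).le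
  have hI0 : (1 : ℝ) ≤ Fintype.card I := by exact_mod_cast hI
  have hpos : 0 < 2 / (n : ℝ) - ε := by linarith
  have hlW : 0 < Real.logb 2 (Fintype.card W) := Real.logb_pos (by norm_num) hW1
  have h5 : Real.logb (Fintype.card W) k * Fintype.card I ≤ Real.logb 2 k / (2 / n - ε) := by
    have h6 : Real.logb (Fintype.card W) k = Real.logb 2 k / Real.logb 2 (Fintype.card W) := by
      have hl2 : Real.log 2 ≠ 0 := (Real.log_pos (by norm_num)).ne'
      have hlW' : Real.log (Fintype.card W) ≠ 0 := (Real.log_pos hW1).ne'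
      rw [Real.logb, Real.logb, Real.logb]
      field_simp
    rw [h6, div_mul_eq_mul_div, div_le_div_iff₀ hlW hpos]
    have h7 : 0 ≤ Real.logb 2 k := Real.logb_nonneg (by norm_num) hk1
    calc Real.logb 2 k * Fintype.card I * (2 / n - ε) =
          Real.logb 2 k * ((2 / n - ε) * Fintype.card I) := by ring
      _ ≤ Real.logb 2 k * Real.logb 2 (Fintype.card W) := mul_le_mul_of_nonneg_left hrate h7
  have h8 : (j : ℝ) * Fintype.card I ≤ (Real.logb (Fintype.card W) k + 1) * Fintype.card I :=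
    mul_le_mul_of_nonneg_right h4 (by linarith)
  linarith

/-- The logarithmic form of the lower bound. -/
theorem lower_multi_log {n k t p : ℕ} (hn : 2 ≤ n) (hp : 1 ≤ p) (hk : 1 ≤ k)
    (S : Fin n × Fin k → Finset (Fin t)) (h : IsRep p (multi (Fin n) (Fin k)) S) :
    Real.logb 2 k ≤ 2 / n * t + 2 * (n * p) + Real.logb 2 n + p * Real.logb 2 (t + 1) := by
  obtain ⟨m, rfl⟩ : ∃ m, n = m + 2 := ⟨n - 2, by omega⟩
  have h1 := lower_multi hp S h
  have hk0 : (0 : ℝ) < k := by exact_mod_cast hk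
  have h2 : (k : ℝ) ≤ 2 ^ (2 * (t + (m + 2) * (m + 2) * p) / (m + 2)) *
      (((m + 2 : ℕ) : ℝ) * ((t : ℝ) + 1) ^ (p - 1)) := by
    exact_mod_cast h1
  have hn0 : (0 : ℝ) < ((m + 2 : ℕ) : ℝ) := by positivity
  have ht0 : (0 : ℝ) < (t : ℝ) + 1 := by positivity
  have h3 := Real.logb_le_logb_of_le (b := 2) (by norm_num) hk0 h2
  rw [Real.logb_mul (by positivity) (by positivity), Real.logb_mul hn0.ne' (by positivity),
    Real.logb_pow, Real.logb_pow, Real.logb_self_eq_one (by norm_num), mul_one] at h3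
  have h4 : (((2 * (t + (m + 2) * (m + 2) * p) / (m + 2) : ℕ)) : ℝ) ≤
      2 / ((m + 2 : ℕ) : ℝ) * t + 2 * (((m + 2 : ℕ) : ℝ) * p) := by
    refine Nat.cast_div_le.trans (le_of_eq ?_)
    push_cast
    field_simp
  have h5 : (0 : ℝ) ≤ Real.logb 2 ((t : ℝ) + 1) :=
    Real.logb_nonneg (by norm_num) (by linarith [Nat.cast_nonneg (α := ℝ) t])
  have h6 : (((p - 1 : ℕ)) : ℝ) * Real.logb 2 ((t : ℝ) + 1) ≤ p * Real.logb 2 ((t : ℝ) + 1) :=
    mul_le_mul_of_nonneg_right (by exact_mod_cast Nat.sub_le p 1) h5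
  linarith

/-- `ϑ_p(K^{(k)}_{n,…,n}) ∼ (n / 2) log₂ k` as `k → ∞`. -/
theorem multi_asymp {p n : ℕ} (hp : 1 ≤ p) (hn : 2 ≤ n) :
    (fun k : ℕ => (theta p (multi (Fin n) (Fin k)) : ℝ)) ~[atTop]
      (fun k : ℕ => (n : ℝ) / 2 * Real.logb 2 k) := by
  have hp0 : (0 : ℝ) < p := by exact_mod_cast hp
  have hn0 : (0 : ℝ) < n := by
    have : 0 < n := by omega
    exact_mod_cast this
  have hn1 : (2 : ℝ) ≤ n := by exact_mod_cast hn
  have hl2 : 0 < Real.log 2 := Real.log_pos (by norm_num)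
  have hlogk : Tendsto (fun k : ℕ => Real.logb 2 k) atTop atTop :=
    (Real.tendsto_logb_atTop (by norm_num)).comp tendsto_natCast_atTop_atTop
  rw [isEquivalent_iff_tendsto_one]
  · rw [Metric.tendsto_nhds]
    intro δ hδ
    -- the upper bound
    obtain ⟨ε, hε, hε2, hεδ⟩ : ∃ ε : ℝ, 0 < ε ∧ ε < 2 / n ∧
        1 / (2 / n - ε) = (n : ℝ) / 2 * (1 + δ / 2) := by
      have h1 : 1 / (1 + δ / 2) < 1 := by
        rw [div_lt_one (by linarith)]
        linarith
      have h0 : 0 < 1 / (1 + δ / 2) := by positivity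
      refine ⟨2 / n * (1 - 1 / (1 + δ / 2)), ?_, ?_, ?_⟩
      · exact mul_pos (by positivity) (by linarith)
      · have : 0 < 2 / (n : ℝ) := by positivity
        nlinarith
      · have h2 : 2 / (n : ℝ) - 2 / n * (1 - 1 / (1 + δ / 2)) = 2 / n * (1 / (1 + δ / 2)) := by
          ring
        rw [h2]
        field_simp
    obtain ⟨C, hC⟩ := upper_multi hp hn ε hε hε2
    have hev1 := hlogk.eventually (eventually_gt_atTop (C / ((n : ℝ) / 2 * (δ / 2))))
    have hev0 := hlogk.eventually (eventually_gt_atTop (1 : ℝ))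
    -- the lower bound
    obtain ⟨D, hD⟩ : ∃ D : ℝ, D = 2 * (n * p) + Real.logb 2 n := ⟨_, rfl⟩
    have hev2 := hlogk.eventually (eventually_gt_atTop (D / (δ / 3)))
    have hlit : ∀ᶠ y : ℝ in atTop, Real.log ((n : ℝ) / 2 * y + 1) ≤
        δ * Real.log 2 / (3 * p * n) * ((n : ℝ) / 2 * y + 1) := by
      have h1 := Real.isLittleO_log_id_atTop.bound
        (show 0 < δ * Real.log 2 / (3 * p * n) by positivity)
      have h2 : Tendsto (fun y : ℝ => (n : ℝ) / 2 * y + 1) atTop atTop :=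
        tendsto_atTop_add_const_right _ _ (tendsto_id.const_mul_atTop (by positivity))
      filter_upwards [h2.eventually h1, eventually_gt_atTop (0 : ℝ)] with y hy hy0
      refine (le_abs_self _).trans ?_
      rw [← Real.norm_eq_abs]
      refine hy.trans (le_of_eq ?_)
      congr 1
      show ‖(n : ℝ) / 2 * y + 1‖ = _
      rw [Real.norm_eq_abs, abs_of_pos (by positivity)]
    have hev3 := hlogk.eventually hlit
    filter_upwards [hev0, hev1, hev2, hev3, eventually_ge_atTop 1] with k hy1 hyC hyD hylog hk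
    obtain ⟨y, hy⟩ : ∃ y, y = Real.logb 2 k := ⟨_, rfl⟩
    rw [← hy] at hy1 hyC hyD hylog
    obtain ⟨hup, S, hS⟩ := hC k hk
    obtain ⟨t, ht⟩ : ∃ t, t = theta p (multi (Fin n) (Fin k)) := ⟨_, rfl⟩
    have hlow := lower_multi_log hn hp hk S hS
    rw [← hy, ← ht] at hup hlow
    have hy0 : 0 < y := by linarith
    have hny : 0 < (n : ℝ) / 2 * y := by positivity
    show dist ((theta p (multi (Fin n) (Fin k)) : ℝ) / ((n : ℝ) / 2 * Real.logb 2 k)) 1 < δ
    rw [← hy, ← ht, Real.dist_eq, abs_lt]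
    constructor
    · rw [neg_lt_sub_iff_lt_add, ← sub_lt_iff_lt_add', lt_div_iff₀ hny]
      by_contra hcon
      push Not at hcon
      have ht0 : (0 : ℝ) ≤ t := Nat.cast_nonneg t
      have h1 : (t : ℝ) ≤ (n : ℝ) / 2 * y := by nlinarith
      have h2 : Real.logb 2 ((t : ℝ) + 1) ≤ δ / (3 * p) * y := by
        have h3 : Real.log ((t : ℝ) + 1) ≤ δ * Real.log 2 / (3 * p * n) * ((n : ℝ) / 2 * y + 1) :=
          (Real.log_le_log (by linarith) (by linarith)).trans hylog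
        have h4 : (n : ℝ) / 2 * y + 1 ≤ n * y := by nlinarith
        have h5 : δ * Real.log 2 / (3 * p * n) * ((n : ℝ) / 2 * y + 1) ≤
            δ * Real.log 2 / (3 * p * n) * (n * y) :=
          mul_le_mul_of_nonneg_left h4 (by positivity)
        have h6 : δ * Real.log 2 / (3 * p * n) * (n * y) = δ / (3 * p) * y * Real.log 2 := by
          field_simp
        rw [Real.logb, div_le_iff₀ hl2]
        linarith
      have h7 : p * Real.logb 2 ((t : ℝ) + 1) ≤ δ / 3 * y := by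
        calc p * Real.logb 2 ((t : ℝ) + 1) ≤ p * (δ / (3 * p) * y) :=
              mul_le_mul_of_nonneg_left h2 hp0.le
          _ = δ / 3 * y := by field_simp
      have h8 : D < δ / 3 * y := by
        rw [div_lt_iff₀ (by positivity)] at hyD
        linarith
      have h9 : 2 / (n : ℝ) * t ≤ (1 - δ) * y := by
        calc 2 / (n : ℝ) * t ≤ 2 / n * ((1 - δ) * ((n : ℝ) / 2 * y)) :=
              mul_le_mul_of_nonneg_left hcon (by positivity)
          _ = (1 - δ) * y := by field_simp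
      nlinarith
    · rw [sub_lt_iff_lt_add, div_lt_iff₀ hny]
      have h1 : y / (2 / n - ε) = (n : ℝ) / 2 * (1 + δ / 2) * y := by
        rw [← hεδ]
        ring
      rw [h1] at hup
      have h2 : C < y * ((n : ℝ) / 2 * (δ / 2)) := by
        rwa [div_lt_iff₀ (by positivity)] at hyC
      nlinarith
  · filter_upwards [hlogk.eventually (eventually_gt_atTop (0 : ℝ))] with k hk h
    have : (0 : ℝ) < (n : ℝ) / 2 * Real.logb 2 k := by positivity
    exact absurd h this.ne'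

end Pool.Agent.V11150.PInt
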