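import Mathlib
import Pool.Agent.V11150.PInt

set_option autoImplicit false

namespace Pool.Agent.V11150.PInt

open scoped Classical

/-! ### The ring construction -/

section ring

variable {R : Type} [CommRing R]

/-- The basic relation. -/
def RS (H : Subgroup Rˣ) (x : R) (l : Rˣ) (z : R × (Rˣ ⧸ H)) : Prop :=
  ∃ u : Rˣ, (u : R) = x - z.1 ∧ (QuotientGroup.mk (u * l⁻¹) : Rˣ ⧸ H) = z.2

/-- The basic sets. -/
noncomputable def ringSet [Fintype R] (H : Subgroup Rˣ) (x : R) (l : Rˣ) :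
    Finset (R × (Rˣ ⧸ H)) :=
  Finset.univ.filter fun z => RS H x l z

theorem mem_ringSet [Fintype R] (H : Subgroup Rˣ) (x : R) (l : Rˣ) (z : R × (Rˣ ⧸ H)) :
    z ∈ ringSet H x l ↔ RS H x l z := by
  simp [ringSet]

theorem le_card_inter [Fintype R] (H : Subgroup Rˣ) (x y : R) (l m : Rˣ) (hxy : IsUnit (x - y))
    (hlm : ∀ h ∈ H, IsUnit (((l * m⁻¹ * h : Rˣ) : R) - 1)) :
    Nat.card H ≤ (ringSet H x l ∩ ringSet H y m).card := by
  obtain ⟨d, hd⟩ := hxy
  choose w hw using hlm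
  have hu : ∀ h : H, ((d * (w h h.2)⁻¹ * (l * m⁻¹ * h) : Rˣ) : R) =
      x - (y - ((d * (w h h.2)⁻¹ : Rˣ) : R)) := by
    intro h
    have h1 : ((l * m⁻¹ * h : Rˣ) : R) = w h h.2 + 1 := by
      rw [hw]
      ring
    rw [Units.val_mul, h1, Units.val_mul, mul_add, mul_one]
    have h2 : ((d : R) * ((w h h.2)⁻¹ : Rˣ)) * (w h h.2 : R) = d := by
      rw [mul_assoc, ← Units.val_mul, inv_mul_cancel, Units.val_one, mul_one]
    rw [h2, hd]
    ring
  have hmem : ∀ h : H, ((y - ((d * (w h h.2)⁻¹ : Rˣ) : R)),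
      (QuotientGroup.mk (d * (w h h.2)⁻¹ * m⁻¹) : Rˣ ⧸ H)) ∈ ringSet H x l ∩ ringSet H y m := by
    intro h
    rw [Finset.mem_inter, mem_ringSet, mem_ringSet]
    refine ⟨⟨_, hu h, ?_⟩, ⟨d * (w h h.2)⁻¹, by ring, rfl⟩⟩
    rw [QuotientGroup.eq]
    have h1 : d * (w h h.2)⁻¹ * (l * m⁻¹ * h) * l⁻¹ = d * (w h h.2)⁻¹ * m⁻¹ * h := by
      calc d * (w h h.2)⁻¹ * (l * m⁻¹ * h) * l⁻¹ = d * (w h h.2)⁻¹ * m⁻¹ * h * (l * l⁻¹) := by
            ac_rfl
        _ = d * (w h h.2)⁻¹ * m⁻¹ * h := by rw [mul_inv_cancel, mul_one]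
    have h2 : (d * (w h h.2)⁻¹ * (l * m⁻¹ * h) * l⁻¹)⁻¹ * (d * (w h h.2)⁻¹ * m⁻¹) =
        (h : Rˣ)⁻¹ := by
      rw [h1, mul_inv_rev, mul_assoc, inv_mul_cancel, mul_one]
    rw [h2]
    exact H.inv_mem h.2
  have hinj : Function.Injective (fun h : H =>
      (⟨_, hmem h⟩ : {z // z ∈ ringSet H x l ∩ ringSet H y m})) := by
    intro h h' heq
    have h1 := congrArg (fun z => z.1.1) heq
    simp only [sub_right_inj, Units.val_inj, mul_right_inj, inv_inj] at h1
    have h2 : ((l * m⁻¹ * h : Rˣ) : R) = ((l * m⁻¹ * h' : Rˣ) : R) := by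
      have e1 := hw h h.2
      have e2 := hw h' h'.2
      rw [h1] at e1
      rw [e1] at e2
      exact sub_left_injective e2
    rw [Units.val_inj, mul_right_inj] at h2
    exact Subtype.ext h2
  have h3 := Nat.card_le_card_of_injective _ hinj
  rwa [Nat.card_eq_fintype_card (α := {z // z ∈ ringSet H x l ∩ ringSet H y m}),
    Fintype.card_coe] at h3

theorem card_inter_lt [Fintype R] (H : Subgroup Rˣ) (x y : R) (l : Rˣ) (hxy : x ≠ y)
    (hH : ∀ h ∈ H, h ≠ 1 → IsUnit ((h : R) - 1)) :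
    (ringSet H x l ∩ ringSet H y l).card < Nat.card H := by
  have h1 : ∀ z : {z // z ∈ ringSet H x l ∩ ringSet H y l}, ∃ u v : Rˣ, (u : R) = x - z.1.1 ∧
      (v : R) = y - z.1.1 ∧ (QuotientGroup.mk (u * l⁻¹) : Rˣ ⧸ H) = z.1.2 ∧ u * v⁻¹ ∈ H := by
    rintro ⟨z, hz⟩
    rw [Finset.mem_inter, mem_ringSet, mem_ringSet] at hz
    obtain ⟨⟨u, hu, hu'⟩, ⟨v, hv, hv'⟩⟩ := hz
    refine ⟨u, v, hu, hv, hu', ?_⟩
    rw [← hu'] at hv'
    rw [QuotientGroup.eq] at hv'
    have h2 : (v * l⁻¹)⁻¹ * (u * l⁻¹) = u * v⁻¹ := by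
      rw [inv_mul_eq_iff_eq_mul]
      calc u * l⁻¹ = (u * l⁻¹) * (v * v⁻¹) := by rw [mul_inv_cancel, mul_one]
        _ = v * l⁻¹ * (u * v⁻¹) := by ac_rfl
    rwa [h2] at hv'
  choose u v hu hv hD huv using h1
  have hne : ∀ z, u z * (v z)⁻¹ ≠ 1 := by
    intro z h
    rw [mul_inv_eq_one] at h
    have h2 := hu z
    rw [h, hv z] at h2
    exact hxy (sub_left_injective h2).symm
  have hinj : Function.Injective (fun z => (⟨u z * (v z)⁻¹, huv z⟩ : H)) := by
    intro z z' h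
    have h2 : u z * (v z)⁻¹ = u z' * (v z')⁻¹ := congrArg Subtype.val h
    have key : ∀ z, (v z : R) * (((u z * (v z)⁻¹ : Rˣ) : R) - 1) = x - y := by
      intro z
      have e : (v z : R) * ((u z * (v z)⁻¹ : Rˣ) : R) = u z := by
        rw [← Units.val_mul]
        congr 1
        calc v z * (u z * (v z)⁻¹) = u z * (v z * (v z)⁻¹) := by ac_rfl
          _ = u z := by rw [mul_inv_cancel, mul_one]
      rw [mul_sub, mul_one, e, hu, hv]
      ring
    have hun := hH _ (huv z') (hne z')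
    have h3 : (v z : R) = v z' := by
      have e1 := key z
      have e2 := key z'
      rw [h2] at e1
      rw [← e2] at e1
      exact hun.mul_left_injective e1
    have h4 : z.1.1 = z'.1.1 := by
      have e1 := hv z
      have e2 := hv z'
      rw [h3, e2] at e1
      exact (sub_right_injective e1).symm
    have h5 : u z = u z' := by
      rw [← Units.val_inj, hu, hu, h4]
    have h6 : z.1.2 = z'.1.2 := by
      rw [← hD, ← hD, h5]
    exact Subtype.ext (Prod.ext h4 h6)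
  have h7 : Fintype.card {z // z ∈ ringSet H x l ∩ ringSet H y l} < Fintype.card H :=
    Fintype.card_lt_of_injective_of_notMem _ hinj (b := 1) (by
      rintro ⟨z, hz⟩
      exact hne z (congrArg Subtype.val hz))
  rwa [Fintype.card_coe, ← Nat.card_eq_fintype_card] at h7

theorem inter_eq_empty [Fintype R] (H : Subgroup Rˣ) (x : R) (l m : Rˣ)
    (hlm : l * m⁻¹ ∉ H) : ringSet H x l ∩ ringSet H x m = ∅ := by
  rw [Finset.eq_empty_iff_forall_notMem]
  intro z hz
  rw [Finset.mem_inter, mem_ringSet, mem_ringSet] at hz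
  obtain ⟨⟨u, hu, hu'⟩, ⟨v, hv, hv'⟩⟩ := hz
  have huv : u = v := by
    rw [← Units.val_inj, hu, hv]
  subst huv
  rw [← hu', QuotientGroup.eq] at hv'
  have h2 : (u * m⁻¹)⁻¹ * (u * l⁻¹) = (l * m⁻¹)⁻¹ := by
    rw [inv_mul_eq_iff_eq_mul, eq_mul_inv_iff_mul_eq]
    calc u * l⁻¹ * (l * m⁻¹) = (u * m⁻¹) * (l * l⁻¹) := by ac_rfl
      _ = u * m⁻¹ := by rw [mul_inv_cancel, mul_one]
  rw [h2] at hv'
  exact hlm (by simpa using H.inv_mem hv')

/-- The bad pairs. -/
abbrev Bad (n : ℕ) (R : Type) [CommRing R] : Type :=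
  {z : (Fin n × R) × (Fin n × R) // z.1.1 ≠ z.2.1 ∧ z.1.2 ≠ z.2.2 ∧ ¬ IsUnit (z.1.2 - z.2.2)}

/-- The whole representation. -/
noncomputable def ringRep [Fintype R] {n : ℕ} (H : Subgroup Rˣ) (p : ℕ) (l : Fin n → Rˣ)
    (v : Fin n × R) : Finset ((R × (Rˣ ⧸ H)) ⊕ (Bad n R × Fin p)) :=
  (ringSet H v.2 (l v.1)).disjSum (Finset.univ.filter fun z => z.1.1.1 = v ∨ z.1.1.2 = v)

theorem card_disjSum_inter {α β : Type} {_ : DecidableEq α} {_ : DecidableEq β}
    {_ : DecidableEq (α ⊕ β)} (s s' : Finset α) (t t' : Finset β) :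
    (s.disjSum t ∩ s'.disjSum t').card = (s ∩ s').card + (t ∩ t').card := by
  have h : s.disjSum t ∩ s'.disjSum t' = (s ∩ s').disjSum (t ∩ t') := by
    ext x
    rcases x with x | x <;> simp
  rw [h, Finset.card_disjSum]

theorem ringRep_isRep [Fintype R] [Nontrivial R] {n : ℕ} (H : Subgroup Rˣ) (p : ℕ)
    (hp : Nat.card H = p) (hp1 : 1 ≤ p)
    (l : Fin n → Rˣ) (hH : ∀ h ∈ H, h ≠ 1 → IsUnit ((h : R) - 1))
    (hl : ∀ α β, α ≠ β → ∀ h ∈ H, IsUnit (((l α * (l β)⁻¹ * h : Rˣ) : R) - 1)) :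
    IsRep p (tensor (Fin n) R) (ringRep H p l) := by
  intro v w hvw
  unfold ringRep
  rw [card_disjSum_inter]
  have hbad0 : ¬ (v.1 ≠ w.1 ∧ v.2 ≠ w.2) →
      ((Finset.univ.filter fun z : Bad n R × Fin p => z.1.1.1 = v ∨ z.1.1.2 = v) ∩
        (Finset.univ.filter fun z : Bad n R × Fin p => z.1.1.1 = w ∨ z.1.1.2 = w)).card = 0 := by
    intro hnot
    rw [Finset.card_eq_zero, Finset.eq_empty_iff_forall_notMem]
    intro z hz
    rw [Finset.mem_inter, Finset.mem_filter, Finset.mem_filter] at hz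
    obtain ⟨⟨_, h1⟩, ⟨_, h2⟩⟩ := hz
    have hb := z.1.2
    rcases h1 with h1 | h1 <;> rcases h2 with h2 | h2
    · exact hvw (h1.symm.trans h2)
    · rw [h1, h2] at hb
      exact hnot ⟨hb.1, hb.2.1⟩
    · rw [h1, h2] at hb
      exact hnot ⟨hb.1.symm, hb.2.1.symm⟩
    · exact hvw (h1.symm.trans h2)
  constructor
  · rintro ⟨h1, h2⟩
    by_cases hu : IsUnit (v.2 - w.2)
    · have h3 := le_card_inter H v.2 w.2 (l v.1) (l w.1) hu (hl _ _ h1)
      rw [hp] at h3
      omega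
    · have h3 : p ≤ ((Finset.univ.filter fun z : Bad n R × Fin p => z.1.1.1 = v ∨ z.1.1.2 = v) ∩
        (Finset.univ.filter fun z : Bad n R × Fin p => z.1.1.1 = w ∨ z.1.1.2 = w)).card := by
        have h4 : (Finset.univ.image fun i : Fin p =>
            ((⟨(v, w), h1, h2, hu⟩ : Bad n R), i)).card = p := by
          rw [Finset.card_image_of_injective _ (fun i j hij => (Prod.ext_iff.1 hij).2),
            Finset.card_univ, Fintype.card_fin]
        refine h4.symm.le.trans (Finset.card_le_card ?_)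
        intro z hz
        rw [Finset.mem_image] at hz
        obtain ⟨i, _, rfl⟩ := hz
        rw [Finset.mem_inter, Finset.mem_filter, Finset.mem_filter]
        exact ⟨⟨Finset.mem_univ _, Or.inl rfl⟩, ⟨Finset.mem_univ _, Or.inr rfl⟩⟩
      omega
  · intro hle
    by_contra hnot
    rw [hbad0 hnot, add_zero] at hle
    by_cases h1 : v.1 = w.1
    · have h2 : v.2 ≠ w.2 := fun h => hvw (Prod.ext h1 h)
      have h3 := card_inter_lt H v.2 w.2 (l v.1) h2 hH
      rw [h1] at hle h3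
      omega
    · have h2 : v.2 = w.2 := by
        by_contra h
        exact hnot ⟨h1, h⟩
      have h3 : l v.1 * (l w.1)⁻¹ ∉ H := by
        intro h
        have h4 := hl _ _ h1 _ (H.inv_mem h)
        rw [mul_inv_cancel, Units.val_one, sub_self] at h4
        exact not_isUnit_zero h4
      rw [h2, inter_eq_empty H _ _ _ h3, Finset.card_empty] at hle
      omega

theorem card_bad_le [Fintype R] (n : ℕ) :
    Fintype.card (Bad n R) ≤ n * n * (Fintype.card R * Nat.card {x : R // ¬ IsUnit x}) := by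
  have hinj : Function.Injective (fun z : Bad n R =>
      (((z.1.1.1, z.1.2.1), (z.1.1.2, ⟨z.1.1.2 - z.1.2.2, z.2.2.2⟩)) :
        (Fin n × Fin n) × (R × {x : R // ¬ IsUnit x}))) := by
    intro z w h
    simp only [Prod.mk.injEq, Subtype.mk.injEq] at h
    obtain ⟨⟨h1, h2⟩, h3, h4⟩ := h
    rw [h3] at h4
    exact Subtype.ext (Prod.ext (Prod.ext h1 h3) (Prod.ext h2 (sub_right_injective h4)))
  have := Fintype.card_le_of_injective _ hinj
  rw [Nat.card_eq_fintype_card]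
  simpa [Fintype.card_prod] using this

theorem theta_ring_le [Fintype R] [Nontrivial R] {n : ℕ} (H : Subgroup Rˣ) (p : ℕ)
    (hp : Nat.card H = p) (hp1 : 1 ≤ p)
    (l : Fin n → Rˣ) (hH : ∀ h ∈ H, h ≠ 1 → IsUnit ((h : R) - 1))
    (hl : ∀ α β, α ≠ β → ∀ h ∈ H, IsUnit (((l α * (l β)⁻¹ * h : Rˣ) : R) - 1))
    {k : ℕ} (hk : k ≤ Fintype.card R) :
    p * theta p (tensor (Fin n) (Fin k)) ≤ Fintype.card R * Fintype.card R +
      p * (n * n * (Fintype.card R * Nat.card {x : R // ¬ IsUnit x}) * p) ∧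
      ∃ S' : Fin n × Fin k → Finset (Fin (theta p (tensor (Fin n) (Fin k)))),
        IsRep p (tensor (Fin n) (Fin k)) S' := by
  have h1 := ringRep_isRep H p hp hp1 l hH hl
  have h2 : Nonempty (Fin k ↪ R) := by
    refine Function.Embedding.nonempty_of_card_le ?_
    rwa [Fintype.card_fin]
  obtain ⟨f⟩ := h2
  have h3 := h1.comap (H := tensor (Fin n) (Fin k)) (fun v : Fin n × Fin k => (v.1, f v.2))
    (fun a b hab => by
      simp only [Prod.mk.injEq] at hab
      exact Prod.ext hab.1 (f.injective hab.2)) (fun a b => by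
      show (a.1 ≠ b.1 ∧ a.2 ≠ b.2) ↔ (a.1 ≠ b.1 ∧ f a.2 ≠ f b.2)
      rw [f.injective.ne_iff])
  obtain ⟨h4, h5⟩ := theta_spec h3
  refine ⟨?_, h5⟩
  have h6 : Fintype.card ((R × (Rˣ ⧸ H)) ⊕ (Bad n R × Fin p)) =
      Fintype.card R * Fintype.card (Rˣ ⧸ H) + Fintype.card (Bad n R) * p := by
    rw [Fintype.card_sum, Fintype.card_prod, Fintype.card_prod, Fintype.card_fin]
  rw [h6] at h4
  have h7 : Fintype.card (Rˣ ⧸ H) * p ≤ Fintype.card R := by
    have h8 := Subgroup.card_eq_card_quotient_mul_card_subgroup H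
    rw [hp, Nat.card_eq_fintype_card, Nat.card_eq_fintype_card] at h8
    rw [← h8]
    exact Fintype.card_le_of_injective _ Units.val_injective
  have h8 := card_bad_le (R := R) n
  calc p * theta p (tensor (Fin n) (Fin k)) ≤ p * (Fintype.card R * Fintype.card (Rˣ ⧸ H) +
        Fintype.card (Bad n R) * p) := Nat.mul_le_mul_left _ h4
    _ = Fintype.card R * (Fintype.card (Rˣ ⧸ H) * p) + p * (Fintype.card (Bad n R) * p) := by ring
    _ ≤ _ := Nat.add_le_add (Nat.mul_le_mul_left _ h7)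
        (Nat.mul_le_mul_left _ (Nat.mul_le_mul_right _ h8))

end ring

/-! ### Products of two fields -/

/-- In a finite field, the elements needed for the construction. -/
theorem field_elements (K : Type) [Field K] [Fintype K] (p n : ℕ) (hp : 1 ≤ p)
    (hpK : p ∣ Fintype.card K - 1) (hn : n * p ≤ Fintype.card K - 1) :
    ∃ (g : Kˣ) (l : Fin n → Kˣ), orderOf g = p ∧
      ∀ α β, α ≠ β → l α * (l β)⁻¹ ∉ Subgroup.zpowers g := by
  obtain ⟨a, ha⟩ := IsCyclic.exists_generator (α := Kˣ)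
  have hcard : Fintype.card Kˣ = Fintype.card K - 1 := by
    rw [← Nat.card_eq_fintype_card, Nat.card_units, Nat.card_eq_fintype_card]
  have hord : orderOf a = Fintype.card K - 1 := by
    rw [orderOf_eq_card_of_forall_mem_zpowers ha, Nat.card_eq_fintype_card, hcard]
  have hpos : 0 < Fintype.card K - 1 := by
    rw [← hcard]
    exact Fintype.card_pos
  obtain ⟨c, hc⟩ := hpK
  have hc0 : c ≠ 0 := by
    rintro rfl
    omega
  have hg : orderOf (a ^ c) = p := by
    rw [orderOf_pow_of_dvd hc0 (by rw [hord, hc]; exact Dvd.intro_left p rfl), hord, hc]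
    exact Nat.mul_div_left p (Nat.pos_of_ne_zero hc0)
  have h1 := Subgroup.card_eq_card_quotient_mul_card_subgroup (Subgroup.zpowers (a ^ c))
  rw [Nat.card_zpowers, hg, Nat.card_eq_fintype_card, Nat.card_eq_fintype_card, hcard] at h1
  have h2 : n ≤ Fintype.card (Kˣ ⧸ Subgroup.zpowers (a ^ c)) := by
    rw [h1] at hn
    exact Nat.le_of_mul_le_mul_right hn (by omega)
  have h3 : Nonempty (Fin n ↪ (Kˣ ⧸ Subgroup.zpowers (a ^ c))) := by
    refine Function.Embedding.nonempty_of_card_le ?_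
    rwa [Fintype.card_fin]
  obtain ⟨f⟩ := h3
  refine ⟨a ^ c, fun i => Quotient.out (f i), hg, ?_⟩
  intro α β hαβ hmem
  refine hαβ (f.injective ?_)
  rw [← QuotientGroup.out_eq' (f α), ← QuotientGroup.out_eq' (f β), QuotientGroup.eq]
  have h4 := (Subgroup.zpowers (a ^ c)).inv_mem hmem
  rw [mul_inv_rev, inv_inv, mul_comm] at h4
  exact h4

theorem card_nonunits_prod (K0 K1 : Type) [Field K0] [Fintype K0] [Field K1] [Fintype K1] :
    Nat.card {x : K0 × K1 // ¬ IsUnit x} ≤ Fintype.card K0 + Fintype.card K1 := by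
  rw [Nat.card_eq_fintype_card, ← Fintype.card_sum]
  refine Fintype.card_le_of_injective (fun x : {x : K0 × K1 // ¬ IsUnit x} =>
    if x.1.1 = 0 then (Sum.inr x.1.2 : K0 ⊕ K1) else Sum.inl x.1.1) ?_
  intro x y h
  have hx := x.2
  have hy := y.2
  rw [Prod.isUnit_iff, isUnit_iff_ne_zero, isUnit_iff_ne_zero] at hx hy
  push Not at hx hy
  simp only at h
  by_cases h1 : x.1.1 = 0
  · by_cases h2 : y.1.1 = 0
    · rw [if_pos h1, if_pos h2] at h
      exact Subtype.ext (Prod.ext (h1.trans h2.symm) (Sum.inr_injective h))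
    · rw [if_pos h1, if_neg h2] at h
      exact absurd h (by simp)
  · by_cases h2 : y.1.1 = 0
    · rw [if_neg h1, if_pos h2] at h
      exact absurd h (by simp)
    · rw [if_neg h1, if_neg h2] at h
      exact Subtype.ext (Prod.ext (Sum.inl_injective h) ((hx h1).trans (hy h2).symm))

theorem theta_fields_le (K0 K1 : Type) [Field K0] [Fintype K0] [Field K1] [Fintype K1]
    (p n : ℕ) (hp : 1 ≤ p) (h0 : p ∣ Fintype.card K0 - 1) (h0' : n * p ≤ Fintype.card K0 - 1)
    (h1 : p ∣ Fintype.card K1 - 1) (h1' : n * p ≤ Fintype.card K1 - 1) {k : ℕ}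
    (hk : k ≤ Fintype.card K0 * Fintype.card K1) :
    p * theta p (tensor (Fin n) (Fin k)) ≤
      (Fintype.card K0 * Fintype.card K1) * (Fintype.card K0 * Fintype.card K1) +
      p * (n * n * ((Fintype.card K0 * Fintype.card K1) *
        (Fintype.card K0 + Fintype.card K1)) * p) ∧
      ∃ S' : Fin n × Fin k → Finset (Fin (theta p (tensor (Fin n) (Fin k)))),
        IsRep p (tensor (Fin n) (Fin k)) S' := by
  obtain ⟨g0, l0, hg0, hl0⟩ := field_elements K0 p n hp h0 h0'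
  obtain ⟨g1, l1, hg1, hl1⟩ := field_elements K1 p n hp h1 h1'
  obtain ⟨g, hg⟩ : ∃ g : (K0 × K1)ˣ, g = MulEquiv.prodUnits.symm (g0, g1) := ⟨_, rfl⟩
  have hgord : orderOf g = p := by
    rw [hg, MulEquiv.orderOf_eq, Prod.orderOf, hg0, hg1, Nat.lcm_self]
  have hgv : ∀ j : ℤ, (((g ^ j : (K0 × K1)ˣ) : K0 × K1)) =
      (((g0 ^ j : K0ˣ) : K0), ((g1 ^ j : K1ˣ) : K1)) := by
    intro j
    rw [hg, ← map_zpow]
    rfl
  have hmain := theta_ring_le (R := K0 × K1) (n := n) (Subgroup.zpowers g) p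
    (by rw [Nat.card_zpowers, hgord]) hp (fun α => MulEquiv.prodUnits.symm (l0 α, l1 α)) ?_ ?_
    (k := k) (by rwa [Fintype.card_prod])
  · refine ⟨hmain.1.trans ?_, hmain.2⟩
    rw [Fintype.card_prod]
    have h2 := card_nonunits_prod K0 K1
    gcongr
  · rintro h ⟨j, rfl⟩ hne
    simp only at hne ⊢
    rw [hgv, Prod.isUnit_iff, isUnit_iff_ne_zero, isUnit_iff_ne_zero]
    constructor
    · intro h3
      have h4 : ((g0 ^ j : K0ˣ) : K0) = 1 := by
        have : ((g0 ^ j : K0ˣ) : K0) - 1 = 0 := h3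
        exact sub_eq_zero.1 this
      rw [Units.val_eq_one, ← orderOf_dvd_iff_zpow_eq_one, hg0, ← hgord,
        orderOf_dvd_iff_zpow_eq_one] at h4
      exact hne h4
    · intro h3
      have h4 : ((g1 ^ j : K1ˣ) : K1) = 1 := by
        have : ((g1 ^ j : K1ˣ) : K1) - 1 = 0 := h3
        exact sub_eq_zero.1 this
      rw [Units.val_eq_one, ← orderOf_dvd_iff_zpow_eq_one, hg1, ← hgord,
        orderOf_dvd_iff_zpow_eq_one] at h4
      exact hne h4
  · rintro α β hαβ h ⟨j, rfl⟩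
    have hval : ((MulEquiv.prodUnits.symm (l0 α, l1 α) *
        (MulEquiv.prodUnits.symm (l0 β, l1 β))⁻¹ * g ^ j : (K0 × K1)ˣ) : K0 × K1) =
        (((l0 α * (l0 β)⁻¹ * g0 ^ j : K0ˣ) : K0), ((l1 α * (l1 β)⁻¹ * g1 ^ j : K1ˣ) : K1)) := by
      rw [hg, ← map_zpow, ← map_inv, ← map_mul, ← map_mul]
      rfl
    simp only
    rw [hval, Prod.isUnit_iff, isUnit_iff_ne_zero, isUnit_iff_ne_zero]
    constructor
    · intro h3
      have h4 : ((l0 α * (l0 β)⁻¹ * g0 ^ j : K0ˣ) : K0) = 1 := by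
        have : ((l0 α * (l0 β)⁻¹ * g0 ^ j : K0ˣ) : K0) - 1 = 0 := h3
        exact sub_eq_zero.1 this
      rw [Units.val_eq_one, mul_eq_one_iff_eq_inv, ← zpow_neg] at h4
      exact hl0 α β hαβ ⟨-j, h4.symm⟩
    · intro h3
      have h4 : ((l1 α * (l1 β)⁻¹ * g1 ^ j : K1ˣ) : K1) = 1 := by
        have : ((l1 α * (l1 β)⁻¹ * g1 ^ j : K1ˣ) : K1) - 1 = 0 := h3
        exact sub_eq_zero.1 this
      rw [Units.val_eq_one, mul_eq_one_iff_eq_inv, ← zpow_neg] at h4
      exact hl1 α β hαβ ⟨-j, h4.symm⟩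

end Pool.Agent.V11150.PInt
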