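import Mathlib
import Pool.Agent.V11150.PIntRing

set_option autoImplicit false

namespace Pool.Agent.V11150.PInt

open Filter Asymptotics

/-! ### Products of powers of two primes are dense in the ratio sense -/

theorem chain_dense (A B u v : ℕ) (hA : 1 ≤ A) (hB : 1 < B) (ε : ℝ) (hε : 0 < ε)
    (h1 : B ^ u < A ^ v) (h2 : (A : ℝ) ^ v < (1 + ε) * (B : ℝ) ^ u) (M : ℕ) :
    ∃ K : ℕ, ∀ k ≥ K, ∃ a b, M ≤ a ∧ M ≤ b ∧ k ≤ A ^ a * B ^ b ∧
      ((A ^ a * B ^ b : ℕ) : ℝ) ≤ (1 + ε) * k := by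
  have hBpos : 0 < B := by omega
  have hS : ∃ S : ℕ, B * (B ^ u) ^ S ≤ (A ^ v) ^ S := by
    have hr : (1 : ℝ) < (A : ℝ) ^ v / (B : ℝ) ^ u := by
      rw [one_lt_div (by positivity)]
      exact_mod_cast h1
    obtain ⟨S, hS⟩ := pow_unbounded_of_one_lt (B : ℝ) hr
    refine ⟨S, ?_⟩
    rw [div_pow, lt_div_iff₀ (by positivity)] at hS
    exact_mod_cast hS.le
  obtain ⟨S, hS⟩ := hS
  refine ⟨A ^ M * B ^ (M + u * S), fun k hk => ?_⟩
  have he : ∃ e, k < A ^ M * B ^ (M + u * S + e + 1) := by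
    refine ⟨k, ?_⟩
    calc k < B ^ k := Nat.lt_pow_self hB
      _ ≤ B ^ (M + u * S + k + 1) := Nat.pow_le_pow_right hBpos (by omega)
      _ ≤ A ^ M * B ^ (M + u * S + k + 1) := Nat.le_mul_of_pos_left _ (Nat.pow_pos hA)
  classical
  obtain ⟨e, he1, he2⟩ : ∃ e, k < A ^ M * B ^ (M + u * S + e + 1) ∧
      A ^ M * B ^ (M + u * S + e) ≤ k := by
    refine ⟨Nat.find he, Nat.find_spec he, ?_⟩
    rcases Nat.eq_zero_or_pos (Nat.find he) with h | h
    · rw [h]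
      exact hk
    · have h3 := Nat.find_min he (m := Nat.find he - 1) (by omega)
      have h4 : M + u * S + (Nat.find he - 1) + 1 = M + u * S + Nat.find he := by omega
      rw [h4] at h3
      omega
  have hs : ∃ s, k ≤ A ^ (M + v * s) * B ^ (M + e + u * (S - s)) := by
    refine ⟨S, ?_⟩
    calc k ≤ A ^ M * B ^ (M + u * S + e + 1) := he1.le
      _ = A ^ M * B ^ (M + e) * (B * (B ^ u) ^ S) := by
          rw [← pow_mul]
          ring
      _ ≤ A ^ M * B ^ (M + e) * ((A ^ v) ^ S) := Nat.mul_le_mul_left _ hS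
      _ = A ^ (M + v * S) * B ^ (M + e + u * (S - S)) := by
          rw [← pow_mul, Nat.sub_self, Nat.mul_zero, Nat.add_zero]
          ring
  have hsS : Nat.find hs ≤ S := Nat.find_min' hs (by
    calc k ≤ A ^ M * B ^ (M + u * S + e + 1) := he1.le
      _ = A ^ M * B ^ (M + e) * (B * (B ^ u) ^ S) := by
          rw [← pow_mul]
          ring
      _ ≤ A ^ M * B ^ (M + e) * ((A ^ v) ^ S) := Nat.mul_le_mul_left _ hS
      _ = A ^ (M + v * S) * B ^ (M + e + u * (S - S)) := by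
          rw [← pow_mul, Nat.sub_self, Nat.mul_zero, Nat.add_zero]
          ring)
  refine ⟨M + v * Nat.find hs, M + e + u * (S - Nat.find hs), by omega, by omega,
    Nat.find_spec hs, ?_⟩
  rcases Nat.eq_zero_or_pos (Nat.find hs) with h | h
  · rw [h]
    have h3 : A ^ (M + v * 0) * B ^ (M + e + u * (S - 0)) ≤ k := by
      calc A ^ (M + v * 0) * B ^ (M + e + u * (S - 0)) = A ^ M * B ^ (M + u * S + e) := by
            rw [Nat.mul_zero, Nat.sub_zero, Nat.add_zero]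
            congr 2
            omega
        _ ≤ k := he2
    have h4 : ((A ^ (M + v * 0) * B ^ (M + e + u * (S - 0)) : ℕ) : ℝ) ≤ k := by exact_mod_cast h3
    have h5 : (0 : ℝ) ≤ k := Nat.cast_nonneg k
    nlinarith
  · obtain ⟨s, hs'⟩ : ∃ s, Nat.find hs = s + 1 := ⟨Nat.find hs - 1, by omega⟩
    have h3 := Nat.find_min hs (m := s) (by omega)
    push Not at h3
    rw [hs'] at hsS ⊢
    have h4 : S - s = (S - (s + 1)) + 1 := by omega
    rw [h4] at h3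
    have e1 : ((A ^ (M + v * (s + 1)) * B ^ (M + e + u * (S - (s + 1))) : ℕ) : ℝ) =
        ((A : ℝ) ^ (M + v * s) * (B : ℝ) ^ (M + e + u * (S - (s + 1)))) * (A : ℝ) ^ v := by
      push_cast
      ring
    have e2 : ((A ^ (M + v * s) * B ^ (M + e + u * ((S - (s + 1)) + 1)) : ℕ) : ℝ) =
        ((A : ℝ) ^ (M + v * s) * (B : ℝ) ^ (M + e + u * (S - (s + 1)))) * (B : ℝ) ^ u := by
      push_cast
      ring
    have h5 : ((A ^ (M + v * s) * B ^ (M + e + u * ((S - (s + 1)) + 1)) : ℕ) : ℝ) ≤ k := by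
      exact_mod_cast h3.le
    rw [e2] at h5
    rw [e1]
    have hX : (0 : ℝ) ≤ (A : ℝ) ^ (M + v * s) * (B : ℝ) ^ (M + e + u * (S - (s + 1))) := by
      positivity
    calc _ ≤ ((A : ℝ) ^ (M + v * s) * (B : ℝ) ^ (M + e + u * (S - (s + 1)))) *
          ((1 + ε) * (B : ℝ) ^ u) := mul_le_mul_of_nonneg_left h2.le hX
      _ = (1 + ε) * (((A : ℝ) ^ (M + v * s) * (B : ℝ) ^ (M + e + u * (S - (s + 1)))) *
          (B : ℝ) ^ u) := by ring
      _ ≤ (1 + ε) * k := mul_le_mul_of_nonneg_left h5 (by linarith)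

theorem dense (A B : ℕ) (hA : 1 < A) (hB : 1 < B) (hne : ∀ u v : ℕ, 0 < v → A ^ v ≠ B ^ u)
    (M : ℕ) (ε : ℝ) (hε : 0 < ε) :
    ∃ K : ℕ, ∀ k ≥ K, ∃ a b, M ≤ a ∧ M ≤ b ∧ k ≤ A ^ a * B ^ b ∧
      ((A ^ a * B ^ b : ℕ) : ℝ) ≤ (1 + ε) * k := by
  have hA' : (1 : ℝ) < A := by exact_mod_cast hA
  have hB' : (1 : ℝ) < B := by exact_mod_cast hB
  have hlA : 0 < Real.log A := Real.log_pos hA'
  have hlB : 0 < Real.log B := Real.log_pos hB'
  have hle : 0 < Real.log (1 + ε) := Real.log_pos (by linarith)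
  have hmin : 0 < min (Real.log (1 + ε) / Real.log B) (Real.log A / Real.log B) :=
    lt_min (by positivity) (by positivity)
  obtain ⟨N, hN⟩ := exists_nat_one_div_lt hmin
  obtain ⟨j, k, hk0, _, hjk⟩ := Real.exists_int_int_abs_mul_sub_le
    (Real.log A / Real.log B) (n := N + 1) (by omega)
  have h1 : |(k : ℝ) * (Real.log A / Real.log B) - j| <
      min (Real.log (1 + ε) / Real.log B) (Real.log A / Real.log B) := by
    refine lt_of_le_of_lt hjk (lt_of_le_of_lt ?_ hN)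
    push_cast
    apply one_div_le_one_div_of_le
    · positivity
    · linarith
  rw [lt_min_iff] at h1
  obtain ⟨h2, h3⟩ := h1
  have hk1 : (1 : ℝ) ≤ k := by exact_mod_cast hk0
  have hj0 : 0 < j := by
    have h4 := (abs_lt.1 h3).2
    have h5 : (Real.log A / Real.log B) ≤ k * (Real.log A / Real.log B) := by
      have : 0 < Real.log A / Real.log B := by positivity
      nlinarith
    have h6 : (0 : ℝ) < j := by linarith
    exact_mod_cast h6
  obtain ⟨v, rfl⟩ : ∃ v : ℕ, k = v := ⟨k.toNat, by omega⟩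
  obtain ⟨u, rfl⟩ : ∃ u : ℕ, j = u := ⟨j.toNat, by omega⟩
  have hv : 0 < v := by exact_mod_cast hk0
  have hu : 0 < u := by exact_mod_cast hj0
  have h4 : |(v : ℝ) * Real.log A - u * Real.log B| < Real.log (1 + ε) := by
    have h5 : (v : ℝ) * Real.log A - u * Real.log B =
        (((v : ℤ) : ℝ) * (Real.log A / Real.log B) - ((u : ℤ) : ℝ)) * Real.log B := by
      push_cast
      field_simp
    rw [h5, abs_mul, abs_of_pos hlB]
    rwa [lt_div_iff₀ hlB] at h2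
  rw [abs_lt] at h4
  have hlogA : Real.log ((A : ℝ) ^ v) = v * Real.log A := by rw [Real.log_pow]
  have hlogB : Real.log ((B : ℝ) ^ u) = u * Real.log B := by rw [Real.log_pow]
  have hAv : (0 : ℝ) < (A : ℝ) ^ v := by positivity
  have hBu : (0 : ℝ) < (B : ℝ) ^ u := by positivity
  have h6 : (A : ℝ) ^ v < (1 + ε) * (B : ℝ) ^ u := by
    rw [← Real.log_lt_log_iff hAv (by positivity), Real.log_mul (by positivity) hBu.ne', hlogA,
      hlogB]
    linarith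
  have h7 : (B : ℝ) ^ u < (1 + ε) * (A : ℝ) ^ v := by
    rw [← Real.log_lt_log_iff hBu (by positivity), Real.log_mul (by positivity) hAv.ne', hlogA,
      hlogB]
    linarith
  rcases lt_or_gt_of_ne (hne u v hv) with h | h
  · obtain ⟨K, hK⟩ := chain_dense B A v u hB.le hA ε hε h h7 M
    refine ⟨K, fun k hk => ?_⟩
    obtain ⟨a, b, ha, hb, hab, hab'⟩ := hK k hk
    refine ⟨b, a, hb, ha, ?_, ?_⟩
    · rwa [mul_comm]
    · rwa [mul_comm]
  · exact chain_dense A B u v hA.le hB ε hε h h6 M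

theorem prime_pow_ne {A B : ℕ} (hA : A.Prime) (hB : B.Prime) (hAB : A ≠ B) (u v : ℕ)
    (hv : 0 < v) : A ^ v ≠ B ^ u := by
  intro h
  have h1 : A ∣ B ^ u := by
    rw [← h]
    exact dvd_pow_self A hv.ne'
  have h2 := hA.dvd_of_dvd_pow h1
  exact hAB ((Nat.prime_dvd_prime_iff_eq hA hB).1 h2)

/-! ### The upper bound -/

theorem theta_primes_le {A B : ℕ} (hA : A.Prime) (hB : B.Prime) {p n : ℕ} (hp : 1 ≤ p)
    (hA1 : A ≡ 1 [MOD p]) (hB1 : B ≡ 1 [MOD p]) (hAn : n * p < A) (hBn : n * p < B)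
    {a b : ℕ} (ha : 1 ≤ a) (hb : 1 ≤ b) {k : ℕ} (hk : k ≤ A ^ a * B ^ b) :
    p * theta p (tensor (Fin n) (Fin k)) ≤
      (A ^ a * B ^ b) * (A ^ a * B ^ b) +
      p * (n * n * ((A ^ a * B ^ b) * (A ^ a + B ^ b)) * p) ∧
      ∃ S' : Fin n × Fin k → Finset (Fin (theta p (tensor (Fin n) (Fin k)))),
        IsRep p (tensor (Fin n) (Fin k)) S' := by
  have := Fact.mk hA
  have := Fact.mk hB
  have : Fintype (GaloisField A a) := Fintype.ofFinite _
  have : Fintype (GaloisField B b) := Fintype.ofFinite _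
  have hcA : Fintype.card (GaloisField A a) = A ^ a := by
    rw [← Nat.card_eq_fintype_card, GaloisField.card A a (by omega)]
  have hcB : Fintype.card (GaloisField B b) = B ^ b := by
    rw [← Nat.card_eq_fintype_card, GaloisField.card B b (by omega)]
  have hdvd : ∀ {C c : ℕ}, C ≡ 1 [MOD p] → 1 ≤ C → p ∣ C ^ c - 1 := by
    intro C c hC hC1
    have h1 : 1 ^ c ≡ C ^ c [MOD p] := (hC.symm).pow c
    rw [one_pow] at h1
    exact (Nat.modEq_iff_dvd' (Nat.one_le_pow _ _ hC1)).1 h1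
  have hle : ∀ {C c : ℕ}, n * p < C → 1 ≤ c → n * p ≤ C ^ c - 1 := by
    intro C c hC hc
    have h1 : C ≤ C ^ c := Nat.le_self_pow (by omega) C
    omega
  have hmain := theta_fields_le (GaloisField A a) (GaloisField B b) p n hp
    (by rw [hcA]; exact hdvd hA1 hA.one_lt.le) (by rw [hcA]; exact hle hAn ha)
    (by rw [hcB]; exact hdvd hB1 hB.one_lt.le) (by rw [hcB]; exact hle hBn hb) (k := k)
    (by rwa [hcA, hcB])
  rwa [hcA, hcB] at hmain

theorem upper_tensor {p n : ℕ} (hp : 1 ≤ p) (ε : ℝ) (hε : 0 < ε) :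
    ∃ K : ℕ, ∀ k ≥ K, (p : ℝ) * theta p (tensor (Fin n) (Fin k)) ≤ (1 + ε) ^ 3 * (k : ℝ) ^ 2 ∧
      ∃ S' : Fin n × Fin k → Finset (Fin (theta p (tensor (Fin n) (Fin k)))),
        IsRep p (tensor (Fin n) (Fin k)) S' := by
  obtain ⟨A, hA, hAn, hA1⟩ := Nat.exists_prime_gt_modEq_one (k := p) (n * p) (by omega)
  obtain ⟨B, hB, hBn, hB1⟩ := Nat.exists_prime_gt_modEq_one (k := p) (n * p + A) (by omega)
  have hAB : A ≠ B := by omega
  have hM : ∃ M : ℕ, 1 ≤ M ∧ (p : ℝ) ^ 2 * n ^ 2 * 2 ≤ ε * 2 ^ M := by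
    obtain ⟨M, hM⟩ := pow_unbounded_of_one_lt ((p : ℝ) ^ 2 * n ^ 2 * 2 / ε) (one_lt_two)
    refine ⟨M + 1, by omega, ?_⟩
    rw [div_lt_iff₀ hε] at hM
    have h1 : (0 : ℝ) < 2 ^ M * ε := by positivity
    have h2 : ε * (2 : ℝ) ^ (M + 1) = 2 * (2 ^ M * ε) := by ring
    rw [h2]
    linarith
  obtain ⟨M, hM1, hM⟩ := hM
  obtain ⟨K, hK⟩ := dense A B hA.one_lt hB.one_lt
    (fun u v hv => prime_pow_ne hA hB hAB u v hv) M ε hε
  refine ⟨K, fun k hk => ?_⟩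
  obtain ⟨a, b, ha, hb, hkab, hkab'⟩ := hK k hk
  obtain ⟨h1, h2⟩ := theta_primes_le hA hB hp hA1 hB1 hAn (by omega) (n := n)
    (hM1.trans ha) (hM1.trans hb) hkab
  refine ⟨?_, h2⟩
  have h3 : (p : ℝ) * theta p (tensor (Fin n) (Fin k)) ≤
      ((A : ℝ) ^ a * (B : ℝ) ^ b) * ((A : ℝ) ^ a * (B : ℝ) ^ b) +
      p * (n * n * (((A : ℝ) ^ a * (B : ℝ) ^ b) * ((A : ℝ) ^ a + (B : ℝ) ^ b)) * p) := by
    exact_mod_cast h1
  push_cast at hkab'
  have hlow : ∀ {C : ℕ} {c : ℕ}, C.Prime → M ≤ c → (2 : ℝ) ^ M ≤ (C : ℝ) ^ c := by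
    intro C c hC hc
    have h4 : 2 ^ M ≤ C ^ c :=
      (Nat.pow_le_pow_left hC.two_le M).trans (Nat.pow_le_pow_right hC.pos hc)
    exact_mod_cast h4
  have hA2 := hlow hA ha
  have hB2 := hlow hB hb
  obtain ⟨X, hX⟩ : ∃ X : ℝ, X = (A : ℝ) ^ a := ⟨_, rfl⟩
  obtain ⟨Y, hY⟩ : ∃ Y : ℝ, Y = (B : ℝ) ^ b := ⟨_, rfl⟩
  rw [← hX] at h3 hA2 hkab'
  rw [← hY] at h3 hB2 hkab'
  have h2M : (0 : ℝ) < 2 ^ M := by positivity
  have hX0 : 0 < X := lt_of_lt_of_le h2M hA2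
  have hY0 : 0 < Y := lt_of_lt_of_le h2M hB2
  have h5 : (X + Y) * 2 ^ M ≤ 2 * (X * Y) := by nlinarith
  have h6 : (p : ℝ) * (n * n * ((X * Y) * (X + Y)) * p) ≤ ε * ((X * Y) * (X * Y)) := by
    have h7 : (p : ℝ) * (n * n * ((X * Y) * (X + Y)) * p) * (2 * 2 ^ M) ≤
        ε * ((X * Y) * (X * Y)) * (2 * 2 ^ M) := by
      calc (p : ℝ) * (n * n * ((X * Y) * (X + Y)) * p) * (2 * 2 ^ M)
          = ((p : ℝ) ^ 2 * n ^ 2 * 2) * (X * Y) * ((X + Y) * 2 ^ M) := by ring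
        _ ≤ (ε * 2 ^ M) * (X * Y) * (2 * (X * Y)) := by gcongr
        _ = ε * ((X * Y) * (X * Y)) * (2 * 2 ^ M) := by ring
    exact le_of_mul_le_mul_right h7 (by positivity)
  have hk0 : (0 : ℝ) ≤ k := Nat.cast_nonneg k
  have h8 : (X * Y) * (X * Y) ≤ ((1 + ε) * k) * ((1 + ε) * k) := by gcongr
  calc (p : ℝ) * theta p (tensor (Fin n) (Fin k)) ≤ (X * Y) * (X * Y) + ε * ((X * Y) * (X * Y)) :=
        h3.trans (by linarith)
    _ = (1 + ε) * ((X * Y) * (X * Y)) := by ring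
    _ ≤ (1 + ε) * (((1 + ε) * k) * ((1 + ε) * k)) := mul_le_mul_of_nonneg_left h8 (by linarith)
    _ = (1 + ε) ^ 3 * (k : ℝ) ^ 2 := by ring

/-- `ϑ_p(𝒦(n × k)) ∼ k² / p` as `k → ∞`. -/
theorem tensor_asymp {p n : ℕ} (hp : 1 ≤ p) (hn : 2 ≤ n) :
    (fun k : ℕ => (theta p (tensor (Fin n) (Fin k)) : ℝ)) ~[atTop]
      (fun k : ℕ => (k : ℝ) ^ 2 / p) := by
  have hp0 : (0 : ℝ) < p := by exact_mod_cast hp
  rw [isEquivalent_iff_tendsto_one]
  · rw [Metric.tendsto_atTop]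
    intro δ hδ
    obtain ⟨ε, hε, hε1, hεδ⟩ : ∃ ε : ℝ, 0 < ε ∧ ε ≤ 1 ∧ 7 * ε < δ := by
      refine ⟨min 1 (δ / 8), by positivity, min_le_left _ _, ?_⟩
      have := min_le_right (1 : ℝ) (δ / 8)
      linarith
    obtain ⟨K, hK⟩ := upper_tensor (n := n) hp ε hε
    obtain ⟨L, hL⟩ := exists_nat_gt (1 / δ)
    refine ⟨max K (max L 1), fun k hk => ?_⟩
    have hkK : K ≤ k := (le_max_left _ _).trans hk
    have hkL : L ≤ k := ((le_max_left _ _).trans (le_max_right _ _)).trans hk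
    have hk1 : 1 ≤ k := ((le_max_right _ _).trans (le_max_right _ _)).trans hk
    have hk0 : (0 : ℝ) < k := by exact_mod_cast hk1
    obtain ⟨h1, S, hS⟩ := hK k hkK
    have h2 := lower_tensor hn hp S hS
    have h3 : ((fun k : ℕ => (theta p (tensor (Fin n) (Fin k)) : ℝ)) /
        (fun k : ℕ => (k : ℝ) ^ 2 / p)) k =
        (p : ℝ) * theta p (tensor (Fin n) (Fin k)) / (k : ℝ) ^ 2 := by
      show (theta p (tensor (Fin n) (Fin k)) : ℝ) / ((k : ℝ) ^ 2 / p) = _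
      field_simp
    rw [h3, Real.dist_eq, abs_lt]
    have hk2 : (0 : ℝ) < (k : ℝ) ^ 2 := by positivity
    constructor
    · rw [neg_lt_sub_iff_lt_add, ← sub_lt_iff_lt_add', lt_div_iff₀ hk2]
      have h4 : (1 : ℝ) < δ * k := by
        have h5 : 1 / δ < k := lt_of_lt_of_le hL (by exact_mod_cast hkL)
        rw [div_lt_iff₀ hδ] at h5
        linarith
      nlinarith
    · rw [sub_lt_iff_lt_add, div_lt_iff₀ hk2]
      refine lt_of_le_of_lt h1 ?_
      have h4 : (1 + ε) ^ 3 ≤ 1 + 7 * ε := by nlinarith [mul_pos hε hε]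
      have h5 : (1 + ε) ^ 3 < δ + 1 := by linarith
      exact mul_lt_mul_of_pos_right h5 hk2
  · filter_upwards [eventually_ge_atTop 1] with k hk h
    have hk0 : (0 : ℝ) < k := by exact_mod_cast hk
    have : (0 : ℝ) < (k : ℝ) ^ 2 / p := by positivity
    exact absurd h this.ne'

end Pool.Agent.V11150.PInt
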