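import Mathlib

set_option autoImplicit false

namespace Pool.Agent.V11150.Lions

/-! ### Lions and contamination -/

section defs

variable {V : Type} {k : ℕ}

/-- Legal moves of `k` lions: in each step each lion stays or moves along an edge. -/
def Legal (G : SimpleGraph V) (p : ℕ → Fin k → V) : Prop :=
  ∀ t i, p (t + 1) i = p t i ∨ G.Adj (p t i) (p (t + 1) i)

/-- The set `C(t)` of cleared vertices. -/
def cleared (G : SimpleGraph V) (p : ℕ → Fin k → V) : ℕ → Set V
  | 0 => {v | ∃ i, p 0 i = v}
  | t + 1 => {v | (∃ i, p (t + 1) i = v) ∨ (v ∈ cleared G p t ∧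
      ∀ u, G.Adj v u → u ∉ cleared G p t → ∃ i, p t i = v ∧ p (t + 1) i = u)}

/-- `k` lions can sweep (clear) `G`. -/
def Sweeps (G : SimpleGraph V) (k : ℕ) : Prop :=
  ∃ p : ℕ → Fin k → V, Legal G p ∧ ∃ T, cleared G p T = Set.univ

/-- `k` lions can sweep `G` monotonically. -/
def MonoSweeps (G : SimpleGraph V) (k : ℕ) : Prop :=
  ∃ p : ℕ → Fin k → V, Legal G p ∧ ∃ T, cleared G p T = Set.univ ∧
    ∀ t < T, cleared G p t ⊆ cleared G p (t + 1)

/-- One step. -/
def stepSet (G : SimpleGraph V) (p q : Fin k → V) (C : Set V) : Set V :=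
  {v | (∃ i, q i = v) ∨ (v ∈ C ∧ ∀ u, G.Adj v u → u ∉ C → ∃ i, p i = v ∧ q i = u)}

theorem cleared_succ (G : SimpleGraph V) (p : ℕ → Fin k → V) (t : ℕ) :
    cleared G p (t + 1) = stepSet G (p t) (p (t + 1)) (cleared G p t) := rfl

theorem stepSet_mono (G : SimpleGraph V) (p q : Fin k → V) {C D : Set V} (h : C ⊆ D) :
    stepSet G p q C ⊆ stepSet G p q D := by
  rintro v (hv | ⟨hv, hv'⟩)
  · exact Or.inl hv
  · exact Or.inr ⟨h hv, fun u hu huD => hv' u hu (fun huC => huD (h huC))⟩

/-- An evader that avoids the lions is never in the cleared set. -/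
theorem evader (G : SimpleGraph V) (p : ℕ → Fin k → V) (e : ℕ → V)
    (hadj : ∀ t, e (t + 1) = e t ∨ G.Adj (e t) (e (t + 1)))
    (hne : ∀ t i, p t i ≠ e t)
    (hswap : ∀ t i, ¬ (p t i = e (t + 1) ∧ p (t + 1) i = e t)) (t : ℕ) :
    e t ∉ cleared G p t := by
  induction t with
  | zero =>
    rintro ⟨i, hi⟩
    exact hne 0 i hi
  | succ t ih =>
    rintro (⟨i, hi⟩ | ⟨h1, h2⟩)
    · exact hne (t + 1) i hi
    · rcases hadj t with h | h
      · rw [h] at h1
        exact ih h1
      · obtain ⟨i, hi⟩ := h2 (e t) h.symm ih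
        exact hswap t i hi

end defs

/-! ### Certificates for two lions on a graph with vertex set `Fin n` -/

section certs

variable {n : ℕ}

/-- The neighbour lists describe the graph `G`. -/
def Describes (G : SimpleGraph (Fin n)) (nb : List (List ℕ)) : Prop :=
  ∀ u v : Fin n, G.Adj u v ↔ (v : ℕ) ∈ nb.getD u []

/-- Is `v` clear after the step `(p₀, p₁) → (q₀, q₁)` from the cleared set with mask `m`? -/
def stepB (nb : List (List ℕ)) (p0 p1 q0 q1 m v : ℕ) : Bool :=
  v == q0 || v == q1 || (m.testBit v &&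
    (nb.getD v []).all fun u => m.testBit u || (p0 == v && q0 == u) || (p1 == v && q1 == u))

/-- The set with mask `m`. -/
def maskSet (n m : ℕ) : Set (Fin n) := {v | m.testBit v = true}

theorem mem_step_iff {G : SimpleGraph (Fin n)} {nb : List (List ℕ)} (hG : Describes G nb)
    (p q : Fin 2 → Fin n) (m : ℕ) (hnb : ∀ v : Fin n, ∀ u ∈ nb.getD v [], u < n) (v : Fin n) :
    v ∈ stepSet G p q (maskSet n m) ↔ stepB nb (p 0) (p 1) (q 0) (q 1) m v = true := by
  unfold stepSet stepB
  simp only [Set.mem_ofPred_eq, Fin.exists_fin_two, Bool.or_eq_true, beq_iff_eq, Bool.and_eq_true,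
    List.all_eq_true]
  have e1 : (q 0 = v ∨ q 1 = v) ↔ ((v : ℕ) = q 0 ∨ (v : ℕ) = q 1) := by
    constructor
    · rintro (h | h)
      · exact Or.inl (by rw [h])
      · exact Or.inr (by rw [h])
    · rintro (h | h)
      · exact Or.inl (Fin.ext h.symm)
      · exact Or.inr (Fin.ext h.symm)
  rw [e1]
  refine or_congr Iff.rfl (and_congr Iff.rfl ?_)
  constructor
  · intro h u hu
    have hun := hnb v u hu
    by_cases hm : m.testBit u = true
    · exact Or.inl (Or.inl hm)
    · have := h ⟨u, hun⟩ ((hG v ⟨u, hun⟩).2 hu) hm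
      rcases this with ⟨h1, h2⟩ | ⟨h1, h2⟩
      · exact Or.inl (Or.inr ⟨by rw [h1], by rw [h2]⟩)
      · exact Or.inr ⟨by rw [h1], by rw [h2]⟩
  · intro h u hu hm
    rcases h u ((hG v u).1 hu) with (h1 | ⟨h1, h2⟩) | ⟨h1, h2⟩
    · exact absurd h1 hm
    · exact Or.inl ⟨Fin.ext h1, Fin.ext h2⟩
    · exact Or.inr ⟨Fin.ext h1, Fin.ext h2⟩

/-- The check that the step `(p₀, p₁, m) → (q₀, q₁)` leads into the set with mask `m'`. -/
def leads (n : ℕ) (nb : List (List ℕ)) (p0 p1 q0 q1 m m' : ℕ) : Bool :=
  (List.range n).all fun v => !(stepB nb p0 p1 q0 q1 m v) || m'.testBit v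

/-- The check that `m'` is contained in the set after the step. -/
def covers (n : ℕ) (nb : List (List ℕ)) (p0 p1 q0 q1 m m' : ℕ) : Bool :=
  (List.range n).all fun v => stepB nb p0 p1 q0 q1 m v || !(m'.testBit v)

/-- The certificate that two lions cannot sweep: `inv p₀ p₁` is a list of masks, none of them full,
containing the cleared sets up to inclusion. -/
def checkInv (n : ℕ) (nb : List (List ℕ)) (inv : ℕ → ℕ → List ℕ) : Bool :=
  (List.range n).all fun p0 => (List.range n).all fun p1 =>
    ((inv p0 p1).any fun m => m.testBit p0 && m.testBit p1) &&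
    ((inv p0 p1).all fun m => (List.range n).any fun v => !(m.testBit v)) &&
    ((inv p0 p1).all fun m => (p0 :: nb.getD p0 []).all fun q0 => (p1 :: nb.getD p1 []).all fun q1 =>
      (inv q0 q1).any fun m' => leads n nb p0 p1 q0 q1 m m')

theorem leads_sound {G : SimpleGraph (Fin n)} {nb : List (List ℕ)} (hG : Describes G nb)
    (hnb : ∀ v : Fin n, ∀ u ∈ nb.getD v [], u < n) (p q : Fin 2 → Fin n) (m m' : ℕ)
    (h : leads n nb (p 0) (p 1) (q 0) (q 1) m m' = true) :
    stepSet G p q (maskSet n m) ⊆ maskSet n m' := by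
  intro v hv
  rw [mem_step_iff hG p q m hnb] at hv
  unfold leads at h
  rw [List.all_eq_true] at h
  have := h v (List.mem_range.2 v.2)
  rw [hv] at this
  have h2 : m'.testBit v = true := by simpa using this
  exact h2

theorem covers_sound {G : SimpleGraph (Fin n)} {nb : List (List ℕ)} (hG : Describes G nb)
    (hnb : ∀ v : Fin n, ∀ u ∈ nb.getD v [], u < n) (p q : Fin 2 → Fin n) (m m' : ℕ)
    (h : covers n nb (p 0) (p 1) (q 0) (q 1) m m' = true) :
    maskSet n m' ⊆ stepSet G p q (maskSet n m) := by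
  intro v hv
  rw [mem_step_iff hG p q m hnb]
  unfold covers at h
  rw [List.all_eq_true] at h
  have := h v (List.mem_range.2 v.2)
  have hv' : m'.testBit v = true := hv
  rw [hv'] at this
  simpa using this

/-- A checked invariant shows that two lions cannot sweep the graph. -/
theorem not_sweeps_of_check {G : SimpleGraph (Fin n)} {nb : List (List ℕ)} (hG : Describes G nb)
    (hnb : ∀ v : Fin n, ∀ u ∈ nb.getD v [], u < n) (inv : ℕ → ℕ → List ℕ)
    (h : checkInv n nb inv = true) : ¬ Sweeps G 2 := by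
  rintro ⟨p, hp, T, hT⟩
  unfold checkInv at h
  simp only [List.all_eq_true, List.any_eq_true, Bool.and_eq_true, List.mem_range] at h
  have key : ∀ t, ∃ m ∈ inv (p t 0) (p t 1), cleared G p t ⊆ maskSet n m := by
    intro t
    induction t with
    | zero =>
      obtain ⟨⟨⟨m, hm, hm'⟩, _⟩, _⟩ := h (p 0 0) (p 0 0).2 (p 0 1) (p 0 1).2
      refine ⟨m, hm, ?_⟩
      rintro v ⟨i, rfl⟩
      have hi : i = 0 ∨ i = 1 := by
        revert i
        decide
      rcases hi with rfl | rfl
      · exact hm'.1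
      · exact hm'.2
    | succ t ih =>
      obtain ⟨m, hm, hC⟩ := ih
      obtain ⟨_, h3⟩ := h (p t 0) (p t 0).2 (p t 1) (p t 1).2
      have hq : ∀ i, ((p (t + 1) i : Fin n) : ℕ) ∈ ((p t i : Fin n) : ℕ) :: nb.getD (p t i) [] := by
        intro i
        rcases hp t i with h' | h'
        · rw [h']
          exact List.mem_cons_self
        · exact List.mem_cons_of_mem _ ((hG _ _).1 h')
      obtain ⟨m', hm', hl⟩ := h3 m hm _ (hq 0) _ (hq 1)
      refine ⟨m', hm', ?_⟩
      rw [cleared_succ]
      exact (stepSet_mono G _ _ hC).trans (leads_sound hG hnb (p t) (p (t + 1)) m m' hl)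
  obtain ⟨m, hm, hC⟩ := key T
  obtain ⟨⟨_, h2⟩, _⟩ := h (p T 0) (p T 0).2 (p T 1) (p T 1).2
  obtain ⟨v, hv, hv'⟩ := h2 m hm
  have h4 : (⟨v, hv⟩ : Fin n) ∈ cleared G p T := by rw [hT]; trivial
  have h5 : m.testBit v = true := hC h4
  rw [h5] at hv'
  exact absurd hv' (by simp)

/-- The walk of two lions given by a list of positions (the lions stay at the end). -/
def walk (P : List (Fin n × Fin n)) (last : Fin n × Fin n) (t : ℕ) : Fin 2 → Fin n :=
  ![(P.getD t last).1, (P.getD t last).2]

/-- A checked path shows that two lions can sweep the graph. -/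
theorem sweeps_of_path {G : SimpleGraph (Fin n)} {nb : List (List ℕ)} (hG : Describes G nb)
    (hnb : ∀ v : Fin n, ∀ u ∈ nb.getD v [], u < n) (P : List (Fin n × Fin n))
    (last : Fin n × Fin n) (M : ℕ → ℕ)
    (hlegal : ∀ t < P.length, ∀ i, walk P last (t + 1) i = walk P last t i ∨
      G.Adj (walk P last t i) (walk P last (t + 1) i))
    (h0 : ∀ v : Fin n, (M 0).testBit v = true → v = (P.getD 0 last).1 ∨ v = (P.getD 0 last).2)
    (hM : ∀ t < P.length, covers n nb (walk P last t 0) (walk P last t 1) (walk P last (t + 1) 0)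
      (walk P last (t + 1) 1) (M t) (M (t + 1)) = true)
    (hfull : ∀ v : Fin n, (M P.length).testBit v = true) : Sweeps G 2 := by
  refine ⟨walk P last, ?_, P.length, ?_⟩
  · intro t i
    by_cases h : t < P.length
    · exact hlegal t h i
    · left
      unfold walk
      rw [List.getD_eq_default _ _ (by omega), List.getD_eq_default _ _ (by omega)]
  · have key : ∀ t ≤ P.length, maskSet n (M t) ⊆ cleared G (walk P last) t := by
      intro t
      induction t with
      | zero =>
        intro _ v hv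
        rcases h0 v hv with h | h
        · exact ⟨0, h.symm⟩
        · exact ⟨1, h.symm⟩
      | succ t ih =>
        intro ht
        rw [cleared_succ]
        exact (covers_sound hG hnb (walk P last t) (walk P last (t + 1)) _ _
          (hM t (by omega))).trans (stepSet_mono G _ _ (ih (by omega)))
    rw [Set.eq_univ_iff_forall]
    intro v
    exact key P.length le_rfl (hfull v)

end certs

end Pool.Agent.V11150.Lions
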