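import Mathlib
import Pool.Agent.V11150.Lions

set_option autoImplicit false

namespace Pool.Agent.V11150.Lions

/-! ### Monotone wins from a position -/

section win

variable {V : Type} {k : ℕ}

/-- The lions can finish monotonically from the positions `p` and the cleared set `C`. -/
inductive Win (G : SimpleGraph V) : (Fin k → V) → Set V → Prop
  | done (p : Fin k → V) : Win G p Set.univ
  | step (p q : Fin k → V) (C : Set V) (hl : ∀ i, q i = p i ∨ G.Adj (p i) (q i))
      (hm : C ⊆ stepSet G p q C) (h : Win G q (stepSet G p q C)) : Win G p C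

/-- The cleared sets when starting from the set `C`. -/
def run (G : SimpleGraph V) (p : ℕ → Fin k → V) (C : Set V) : ℕ → Set V
  | 0 => C
  | t + 1 => stepSet G (p t) (p (t + 1)) (run G p C t)

theorem cleared_eq_run (G : SimpleGraph V) (p : ℕ → Fin k → V) (t : ℕ) :
    cleared G p t = run G p {v | ∃ i, p 0 i = v} t := by
  induction t with
  | zero => rfl
  | succ t ih =>
    rw [cleared_succ, ih]
    rfl

/-- Prepend a position. -/
def cons (p0 : Fin k → V) (p : ℕ → Fin k → V) : ℕ → Fin k → V
  | 0 => p0
  | t + 1 => p t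

theorem run_cons (G : SimpleGraph V) (p0 : Fin k → V) (p : ℕ → Fin k → V) (C : Set V) (t : ℕ) :
    run G (cons p0 p) C (t + 1) = run G p (stepSet G p0 (p 0) C) t := by
  induction t with
  | zero => rfl
  | succ t ih =>
    show stepSet G (cons p0 p (t + 1)) (cons p0 p (t + 1 + 1)) (run G (cons p0 p) C (t + 1)) = _
    rw [ih]
    rfl

theorem Win.exists_run {G : SimpleGraph V} {p0 : Fin k → V} {C : Set V} (h : Win G p0 C) :
    ∃ p : ℕ → Fin k → V, p 0 = p0 ∧ Legal G p ∧ ∃ T, run G p C T = Set.univ ∧
      ∀ t < T, run G p C t ⊆ run G p C (t + 1) := by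
  induction h with
  | done p => exact ⟨fun _ => p, rfl, fun t i => Or.inl rfl, 0, rfl, by omega⟩
  | step p q C hl hm _ ih =>
    obtain ⟨r, hr0, hr, T, hT, hT'⟩ := ih
    refine ⟨cons p r, rfl, ?_, T + 1, ?_, ?_⟩
    · intro t i
      rcases t with _ | t
      · show r 0 i = p i ∨ G.Adj (p i) (r 0 i)
        rw [hr0]
        exact hl i
      · exact hr t i
    · rw [run_cons, hr0, hT]
    · intro t ht
      rcases t with _ | t
      · show C ⊆ stepSet G p (r 0) C
        rw [hr0]
        exact hm
      · rw [run_cons, run_cons, hr0]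
        exact hT' t (by omega)

theorem Win.monoSweeps {G : SimpleGraph V} {p0 : Fin k → V} (h : Win G p0 {v | ∃ i, p0 i = v}) :
    MonoSweeps G k := by
  obtain ⟨p, hp0, hp, T, hT, hT'⟩ := h.exists_run
  have e : ∀ t, cleared G p t = run G p {v | ∃ i, p0 i = v} t := by
    intro t
    rw [cleared_eq_run, hp0]
  refine ⟨p, hp, T, ?_, ?_⟩
  · rw [e, hT]
  · intro t ht
    rw [e, e]
    exact hT' t ht

end win

/-! ### One lion -/

section one

variable {V : Type} {G : SimpleGraph V}

theorem eq_zero_one (i : Fin 1) : i = 0 := Subsingleton.elim i 0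

/-- One lion cannot sweep a graph with a vertex of degree at least three. -/
theorem not_sweeps_one_of_three {c x y z : V} (hx : G.Adj c x) (hy : G.Adj c y) (hz : G.Adj c z)
    (hxy : x ≠ y) (hxz : x ≠ z) (hyz : y ≠ z) : ¬ Sweeps G 1 := by
  rintro ⟨p, hp, T, hT⟩
  have key : ∀ t, (p t 0 ≠ c → c ∉ cleared G p t) ∧
      (p t 0 = c → (x ∉ cleared G p t ∧ y ∉ cleared G p t) ∨
        (x ∉ cleared G p t ∧ z ∉ cleared G p t) ∨ (y ∉ cleared G p t ∧ z ∉ cleared G p t)) := by
    intro t
    induction t with
    | zero =>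
      have h0 : ∀ v, v ∈ cleared G p 0 → p 0 0 = v := by
        rintro v ⟨i, hi⟩
        rwa [eq_zero_one i] at hi
      refine ⟨fun h hc => h (h0 c hc), fun h => Or.inl ⟨fun h' => ?_, fun h' => ?_⟩⟩
      · have := h0 x h'
        rw [h] at this
        exact hx.ne this
      · have := h0 y h'
        rw [h] at this
        exact hy.ne this
    | succ t ih =>
      -- recontamination rule for one lion
      have hrec : ∀ v u, p (t + 1) 0 ≠ v → G.Adj v u → u ∉ cleared G p t →
          ¬ (p t 0 = v ∧ p (t + 1) 0 = u) → v ∉ cleared G p (t + 1) := by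
        rintro v u h1 h2 h3 h4 (⟨i, hi⟩ | ⟨_, h6⟩)
        · rw [eq_zero_one i] at hi
          exact h1 hi
        · obtain ⟨i, hi⟩ := h6 u h2 h3
          rw [eq_zero_one i] at hi
          exact h4 hi
      have hstay : ∀ v, p (t + 1) 0 ≠ v → v ∉ cleared G p t → v ∉ cleared G p (t + 1) := by
        rintro v h1 h2 (⟨i, hi⟩ | ⟨h5, _⟩)
        · rw [eq_zero_one i] at hi
          exact h1 hi
        · exact h2 h5
      constructor
      · intro h
        by_cases hc : p t 0 = c
        · have h2 : ∃ l, G.Adj c l ∧ l ∉ cleared G p t ∧ l ≠ p (t + 1) 0 := by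
            rcases ih.2 hc with ⟨h3, h4⟩ | ⟨h3, h4⟩ | ⟨h3, h4⟩
            · by_cases hh : x = p (t + 1) 0
              · exact ⟨y, hy, h4, fun h => hxy (hh.trans h.symm)⟩
              · exact ⟨x, hx, h3, hh⟩
            · by_cases hh : x = p (t + 1) 0
              · exact ⟨z, hz, h4, fun h => hxz (hh.trans h.symm)⟩
              · exact ⟨x, hx, h3, hh⟩
            · by_cases hh : y = p (t + 1) 0
              · exact ⟨z, hz, h4, fun h => hyz (hh.trans h.symm)⟩
              · exact ⟨y, hy, h3, hh⟩
          obtain ⟨l, hl1, hl2, hl3⟩ := h2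
          exact hrec c l h hl1 hl2 (fun h5 => hl3 h5.2.symm)
        · exact hstay c h (ih.1 hc)
      · intro h
        by_cases hc : p t 0 = c
        · rcases ih.2 hc with ⟨h3, h4⟩ | ⟨h3, h4⟩ | ⟨h3, h4⟩
          · exact Or.inl ⟨hstay x (by rw [h]; exact hx.ne) h3, hstay y (by rw [h]; exact hy.ne) h4⟩
          · exact Or.inr (Or.inl ⟨hstay x (by rw [h]; exact hx.ne) h3,
              hstay z (by rw [h]; exact hz.ne) h4⟩)
          · exact Or.inr (Or.inr ⟨hstay y (by rw [h]; exact hy.ne) h3,
              hstay z (by rw [h]; exact hz.ne) h4⟩)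
        · have hcn := ih.1 hc
          have hl : ∀ l, G.Adj c l → p t 0 ≠ l → l ∉ cleared G p (t + 1) := fun l h5 h6 =>
            hrec l c (by rw [h]; exact h5.ne) h5.symm hcn (fun h7 => h6 h7.1)
          by_cases h1 : p t 0 = x
          · refine Or.inr (Or.inr ⟨hl y hy ?_, hl z hz ?_⟩)
            · rw [h1]; exact hxy
            · rw [h1]; exact hxz
          · by_cases h2 : p t 0 = y
            · refine Or.inr (Or.inl ⟨hl x hx h1, hl z hz ?_⟩)
              rw [h2]; exact hyz
            · exact Or.inl ⟨hl x hx h1, hl y hy h2⟩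
  have hall : ∀ v, v ∈ cleared G p T := fun v => by rw [hT]; trivial
  by_cases hc : p T 0 = c
  · rcases (key T).2 hc with ⟨h3, _⟩ | ⟨h3, _⟩ | ⟨h3, _⟩
    · exact h3 (hall x)
    · exact h3 (hall x)
    · exact h3 (hall y)
  · exact (key T).1 hc (hall c)

/-- One lion cannot sweep a graph with a nonempty set of vertices each having two neighbours in
the set. -/
theorem not_sweeps_one_of_core (S : Set V) (hS : S.Nonempty)
    (h2 : ∀ v ∈ S, ∃ a ∈ S, ∃ b ∈ S, a ≠ b ∧ G.Adj v a ∧ G.Adj v b) : ¬ Sweeps G 1 := by
  rintro ⟨p, hp, T, hT⟩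
  have key : ∀ t, ∃ v ∈ S, v ∉ cleared G p t := by
    intro t
    induction t with
    | zero =>
      obtain ⟨v, hv⟩ := hS
      have h0 : ∀ v, v ∈ cleared G p 0 → p 0 0 = v := by
        rintro v ⟨i, hi⟩
        rwa [eq_zero_one i] at hi
      by_cases h : p 0 0 = v
      · obtain ⟨a, ha, b, hb, _, hva, _⟩ := h2 v hv
        refine ⟨a, ha, fun h' => ?_⟩
        have := h0 a h'
        rw [h] at this
        exact hva.ne this
      · exact ⟨v, hv, fun h' => h (h0 v h')⟩
    | succ t ih =>
      obtain ⟨v, hv, hvC⟩ := ih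
      by_cases h : p (t + 1) 0 = v
      · obtain ⟨a, ha, b, hb, hab, hva, hvb⟩ := h2 v hv
        have h3 : ∃ w ∈ S, G.Adj v w ∧ p t 0 ≠ w := by
          by_cases h4 : p t 0 = a
          · exact ⟨b, hb, hvb, by rw [h4]; exact hab⟩
          · exact ⟨a, ha, hva, h4⟩
        obtain ⟨w, hw, hvw, hpw⟩ := h3
        refine ⟨w, hw, ?_⟩
        rintro (⟨i, hi⟩ | ⟨_, h6⟩)
        · rw [eq_zero_one i, h] at hi
          exact hvw.ne hi
        · obtain ⟨i, hi⟩ := h6 v hvw.symm hvC
          rw [eq_zero_one i] at hi
          exact hpw hi.1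
      · refine ⟨v, hv, ?_⟩
        rintro (⟨i, hi⟩ | ⟨h5, _⟩)
        · rw [eq_zero_one i] at hi
          exact h hi
        · exact hvC h5
  obtain ⟨v, _, hv⟩ := key T
  rw [hT] at hv
  exact hv trivial

/-- One lion cannot sweep a graph with a nonempty proper subset without outgoing edges. -/
theorem closed_of_sweeps_one (hs : Sweeps G 1) (S : Set V) (hS : S.Nonempty)
    (hcl : ∀ v ∈ S, ∀ u, G.Adj v u → u ∈ S) : S = Set.univ := by
  obtain ⟨p, hp, T, hT⟩ := hs
  by_contra hne
  have key : ∀ (A : Set V), (∀ v ∈ A, ∀ u, G.Adj v u → u ∈ A) → p 0 0 ∈ A →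
      ∀ t, p t 0 ∈ A ∧ cleared G p t ⊆ A := by
    intro A hA h0 t
    induction t with
    | zero =>
      refine ⟨h0, ?_⟩
      rintro v ⟨i, hi⟩
      rw [eq_zero_one i] at hi
      rw [← hi]
      exact h0
    | succ t ih =>
      have h1 : p (t + 1) 0 ∈ A := by
        rcases hp t 0 with h | h
        · rw [h]; exact ih.1
        · exact hA _ ih.1 _ h
      refine ⟨h1, ?_⟩
      rintro v (⟨i, hi⟩ | ⟨h5, _⟩)
      · rw [eq_zero_one i] at hi
        rw [← hi]
        exact h1
      · exact ih.2 h5
  by_cases h0 : p 0 0 ∈ S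
  · have := (key S hcl h0 T).2
    rw [hT] at this
    exact hne (Set.eq_univ_of_univ_subset this)
  · obtain ⟨s, hs⟩ := hS
    have := (key Sᶜ (fun v hv u huv hu => hv (hcl u hu v huv.symm)) h0 T).2
    rw [hT] at this
    exact this (Set.mem_univ s) hs

/-- A graph swept by one lion is swept monotonically by one lion. -/
theorem monoSweeps_one [Finite V] (hs : Sweeps G 1) : MonoSweeps G 1 := by
  classical
  have hne : Nonempty V := by
    obtain ⟨p, -⟩ := hs
    exact ⟨p 0 0⟩
  -- a vertex of degree at most one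
  have hleaf : ∃ v : V, ∀ a b, G.Adj v a → G.Adj v b → a = b := by
    by_contra hcon
    push Not at hcon
    refine not_sweeps_one_of_core (G := G) Set.univ Set.univ_nonempty (fun v _ => ?_) hs
    obtain ⟨a, b, ha, hb, hab⟩ := hcon v
    exact ⟨a, trivial, b, trivial, hab, ha, hb⟩
  obtain ⟨v, hv⟩ := hleaf
  have key : ∀ (n : ℕ) (C : Set V) (q : V), Cᶜ.ncard = n → q ∈ C →
      (∀ u ∈ C, u ≠ q → ∀ w, G.Adj u w → w ∈ C) →
      (∀ a b, a ∉ C → b ∉ C → G.Adj q a → G.Adj q b → a = b) → Win G (fun _ : Fin 1 => q) C := by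
    intro n
    induction n with
    | zero =>
      intro C q hC _ _ _
      have h1 : Cᶜ = ∅ := (Set.ncard_eq_zero (Set.toFinite _)).1 hC
      have h2 : C = Set.univ := Set.compl_empty_iff.1 h1
      rw [h2]
      exact Win.done _
    | succ n ih =>
      intro C q hC hq hcl huniq
      have hCne : C ≠ Set.univ := by
        rintro rfl
        rw [Set.compl_univ, Set.ncard_empty] at hC
        omega
      have h1 : ∃ a, a ∉ C ∧ G.Adj q a := by
        by_contra hcon
        push Not at hcon
        refine hCne (closed_of_sweeps_one hs C ⟨q, hq⟩ ?_)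
        intro u hu w huw
        by_cases h : u = q
        · subst h
          by_contra hw
          exact hcon w hw huw
        · exact hcl u hu h w huw
      obtain ⟨a, haC, hqa⟩ := h1
      have hstep : stepSet G (fun _ : Fin 1 => q) (fun _ : Fin 1 => a) C = insert a C := by
        ext u
        constructor
        · rintro (⟨i, hi⟩ | ⟨h2, _⟩)
          · exact Or.inl hi.symm
          · exact Or.inr h2
        · rintro (rfl | h2)
          · exact Or.inl ⟨0, rfl⟩
          · refine Or.inr ⟨h2, fun w huw hw => ⟨0, ?_⟩⟩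
            by_cases h : u = q
            · subst h
              exact ⟨rfl, huniq a w haC hw hqa huw⟩
            · exact absurd (hcl u h2 h w huw) hw
      refine Win.step _ (fun _ => a) C (fun _ => Or.inr hqa) ?_ ?_
      · rw [hstep]
        exact Set.subset_insert a C
      · rw [hstep]
        refine ih (insert a C) a ?_ (Set.mem_insert a C) ?_ ?_
        · have h3 : (insert a C)ᶜ = Cᶜ \ {a} := by
            ext u
            simp only [Set.mem_compl_iff, Set.mem_insert_iff, Set.mem_sdiff, Set.mem_singleton_iff]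
            tauto
          rw [h3, Set.ncard_sdiff_singleton_of_mem haC, hC]
          rfl
        · rintro u (rfl | hu) hua w huw
          · exact absurd rfl hua
          · by_cases h : u = q
            · subst h
              by_cases hw : w ∈ C
              · exact Or.inr hw
              · exact Or.inl (huniq w a hw haC huw hqa)
            · exact Or.inr (hcl u hu h w huw)
        · intro b c hb hc hab hac
          by_contra hbc
          have hbq : q ≠ b := by
            rintro rfl
            exact hb (Or.inr hq)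
          have hcq : q ≠ c := by
            rintro rfl
            exact hc (Or.inr hq)
          exact not_sweeps_one_of_three hqa.symm hab hac hbq hcq hbc hs
  have hw := key _ {v} v rfl (Set.mem_singleton v) (by
    intro u hu huv
    exact absurd hu huv) (fun a b _ _ ha hb => hv a b ha hb)
  refine Win.monoSweeps (p0 := fun _ : Fin 1 => v) ?_
  have e : {w | ∃ _ : Fin 1, v = w} = ({v} : Set V) := by
    ext w
    simp [eq_comm]
  rw [e]
  exact hw

end one

end Pool.Agent.V11150.Lions
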