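import Mathlib
import Pool.Agent.V11150.LionsMono

set_option autoImplicit false
set_option maxRecDepth 4000

namespace Pool.Agent.V11150.Lions

/-! ### Certificates for monotone wins of two lions -/

/-- The check of a monotone win of two lions. -/
def runB (n : ℕ) (nb : List (List ℕ)) : ℕ → ℕ → ℕ → List (ℕ × ℕ × ℕ) → Bool
  | _, _, m, [] => (List.range n).all fun v => m.testBit v
  | p0, p1, m, r :: rest =>
    (p0 :: nb.getD p0 []).contains r.1 && (p1 :: nb.getD p1 []).contains r.2.1 &&
    leads n nb p0 p1 r.1 r.2.1 m r.2.2 && covers n nb p0 p1 r.1 r.2.1 m r.2.2 &&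
    (List.range n).all (fun v => !(m.testBit v) || r.2.2.testBit v) &&
    runB n nb r.1 r.2.1 r.2.2 rest

theorem runB_sound {n : ℕ} {G : SimpleGraph (Fin n)} {nb : List (List ℕ)} (hG : Describes G nb)
    (hnb : ∀ v : Fin n, ∀ u ∈ nb.getD v [], u < n) (L : List (ℕ × ℕ × ℕ)) :
    ∀ (p : Fin 2 → Fin n) (m : ℕ), runB n nb (p 0) (p 1) m L = true →
      Win G p (maskSet n m) := by
  induction L with
  | nil =>
    intro p m h
    unfold runB at h
    rw [List.all_eq_true] at h
    have e : maskSet n m = Set.univ := by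
      rw [Set.eq_univ_iff_forall]
      intro v
      exact h v (List.mem_range.2 v.2)
    rw [e]
    exact Win.done p
  | cons r rest ih =>
    intro p m h
    unfold runB at h
    simp only [Bool.and_eq_true] at h
    obtain ⟨⟨⟨⟨⟨h1, h2⟩, h3⟩, h4⟩, h5⟩, h6⟩ := h
    have hq : ∀ (x : Fin n) (y : ℕ), ((x : ℕ) :: nb.getD x []).contains y = true →
        ∃ z : Fin n, (z : ℕ) = y ∧ (z = x ∨ G.Adj x z) := by
      intro x y hy
      rw [List.contains_iff_mem, List.mem_cons] at hy
      rcases hy with hy | hy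
      · exact ⟨x, hy.symm, Or.inl rfl⟩
      · exact ⟨⟨y, hnb x y hy⟩, rfl, Or.inr ((hG x ⟨y, hnb x y hy⟩).2 hy)⟩
    obtain ⟨z0, hz0, hz0'⟩ := hq _ _ h1
    obtain ⟨z1, hz1, hz1'⟩ := hq _ _ h2
    have hz : ∀ i : Fin 2, (![z0, z1] : Fin 2 → Fin n) i = p i ∨
        G.Adj (p i) ((![z0, z1] : Fin 2 → Fin n) i) := by
      intro i
      fin_cases i
      · exact hz0'
      · exact hz1'
    have e0 : (((![z0, z1] : Fin 2 → Fin n) 0 : Fin n) : ℕ) = r.1 := hz0
    have e1 : (((![z0, z1] : Fin 2 → Fin n) 1 : Fin n) : ℕ) = r.2.1 := hz1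
    rw [← e0, ← e1] at h3 h4 h6
    have hst : stepSet G p ![z0, z1] (maskSet n m) = maskSet n r.2.2 :=
      Set.Subset.antisymm (leads_sound hG hnb p _ m _ h3) (covers_sound hG hnb p _ m _ h4)
    refine Win.step p ![z0, z1] _ hz ?_ ?_
    · rw [hst]
      intro v hv
      rw [List.all_eq_true] at h5
      have := h5 v (List.mem_range.2 v.2)
      have hv' : m.testBit v = true := hv
      rw [hv'] at this
      have h7 : r.2.2.testBit v = true := by simpa using this
      exact h7
    · rw [hst]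
      exact ih _ _ h6

def paths4 : List (List (ℕ × ℕ × ℕ)) :=
  [[],
   [],
   [],
   [(1, 3, 10), (0, 3, 11), (2, 3, 15)],
   [],
   [(1, 2, 6), (0, 2, 7), (3, 2, 15)],
   [(1, 2, 6), (1, 0, 7), (1, 3, 15)],
   [(0, 1, 3), (0, 0, 3), (2, 3, 15)],
   [],
   [(0, 3, 9), (1, 3, 11), (2, 3, 15)],
   [(0, 3, 9), (2, 3, 13), (1, 3, 15)],
   [],
   [(0, 1, 3), (3, 2, 15)],
   [(0, 1, 3), (3, 2, 15)],
   [(0, 2, 5), (3, 1, 15)],
   [(0, 1, 3), (0, 2, 7), (3, 2, 15)],
   [],
   [(0, 2, 5), (1, 2, 7), (3, 2, 15)],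
   [(0, 1, 3), (2, 3, 15)],
   [(0, 1, 3), (2, 3, 15)],
   [(0, 2, 5), (3, 2, 13), (1, 2, 15)],
   [],
   [(0, 3, 9), (2, 1, 15)],
   [(0, 1, 3), (0, 3, 11), (2, 3, 15)],
   [(0, 2, 5), (0, 1, 7), (0, 3, 15)],
   [(0, 0, 1), (1, 1, 3), (2, 3, 15)],
   [(0, 3, 9), (2, 1, 15)],
   [(0, 0, 1), (1, 2, 7), (3, 2, 15)],
   [(0, 2, 5), (3, 1, 15)],
   [(0, 0, 1), (1, 3, 11), (2, 3, 15)],
   [(0, 2, 5), (3, 1, 15)],
   [(0, 2, 5), (0, 1, 7), (0, 3, 15)],
   [],
   [(0, 2, 5), (1, 3, 15)],
   [(0, 1, 3), (2, 1, 7), (3, 1, 15)],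
   [(0, 2, 5), (1, 3, 15)],
   [(0, 1, 3), (3, 1, 11), (2, 1, 15)],
   [(0, 3, 9), (1, 2, 15)],
   [],
   [(0, 1, 3), (0, 0, 3), (2, 3, 15)],
   [(0, 1, 3), (0, 2, 7), (0, 3, 15)],
   [(0, 3, 9), (1, 2, 15)],
   [(0, 0, 1), (2, 2, 5), (1, 3, 15)],
   [(0, 0, 1), (1, 2, 7), (1, 3, 15)],
   [(0, 1, 3), (3, 2, 15)],
   [(0, 1, 3), (3, 2, 15)],
   [(0, 0, 1), (2, 3, 13), (1, 3, 15)],
   [(0, 1, 3), (0, 2, 7), (0, 3, 15)],
   [(0, 1, 3), (0, 3, 11), (0, 2, 15)],
   [(0, 2, 5), (1, 3, 15)],
   [(0, 1, 3), (2, 3, 15)],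
   [(0, 1, 3), (2, 3, 15)],
   [(0, 0, 1), (3, 3, 9), (1, 2, 15)],
   [(0, 0, 1), (1, 3, 11), (1, 2, 15)],
   [(0, 0, 1), (2, 3, 13), (2, 1, 15)],
   [(0, 1, 3), (0, 3, 11), (0, 2, 15)],
   [],
   [(0, 0, 1), (1, 1, 3), (2, 3, 15)],
   [(0, 0, 1), (2, 2, 5), (1, 3, 15)],
   [(0, 0, 1), (1, 2, 7), (1, 3, 15)],
   [(0, 0, 1), (3, 3, 9), (1, 2, 15)],
   [(0, 0, 1), (1, 3, 11), (1, 2, 15)],
   [(0, 0, 1), (2, 3, 13), (2, 1, 15)],
   []]
def invs4 : List (List (List (List ℕ))) :=
  [[[[1], [3], [5], [9]], [[3], [2], [6], [10]], [[5], [6], [4], [12]], [[9], [10], [12], [8]]],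
   [[[3], [3], [7], [11]], [[3], [3], [7], [11]], [[7], [7], [4], [12]], [[11], [11], [12], [8]]],
   [[[5], [7], [5], [13]], [[7], [2], [7], [10]], [[5], [7], [5], [13]], [[13], [10], [13], [8]]],
   [],
   [[[9], [11], [13], [9]], [[11], [2], [6], [11]], [[13], [6], [4], [13]], [[9], [11], [13], [9]]],
   [],
   [],
   [],
   [[[1], [7], [7], [9]], [[7], [6], [6], [14]], [[7], [6], [6], [14]], [[9], [14], [14], [8]]],
   [],
   [],
   [[[7], [7], [7], [9]], [[7], [7], [7], [10]], [[7], [7], [7], [12]], [[9], [10], [12], [8]]],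
   [],
   [],
   [],
   [],
   [[[1], [11], [5], [11]], [[11], [10], [14], [10]], [[5], [14], [4], [14]], [[11], [10], [14], [10]]],
   [],
   [],
   [],
   [],
   [[[11], [11], [5], [11]], [[11], [11], [6], [11]], [[5], [6], [4], [12]], [[11], [11], [12], [11]]],
   [],
   [],
   [],
   [],
   [],
   [],
   [],
   [],
   [],
   [],
   [[[1], [3], [13], [13]], [[3], [2], [14], [14]], [[13], [14], [12], [12]], [[13], [14], [12], [12]]],
   [],
   [],
   [],
   [],
   [],
   [[[13], [3], [13], [13]], [[3], [2], [6], [10]], [[13], [6], [13], [13]], [[13], [10], [13], [13]]],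
   [],
   [],
   [],
   [],
   [],
   [],
   [],
   [],
   [],
   [],
   [],
   [],
   [],
   [],
   [],
   [],
   [],
   [[[1], [3], [5], [9]], [[3], [14], [14], [14]], [[5], [14], [14], [14]], [[9], [14], [14], [14]]],
   [],
   [],
   [],
   [],
   [],
   [],
   [[[1], [3], [5], [9]], [[3], [2], [6], [10]], [[5], [6], [4], [12]], [[9], [10], [12], [8]]]]


/-- The neighbour lists of the graph on four vertices with the given pairs of adjacent vertices. -/
def nb4 (a b c d e f : Bool) : List (List ℕ) :=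
  [(if a then [1] else []) ++ (if b then [2] else []) ++ (if c then [3] else []),
   (if a then [0] else []) ++ (if d then [2] else []) ++ (if e then [3] else []),
   (if b then [0] else []) ++ (if d then [1] else []) ++ (if f then [3] else []),
   (if c then [0] else []) ++ (if e then [1] else []) ++ (if f then [2] else [])]

/-- The code of the graph. -/
def code4 (a b c d e f : Bool) : ℕ :=
  a.toNat + 2 * b.toNat + 4 * c.toNat + 8 * d.toNat + 16 * e.toNat + 32 * f.toNat

/-- The check for one graph on four vertices. -/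
def good4 (a b c d e f : Bool) : Bool :=
  match paths4.getD (code4 a b c d e f) [] with
  | [] => checkInv 4 (nb4 a b c d e f)
      (fun p q => ((invs4.getD (code4 a b c d e f) []).getD p []).getD q [])
  | r :: rest => decide (r.1 < 4) && decide (r.2.1 < 4) &&
      (List.range 4).all (fun v => (r.2.2.testBit v) == (v == r.1 || v == r.2.1)) &&
      runB 4 (nb4 a b c d e f) r.1 r.2.1 r.2.2 rest

theorem good4_all : ∀ a b c d e f : Bool, good4 a b c d e f = true := by
  decide +kernel

theorem nb4_lt : ∀ a b c d e f : Bool, ∀ v : Fin 4, ∀ u ∈ (nb4 a b c d e f).getD v [], u < 4 := by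
  decide +kernel

theorem describes_nb4 (G : SimpleGraph (Fin 4)) [DecidableRel G.Adj] :
    Describes G (nb4 (decide (G.Adj 0 1)) (decide (G.Adj 0 2)) (decide (G.Adj 0 3))
      (decide (G.Adj 1 2)) (decide (G.Adj 1 3)) (decide (G.Adj 2 3))) := by
  have h01 := G.adj_comm 0 1
  have h02 := G.adj_comm 0 2
  have h03 := G.adj_comm 0 3
  have h12 := G.adj_comm 1 2
  have h13 := G.adj_comm 1 3
  have h23 := G.adj_comm 2 3
  intro u v
  fin_cases u <;> fin_cases v <;>
    simp [nb4, List.getD, h01, h02, h03, h12, h13, h23]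

/-- On four vertices, two lions that can sweep can sweep monotonically. -/
theorem monoSweeps_four (G : SimpleGraph (Fin 4)) (hs : Sweeps G 2) : MonoSweeps G 2 := by
  classical
  have hG := describes_nb4 G
  have hnb := nb4_lt (decide (G.Adj 0 1)) (decide (G.Adj 0 2)) (decide (G.Adj 0 3))
      (decide (G.Adj 1 2)) (decide (G.Adj 1 3)) (decide (G.Adj 2 3))
  have hgood := good4_all (decide (G.Adj 0 1)) (decide (G.Adj 0 2)) (decide (G.Adj 0 3))
      (decide (G.Adj 1 2)) (decide (G.Adj 1 3)) (decide (G.Adj 2 3))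
  generalize decide (G.Adj 0 1) = a at *
  generalize decide (G.Adj 0 2) = b at *
  generalize decide (G.Adj 0 3) = c at *
  generalize decide (G.Adj 1 2) = d at *
  generalize decide (G.Adj 1 3) = e at *
  generalize decide (G.Adj 2 3) = f at *
  unfold good4 at hgood
  split at hgood
  · exact absurd hs (not_sweeps_of_check hG hnb _ hgood)
  · rename_i r rest _
    simp only [Bool.and_eq_true, decide_eq_true_eq, List.all_eq_true, List.mem_range] at hgood
    obtain ⟨⟨⟨h0, h1⟩, h2⟩, h3⟩ := hgood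
    refine Win.monoSweeps (p0 := ![⟨r.1, h0⟩, ⟨r.2.1, h1⟩]) ?_
    have e : {v | ∃ i, (![⟨r.1, h0⟩, ⟨r.2.1, h1⟩] : Fin 2 → Fin 4) i = v} = maskSet 4 r.2.2 := by
      ext v
      have := h2 v v.2
      rw [beq_iff_eq] at this
      show (∃ i, (![⟨r.1, h0⟩, ⟨r.2.1, h1⟩] : Fin 2 → Fin 4) i = v) ↔ r.2.2.testBit v = true
      rw [this, Fin.exists_fin_two]
      simp only [Bool.or_eq_true, beq_iff_eq]
      constructor
      · rintro (h | h)
        · left
          rw [← h]
          rfl
        · right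
          rw [← h]
          rfl
      · rintro (h | h)
        · left
          exact Fin.ext h.symm
        · right
          exact Fin.ext h.symm
    rw [e]
    exact runB_sound hG hnb rest _ _ h3

/-! ### Many lions -/

theorem monoSweeps_of_card_le {n k : ℕ} (hn : n ≤ k) (G : SimpleGraph (Fin n))
    (hs : Sweeps G k) (hk : 1 ≤ k) : MonoSweeps G k := by
  obtain ⟨p, -⟩ := hs
  have x : Fin n := p 0 ⟨0, hk⟩
  refine ⟨fun _ i => if h : (i : ℕ) < n then ⟨i, h⟩ else x, fun t i => Or.inl rfl, 0, ?_, by omega⟩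
  rw [Set.eq_univ_iff_forall]
  intro v
  refine ⟨⟨v, lt_of_lt_of_le v.2 hn⟩, ?_⟩
  simp

theorem monoSweeps_of_card_succ {k : ℕ} (G : SimpleGraph (Fin (k + 1)))
    (hs : Sweeps G k) : MonoSweeps G k := by
  classical
  by_cases hE : ∃ u v, G.Adj u v
  · obtain ⟨u, v, huv⟩ := hE
    refine Win.monoSweeps (p0 := v.succAbove) ?_
    have e : {w | ∃ i, v.succAbove i = w} = ({v}ᶜ : Set (Fin (k + 1))) := by
      ext w
      constructor
      · rintro ⟨i, rfl⟩
        exact Fin.succAbove_ne v i
      · intro hw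
        exact Fin.exists_succAbove_eq hw
    rw [e]
    have hst : stepSet G v.succAbove (fun i => if v.succAbove i = u then v else v.succAbove i)
        ({v}ᶜ : Set (Fin (k + 1))) = Set.univ := by
      rw [Set.eq_univ_iff_forall]
      intro w
      by_cases hw : w = v
      · left
        obtain ⟨i, hi⟩ := Fin.exists_succAbove_eq huv.ne
        refine ⟨i, ?_⟩
        simp only
        rw [if_pos hi, hw]
      · by_cases hwu : w = u
        · right
          refine ⟨hw, fun x hx hxv => ?_⟩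
          have hxv' : x = v := by
            by_contra h
            exact hxv h
          obtain ⟨i, hi⟩ := Fin.exists_succAbove_eq huv.ne
          refine ⟨i, by rw [hi, hwu], ?_⟩
          simp only
          rw [if_pos hi, hxv']
        · left
          obtain ⟨i, hi⟩ := Fin.exists_succAbove_eq hw
          refine ⟨i, ?_⟩
          simp only
          rw [hi, if_neg hwu]
    refine Win.step _ (fun i => if v.succAbove i = u then v else v.succAbove i) _ ?_ ?_ ?_
    · intro i
      by_cases hi : v.succAbove i = u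
      · right
        rw [if_pos hi, hi]
        exact huv
      · left
        rw [if_neg hi]
    · rw [hst]
      exact Set.subset_univ _
    · rw [hst]
      exact Win.done _
  · exfalso
    push Not at hE
    obtain ⟨p, hp, T, hT⟩ := hs
    have key : ∀ t, p t = p 0 ∧ cleared G p t ⊆ {w | ∃ i, p 0 i = w} := by
      intro t
      induction t with
      | zero => exact ⟨rfl, fun w hw => hw⟩
      | succ t ih =>
        have h1 : p (t + 1) = p t := by
          funext i
          rcases hp t i with h | h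
          · exact h
          · exact absurd h (hE _ _)
        refine ⟨h1.trans ih.1, ?_⟩
        rintro w (hw | ⟨hw, _⟩)
        · rw [h1, ih.1] at hw
          exact hw
        · exact ih.2 hw
    have h2 : Function.Surjective (p 0) := by
      intro w
      have : w ∈ cleared G p T := by rw [hT]; trivial
      exact (key T).2 this
    have h3 := Fintype.card_le_of_surjective _ h2
    rw [Fintype.card_fin, Fintype.card_fin] at h3
    omega

/-- On at most four vertices a sweepable graph is monotonically sweepable. -/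
theorem monoSweeps_of_le_four {n k : ℕ} (hn : n ≤ 4) (hk : 1 ≤ k) (G : SimpleGraph (Fin n))
    (hs : Sweeps G k) : MonoSweeps G k := by
  rcases Nat.lt_or_ge k n with h | h
  · by_cases h1 : k = 1
    · subst h1
      exact monoSweeps_one hs
    · by_cases h2 : n = k + 1
      · subst h2
        exact monoSweeps_of_card_succ G hs
      · have hk2 : k = 2 := by omega
        have hn4 : n = 4 := by omega
        subst hk2
        subst hn4
        exact monoSweeps_four G hs
  · exact monoSweeps_of_card_le h G hs hk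

/-! ### The graph `K_{2,3}` -/

/-- The neighbour lists of `K_{2,3}`. -/
def nbK : List (List ℕ) := [[2, 3, 4], [2, 3, 4], [0, 1], [0, 1], [0, 1]]

/-- The complete bipartite graph with parts `{0, 1}` and `{2, 3, 4}`. -/
def K23 : SimpleGraph (Fin 5) where
  Adj u v := ((u : ℕ) < 2 ∧ 2 ≤ (v : ℕ)) ∨ ((v : ℕ) < 2 ∧ 2 ≤ (u : ℕ))
  symm := ⟨fun u v h => h.symm⟩
  loopless := ⟨fun u h => by rcases h with ⟨h1, h2⟩ | ⟨h1, h2⟩ <;> omega⟩

theorem describes_K : Describes K23 nbK := by
  show ∀ u v : Fin 5, (((u : ℕ) < 2 ∧ 2 ≤ (v : ℕ)) ∨ ((v : ℕ) < 2 ∧ 2 ≤ (u : ℕ))) ↔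
    (v : ℕ) ∈ nbK.getD u []
  decide +kernel

theorem nbK_lt : ∀ v : Fin 5, ∀ u ∈ nbK.getD v [], u < 5 := by decide +kernel

theorem K_sweeps : Sweeps K23 2 := by
  refine sweeps_of_path describes_K nbK_lt [(0, 2), (3, 1), (0, 4)] (2, 1)
    (fun t => [5, 14, 27, 31].getD t 31) ?_ ?_ ?_ ?_
  · intro t ht i
    rw [describes_K]
    revert i
    revert t
    decide +kernel
  · decide +kernel
  · decide +kernel
  · decide +kernel

/-- The possible cleared sets of a monotone play. -/
def invM (p0 p1 : ℕ) : List ℕ :=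
  (2 ^ p0 ||| 2 ^ p1) :: (if (p0 = 0 ∧ p1 = 1) ∨ (p0 = 1 ∧ p1 = 0) then [7, 11, 19] else [])

theorem invM_closed : ((List.range 5).all fun p0 => (List.range 5).all fun p1 =>
    ((invM p0 p1).all fun m => (List.range 5).any fun v => !(m.testBit v)) &&
    ((List.range 5).all fun v => ((2 ^ p0 ||| 2 ^ p1).testBit v) == (v == p0 || v == p1)) &&
    ((invM p0 p1).all fun m => (p0 :: nbK.getD p0 []).all fun q0 =>
      (p1 :: nbK.getD p1 []).all fun q1 => !(covers 5 nbK p0 p1 q0 q1 m m) ||
      (invM q0 q1).any fun m' => leads 5 nbK p0 p1 q0 q1 m m' &&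
        covers 5 nbK p0 p1 q0 q1 m m')) = true := by
  decide +kernel

theorem K_not_mono : ¬ MonoSweeps K23 2 := by
  rintro ⟨p, hp, T, hT, hmono⟩
  have h := invM_closed
  simp only [List.all_eq_true, List.any_eq_true, Bool.and_eq_true, List.mem_range,
    Bool.or_eq_true] at h
  have key : ∀ t ≤ T, ∃ m ∈ invM (p t 0) (p t 1), cleared K23 p t = maskSet 5 m := by
    intro t
    induction t with
    | zero =>
      intro _
      refine ⟨_, List.mem_cons_self, ?_⟩
      obtain ⟨⟨_, h2⟩, _⟩ := h (p 0 0) (p 0 0).2 (p 0 1) (p 0 1).2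
      ext v
      have h3 := h2 v v.2
      rw [beq_iff_eq] at h3
      show (∃ i, p 0 i = v) ↔ (2 ^ ((p 0 0 : Fin 5) : ℕ) ||| 2 ^ ((p 0 1 : Fin 5) : ℕ)).testBit v = true
      rw [h3, Fin.exists_fin_two]
      simp only [Bool.or_eq_true, beq_iff_eq]
      constructor
      · rintro (h | h)
        · left
          rw [← h]
        · right
          rw [← h]
      · rintro (h | h)
        · left
          exact Fin.ext h.symm
        · right
          exact Fin.ext h.symm
    | succ t ih =>
      intro ht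
      obtain ⟨m, hm, hC⟩ := ih (by omega)
      obtain ⟨_, h3⟩ := h (p t 0) (p t 0).2 (p t 1) (p t 1).2
      have hq : ∀ i, ((p (t + 1) i : Fin 5) : ℕ) ∈
          ((p t i : Fin 5) : ℕ) :: nbK.getD (p t i) [] := by
        intro i
        rcases hp t i with h' | h'
        · rw [h']
          exact List.mem_cons_self
        · exact List.mem_cons_of_mem _ ((describes_K _ _).1 h')
      have hmon := hmono t (by omega)
      rw [cleared_succ, hC] at hmon
      rcases h3 m hm _ (hq 0) _ (hq 1) with h4 | ⟨m', hm', h5, h6⟩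
      · exfalso
        have h7 : covers 5 nbK (p t 0) (p t 1) (p (t + 1) 0) (p (t + 1) 1) m m = true := by
          unfold covers
          rw [List.all_eq_true]
          intro v hv
          rw [List.mem_range] at hv
          by_cases hmv : m.testBit v = true
          · have h8 := hmon (show (⟨v, hv⟩ : Fin 5) ∈ maskSet 5 m from hmv)
            rw [mem_step_iff describes_K (p t) (p (t + 1)) m nbK_lt] at h8
            rw [Bool.or_eq_true]
            exact Or.inl h8
          · simp [hmv]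
        rw [h7] at h4
        exact absurd h4 (by simp)
      · refine ⟨m', hm', ?_⟩
        rw [cleared_succ, hC]
        exact Set.Subset.antisymm (leads_sound describes_K nbK_lt (p t) (p (t + 1)) m m' h5)
          (covers_sound describes_K nbK_lt (p t) (p (t + 1)) m m' h6)
  obtain ⟨m, hm, hC⟩ := key T le_rfl
  obtain ⟨⟨h2, _⟩, _⟩ := h (p T 0) (p T 0).2 (p T 1) (p T 1).2
  obtain ⟨v, hv, hv'⟩ := h2 m hm
  have h4 : (⟨v, hv⟩ : Fin 5) ∈ maskSet 5 m := by rw [← hC, hT]; trivial
  have h5 : m.testBit v = true := h4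
  rw [h5] at hv'
  exact absurd hv' (by simp)

end Pool.Agent.V11150.Lions
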