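import Mathlib

set_option autoImplicit false

namespace Pool.Agent.V11150.DenseFlex

/-- The Euclidean plane. -/
abbrev E2 : Type := EuclideanSpace ℝ (Fin 2)

/-- The realization `p` of `G` has non-collinear neighbourhoods: for each vertex `v`, the points of
the neighbours of `v` do not all lie on one line. -/
def NonCollinearNbhds {V : Type} (G : SimpleGraph V) (p : V → E2) : Prop :=
  ∀ v, ¬ Collinear ℝ (p '' G.neighborSet v)

/-- The framework `(G', p|V(G'))` is rigid: every realization of `G'` that is close enough to `p`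
and has the same edge lengths is congruent to `p`. -/
def RigidSub {V : Type} {G : SimpleGraph V} (G' : G.Subgraph) (p : V → E2) : Prop :=
  ∃ ε > (0 : ℝ), ∀ q : G'.verts → E2, (∀ i : G'.verts, dist (q i) (p i) < ε) →
    (∀ i j : G'.verts, G'.Adj i j → dist (q i) (q j) = dist (p i) (p j)) →
    ∀ i j : G'.verts, dist (q i) (q j) = dist (p i) (p j)

/-- The point with the given coordinates. -/
noncomputable def pt (a b : ℝ) : E2 := !₂[a, b]

theorem pt_zero (a b : ℝ) : pt a b 0 = a := rfl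

theorem pt_one (a b : ℝ) : pt a b 1 = b := rfl

theorem dist_pt (a b c d : ℝ) : dist (pt a b) (pt c d) = √((a - c) ^ 2 + (b - d) ^ 2) := by
  rw [EuclideanSpace.dist_eq, Fin.sum_univ_two, pt_zero, pt_one, pt_zero, pt_one,
    Real.dist_eq, Real.dist_eq, sq_abs, sq_abs]

theorem dist_pt_eq_iff (a b c d a' b' c' d' : ℝ) :
    dist (pt a b) (pt c d) = dist (pt a' b') (pt c' d') ↔
      (a - c) ^ 2 + (b - d) ^ 2 = (a' - c') ^ 2 + (b' - d') ^ 2 := by
  rw [dist_pt, dist_pt, Real.sqrt_inj (by positivity) (by positivity)]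

theorem dist_pt_le (a b c d : ℝ) : dist (pt a b) (pt c d) ≤ |a - c| + |b - d| := by
  rw [dist_pt, Real.sqrt_le_iff]
  refine ⟨by positivity, ?_⟩
  have h1 := sq_abs (a - c)
  have h2 := sq_abs (b - d)
  nlinarith [abs_nonneg (a - c), abs_nonneg (b - d),
    mul_nonneg (abs_nonneg (a - c)) (abs_nonneg (b - d))]

/-- The vertex set: two copies of the vertex set of `K_{m,m}`. -/
abbrev W (m : ℕ) : Type := Fin 2 × (Fin m ⊕ Fin m)

/-- The graph `K_{m,m} □ K_2`. -/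
def BG (m : ℕ) : SimpleGraph (W m) where
  Adj x y := (x.1 = y.1 ∧ x.2.isLeft ≠ y.2.isLeft) ∨ (x.1 ≠ y.1 ∧ x.2 = y.2)
  symm := ⟨fun x y h => by
    rcases h with ⟨h1, h2⟩ | ⟨h1, h2⟩
    · exact Or.inl ⟨h1.symm, h2.symm⟩
    · exact Or.inr ⟨h1.symm, h2.symm⟩⟩
  loopless := ⟨fun x h => by
    rcases h with ⟨_, h2⟩ | ⟨h1, _⟩
    · exact h2 rfl
    · exact h1 rfl⟩

/-- The first coordinate of a vertex of `K_{m,m}` at time `t`. -/
noncomputable def cx {m : ℕ} (t : ℝ) : Fin m ⊕ Fin m → ℝ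
  | Sum.inl i => √(((i : ℕ) + 1 : ℝ) ^ 2 + t)
  | Sum.inr _ => 0

/-- The second coordinate of a vertex of `K_{m,m}` at time `t`. -/
noncomputable def cy {m : ℕ} (t : ℝ) : Fin m ⊕ Fin m → ℝ
  | Sum.inl _ => 0
  | Sum.inr j => √(((j : ℕ) + 1 : ℝ) ^ 2 - t)

/-- The realizations: Dixon's motion with parameter `t`, and the second copy is translated by
`(a, b)`. -/
noncomputable def R {m : ℕ} (t a b : ℝ) (w : W m) : E2 :=
  pt (cx t w.2 + ((w.1 : ℕ) : ℝ) * a) (cy t w.2 + ((w.1 : ℕ) : ℝ) * b)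

theorem fin2_cast_sub {s s' : Fin 2} (h : s ≠ s') : (((s : ℕ) : ℝ) - ((s' : ℕ) : ℝ)) ^ 2 = 1 := by
  fin_cases s <;> fin_cases s' <;> simp_all

/-- Edge lengths are preserved. -/
theorem R_edge {m : ℕ} {t a b : ℝ} (ht0 : 0 ≤ t) (ht1 : t ≤ 1) (hab : a ^ 2 + b ^ 2 = 1 / 2)
    {x y : W m} (h : (BG m).Adj x y) :
    dist (R t a b x) (R t a b y) = dist (R 0 (1 / 2) (1 / 2) x) (R 0 (1 / 2) (1 / 2) y) := by
  unfold R
  rw [dist_pt_eq_iff]
  obtain ⟨s, w⟩ := x
  obtain ⟨s', w'⟩ := y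
  have hsq : ∀ (i : Fin m) (t : ℝ), -1 ≤ t → √(((i : ℕ) + 1 : ℝ) ^ 2 + t) ^ 2 =
      ((i : ℕ) + 1 : ℝ) ^ 2 + t := by
    intro i t ht
    refine Real.sq_sqrt ?_
    have : (0 : ℝ) ≤ ((i : ℕ) : ℝ) := Nat.cast_nonneg _
    nlinarith
  rcases h with ⟨h1, h2⟩ | ⟨h1, h2⟩
  · simp only at h1 h2
    subst h1
    rcases w with i | i <;> rcases w' with j | j
    · simp at h2
    · simp only [cx, cy, sub_eq_add_neg (_ ^ 2 : ℝ) t, sub_zero, add_zero]
      have e1 := hsq i t (by linarith)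
      have e2 := hsq j (-t) (by linarith)
      have e3 := hsq i 0 (by linarith)
      have e4 := hsq j 0 (by linarith)
      rw [add_zero] at e3 e4
      have e5 : ∀ X Y c d : ℝ, (X + c - (0 + c)) ^ 2 + (0 + d - (Y + d)) ^ 2 = X ^ 2 + Y ^ 2 := by
        intro X Y c d
        ring
      rw [e5, e5, e1, e2, e3, e4]
      ring
    · simp only [cx, cy, sub_eq_add_neg (_ ^ 2 : ℝ) t, sub_zero, add_zero]
      have e1 := hsq j t (by linarith)
      have e2 := hsq i (-t) (by linarith)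
      have e3 := hsq j 0 (by linarith)
      have e4 := hsq i 0 (by linarith)
      rw [add_zero] at e3 e4
      have e5 : ∀ X Y c d : ℝ, (0 + c - (X + c)) ^ 2 + (Y + d - (0 + d)) ^ 2 = X ^ 2 + Y ^ 2 := by
        intro X Y c d
        ring
      rw [e5, e5, e1, e2, e3, e4]
      ring
    · simp at h2
  · simp only at h1 h2
    subst h2
    have h3 := fin2_cast_sub h1
    have e5 : ∀ X Y c d a b : ℝ, (X + c * a - (X + d * a)) ^ 2 + (Y + c * b - (Y + d * b)) ^ 2 =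
        (c - d) ^ 2 * (a ^ 2 + b ^ 2) := by
      intro X Y c d a b
      ring
    rw [e5, e5, h3, hab]
    norm_num

/-- The base realization. -/
noncomputable def P {m : ℕ} (w : W m) : E2 := R 0 (1 / 2) (1 / 2) w

theorem sqrt_diff_le {x t : ℝ} (hx : 1 ≤ x) (ht0 : 0 ≤ t) (ht1 : t ≤ 1) :
    |√(x ^ 2 + t) - √(x ^ 2)| ≤ t ∧ |√(x ^ 2 - t) - √(x ^ 2)| ≤ t := by
  rw [Real.sqrt_sq (by linarith)]
  constructor
  · have h1 : x ≤ √(x ^ 2 + t) := Real.le_sqrt_of_sq_le (by linarith)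
    have h2 : √(x ^ 2 + t) ≤ x + t := by
      rw [Real.sqrt_le_iff]
      exact ⟨by linarith, by nlinarith⟩
    rw [abs_le]
    exact ⟨by linarith, by linarith⟩
  · have h1 : √(x ^ 2 - t) ≤ x := by
      rw [Real.sqrt_le_iff]
      exact ⟨by linarith, by linarith⟩
    have h2 : x - t ≤ √(x ^ 2 - t) := Real.le_sqrt_of_sq_le (by nlinarith)
    rw [abs_le]
    exact ⟨by linarith, by linarith⟩

theorem close_dixon {m : ℕ} {t : ℝ} (ht0 : 0 ≤ t) (ht1 : t ≤ 1) (w : W m) :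
    dist (R t (1 / 2) (1 / 2) w) (P w) ≤ t := by
  unfold P R
  refine (dist_pt_le _ _ _ _).trans ?_
  obtain ⟨s, w⟩ := w
  rcases w with i | i
  · simp only [cx, cy]
    have h1 := (sqrt_diff_le (x := ((i : ℕ) + 1 : ℝ)) (by
      have : (0 : ℝ) ≤ ((i : ℕ) : ℝ) := Nat.cast_nonneg _
      linarith) ht0 ht1).1
    rw [add_sub_add_right_eq_sub, add_sub_add_right_eq_sub, add_zero, sub_self, abs_zero, add_zero]
    exact h1
  · simp only [cx, cy]
    have h1 := (sqrt_diff_le (x := ((i : ℕ) + 1 : ℝ)) (by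
      have : (0 : ℝ) ≤ ((i : ℕ) : ℝ) := Nat.cast_nonneg _
      linarith) ht0 ht1).2
    rw [add_sub_add_right_eq_sub, add_sub_add_right_eq_sub, sub_self, abs_zero, zero_add,
      sub_zero]
    exact h1

/-- The translation vector after a rotation with parameter `u`. -/
noncomputable def ra (u : ℝ) : ℝ := 1 / 2 - u * (1 + u) / (1 + u ^ 2)

/-- The translation vector after a rotation with parameter `u`. -/
noncomputable def rb (u : ℝ) : ℝ := 1 / 2 + u * (1 - u) / (1 + u ^ 2)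

theorem ra_rb (u : ℝ) : ra u ^ 2 + rb u ^ 2 = 1 / 2 := by
  unfold ra rb
  have h : (1 + u ^ 2) ≠ 0 := by positivity
  field_simp
  ring

theorem close_shear {m : ℕ} {u : ℝ} (hu : |u| ≤ 1) (w : W m) :
    dist (R 0 (ra u) (rb u) w) (P w) ≤ 4 * |u| := by
  unfold P R
  refine (dist_pt_le _ _ _ _).trans ?_
  obtain ⟨s, w⟩ := w
  simp only
  rw [add_sub_add_left_eq_sub, add_sub_add_left_eq_sub, ← mul_sub, ← mul_sub, abs_mul, abs_mul]
  have hs : |((s : ℕ) : ℝ)| ≤ 1 := by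
    rw [abs_of_nonneg (Nat.cast_nonneg _)]
    have : (s : ℕ) ≤ 1 := by omega
    exact_mod_cast this
  have hpos : 0 < 1 + u ^ 2 := by positivity
  rw [abs_le] at hu
  have h1 : |ra u - 1 / 2| ≤ 2 * |u| := by
    unfold ra
    have e : 1 / 2 - u * (1 + u) / (1 + u ^ 2) - 1 / 2 = -(u * ((1 + u) / (1 + u ^ 2))) := by ring
    rw [e, abs_neg, abs_mul, mul_comm]
    refine mul_le_mul_of_nonneg_right ?_ (abs_nonneg u)
    rw [abs_of_nonneg (div_nonneg (by linarith) hpos.le), div_le_iff₀ hpos]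
    nlinarith
  have h2 : |rb u - 1 / 2| ≤ 2 * |u| := by
    unfold rb
    have e : 1 / 2 + u * (1 - u) / (1 + u ^ 2) - 1 / 2 = u * ((1 - u) / (1 + u ^ 2)) := by ring
    rw [e, abs_mul, mul_comm]
    refine mul_le_mul_of_nonneg_right ?_ (abs_nonneg u)
    rw [abs_of_nonneg (div_nonneg (by linarith) hpos.le), div_le_iff₀ hpos]
    nlinarith
  have h3 : |((s : ℕ) : ℝ)| * |ra u - 1 / 2| ≤ 1 * (2 * |u|) := by gcongr
  have h4 : |((s : ℕ) : ℝ)| * |rb u - 1 / 2| ≤ 1 * (2 * |u|) := by gcongr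
  linarith

/-- The base coordinates are positive integers on the axes. -/
theorem cx_zero_inl {m : ℕ} (i : Fin m) : cx 0 (Sum.inl i : Fin m ⊕ Fin m) = (i : ℕ) + 1 := by
  simp only [cx, add_zero]
  exact Real.sqrt_sq (by positivity)

theorem cy_zero_inr {m : ℕ} (i : Fin m) : cy 0 (Sum.inr i : Fin m ⊕ Fin m) = (i : ℕ) + 1 := by
  simp only [cy, sub_zero]
  exact Real.sqrt_sq (by positivity)

theorem base_inj {m : ℕ} {w w' : Fin m ⊕ Fin m} (h1 : cx 0 w = cx 0 w') (h2 : cy 0 w = cy 0 w') :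
    w = w' := by
  rcases w with i | i <;> rcases w' with j | j
  · rw [cx_zero_inl, cx_zero_inl] at h1
    have : (i : ℕ) = j := by exact_mod_cast (add_right_cancel h1 : ((i : ℕ) : ℝ) = (j : ℕ))
    rw [Fin.ext this]
  · rw [cx_zero_inl] at h1
    simp only [cx] at h1
    have : (0 : ℝ) ≤ ((i : ℕ) : ℝ) := Nat.cast_nonneg _
    linarith
  · rw [cx_zero_inl] at h1
    simp only [cx] at h1
    have : (0 : ℝ) ≤ ((j : ℕ) : ℝ) := Nat.cast_nonneg _
    linarith
  · rw [cy_zero_inr, cy_zero_inr] at h2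
    have : (i : ℕ) = j := by exact_mod_cast (add_right_cancel h2 : ((i : ℕ) : ℝ) = (j : ℕ))
    rw [Fin.ext this]

/-- Dixon's motion changes the distances on an axis. -/
theorem sqrt_change {x y t : ℝ} (hx : 0 ≤ x ^ 2 + t) (hy : 0 ≤ y ^ 2 + t) (ht : t ≠ 0)
    (h : (√(x ^ 2 + t) - √(y ^ 2 + t)) ^ 2 = (x - y) ^ 2) : x = y := by
  obtain ⟨X, hX⟩ : ∃ X, X = √(x ^ 2 + t) := ⟨_, rfl⟩
  obtain ⟨Y, hY⟩ : ∃ Y, Y = √(y ^ 2 + t) := ⟨_, rfl⟩
  have hX2 : X ^ 2 = x ^ 2 + t := by rw [hX, Real.sq_sqrt hx]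
  have hY2 : Y ^ 2 = y ^ 2 + t := by rw [hY, Real.sq_sqrt hy]
  rw [← hX, ← hY] at h
  have h1 : X * Y = t + x * y := by nlinarith
  have h2 : (t + x * y) ^ 2 = (x ^ 2 + t) * (y ^ 2 + t) := by
    rw [← h1, mul_pow, hX2, hY2]
  have h3 : t * (x - y) ^ 2 = 0 := by nlinarith
  rcases mul_eq_zero.1 h3 with h4 | h4
  · exact absurd h4 ht
  · exact sub_eq_zero.1 (pow_eq_zero_iff (two_ne_zero) |>.1 h4)

/-- Pairs whose distance is changed by one of the motions. -/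
def FlexPair {m : ℕ} (x y : W m) : Prop :=
  (x.1 = y.1 ∧ x.2 ≠ y.2 ∧ x.2.isLeft = y.2.isLeft) ∨ (x.1 ≠ y.1 ∧ x.2 ≠ y.2)

theorem exists_flexPair {m : ℕ} {x y z : W m} (hxy : x ≠ y) (hxz : x ≠ z) (hyz : y ≠ z) :
    FlexPair x y ∨ FlexPair x z ∨ FlexPair y z := by
  by_contra hcon
  push Not at hcon
  obtain ⟨h1, h2, h3⟩ := hcon
  have key : ∀ x y : W m, x ≠ y → ¬ FlexPair x y →
      (x.1 = y.1 ∧ x.2.isLeft ≠ y.2.isLeft) ∨ (x.1 ≠ y.1 ∧ x.2 = y.2) := by
    intro x y hxy h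
    unfold FlexPair at h
    push Not at h
    by_cases h4 : x.1 = y.1
    · left
      exact ⟨h4, h.1 h4 (fun h5 => hxy (Prod.ext h4 h5))⟩
    · right
      exact ⟨h4, h.2 h4⟩
  obtain ⟨s1, w1⟩ := x
  obtain ⟨s2, w2⟩ := y
  obtain ⟨s3, w3⟩ := z
  have k1 := key _ _ hxy h1
  have k2 := key _ _ hxz h2
  have k3 := key _ _ hyz h3
  simp only at k1 k2 k3
  rcases k1 with ⟨a1, b1⟩ | ⟨a1, b1⟩ <;> rcases k2 with ⟨a2, b2⟩ | ⟨a2, b2⟩ <;>
    rcases k3 with ⟨a3, b3⟩ | ⟨a3, b3⟩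
  · cases h : w1.isLeft <;> cases h' : w2.isLeft <;> cases h'' : w3.isLeft <;> simp_all
  · exact a3 (a1.symm.trans a2)
  · exact a2 (a1.trans a3)
  · exact b1 (by rw [b2, b3])
  · exact a1 (a2.trans a3.symm)
  · exact b2 (by rw [b1, b3])
  · exact b3 (by rw [← b1, ← b2])
  · omega

theorem not_rigid {m : ℕ} {V : Type} [Finite V] (e : V → W m) (he : Function.Injective e)
    (G' : ((BG m).comap e).Subgraph) (h3 : 3 ≤ G'.verts.ncard) :
    ¬ RigidSub G' (fun v => P (e v)) := by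
  rintro ⟨ε, hε, hrig⟩
  obtain ⟨a, ha, b, hb, c, hc, hab, hac, hbc⟩ := (Set.two_lt_ncard (Set.toFinite _)).1 h3
  have hpair : ∃ x ∈ G'.verts, ∃ y ∈ G'.verts, FlexPair (e x) (e y) := by
    rcases exists_flexPair (fun h => hab (he h)) (fun h => hac (he h)) (fun h => hbc (he h)) with
      h | h | h
    · exact ⟨a, ha, b, hb, h⟩
    · exact ⟨a, ha, c, hc, h⟩
    · exact ⟨b, hb, c, hc, h⟩
  obtain ⟨x, hx, y, hy, hxy⟩ := hpair
  have hadj : ∀ i j : G'.verts, G'.Adj i j → (BG m).Adj (e i) (e j) := fun i j h => G'.adj_sub h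
  rcases hxy with ⟨h1, h2, h3⟩ | ⟨h1, h2⟩
  · obtain ⟨t, ht0, ht1, htε⟩ : ∃ t : ℝ, 0 < t ∧ t ≤ 1 ∧ t < ε := by
      refine ⟨min 1 (ε / 2), by positivity, min_le_left _ _, ?_⟩
      have := min_le_right (1 : ℝ) (ε / 2)
      linarith
    have h4 := hrig (fun i => R t (1 / 2) (1 / 2) (e i))
      (fun i => lt_of_le_of_lt (close_dixon ht0.le ht1 (e i)) htε)
      (fun i j hij => R_edge ht0.le ht1 (by norm_num) (hadj i j hij)) ⟨x, hx⟩ ⟨y, hy⟩
    unfold P R at h4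
    rw [dist_pt_eq_iff] at h4
    generalize e x = z at h1 h2 h3 h4
    generalize e y = z' at h1 h2 h3 h4
    obtain ⟨s, w⟩ := z
    obtain ⟨s', w'⟩ := z'
    simp only at h1 h2 h3 h4
    subst h1
    have ht1' : ∀ i : Fin m, (0 : ℝ) ≤ ((i : ℕ) : ℝ) := fun i => Nat.cast_nonneg _
    rcases w with i | i <;> rcases w' with j | j
    · rw [cx_zero_inl, cx_zero_inl] at h4
      simp only [cx, cy] at h4
      have h5 := sqrt_change (x := ((i : ℕ) : ℝ) + 1) (y := ((j : ℕ) : ℝ) + 1) (t := t)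
        (by positivity) (by positivity) ht0.ne' (by linarith)
      have h6 : (i : ℕ) = j := by exact_mod_cast (add_right_cancel h5 : ((i : ℕ) : ℝ) = (j : ℕ))
      exact h2 (by rw [Fin.ext h6])
    · simp at h3
    · simp at h3
    · rw [cy_zero_inr, cy_zero_inr] at h4
      simp only [cx, cy, sub_eq_add_neg (_ ^ 2 : ℝ) t] at h4
      have h5 := sqrt_change (x := ((i : ℕ) : ℝ) + 1) (y := ((j : ℕ) : ℝ) + 1) (t := -t)
        (by nlinarith [ht1' i]) (by nlinarith [ht1' j]) (by linarith [ht0, neg_ne_zero.2 ht0.ne']) (by linarith)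
      have h6 : (i : ℕ) = j := by exact_mod_cast (add_right_cancel h5 : ((i : ℕ) : ℝ) = (j : ℕ))
      exact h2 (by rw [Fin.ext h6])
  · obtain ⟨u, hu0, hu1, huε⟩ : ∃ u : ℝ, 0 < u ∧ u ≤ 1 ∧ 4 * u < ε := by
      refine ⟨min 1 (ε / 8), by positivity, min_le_left _ _, ?_⟩
      have := min_le_right (1 : ℝ) (ε / 8)
      linarith
    have h4 : ∀ v : ℝ, |v| = u → dist (R 0 (ra v) (rb v) (e x)) (R 0 (ra v) (rb v) (e y)) =
        dist (P (e x)) (P (e y)) := by
      intro v hv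
      exact hrig (fun i => R 0 (ra v) (rb v) (e i))
        (fun i => lt_of_le_of_lt (close_shear (by rw [hv]; exact hu1) (e i)) (by rw [hv]; exact huε))
        (fun i j hij => R_edge le_rfl zero_le_one (ra_rb v) (hadj i j hij)) ⟨x, hx⟩ ⟨y, hy⟩
    have h5 := h4 u (abs_of_pos hu0)
    have h6 := h4 (-u) (by rw [abs_neg, abs_of_pos hu0])
    unfold P R at h5 h6
    rw [dist_pt_eq_iff] at h5 h6
    generalize e x = z at h1 h2 h5 h6
    generalize e y = z' at h1 h2 h5 h6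
    obtain ⟨s, w⟩ := z
    obtain ⟨s', w'⟩ := z'
    simp only at h1 h2 h5 h6
    have hss := fin2_cast_sub h1
    obtain ⟨σ, hσ⟩ : ∃ σ : ℝ, σ = ((s : ℕ) : ℝ) - ((s' : ℕ) : ℝ) := ⟨_, rfl⟩
    obtain ⟨D1, hD1⟩ : ∃ D : ℝ, D = cx 0 w - cx 0 w' := ⟨_, rfl⟩
    obtain ⟨D2, hD2⟩ : ∃ D : ℝ, D = cy 0 w - cy 0 w' := ⟨_, rfl⟩
    rw [← hσ] at hss
    have hform : ∀ a b : ℝ, (cx 0 w + ((s : ℕ) : ℝ) * a - (cx 0 w' + ((s' : ℕ) : ℝ) * a)) ^ 2 +
        (cy 0 w + ((s : ℕ) : ℝ) * b - (cy 0 w' + ((s' : ℕ) : ℝ) * b)) ^ 2 =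
        D1 ^ 2 + D2 ^ 2 + 2 * σ * (D1 * a + D2 * b) + σ ^ 2 * (a ^ 2 + b ^ 2) := by
      intro a b
      rw [hD1, hD2, hσ]
      ring
    rw [hform, hform, ra_rb] at h5 h6
    have hσ0 : σ ≠ 0 := by
      rintro rfl
      norm_num at hss
    have h7 : σ * (D1 * ra u + D2 * rb u) = σ * (D1 * (1 / 2) + D2 * (1 / 2)) := by linarith
    have h8 : σ * (D1 * ra (-u) + D2 * rb (-u)) = σ * (D1 * (1 / 2) + D2 * (1 / 2)) := by linarith
    have h9 := mul_left_cancel₀ hσ0 h7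
    have h10 := mul_left_cancel₀ hσ0 h8
    unfold ra rb at h9 h10
    have hpos : (1 + u ^ 2 : ℝ) ≠ 0 := by positivity
    rw [neg_sq] at h10
    have h11 : D2 * (u * (1 - u)) = D1 * (u * (1 + u)) := by
      have : D2 * (u * (1 - u) / (1 + u ^ 2)) = D1 * (u * (1 + u) / (1 + u ^ 2)) := by linarith
      field_simp at this
      nlinarith
    have h12 : D2 * (-u * (1 + u)) = D1 * (-u * (1 - u)) := by
      have : D2 * (-u * (1 - -u) / (1 + u ^ 2)) = D1 * (-u * (1 + -u) / (1 + u ^ 2)) := by linarith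
      field_simp at this
      nlinarith
    have hu0' : u ≠ 0 := hu0.ne'
    have h13 : D2 * (1 - u) = D1 * (1 + u) := by
      have : u * (D2 * (1 - u)) = u * (D1 * (1 + u)) := by linarith
      exact mul_left_cancel₀ hu0' this
    have h14 : D2 * (1 + u) = D1 * (1 - u) := by
      have : u * (D2 * (1 + u)) = u * (D1 * (1 - u)) := by linarith
      exact mul_left_cancel₀ hu0' this
    have h15 : D1 = D2 := by linarith
    have h16 : D1 = 0 := by
      rw [← h15] at h13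
      have : D1 * (2 * u) = 0 := by linarith
      rcases mul_eq_zero.1 this with h | h
      · exact h
      · exact absurd h (by linarith [hu0])
    refine h2 (base_inj (by linarith) (by linarith))

/-- Collinear sets in coordinates. -/
theorem collinear_det {s : Set E2} (hs : Collinear ℝ s) {A B C : E2} (hA : A ∈ s) (hB : B ∈ s)
    (hC : C ∈ s) : (B 0 - A 0) * (C 1 - A 1) = (B 1 - A 1) * (C 0 - A 0) := by
  rw [collinear_iff_exists_forall_eq_smul_vadd] at hs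
  obtain ⟨p0, v, h⟩ := hs
  obtain ⟨ra, rfl⟩ := h A hA
  obtain ⟨rb, rfl⟩ := h B hB
  obtain ⟨rc, rfl⟩ := h C hC
  simp only [vadd_eq_add, PiLp.add_apply, PiLp.smul_apply, smul_eq_mul]
  ring

theorem nonCollinear {m : ℕ} (hm : 2 ≤ m) {V : Type} (e : V → W m) (he : Function.Surjective e) :
    NonCollinearNbhds ((BG m).comap e) (fun v => P (e v)) := by
  intro v hcol
  -- the neighbours of the vertex
  have hnb : ∀ w : W m, (BG m).Adj (e v) w →
      P w ∈ (fun v => P (e v)) '' ((BG m).comap e).neighborSet v := by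
    intro w hw
    obtain ⟨u, rfl⟩ := he w
    exact ⟨u, hw, rfl⟩
  generalize e v = z at hnb
  obtain ⟨s, w⟩ := z
  obtain ⟨s', hs'⟩ : ∃ s' : Fin 2, s ≠ s' := by
    fin_cases s
    · exact ⟨1, by decide⟩
    · exact ⟨0, by decide⟩
  have hss := fin2_cast_sub hs'
  rcases w with i | i
  · have h1 := hnb (s, Sum.inr ⟨0, by omega⟩) (Or.inl ⟨rfl, by simp⟩)
    have h2 := hnb (s, Sum.inr ⟨1, by omega⟩) (Or.inl ⟨rfl, by simp⟩)
    have h3 := hnb (s', Sum.inl i) (Or.inr ⟨hs', rfl⟩)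
    have h4 := collinear_det hcol h1 h2 h3
    unfold P R at h4
    simp only [pt_zero, pt_one] at h4
    rw [cy_zero_inr, cy_zero_inr, cx_zero_inl] at h4
    simp only [cx, cy] at h4
    have hi : (0 : ℝ) ≤ ((i : ℕ) : ℝ) := Nat.cast_nonneg _
    push_cast at h4
    have h5 : ((i : ℕ) : ℝ) + 1 = (((s : ℕ) : ℝ) - ((s' : ℕ) : ℝ)) * (1 / 2) := by linarith
    nlinarith
  · have h1 := hnb (s, Sum.inl ⟨0, by omega⟩) (Or.inl ⟨rfl, by simp⟩)
    have h2 := hnb (s, Sum.inl ⟨1, by omega⟩) (Or.inl ⟨rfl, by simp⟩)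
    have h3 := hnb (s', Sum.inr i) (Or.inr ⟨hs', rfl⟩)
    have h4 := collinear_det hcol h1 h2 h3
    unfold P R at h4
    simp only [pt_zero, pt_one] at h4
    rw [cx_zero_inl, cx_zero_inl, cy_zero_inr] at h4
    simp only [cx, cy] at h4
    have hi : (0 : ℝ) ≤ ((i : ℕ) : ℝ) := Nat.cast_nonneg _
    push_cast at h4
    have h5 : ((i : ℕ) : ℝ) + 1 = (((s : ℕ) : ℝ) - ((s' : ℕ) : ℝ)) * (1 / 2) := by linarith
    nlinarith

theorem P_injective {m : ℕ} : Function.Injective (P : W m → E2) := by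
  rintro ⟨s, w⟩ ⟨s', w'⟩ h
  have h0 : P (s, w) 0 = P (s', w') 0 := by rw [h]
  have h1 : P (s, w) 1 = P (s', w') 1 := by rw [h]
  unfold P R at h0 h1
  simp only [pt_zero, pt_one] at h0 h1
  by_cases hs : s = s'
  · subst hs
    rw [base_inj (add_right_cancel h0) (add_right_cancel h1)]
  · exfalso
    have hss := fin2_cast_sub hs
    rcases w with i | i <;> rcases w' with j | j
    · simp only [cy] at h1
      have : ((s : ℕ) : ℝ) - ((s' : ℕ) : ℝ) = 0 := by linarith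
      rw [this] at hss
      norm_num at hss
    · rw [cx_zero_inl] at h0
      rw [cy_zero_inr] at h1
      simp only [cx, cy] at h0 h1
      have hi : (0 : ℝ) ≤ ((i : ℕ) : ℝ) := Nat.cast_nonneg _
      have h5 : ((i : ℕ) : ℝ) + 1 = -((((s : ℕ) : ℝ) - ((s' : ℕ) : ℝ)) * (1 / 2)) := by linarith
      nlinarith
    · rw [cx_zero_inl] at h0
      rw [cy_zero_inr] at h1
      simp only [cx, cy] at h0 h1
      have hi : (0 : ℝ) ≤ ((i : ℕ) : ℝ) := Nat.cast_nonneg _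
      have h5 : ((i : ℕ) : ℝ) + 1 = -((((s : ℕ) : ℝ) - ((s' : ℕ) : ℝ)) * (1 / 2)) := by linarith
      nlinarith
    · simp only [cx] at h0
      have : ((s : ℕ) : ℝ) - ((s' : ℕ) : ℝ) = 0 := by linarith
      rw [this] at hss
      norm_num at hss

theorem edges_ge {m : ℕ} {V : Type} [Finite V] (e : V ≃ W m) :
    2 * m ^ 2 ≤ ((BG m).comap e).edgeSet.ncard := by
  classical
  obtain ⟨f, hf⟩ : ∃ f : Fin 2 × (Fin m × Fin m) → Sym2 V, ∀ z, f z =
      s(e.symm (z.1, Sum.inl z.2.1), e.symm (z.1, Sum.inr z.2.2)) := ⟨_, fun _ => rfl⟩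
  have hinj : Function.Injective f := by
    rintro ⟨s, i, j⟩ ⟨s', i', j'⟩ h
    rw [hf, hf] at h
    rcases Sym2.eq_iff.1 h with ⟨h1, h2⟩ | ⟨h1, _⟩
    · have h3 := e.symm.injective h1
      have h4 := e.symm.injective h2
      simp only [Prod.mk.injEq, Sum.inl.injEq, Sum.inr.injEq] at h3 h4
      rw [h3.1, h3.2, h4.2]
    · have h3 := e.symm.injective h1
      simp at h3
  have hsub : ((Finset.univ.image f : Finset (Sym2 V)) : Set (Sym2 V)) ⊆
      ((BG m).comap e).edgeSet := by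
    intro z hz
    rw [Finset.mem_coe, Finset.mem_image] at hz
    obtain ⟨y, _, rfl⟩ := hz
    rw [hf, SimpleGraph.mem_edgeSet]
    show (BG m).Adj (e (e.symm _)) (e (e.symm _))
    rw [Equiv.apply_symm_apply, Equiv.apply_symm_apply]
    exact Or.inl ⟨rfl, by simp⟩
  have h1 := Set.ncard_le_ncard hsub (Set.toFinite _)
  rw [Set.ncard_coe_finset, Finset.card_image_of_injective _ hinj, Finset.card_univ,
    Fintype.card_prod, Fintype.card_prod, Fintype.card_fin, Fintype.card_fin] at h1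
  calc 2 * m ^ 2 = 2 * (m * m) := by ring
    _ ≤ _ := h1

/-- The main theorem. -/
theorem main (C : ℝ) (N : ℕ) : ∃ n ≥ N, ∃ (G : SimpleGraph (Fin n)) (p : Fin n → E2),
    C * (n : ℝ) ^ (7 / 6 : ℝ) ≤ (G.edgeSet.ncard : ℝ) ∧
    (n : ℝ) ^ 2 / 8 ≤ (G.edgeSet.ncard : ℝ) ∧ Function.Injective p ∧ NonCollinearNbhds G p ∧
    ∀ G' : G.Subgraph, 3 ≤ G'.verts.ncard → ¬ RigidSub G' p := by
  have htend : Filter.Tendsto (fun m : ℕ => (4 * (m : ℝ)) ^ (5 / 6 : ℝ)) Filter.atTop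
      Filter.atTop :=
    (tendsto_rpow_atTop (by norm_num)).comp
      (tendsto_natCast_atTop_atTop.const_mul_atTop (by norm_num))
  obtain ⟨m, hm1, hm2⟩ := ((htend.eventually (Filter.eventually_ge_atTop (8 * C))).and
    (Filter.eventually_ge_atTop (max N 2))).exists
  have hmN : N ≤ m := (le_max_left _ _).trans hm2
  have hm : 2 ≤ m := (le_max_right _ _).trans hm2
  have hcard : Fintype.card (W m) = 4 * m := by
    rw [Fintype.card_prod, Fintype.card_sum, Fintype.card_fin, Fintype.card_fin]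
    ring
  obtain ⟨e⟩ : Nonempty (Fin (4 * m) ≃ W m) := ⟨(Fintype.equivFinOfCardEq hcard).symm⟩
  have hE := edges_ge e
  have hE' : ((4 * m : ℕ) : ℝ) ^ 2 / 8 ≤ (((BG m).comap e).edgeSet.ncard : ℝ) := by
    have h1 : (2 * (m : ℝ) ^ 2) ≤ (((BG m).comap e).edgeSet.ncard : ℝ) := by exact_mod_cast hE
    refine le_trans (le_of_eq ?_) h1
    push_cast
    ring
  refine ⟨4 * m, by omega, (BG m).comap e, fun v => P (e v), ?_, hE', ?_,
    nonCollinear hm e e.surjective, fun G' h3 => not_rigid e e.injective G' h3⟩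
  · refine le_trans ?_ hE'
    have hm0 : (0 : ℝ) < 4 * (m : ℝ) := by
      have : (0 : ℝ) < m := by exact_mod_cast (by omega : 0 < m)
      linarith
    have h1 : ((4 * m : ℕ) : ℝ) = 4 * (m : ℝ) := by push_cast; ring
    rw [h1]
    have h2 : (4 * (m : ℝ)) ^ 2 = (4 * (m : ℝ)) ^ (7 / 6 : ℝ) * (4 * (m : ℝ)) ^ (5 / 6 : ℝ) := by
      rw [← Real.rpow_add hm0, ← Real.rpow_natCast]
      norm_num
    rw [h2]
    have h3 : 0 ≤ (4 * (m : ℝ)) ^ (7 / 6 : ℝ) := by positivity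
    nlinarith
  · intro v v' h
    exact e.injective (P_injective h)

end Pool.Agent.V11150.DenseFlex
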