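import Mathlib

set_option autoImplicit false

namespace Pool.Agent.V11150.CliqueGraphs

/-! ### Clique graphs -/

/-- The clique graph `K(G)`: vertices are the maximal cliques of `G`, two distinct ones are
adjacent when they share a vertex. -/
def cliqueGraph {V : Type} (G : SimpleGraph V) :
    SimpleGraph {s : Set V // Maximal (fun s => G.IsClique s) s} where
  Adj s t := s ≠ t ∧ (s.1 ∩ t.1).Nonempty
  symm := ⟨fun s t h => ⟨h.1.symm, by rw [Set.inter_comm]; exact h.2⟩⟩
  loopless := ⟨fun s h => h.1 rfl⟩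

/-- The iterated clique graphs: `K^0(G) = G`, `K^{n+1}(G) = K(K^n(G))` (a graph is given as a pair
of a vertex type and a graph on it). -/
def iter : ℕ → (Σ V : Type, SimpleGraph V) → Σ V : Type, SimpleGraph V
  | 0, X => X
  | n + 1, X => ⟨_, cliqueGraph (iter n X).2⟩

/-- The comparability graph of an ordered set. -/
def comparabilityGraph (P : Type) [PartialOrder P] : SimpleGraph P where
  Adj x y := x < y ∨ y < x
  symm := ⟨fun _ _ h => h.symm⟩
  loopless := ⟨fun x h => by rcases h with h | h <;> exact lt_irrefl x h⟩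

/-- `H` is a double cover of `G` with deck involution `τ` moving every vertex to distance at least
`4`, and some vertex is connected to its image. -/
structure Cover {V W : Type} (G : SimpleGraph V) (H : SimpleGraph W) where
  p : W → V
  τ : W → W
  surj : Function.Surjective p
  inv : ∀ x, τ (τ x) = x
  pτ : ∀ x, p (τ x) = p x
  fiber : ∀ x y, p x = p y → y = x ∨ y = τ x
  adjτ : ∀ x y, H.Adj x y → H.Adj (τ x) (τ y)
  adj : ∀ x y, G.Adj (p x) (p y) ↔ H.Adj x y ∨ H.Adj x (τ y)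
  far : ∀ x y z, (x = y ∨ H.Adj x y) → (y = z ∨ H.Adj y z) → (z = τ x ∨ H.Adj z (τ x)) → False
  conn : ∃ x, H.Reachable x (τ x)

namespace Cover

variable {V W : Type} {G : SimpleGraph V} {H : SimpleGraph W} (c : Cover G H)

/-- The lift of a clique through a point. -/
def lift (Q : Set V) (x : W) : Set W := {y | c.p y ∈ Q ∧ (y = x ∨ H.Adj x y)}

theorem isClique_lift {Q : Set V} (hQ : G.IsClique Q) {x : W} : H.IsClique (c.lift Q x) := by
  rintro y ⟨hy, hy'⟩ z ⟨hz, hz'⟩ hyz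
  rcases hy' with rfl | hy'
  · rcases hz' with rfl | hz'
    · exact absurd rfl hyz
    · exact hz'
  · rcases hz' with rfl | hz'
    · exact hy'.symm
    · by_cases hp : c.p y = c.p z
      · rcases c.fiber y z hp with h | h
        · exact absurd h.symm hyz
        · exact (c.far y x z (Or.inr hy'.symm) (Or.inr hz') (Or.inl h)).elim
      · have h := hQ hy hz hp
        rw [c.adj] at h
        rcases h with h | h
        · exact h
        · exact (c.far x y (c.τ z) (Or.inr hy') (Or.inr h)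
            (Or.inr (c.adjτ _ _ hz'.symm))).elim

theorem image_lift {Q : Set V} (hQ : G.IsClique Q) {x : W} (hx : c.p x ∈ Q) :
    Q ⊆ c.p '' c.lift Q x := by
  intro q hq
  obtain ⟨y, rfl⟩ := c.surj q
  by_cases hp : c.p x = c.p y
  · exact ⟨x, ⟨hx, Or.inl rfl⟩, hp⟩
  · have h := hQ hx hq hp
    rw [c.adj] at h
    rcases h with h | h
    · exact ⟨y, ⟨hq, Or.inr h⟩, rfl⟩
    · exact ⟨c.τ y, ⟨by rw [c.pτ]; exact hq, Or.inr h⟩, c.pτ y⟩

theorem subset_lift {S : Set W} (hS : H.IsClique S) {x : W} (hx : x ∈ S) {Q : Set V}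
    (hQ : c.p '' S ⊆ Q) : S ⊆ c.lift Q x := by
  intro y hy
  refine ⟨hQ ⟨y, hy, rfl⟩, ?_⟩
  by_cases h : y = x
  · exact Or.inl h
  · exact Or.inr (hS hx hy (Ne.symm h))

theorem isClique_image {S : Set W} (hS : H.IsClique S) : G.IsClique (c.p '' S) := by
  rintro _ ⟨y, hy, rfl⟩ _ ⟨z, hz, rfl⟩ hyz
  rw [c.adj]
  exact Or.inl (hS hy hz (fun h => hyz (by rw [h])))

include c in
theorem nonempty_of_maximal {S : Set W} (hS : Maximal (fun s => H.IsClique s) S) :
    S.Nonempty := by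
  by_contra h
  rw [Set.not_nonempty_iff_eq_empty] at h
  subst h
  obtain ⟨x, -⟩ := c.conn
  have h1 : H.IsClique ({x} : Set W) := Set.pairwise_singleton x _
  exact hS.2 h1 (Set.empty_subset _) (Set.mem_singleton x)

theorem maximal_image {S : Set W} (hS : Maximal (fun s => H.IsClique s) S) :
    Maximal (fun s => G.IsClique s) (c.p '' S) := by
  refine ⟨c.isClique_image hS.1, ?_⟩
  intro Q hQ hSQ
  obtain ⟨x, hx⟩ := c.nonempty_of_maximal hS
  have h1 : S ⊆ c.lift Q x := c.subset_lift hS.1 hx hSQ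
  have h2 := hS.2 (c.isClique_lift (x := x) hQ) h1
  exact (c.image_lift hQ (hSQ ⟨x, hx, rfl⟩)).trans (Set.image_mono h2)

theorem maximal_lift {Q : Set V} (hQ : Maximal (fun s => G.IsClique s) Q) {x : W}
    (hx : c.p x ∈ Q) : Maximal (fun s => H.IsClique s) (c.lift Q x) := by
  refine ⟨c.isClique_lift hQ.1, ?_⟩
  intro S hS hle
  have h1 : x ∈ S := hle ⟨hx, Or.inl rfl⟩
  have h2 : Q ⊆ c.p '' S := (c.image_lift hQ.1 hx).trans (Set.image_mono hle)
  exact c.subset_lift hS h1 (hQ.2 (c.isClique_image hS) h2)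

theorem eq_of_image_eq {S T : Set W} (hS : Maximal (fun s => H.IsClique s) S)
    (hT : Maximal (fun s => H.IsClique s) T) {x : W} (hxS : x ∈ S) (hxT : x ∈ T)
    (h : c.p '' S = c.p '' T) : S = T := by
  have hm := c.maximal_lift (c.maximal_image hS) (x := x) ⟨x, hxS, rfl⟩
  have h1 : S ⊆ c.lift (c.p '' S) x := c.subset_lift hS.1 hxS subset_rfl
  have h2 : T ⊆ c.lift (c.p '' S) x := c.subset_lift hT.1 hxT h.symm.subset
  have e1 : S = c.lift (c.p '' S) x := subset_antisymm h1 (hS.2 hm.1 h1)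
  have e2 : T = c.lift (c.p '' S) x := subset_antisymm h2 (hT.2 hm.1 h2)
  rw [e1, e2, ← e1]

theorem image_τ_τ (S : Set W) : c.τ '' (c.τ '' S) = S := by
  rw [Set.image_image]
  simp [c.inv]

theorem isClique_τ {S : Set W} (hS : H.IsClique S) : H.IsClique (c.τ '' S) := by
  rintro _ ⟨y, hy, rfl⟩ _ ⟨z, hz, rfl⟩ hyz
  exact c.adjτ _ _ (hS hy hz (fun h => hyz (by rw [h])))

theorem maximal_τ {S : Set W} (hS : Maximal (fun s => H.IsClique s) S) :
    Maximal (fun s => H.IsClique s) (c.τ '' S) := by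
  refine ⟨c.isClique_τ hS.1, ?_⟩
  intro T hT hle
  have h1 : S ⊆ c.τ '' T := by
    have := Set.image_mono (f := c.τ) hle
    rwa [c.image_τ_τ] at this
  have h2 := Set.image_mono (f := c.τ) (hS.2 (c.isClique_τ hT) h1)
  rwa [c.image_τ_τ] at h2

theorem image_p_τ (S : Set W) : c.p '' (c.τ '' S) = c.p '' S := by
  rw [Set.image_image]
  simp [c.pτ]

theorem not_mem_τ {S : Set W} (hS : H.IsClique S) {x : W} (hx : x ∈ S) (hx' : x ∈ c.τ '' S) :
    False := by
  obtain ⟨y, hy, rfl⟩ := hx'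
  by_cases h : y = c.τ y
  · exact c.far y y y (Or.inl rfl) (Or.inl rfl) (Or.inl h)
  · exact c.far y y y (Or.inl rfl) (Or.inl rfl) (Or.inr (hS hy hx h))

theorem fiberK {S T : Set W} (hS : Maximal (fun s => H.IsClique s) S)
    (hT : Maximal (fun s => H.IsClique s) T) (h : c.p '' S = c.p '' T) :
    T = S ∨ T = c.τ '' S := by
  obtain ⟨x, hx⟩ := c.nonempty_of_maximal hS
  have h1 : c.p x ∈ c.p '' T := by rw [← h]; exact ⟨x, hx, rfl⟩
  obtain ⟨y, hy, hyx⟩ := h1
  rcases c.fiber x y hyx.symm with rfl | rfl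
  · exact Or.inl (c.eq_of_image_eq hT hS hy hx h.symm)
  · right
    refine c.eq_of_image_eq hT (c.maximal_τ hS) hy ⟨x, hx, rfl⟩ ?_
    rw [c.image_p_τ, h]

theorem adjK_aux {S T : Set W} (hS : Maximal (fun s => H.IsClique s) S)
    (hT : Maximal (fun s => H.IsClique s) T) (hne : S ≠ T) {x : W} (hx : x ∈ S) (hx' : x ∈ T) :
    c.p '' S ≠ c.p '' T := by
  intro h
  rcases c.fiberK hS hT h with h' | h'
  · exact hne h'.symm
  · rw [h'] at hx'
    exact c.not_mem_τ hS.1 hx hx'

/-- Vertices of the clique graph. -/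
abbrev KV {V : Type} (G : SimpleGraph V) : Type := {s : Set V // Maximal (fun s => G.IsClique s) s}

theorem reachableK [Finite W] {a b : W} (w : H.Walk a b) : ∀ (S T : KV H), a ∈ S.1 → b ∈ T.1 →
    (cliqueGraph H).Reachable S T := by
  induction w with
  | nil =>
    intro S T hS hT
    by_cases h : S = T
    · rw [h]
    · exact SimpleGraph.Adj.reachable ⟨h, ⟨_, hS, hT⟩⟩
  | @cons a a' b hadj w ih =>
    intro S T hS hT
    have hcl : H.IsClique ({a, a'} : Set W) := by
      rw [SimpleGraph.isClique_iff, Set.pairwise_pair]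
      intro _
      exact ⟨hadj, hadj.symm⟩
    obtain ⟨Q, hQ1, hQ2⟩ := Finite.exists_le_maximal hcl
    have ha : a ∈ Q := hQ1 (by simp)
    have ha' : a' ∈ Q := hQ1 (by simp)
    have h1 := ih ⟨Q, hQ2⟩ T ha' hT
    by_cases h : S = ⟨Q, hQ2⟩
    · rw [h]; exact h1
    · exact (SimpleGraph.Adj.reachable (G := cliqueGraph H) ⟨h, ⟨a, hS, ha⟩⟩).trans h1

/-- The clique operator preserves covers of this kind. -/
def next [Finite W] : Cover (cliqueGraph G) (cliqueGraph H) where
  p S := ⟨c.p '' S.1, c.maximal_image S.2⟩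
  τ S := ⟨c.τ '' S.1, c.maximal_τ S.2⟩
  surj := by
    rintro ⟨Q, hQ⟩
    have hne : Q.Nonempty := by
      by_contra h
      rw [Set.not_nonempty_iff_eq_empty] at h
      subst h
      obtain ⟨x, -⟩ := c.conn
      have h1 : G.IsClique ({c.p x} : Set V) := Set.pairwise_singleton _ _
      exact hQ.2 h1 (Set.empty_subset _) (Set.mem_singleton _)
    obtain ⟨q, hq⟩ := hne
    obtain ⟨x, rfl⟩ := c.surj q
    refine ⟨⟨c.lift Q x, c.maximal_lift hQ hq⟩, ?_⟩
    rw [Subtype.mk.injEq]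
    refine subset_antisymm ?_ (c.image_lift hQ.1 hq)
    rintro _ ⟨y, hy, rfl⟩
    exact hy.1
  inv S := Subtype.ext (c.image_τ_τ S.1)
  pτ S := Subtype.ext (c.image_p_τ S.1)
  fiber S T h := by
    rw [Subtype.mk.injEq] at h
    rcases c.fiberK S.2 T.2 h with h' | h'
    · exact Or.inl (Subtype.ext h')
    · exact Or.inr (Subtype.ext h')
  adjτ S T h := by
    refine ⟨fun he => h.1 ?_, ?_⟩
    · rw [Subtype.mk.injEq] at he
      have := congrArg (fun S => c.τ '' S) he
      simp only [c.image_τ_τ] at this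
      exact Subtype.ext this
    · obtain ⟨x, hx, hx'⟩ := h.2
      exact ⟨c.τ x, ⟨x, hx, rfl⟩, ⟨x, hx', rfl⟩⟩
  adj S T := by
    constructor
    · rintro ⟨hne, v, ⟨x, hx, rfl⟩, ⟨y, hy, hxy⟩⟩
      have hne' : c.p '' S.1 ≠ c.p '' T.1 := fun h => hne (Subtype.ext h)
      rcases c.fiber x y hxy.symm with rfl | rfl
      · exact Or.inl ⟨fun h => hne' (by rw [h]), ⟨y, hx, hy⟩⟩
      · right
        refine ⟨fun h => hne' ?_, ⟨x, hx, ⟨c.τ x, hy, c.inv x⟩⟩⟩
        have := congrArg (fun S : KV H => c.p '' S.1) h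
        simp only [c.image_p_τ] at this
        exact this
    · rintro (⟨hne, x, hx, hx'⟩ | ⟨hne, x, hx, hx'⟩)
      · refine ⟨fun h => ?_, ⟨c.p x, ⟨x, hx, rfl⟩, ⟨x, hx', rfl⟩⟩⟩
        rw [Subtype.mk.injEq] at h
        exact c.adjK_aux S.2 T.2 (fun h => hne (Subtype.ext h)) hx hx' h
      · refine ⟨fun h => ?_, ?_⟩
        · rw [Subtype.mk.injEq] at h
          refine c.adjK_aux S.2 (c.maximal_τ T.2) (fun h => hne (Subtype.ext h)) hx hx' ?_
          rw [c.image_p_τ, h]
        · refine ⟨c.p x, ⟨x, hx, rfl⟩, ?_⟩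
          have := Set.mem_image_of_mem c.p hx'
          rwa [c.image_p_τ] at this
  far S T U h1 h2 h3 := by
    have e1 : (S.1 ∩ T.1).Nonempty := by
      rcases h1 with rfl | h1
      · obtain ⟨x, hx⟩ := c.nonempty_of_maximal S.2
        exact ⟨x, hx, hx⟩
      · exact h1.2
    have e2 : (T.1 ∩ U.1).Nonempty := by
      rcases h2 with rfl | h2
      · obtain ⟨x, hx⟩ := c.nonempty_of_maximal T.2
        exact ⟨x, hx, hx⟩
      · exact h2.2
    have e3 : (U.1 ∩ c.τ '' S.1).Nonempty := by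
      rcases h3 with rfl | h3
      · obtain ⟨x, hx⟩ := c.nonempty_of_maximal S.2
        exact ⟨c.τ x, ⟨x, hx, rfl⟩, ⟨x, hx, rfl⟩⟩
      · exact h3.2
    obtain ⟨x, hx1, hx2⟩ := e1
    obtain ⟨y, hy1, hy2⟩ := e2
    obtain ⟨z, hz1, hz2⟩ := e3
    have f1 : x = y ∨ H.Adj x y := by
      by_cases h : x = y
      · exact Or.inl h
      · exact Or.inr (T.2.1 hx2 hy1 h)
    have f2 : y = z ∨ H.Adj y z := by
      by_cases h : y = z
      · exact Or.inl h
      · exact Or.inr (U.2.1 hy2 hz1 h)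
    have f3 : z = c.τ x ∨ H.Adj z (c.τ x) := by
      by_cases h : z = c.τ x
      · exact Or.inl h
      · exact Or.inr (c.isClique_τ S.2.1 hz2 ⟨x, hx1, rfl⟩ h)
    exact c.far x y z f1 f2 f3
  conn := by
    obtain ⟨x, ⟨w⟩⟩ := c.conn
    have hcl : H.IsClique ({x} : Set W) := Set.pairwise_singleton x _
    obtain ⟨Q, hQ1, hQ2⟩ := Finite.exists_le_maximal hcl
    have hx : x ∈ Q := hQ1 (by simp)
    exact ⟨⟨Q, hQ2⟩, reachableK w ⟨Q, hQ2⟩ ⟨c.τ '' Q, c.maximal_τ hQ2⟩ hx ⟨x, hx, rfl⟩⟩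

include c in
theorem nontrivial : Nontrivial V := by
  obtain ⟨x, ⟨w⟩⟩ := c.conn
  generalize hb : c.τ x = b at w
  cases w with
  | nil => exact (c.far x x x (Or.inl rfl) (Or.inl rfl) (Or.inl hb.symm)).elim
  | @cons _ y _ h w' =>
    refine ⟨c.p x, c.p y, fun hxy => ?_⟩
    rcases c.fiber x y hxy with rfl | rfl
    · exact H.loopless.irrefl _ h
    · exact c.far x x x (Or.inl rfl) (Or.inl rfl) (Or.inr h)

end Cover

/-- If a finite graph has such a cover, none of its iterated clique graphs is a single vertex. -/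
theorem nontrivial_iter {V W : Type} [Finite V] [Finite W] {G : SimpleGraph V} {H : SimpleGraph W}
    (c : Cover G H) (n : ℕ) : Nontrivial (iter n ⟨V, G⟩).1 := by
  have key : ∃ (W' : Type) (_ : Finite W') (H' : SimpleGraph W'),
      Nonempty (Cover (iter n ⟨V, G⟩).2 H') := by
    induction n with
    | zero => exact ⟨W, inferInstance, H, ⟨c⟩⟩
    | succ n ih =>
      obtain ⟨W', hW', H', ⟨c'⟩⟩ := ih
      exact ⟨_, inferInstance, _, ⟨c'.next⟩⟩
  obtain ⟨W', hW', H', ⟨c'⟩⟩ := key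
  exact c'.nontrivial

end Pool.Agent.V11150.CliqueGraphs
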