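import Mathlib
import Pool.Agent.V11150.CliqueCover

set_option autoImplicit false

namespace Pool.Agent.V11150.CliqueGraphs

/-! ### The face poset of the hemicube

Elements `0,…,3` are the vertices, `4,…,9` the edges and `10,11,12` the faces of the quotient of the
cube by the antipodal map. -/

/-- The list of upper sets, as bit masks. -/
def upT : List ℕ := [7393, 7506, 7828, 7976, 3088, 3104, 6208, 5248, 5376, 6656, 1024, 2048, 4096]

/-- The list of lower sets, as bit masks. -/
def dnT : List ℕ := [1, 2, 4, 8, 22, 41, 67, 133, 266, 524, 1471, 2687, 5071]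

/-- The upper set of `i`. -/
def up (i : ℕ) : ℕ := upT.getD i 0

/-- The lower set of `i`. -/
def dn (i : ℕ) : ℕ := dnT.getD i 0

/-- The face poset of the hemicube (13 elements). -/
structure Hemi where
  val : Fin 13
deriving DecidableEq

instance : Fintype Hemi :=
  Fintype.ofEquiv (Fin 13) ⟨Hemi.mk, Hemi.val, fun _ => rfl, fun _ => rfl⟩

instance : LE Hemi := ⟨fun x y => (up x.val).testBit y.val = true⟩

instance (x y : Hemi) : Decidable (x ≤ y) :=
  inferInstanceAs (Decidable ((up x.val).testBit y.val = true))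

theorem up_refl : ∀ i : Fin 13, (up i).testBit i = true := by decide

theorem up_trans : ∀ i j k : Fin 13, (up i).testBit j = true → (up j).testBit k = true →
    (up i).testBit k = true := by decide

theorem up_antisymm : ∀ i j : Fin 13, (up i).testBit j = true → (up j).testBit i = true →
    i = j := by decide

theorem dn_eq : ∀ i j : Fin 13, (dn i).testBit j = (up j).testBit i := by decide

instance : PartialOrder Hemi where
  le_refl x := up_refl x.val
  le_trans x y z h1 h2 := up_trans x.val y.val z.val h1 h2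
  le_antisymm x y h1 h2 := congrArg Hemi.mk (up_antisymm x.val y.val h1 h2)

instance : Nonempty Hemi := ⟨⟨0⟩⟩

/-! #### The fixed point property -/

/-- The values allowed at `z` once `x` has value `y`. -/
def cm (x z y : ℕ) : ℕ :=
  (if (up x).testBit z then up y else 8191) &&& (if (dn x).testBit z then dn y else 8191)

/-- Exhaustive search: no order-preserving assignment with values in the given masks. -/
def noSol : ℕ → List (ℕ × ℕ) → Bool
  | 0, _ => false
  | _ + 1, [] => false
  | n + 1, (x, m) :: rest => (List.range 13).all fun y => !(m.testBit y) ||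
      ((rest.map fun p => (p.1, p.2 &&& cm x p.1 y)).any (fun p => p.2 == 0) ||
        noSol n (rest.map fun p => (p.1, p.2 &&& cm x p.1 y)))

theorem noSol_sound (F : ℕ → ℕ) (hF : ∀ i < 13, F i < 13)
    (hup : ∀ i < 13, ∀ j < 13, (up i).testBit j = true → (up (F i)).testBit (F j) = true)
    (hdn : ∀ i < 13, ∀ j < 13, (dn i).testBit j = true → (dn (F i)).testBit (F j) = true) :
    ∀ (n : ℕ) (l : List (ℕ × ℕ)), (∀ p ∈ l, p.1 < 13 ∧ p.2.testBit (F p.1) = true) →
      noSol n l = true → False := by
  have h8191 : ∀ j < 13, (8191 : ℕ).testBit j = true := by decide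
  intro n
  induction n with
  | zero =>
    intro l _ h
    simp [noSol] at h
  | succ n ih =>
    intro l hl h
    rcases l with _ | ⟨⟨x, m⟩, rest⟩
    · simp [noSol] at h
    · obtain ⟨hx, hm⟩ := hl (x, m) (by simp)
      rw [noSol, List.all_eq_true] at h
      have h1 := h (F x) (List.mem_range.2 (hF x hx))
      simp only at hx hm
      rw [hm, Bool.not_true, Bool.false_or, Bool.or_eq_true] at h1
      have hrest : ∀ p ∈ rest.map (fun p => (p.1, p.2 &&& cm x p.1 (F x))),
          p.1 < 13 ∧ p.2.testBit (F p.1) = true := by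
        intro p hp
        rw [List.mem_map] at hp
        obtain ⟨q, hq, rfl⟩ := hp
        obtain ⟨hq1, hq2⟩ := hl q (List.mem_cons_of_mem _ hq)
        refine ⟨hq1, ?_⟩
        show (q.2 &&& cm x q.1 (F x)).testBit (F q.1) = true
        rw [Nat.testBit_and, hq2, Bool.true_and]
        unfold cm
        rw [Nat.testBit_and, Bool.and_eq_true]
        constructor
        · split_ifs with hc
          · exact hup x hx q.1 hq1 hc
          · exact h8191 _ (hF _ hq1)
        · split_ifs with hc
          · exact hdn x hx q.1 hq1 hc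
          · exact h8191 _ (hF _ hq1)
      rcases h1 with h1 | h1
      · rw [List.any_eq_true] at h1
        obtain ⟨p, hp, hp0⟩ := h1
        have h2 := (hrest p hp).2
        have h3 : p.2 = 0 := by simpa using hp0
        rw [h3, Nat.zero_testBit] at h2
        exact absurd h2 (by simp)
      · exact ih _ hrest h1

/-- The initial masks: every value except the element itself. -/
def initL : List (ℕ × ℕ) :=
  [9, 5, 7, 4, 8, 6, 3, 11, 2, 10, 0, 1, 12].map fun x => (x, 8191 ^^^ (1 <<< x))

set_option maxRecDepth 100000 in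
theorem noSol_init : noSol 14 initL = true := by decide +kernel

theorem fixed_point (f : Hemi →o Hemi) : ∃ x, f x = x := by
  by_contra hcon
  push Not at hcon
  let F : ℕ → ℕ := fun i => if h : i < 13 then (f ⟨⟨i, h⟩⟩).val.val else 0
  have hFe : ∀ (i : ℕ) (h : i < 13), F i = (f ⟨⟨i, h⟩⟩).val.val := fun i h => by
    simp only [F, dif_pos h]
  have hF : ∀ i < 13, F i < 13 := fun i h => by
    rw [hFe i h]
    exact (f ⟨⟨i, h⟩⟩).val.isLt
  have hup : ∀ i < 13, ∀ j < 13, (up i).testBit j = true →
      (up (F i)).testBit (F j) = true := by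
    intro i hi j hj h
    rw [hFe i hi, hFe j hj]
    exact f.monotone (show (⟨⟨i, hi⟩⟩ : Hemi) ≤ ⟨⟨j, hj⟩⟩ from h)
  have hdn : ∀ i < 13, ∀ j < 13, (dn i).testBit j = true →
      (dn (F i)).testBit (F j) = true := by
    intro i hi j hj h
    have h1 := dn_eq ⟨i, hi⟩ ⟨j, hj⟩
    have h2 := dn_eq ⟨F i, hF i hi⟩ ⟨F j, hF j hj⟩
    simp only at h1 h2
    rw [h2]
    rw [h1] at h
    exact hup j hj i hi h
  refine noSol_sound F hF hup hdn 14 initL ?_ noSol_init
  have hbit : ∀ x < 13, ∀ y < 13, y ≠ x → (8191 ^^^ (1 <<< x) : ℕ).testBit y = true := by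
    decide
  intro p hp
  rw [initL, List.mem_map] at hp
  obtain ⟨x, hx, rfl⟩ := hp
  have hx13 : x < 13 := by
    have : ∀ x ∈ [9, 5, 7, 4, 8, 6, 3, 11, 2, 10, 0, 1, 12], x < 13 := by decide
    exact this x hx
  refine ⟨hx13, hbit x hx13 (F x) (hF x hx13) ?_⟩
  intro h
  rw [hFe x hx13] at h
  exact hcon ⟨⟨x, hx13⟩⟩ (congrArg Hemi.mk (Fin.ext h))

/-! #### The double cover: the face poset of the cube -/

/-- Comparable elements of the cube, same signs. -/
def sameT : List ℕ := [4288, 5440, 6800, 7968, 2052, 3080, 4099, 4101, 5130, 6156, 298, 572, 975]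

/-- Comparable elements of the cube, opposite signs. -/
def oppT : List ℕ := [3104, 2064, 1024, 0, 1026, 1, 2048, 1024, 0, 0, 149, 67, 0]

/-- Adjacency in the comparability graph of the face poset of the cube. -/
def cubeAdj (x y : Fin 13 × Bool) : Bool :=
  if x.2 = y.2 then (sameT.getD x.1 0).testBit y.1 else (oppT.getD x.1 0).testBit y.1

theorem cubeAdj_symm : ∀ x y : Fin 13 × Bool, cubeAdj x y = true → cubeAdj y x = true := by
  decide

theorem cubeAdj_irrefl : ∀ x : Fin 13 × Bool, ¬ cubeAdj x x = true := by decide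

/-- The comparability graph of the face poset of the cube. -/
def cubeGraph : SimpleGraph (Fin 13 × Bool) where
  Adj x y := cubeAdj x y = true
  symm := ⟨cubeAdj_symm⟩
  loopless := ⟨cubeAdj_irrefl⟩

theorem hemi_adj : ∀ x y : Fin 13 × Bool,
    (((up x.1).testBit y.1 = true ∧ x.1 ≠ y.1) ∨ ((up y.1).testBit x.1 = true ∧ y.1 ≠ x.1)) ↔
      cubeAdj x y = true ∨ cubeAdj x (y.1, !y.2) = true := by decide

theorem cube_far : ∀ x y z : Fin 13 × Bool, (x = y ∨ cubeAdj x y = true) →
    (y = z ∨ cubeAdj y z = true) → (z = (x.1, !x.2) ∨ cubeAdj z (x.1, !x.2) = true) → False := by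
  decide +kernel

/-- The double cover of the comparability graph of the hemicube. -/
def hemiCover : Cover (comparabilityGraph Hemi) cubeGraph where
  p x := ⟨x.1⟩
  τ x := (x.1, !x.2)
  surj := by
    rintro ⟨x⟩
    exact ⟨(x, false), rfl⟩
  inv x := by simp
  pτ x := rfl
  fiber := by
    rintro ⟨x, b⟩ ⟨y, c⟩ h
    have h' : x = y := congrArg Hemi.val h
    subst h'
    cases b <;> cases c <;> simp
  adjτ := by
    rintro ⟨x, b⟩ ⟨y, c⟩ h
    have : cubeAdj (x, b) (y, c) = true := h
    show cubeAdj (x, !b) (y, !c) = true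
    unfold cubeAdj at this ⊢
    cases b <;> cases c <;> simpa using this
  adj := by
    intro x y
    refine Iff.trans ?_ (hemi_adj x y)
    show ((⟨x.1⟩ : Hemi) < ⟨y.1⟩ ∨ (⟨y.1⟩ : Hemi) < ⟨x.1⟩) ↔ _
    rw [lt_iff_le_and_ne, lt_iff_le_and_ne]
    have e : ∀ a b : Fin 13, ((⟨a⟩ : Hemi) ≠ ⟨b⟩) ↔ a ≠ b := by
      intro a b
      rw [ne_eq, Hemi.mk.injEq]
    rw [e, e]
    rfl
  far := cube_far
  conn := by
    refine ⟨(0, false), ?_⟩
    have h1 : cubeGraph.Adj (0, false) (12, false) :=
      (show cubeAdj (0, false) (12, false) = true by decide)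
    have h2 : cubeGraph.Adj (12, false) (3, false) :=
      (show cubeAdj (12, false) (3, false) = true by decide)
    have h3 : cubeGraph.Adj (3, false) (10, false) :=
      (show cubeAdj (3, false) (10, false) = true by decide)
    have h4 : cubeGraph.Adj (10, false) (0, true) :=
      (show cubeAdj (10, false) (0, true) = true by decide)
    exact h1.reachable.trans (h2.reachable.trans (h3.reachable.trans h4.reachable))

end Pool.Agent.V11150.CliqueGraphs
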