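import Mathlib

set_option autoImplicit false

namespace Pool.Agent.V11150.BuilderChooser

/-! ### The degree-preserving Builder–Chooser game -/

/-- The growth step: the edges of the matching `M` are deleted and the new vertex `none` is joined
to every endpoint of `M`. -/
def grow {V : Type} (G : SimpleGraph V) (M : G.Subgraph) : SimpleGraph (Option V) where
  Adj
    | some a, some b => G.Adj a b ∧ ¬ M.Adj a b
    | some a, none => a ∈ M.verts
    | none, some b => b ∈ M.verts
    | none, none => False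
  symm := ⟨by
    rintro (_ | a) (_ | b) h
    · exact h
    · exact h
    · exact h
    · exact ⟨h.1.symm, fun h2 => h.2 h2.symm⟩⟩
  loopless := ⟨by
    rintro (_ | a) h
    · exact h
    · exact G.loopless.irrefl a h.1⟩

/-- Builder can guarantee that the graph after exactly `t` rounds contains a copy of `K_k`. -/
def ForcesAt (k : ℕ) : ℕ → ∀ {V : Type}, SimpleGraph V → Prop
  | 0, _, G => ¬ G.CliqueFree k
  | t + 1, V, G => ∃ M : G.Subgraph, M.IsMatching ∧ ∃ A B : SimpleGraph (Option V),
      Disjoint A B ∧ A ⊔ B = grow G M ∧ ForcesAt k t A ∧ ForcesAt k t B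

/-- Builder can guarantee that the graph contains a copy of `K_k` at some moment among the first
`t` rounds (that is, the current graph contains `K_k` already, or there is a good move). -/
def ForcesBy (k : ℕ) : ℕ → ∀ {V : Type}, SimpleGraph V → Prop
  | 0, _, G => ¬ G.CliqueFree k
  | t + 1, V, G => ¬ G.CliqueFree k ∨ ∃ M : G.Subgraph, M.IsMatching ∧
      ∃ A B : SimpleGraph (Option V),
        Disjoint A B ∧ A ⊔ B = grow G M ∧ ForcesBy k t A ∧ ForcesBy k t B

/-- The forcing time `τ_{K_k}(G)`: least `t` such that Builder can guarantee a copy of `K_k` in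
the graph after exactly `t` rounds; infinite if there is no such `t`. -/
noncomputable def tauAt (k : ℕ) {V : Type} (G : SimpleGraph V) : ℕ∞ :=
  ⨅ (t : ℕ) (_ : ForcesAt k t G), (t : ℕ∞)

/-- The forcing time `τ_{K_k}(G)` in the reading where the copy of `K_k` may appear at any moment
up to time `t`. -/
noncomputable def tauBy (k : ℕ) {V : Type} (G : SimpleGraph V) : ℕ∞ :=
  ⨅ (t : ℕ) (_ : ForcesBy k t G), (t : ℕ∞)

theorem ForcesAt.forcesBy {k : ℕ} : ∀ {t : ℕ} {V : Type} {G : SimpleGraph V},
    ForcesAt k t G → ForcesBy k t G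
  | 0, _, _, h => h
  | _ + 1, _, _, ⟨M, hM, A, B, h1, h2, hA, hB⟩ =>
    Or.inr ⟨M, hM, A, B, h1, h2, hA.forcesBy, hB.forcesBy⟩

theorem tauBy_le_tauAt (k : ℕ) {V : Type} (G : SimpleGraph V) : tauBy k G ≤ tauAt k G := by
  unfold tauBy tauAt
  exact le_iInf₂ fun t ht => iInf₂_le t ht.forcesBy

/-! ### Following an explicit plan on an abstract vertex set -/

/-- Modify `σ` at `t`. -/
def upd (σ : ℕ → Bool) (t : ℕ) (b : Bool) : ℕ → Bool := Function.update σ t b

/-- The transfer lemma: a plan given by graphs `Γ t σ` and matchings `μ t σ` on an abstract vertex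
set can be followed in the real game. -/
theorem forcesAt_of_plan {X : Type} (k T : ℕ) (new : ℕ → X)
    (Γ μ : ℕ → (ℕ → Bool) → SimpleGraph X)
    (h1 : ∀ t < T, ∀ σ, μ t σ ≤ Γ t σ)
    (h1' : ∀ t < T, ∀ σ x y y', (μ t σ).Adj x y → (μ t σ).Adj x y' → y = y')
    (h2 : ∀ t < T, ∀ σ b x y, (Γ (t + 1) (upd σ t b)).Adj x y →
      ((Γ t σ).Adj x y ∧ ¬ (μ t σ).Adj x y) ∨ (x = new t ∧ ∃ z, (μ t σ).Adj y z) ∨
        (y = new t ∧ ∃ z, (μ t σ).Adj x z))
    (h3 : ∀ t < T, ∀ σ, Disjoint (Γ (t + 1) (upd σ t false)) (Γ (t + 1) (upd σ t true)))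
    (h4 : ∀ t ≤ T, ∀ σ x y, (Γ t σ).Adj x y → ∀ i, t ≤ i → x ≠ new i)
    (h5 : ∀ σ, ∃ s : Finset X, s.card = k ∧ (∀ x ∈ s, ∀ i, T ≤ i → x ≠ new i) ∧
      ∀ x ∈ s, ∀ y ∈ s, x ≠ y → (Γ T σ).Adj x y) :
    ∀ (n t : ℕ), t + n = T → ∀ (σ : ℕ → Bool) (V : Type) (G : SimpleGraph V) (φ : X → V),
      (Set.InjOn φ {x | ∀ i, t ≤ i → x ≠ new i}) →
      (∀ x y, (Γ t σ).Adj x y → G.Adj (φ x) (φ y)) → ForcesAt k n G := by
  classical
  intro n
  induction n with
  | zero =>
    intro t ht σ V G φ hφ hG
    have ht' : t = T := by omega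
    subst ht'
    obtain ⟨s, hs, hsX, hadj⟩ := h5 σ
    show ¬ G.CliqueFree k
    intro hfree
    apply hfree (s.image φ)
    have hinj : Set.InjOn φ s := fun x hx y hy h => hφ (hsX x hx) (hsX y hy) h
    refine ⟨?_, ?_⟩
    · intro a ha b hb hab
      rw [Finset.mem_coe, Finset.mem_image] at ha hb
      obtain ⟨x, hx, rfl⟩ := ha
      obtain ⟨y, hy, rfl⟩ := hb
      exact hG x y (hadj x hx y hy (fun h => hab (by rw [h])))
    · rw [Finset.card_image_of_injOn hinj, hs]
  | succ n ih =>
    intro t ht σ V G φ hφ hG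
    have htT : t < T := by omega
    have hX : ∀ x y, (Γ t σ).Adj x y → x ∈ {x | ∀ i, t ≤ i → x ≠ new i} := fun x y h =>
      h4 t htT.le σ x y h
    have hXμ : ∀ x y, (μ t σ).Adj x y → x ∈ {x | ∀ i, t ≤ i → x ≠ new i} := fun x y h =>
      hX x y (h1 t htT σ h)
    let M : G.Subgraph :=
      { verts := {a | ∃ x y, (μ t σ).Adj x y ∧ φ x = a}
        Adj := fun a b => ∃ x y, (μ t σ).Adj x y ∧ φ x = a ∧ φ y = b
        adj_sub := by
          rintro a b ⟨x, y, h, rfl, rfl⟩
          exact hG x y (h1 t htT σ h)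
        edge_vert := by
          rintro a b ⟨x, y, h, rfl, rfl⟩
          exact ⟨x, y, h, rfl⟩
        symm := ⟨by
          rintro a b ⟨x, y, h, rfl, rfl⟩
          exact ⟨y, x, h.symm, rfl, rfl⟩⟩ }
    have hM : M.IsMatching := by
      rintro a ⟨x, y, h, rfl⟩
      refine ⟨φ y, ⟨x, y, h, rfl, rfl⟩, ?_⟩
      rintro b ⟨x', y', h', hx', rfl⟩
      have : x' = x := hφ (hXμ _ _ h') (hXμ _ _ h) hx'
      subst this
      rw [h1' t htT σ x' y y' h h']
    -- the new embedding
    let φ' : X → Option V := fun x => if x = new t then none else some (φ x)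
    have hφ'new : φ' (new t) = none := by simp [φ']
    have hφ'some : ∀ x, x ≠ new t → φ' x = some (φ x) := fun x hx => by simp [φ', hx]
    have hφ' : Set.InjOn φ' {x | ∀ i, t + 1 ≤ i → x ≠ new i} := by
      intro x hx y hy h
      by_cases hxt : x = new t
      · by_cases hyt : y = new t
        · rw [hxt, hyt]
        · rw [hxt, hφ'new, hφ'some y hyt] at h
          exact absurd h (by simp)
      · by_cases hyt : y = new t
        · rw [hyt, hφ'new, hφ'some x hxt] at h
          exact absurd h (by simp)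
        · rw [hφ'some x hxt, hφ'some y hyt, Option.some.injEq] at h
          apply hφ _ _ h
          · intro i hi
            rcases Nat.eq_or_lt_of_le hi with h' | h'
            · rw [← h']; exact hxt
            · exact hx i h'
          · intro i hi
            rcases Nat.eq_or_lt_of_le hi with h' | h'
            · rw [← h']; exact hyt
            · exact hy i h'
    have hgrow : ∀ b x y, (Γ (t + 1) (upd σ t b)).Adj x y → (grow G M).Adj (φ' x) (φ' y) := by
      intro b x y h
      rcases h2 t htT σ b x y h with ⟨h', hμ⟩ | ⟨rfl, z, hz⟩ | ⟨rfl, z, hz⟩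
      · have hx := hX x y h'
        have hy := hX y x h'.symm
        rw [hφ'some x (hx t le_rfl), hφ'some y (hy t le_rfl)]
        refine ⟨hG x y h', ?_⟩
        rintro ⟨x', y', hxy', hx', hy'⟩
        have e1 : x' = x := hφ (hXμ _ _ hxy') hx hx'
        have e2 : y' = y := hφ (hXμ _ _ hxy'.symm) hy hy'
        rw [e1, e2] at hxy'
        exact hμ hxy'
      · rw [hφ'new, hφ'some y (hXμ y z hz t le_rfl)]
        exact ⟨y, z, hz, rfl⟩
      · rw [hφ'new, hφ'some x (hXμ x z hz t le_rfl)]
        exact ⟨x, z, hz, rfl⟩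
    -- the side containing the edges needed after the answer `true`
    let B : SimpleGraph (Option V) :=
      { Adj := fun a b => ∃ x y, (Γ (t + 1) (upd σ t true)).Adj x y ∧ φ' x = a ∧ φ' y = b
        symm := ⟨by
          rintro a b ⟨x, y, h, rfl, rfl⟩
          exact ⟨y, x, h.symm, rfl, rfl⟩⟩
        loopless := ⟨by
          rintro a ⟨x, y, h, hx, hy⟩
          have := hgrow true x y h
          rw [hx, hy] at this
          exact (grow G M).loopless.irrefl a this⟩ }
    have hB : B ≤ grow G M := by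
      rintro a b ⟨x, y, h, rfl, rfl⟩
      exact hgrow true x y h
    refine ⟨M, hM, grow G M \ B, B, disjoint_sdiff_self_left, ?_, ?_, ?_⟩
    · exact sdiff_sup_cancel hB
    · refine ih (t + 1) (by omega) (upd σ t false) (Option V) _ φ' hφ' ?_
      intro x y h
      refine ⟨hgrow false x y h, ?_⟩
      rintro ⟨x', y', h', hx', hy'⟩
      have hxX := h4 (t + 1) htT (upd σ t false) x y h
      have hyX := h4 (t + 1) htT (upd σ t false) y x h.symm
      have hxX' := h4 (t + 1) htT (upd σ t true) x' y' h'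
      have hyX' := h4 (t + 1) htT (upd σ t true) y' x' h'.symm
      have e1 : x' = x := hφ' hxX' hxX hx'
      have e2 : y' = y := hφ' hyX' hyX hy'
      rw [e1, e2] at h'
      have := (h3 t htT σ).le_bot (show ((Γ (t + 1) (upd σ t false)) ⊓
        (Γ (t + 1) (upd σ t true))).Adj x y from ⟨h, h'⟩)
      exact this
    · refine ih (t + 1) (by omega) (upd σ t true) (Option V) _ φ' hφ' ?_
      intro x y h
      exact ⟨x, y, h, rfl, rfl⟩

end Pool.Agent.V11150.BuilderChooser
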