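import Mathlib
import Pool.Agent.V11150.BuilderChooser

set_option autoImplicit false

namespace Pool.Agent.V11150.BuilderChooser

/-! ### Combinatorial plans -/

/-- `σ` and `τ` agree below `t`. -/
def Agree (t : ℕ) (σ τ : ℕ → Bool) : Prop := ∀ i < t, σ i = τ i

/-- A plan: an assignment of an `m`-subset of `{0,…,T-1}` to every sequence of `T` answers such
that a pair `i < j` of elements together with the answers below `j` determines the sequence. -/
structure Plan (m T : ℕ) where
  S : (ℕ → Bool) → Finset ℕ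
  congr : ∀ σ τ, Agree T σ τ → S σ = S τ
  card : ∀ σ, (S σ).card = m
  lt : ∀ σ, ∀ i ∈ S σ, i < T
  uniq : ∀ σ τ i j, i < j → i ∈ S σ → j ∈ S σ → i ∈ S τ → j ∈ S τ → Agree j σ τ → Agree T σ τ

/-- The plan for `m = 1`. -/
def planOne : Plan 1 1 where
  S _ := {0}
  congr _ _ _ := rfl
  card _ := rfl
  lt := by simp
  uniq := by
    intro σ τ i j hij hi hj
    simp only [Finset.mem_singleton] at hi hj
    omega

/-- The number of the tail of a sequence. -/
noncomputable def code (L : ℕ) (σ : ℕ → Bool) : ℕ :=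
  (Fintype.equivFin (Fin L → Bool) (fun i => σ (2 ^ L + i))).val

theorem code_lt (L : ℕ) (σ : ℕ → Bool) : code L σ < 2 ^ L := by
  have h := (Fintype.equivFin (Fin L → Bool) (fun i => σ (2 ^ L + i))).isLt
  have hc : Fintype.card (Fin L → Bool) = 2 ^ L := by simp
  unfold code
  omega

theorem code_inj (L : ℕ) (σ τ : ℕ → Bool) (h : code L σ = code L τ) :
    ∀ i < L, σ (2 ^ L + i) = τ (2 ^ L + i) := by
  unfold code at h
  have h1 := (Fintype.equivFin (Fin L → Bool)).injective (Fin.ext h)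
  intro i hi
  exact congrFun h1 ⟨i, hi⟩

theorem code_congr (L : ℕ) (σ τ : ℕ → Bool) (h : ∀ i < L, σ (2 ^ L + i) = τ (2 ^ L + i)) :
    code L σ = code L τ := by
  have h1 : (fun i : Fin L => σ (2 ^ L + i)) = (fun i : Fin L => τ (2 ^ L + i)) := by
    funext i
    exact h i i.2
  unfold code
  rw [h1]

/-- From `m` to `m + 1`. -/
noncomputable def Plan.next {m L : ℕ} (P : Plan m L) : Plan (m + 1) (2 ^ L + L) where
  S σ := insert (code L σ) ((P.S (fun i => σ (2 ^ L + i))).map (addLeftEmbedding (2 ^ L)))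
  congr := by
    intro σ τ h
    have h1 : ∀ i < L, σ (2 ^ L + i) = τ (2 ^ L + i) := fun i hi => h _ (by omega)
    rw [code_congr L σ τ h1, P.congr (fun i => σ (2 ^ L + i)) (fun i => τ (2 ^ L + i)) h1]
  card := by
    intro σ
    rw [Finset.card_insert_of_notMem, Finset.card_map, P.card]
    intro h
    rw [Finset.mem_map] at h
    obtain ⟨a, _, ha⟩ := h
    have := code_lt L σ
    simp only [addLeftEmbedding_apply] at ha
    omega
  lt := by
    intro σ i hi
    rw [Finset.mem_insert, Finset.mem_map] at hi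
    rcases hi with h | ⟨a, ha, rfl⟩
    · have := code_lt L σ
      omega
    · have := P.lt _ a ha
      simp only [addLeftEmbedding_apply]
      omega
  uniq := by
    intro σ τ i j hij hi hj hi' hj' hag
    rw [Finset.mem_insert, Finset.mem_map] at hi hj hi' hj'
    simp only [addLeftEmbedding_apply] at hi hj hi' hj'
    have c1 := code_lt L σ
    have c2 := code_lt L τ
    have hj1 : ∃ b, b ∈ P.S (fun i => σ (2 ^ L + i)) ∧ 2 ^ L + b = j := by
      rcases hj with h | h
      · rcases hi with h2 | ⟨a, _, h2⟩ <;> omega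
      · exact h
    obtain ⟨b, hb, hbj⟩ := hj1
    have hb' : b ∈ P.S (fun i => τ (2 ^ L + i)) := by
      rcases hj' with h | ⟨b', hb', h⟩
      · omega
      · have : b' = b := by omega
        rwa [this] at hb'
    have hlow : ∀ q < 2 ^ L, σ q = τ q := fun q hq => hag q (by omega)
    have htail : ∀ q < L, σ (2 ^ L + q) = τ (2 ^ L + q) := by
      by_cases hiL : i < 2 ^ L
      · have e1 : i = code L σ := by
          rcases hi with h | ⟨a, _, h⟩
          · exact h
          · omega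
        have e2 : i = code L τ := by
          rcases hi' with h | ⟨a, _, h⟩
          · exact h
          · omega
        exact code_inj L σ τ (by omega)
      · obtain ⟨a, ha, hai⟩ : ∃ a, a ∈ P.S (fun i => σ (2 ^ L + i)) ∧ 2 ^ L + a = i := by
          rcases hi with h | h
          · omega
          · exact h
        have ha' : a ∈ P.S (fun i => τ (2 ^ L + i)) := by
          rcases hi' with h | ⟨a', ha', h⟩
          · omega
          · have : a' = a := by omega
            rwa [this] at ha'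
        exact P.uniq _ _ a b (by omega) ha hb ha' hb' (fun q hq => hag _ (by omega))
    intro q hq
    by_cases hqL : q < 2 ^ L
    · exact hlow q hqL
    · have := htail (q - 2 ^ L) (by omega)
      have e : 2 ^ L + (q - 2 ^ L) = q := by omega
      rwa [e] at this

/-- The length of the plan for `m + 1`: `1, 3, 11, 2059, …`. -/
def planLen : ℕ → ℕ
  | 0 => 1
  | m + 1 => 2 ^ planLen m + planLen m

theorem exists_plan : ∀ m, Nonempty (Plan (m + 1) (planLen m))
  | 0 => ⟨planOne⟩
  | m + 1 => by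
    obtain ⟨P⟩ := exists_plan m
    exact ⟨P.next⟩

/-! ### The graphs of a plan -/

section graphs

variable {m T : ℕ} (P : Plan m T)

/-- The vertices of the starting forest. -/
abbrev Old (T : ℕ) : Type := (Fin T → Bool) × Bool × Option (Fin T) × Option (Fin T)

/-- The extension of a finite sequence by zeros. -/
def ext (τ : Fin T → Bool) : ℕ → Bool := fun i => if h : i < T then τ ⟨i, h⟩ else false

theorem ext_agree {τ τ' : Fin T → Bool} (h : Agree T (ext τ) (ext τ')) : τ = τ' := by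
  funext i
  have := h i i.2
  simpa [ext] using this

/-- The set of `τ`. -/
def Plan.set (τ : Fin T → Bool) : Finset ℕ := P.S (ext τ)

theorem Plan.set_uniq {τ τ' : Fin T → Bool} {i j : ℕ} (hij : i < j) (h1 : i ∈ P.set τ)
    (h2 : j ∈ P.set τ) (h3 : i ∈ P.set τ') (h4 : j ∈ P.set τ') (h : Agree j (ext τ) (ext τ')) :
    τ = τ' := ext_agree (P.uniq _ _ i j hij h1 h2 h3 h4 h)

/-- An end of an edge that is replaced by the new vertex `i` in round `i`. -/
def cur (t : ℕ) (e : Old T) (i : Fin T) : Old T ⊕ ℕ := if (i : ℕ) < t then Sum.inr i else Sum.inl e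

/-- The edges needed for the sequence `τ` at time `t`. -/
def Rel (τ : Fin T → Bool) (t : ℕ) (x y : Old T ⊕ ℕ) : Prop :=
  (x = Sum.inl (τ, true, none, none) ∧ y = Sum.inl (τ, false, none, none)) ∨
  (∃ (b : Bool) (i : Fin T), (i : ℕ) ∈ P.set τ ∧ x = cur t (τ, b, some i, none) i ∧
    y = Sum.inl (τ, b, none, none)) ∨
  (∃ (i j : Fin T), i < j ∧ (i : ℕ) ∈ P.set τ ∧ (j : ℕ) ∈ P.set τ ∧
    x = cur t (τ, true, some i, some j) i ∧ y = cur t (τ, false, some i, some j) j)

/-- The matching edges for the sequence `τ` in round `t`. -/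
def MRel (τ : Fin T → Bool) (t : ℕ) (x y : Old T ⊕ ℕ) : Prop :=
  (∃ (b : Bool) (i : Fin T), (i : ℕ) = t ∧ (i : ℕ) ∈ P.set τ ∧
    x = Sum.inl (τ, b, some i, none) ∧ y = Sum.inl (τ, b, none, none)) ∨
  (∃ (i j : Fin T), i < j ∧ (i : ℕ) = t ∧ (i : ℕ) ∈ P.set τ ∧ (j : ℕ) ∈ P.set τ ∧
    x = Sum.inl (τ, true, some i, some j) ∧ y = Sum.inl (τ, false, some i, some j)) ∨
  (∃ (i j : Fin T), i < j ∧ (j : ℕ) = t ∧ (i : ℕ) ∈ P.set τ ∧ (j : ℕ) ∈ P.set τ ∧
    x = Sum.inr (i : ℕ) ∧ y = Sum.inl (τ, false, some i, some j))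

/-- The graph needed at time `t` after the answers `σ`. -/
def Gam (t : ℕ) (σ : ℕ → Bool) : SimpleGraph (Old T ⊕ ℕ) :=
  SimpleGraph.fromRel fun x y => ∃ τ, Agree t σ (ext τ) ∧ Rel P τ t x y

/-- The matching of round `t` after the answers `σ`. -/
def Mu (t : ℕ) (σ : ℕ → Bool) : SimpleGraph (Old T ⊕ ℕ) :=
  SimpleGraph.fromRel fun x y => ∃ τ, Agree t σ (ext τ) ∧ MRel P τ t x y

theorem MRel.rel {τ : Fin T → Bool} {t : ℕ} {x y : Old T ⊕ ℕ} (h : MRel P τ t x y) :
    Rel P τ t x y := by
  rcases h with ⟨b, i, hit, hi, rfl, rfl⟩ | ⟨i, j, hij, hit, hi, hj, rfl, rfl⟩ |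
    ⟨i, j, hij, hjt, hi, hj, rfl, rfl⟩
  · exact Or.inr (Or.inl ⟨b, i, hi, by simp [cur, hit], rfl⟩)
  · have hij' : (i : ℕ) < j := hij
    exact Or.inr (Or.inr ⟨i, j, hij, hi, hj, by simp [cur, hit], by
      unfold cur
      rw [if_neg (by omega)]⟩)
  · have hij' : (i : ℕ) < j := hij
    exact Or.inr (Or.inr ⟨i, j, hij, hi, hj, by
      unfold cur
      rw [if_pos (by omega)], by
      unfold cur
      rw [if_neg (by omega)]⟩)

theorem mu_le_gam (t : ℕ) (σ : ℕ → Bool) : Mu P t σ ≤ Gam P t σ := by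
  intro x y h
  rw [Mu, SimpleGraph.fromRel_adj] at h
  rw [Gam, SimpleGraph.fromRel_adj]
  refine ⟨h.1, ?_⟩
  rcases h.2 with ⟨τ, h1, h2⟩ | ⟨τ, h1, h2⟩
  · exact Or.inl ⟨τ, h1, h2.rel P⟩
  · exact Or.inr ⟨τ, h1, h2.rel P⟩

theorem agree_trans {t : ℕ} {σ a b : ℕ → Bool} (h1 : Agree t σ a) (h2 : Agree t σ b) :
    Agree t a b := fun i hi => (h1 i hi).symm.trans (h2 i hi)

theorem mrel_left {t : ℕ} {σ : ℕ → Bool} {τ τ' : Fin T → Bool} (h1 : Agree t σ (ext τ))
    (h2 : Agree t σ (ext τ')) {x y y' : Old T ⊕ ℕ} (h : MRel P τ t x y) (h' : MRel P τ' t x y') :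
    y = y' := by
  rcases h with ⟨b, i, hit, hi, rfl, rfl⟩ | ⟨i, j, hij, hit, hi, hj, rfl, rfl⟩ |
    ⟨i, j, hij, hjt, hi, hj, rfl, rfl⟩
  · rcases h' with ⟨b', i', hit', hi', e1, rfl⟩ | ⟨i', j', hij', hit', hi', hj', e1, rfl⟩ |
      ⟨i', j', hij', hjt', hi', hj', e1, rfl⟩
    · simp only [Sum.inl.injEq, Prod.mk.injEq, and_true, Option.some.injEq] at e1
      rw [e1.1, e1.2.1]
    · simp at e1
    · simp at e1
  · rcases h' with ⟨b', i', hit', hi', e1, rfl⟩ | ⟨i', j', hij', hit', hi', hj', e1, rfl⟩ |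
      ⟨i', j', hij', hjt', hi', hj', e1, rfl⟩
    · simp at e1
    · simp only [Sum.inl.injEq, Prod.mk.injEq, true_and, Option.some.injEq] at e1
      rw [e1.1, e1.2.1, e1.2.2]
    · simp at e1
  · rcases h' with ⟨b', i', hit', hi', e1, rfl⟩ | ⟨i', j', hij', hit', hi', hj', e1, rfl⟩ |
      ⟨i', j', hij', hjt', hi', hj', e1, rfl⟩
    · simp at e1
    · simp at e1
    · simp only [Sum.inr.injEq] at e1
      have e2 : i = i' := Fin.ext e1
      have e3 : j = j' := Fin.ext (by omega)
      subst e2 e3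
      have e4 : τ = τ' := P.set_uniq (i := i) (j := j) hij hi hj hi' hj' (by
        rw [hjt]; exact agree_trans h1 h2)
      rw [e4]

theorem mrel_right {t : ℕ} {τ τ' : Fin T → Bool} {x y x' : Old T ⊕ ℕ} (h : MRel P τ t x y)
    (h' : MRel P τ' t x' y) : x = x' := by
  rcases h with ⟨b, i, hit, hi, rfl, rfl⟩ | ⟨i, j, hij, hit, hi, hj, rfl, rfl⟩ |
    ⟨i, j, hij, hjt, hi, hj, rfl, rfl⟩
  · rcases h' with ⟨b', i', hit', hi', rfl, e1⟩ | ⟨i', j', hij', hit', hi', hj', rfl, e1⟩ |
      ⟨i', j', hij', hjt', hi', hj', rfl, e1⟩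
    · simp only [Sum.inl.injEq, Prod.mk.injEq, and_true] at e1
      have e2 : i = i' := Fin.ext (by omega)
      rw [e1.1, e1.2, e2]
    · simp at e1
    · simp at e1
  · rcases h' with ⟨b', i', hit', hi', rfl, e1⟩ | ⟨i', j', hij', hit', hi', hj', rfl, e1⟩ |
      ⟨i', j', hij', hjt', hi', hj', rfl, e1⟩
    · simp at e1
    · simp only [Sum.inl.injEq, Prod.mk.injEq, true_and, Option.some.injEq] at e1
      rw [e1.1, e1.2.1, e1.2.2]
    · simp only [Sum.inl.injEq, Prod.mk.injEq, true_and, Option.some.injEq] at e1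
      exfalso
      have h1 : (i : ℕ) < j := hij
      have h2 : (i' : ℕ) < j' := hij'
      have h3 : (i : ℕ) = i' := by rw [e1.2.1]
      have h4 : (j : ℕ) = j' := by rw [e1.2.2]
      omega
  · rcases h' with ⟨b', i', hit', hi', rfl, e1⟩ | ⟨i', j', hij', hit', hi', hj', rfl, e1⟩ |
      ⟨i', j', hij', hjt', hi', hj', rfl, e1⟩
    · simp at e1
    · simp only [Sum.inl.injEq, Prod.mk.injEq, true_and, Option.some.injEq] at e1
      exfalso
      have h1 : (i : ℕ) < j := hij
      have h2 : (i' : ℕ) < j' := hij'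
      have h3 : (i : ℕ) = i' := by rw [e1.2.1]
      have h4 : (j : ℕ) = j' := by rw [e1.2.2]
      omega
    · simp only [Sum.inl.injEq, Prod.mk.injEq, true_and, Option.some.injEq] at e1
      rw [e1.2.1]

theorem mrel_cross {t : ℕ} {τ τ' : Fin T → Bool} {x y x' : Old T ⊕ ℕ} (h : MRel P τ t x y)
    (h' : MRel P τ' t x' x) : False := by
  rcases h with ⟨b, i, hit, hi, rfl, rfl⟩ | ⟨i, j, hij, hit, hi, hj, rfl, rfl⟩ |
    ⟨i, j, hij, hjt, hi, hj, rfl, rfl⟩
  · rcases h' with ⟨b', i', hit', hi', rfl, e1⟩ | ⟨i', j', hij', hit', hi', hj', rfl, e1⟩ |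
      ⟨i', j', hij', hjt', hi', hj', rfl, e1⟩ <;> simp at e1
  · rcases h' with ⟨b', i', hit', hi', rfl, e1⟩ | ⟨i', j', hij', hit', hi', hj', rfl, e1⟩ |
      ⟨i', j', hij', hjt', hi', hj', rfl, e1⟩ <;> simp at e1
  · rcases h' with ⟨b', i', hit', hi', rfl, e1⟩ | ⟨i', j', hij', hit', hi', hj', rfl, e1⟩ |
      ⟨i', j', hij', hjt', hi', hj', rfl, e1⟩ <;> simp at e1

theorem mu_unique (t : ℕ) (σ : ℕ → Bool) (x y y' : Old T ⊕ ℕ) (h : (Mu P t σ).Adj x y)
    (h' : (Mu P t σ).Adj x y') : y = y' := by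
  rw [Mu, SimpleGraph.fromRel_adj] at h h'
  rcases h.2 with ⟨τ, h1, h2⟩ | ⟨τ, h1, h2⟩
  · rcases h'.2 with ⟨τ', h1', h2'⟩ | ⟨τ', h1', h2'⟩
    · exact mrel_left P h1 h1' h2 h2'
    · exact (mrel_cross P h2 h2').elim
  · rcases h'.2 with ⟨τ', h1', h2'⟩ | ⟨τ', h1', h2'⟩
    · exact (mrel_cross P h2' h2).elim
    · exact mrel_right P h2 h2'

theorem agree_upd {t : ℕ} {σ τ : ℕ → Bool} {b : Bool} (h : Agree (t + 1) (upd σ t b) τ) :
    Agree t σ τ := by
  intro i hi
  have := h i (by omega)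
  rwa [upd, Function.update_of_ne (by omega)] at this

theorem agree_upd_bit {t : ℕ} {σ τ : ℕ → Bool} {b : Bool} (h : Agree (t + 1) (upd σ t b) τ) :
    τ t = b := by
  have := h t (by omega)
  rw [upd, Function.update_self] at this
  exact this.symm

theorem cur_eq_inr {t : ℕ} {e : Old T} {i : Fin T} {n : ℕ} (h : cur t e i = Sum.inr n) :
    n = i ∧ n < t := by
  unfold cur at h
  split_ifs at h with h1
  rw [Sum.inr.injEq] at h
  omega

theorem cur_eq_inl {t : ℕ} {e e' : Old T} {i : Fin T} (h : cur t e i = Sum.inl e') :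
    e = e' ∧ t ≤ i := by
  unfold cur at h
  split_ifs at h with h1
  rw [Sum.inl.injEq] at h
  exact ⟨h, by omega⟩

theorem cur_succ {t : ℕ} (e : Old T) {i : Fin T} (h : (i : ℕ) ≠ t) :
    cur (t + 1) e i = cur t e i := by
  unfold cur
  by_cases h1 : (i : ℕ) < t
  · rw [if_pos h1, if_pos (by omega)]
  · rw [if_neg h1, if_neg (by omega)]

theorem cur_succ_self {t : ℕ} (e : Old T) {i : Fin T} (h : (i : ℕ) = t) :
    cur (t + 1) e i = Sum.inr t := by
  unfold cur
  rw [if_pos (by omega), h]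

theorem cur_self {t : ℕ} (e : Old T) {i : Fin T} (h : (i : ℕ) = t) :
    cur t e i = Sum.inl e := by
  unfold cur
  rw [if_neg (by omega)]

/-- One step of the plan for a single edge. -/
theorem rel_step {t : ℕ} {σ : ℕ → Bool} {τ : Fin T → Bool} (hτ : Agree t σ (ext τ))
    {x y : Old T ⊕ ℕ} (h : Rel P τ (t + 1) x y) :
    ((Gam P t σ).Adj x y ∧ ¬ (Mu P t σ).Adj x y) ∨ (x = Sum.inr t ∧ ∃ z, (Mu P t σ).Adj y z) ∨
      (y = Sum.inr t ∧ ∃ z, (Mu P t σ).Adj x z) := by
  rcases h with ⟨rfl, rfl⟩ | ⟨b, i, hi, rfl, rfl⟩ | ⟨i, j, hij, hi, hj, rfl, rfl⟩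
  · left
    refine ⟨?_, ?_⟩
    · rw [Gam, SimpleGraph.fromRel_adj]
      exact ⟨by simp, Or.inl ⟨τ, hτ, Or.inl ⟨rfl, rfl⟩⟩⟩
    · intro h
      rw [Mu, SimpleGraph.fromRel_adj] at h
      rcases h.2 with ⟨τ', -, h2⟩ | ⟨τ', -, h2⟩
      · rcases h2 with ⟨b', i', -, -, e1, e2⟩ | ⟨i', j', -, -, -, -, e1, e2⟩ |
          ⟨i', j', -, -, -, -, e1, e2⟩
        · simp at e1
        · simp at e1
        · simp at e1
      · rcases h2 with ⟨b', i', -, -, e1, e2⟩ | ⟨i', j', -, -, -, -, e1, e2⟩ |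
          ⟨i', j', -, -, -, -, e1, e2⟩
        · simp at e1
        · simp at e1
        · simp at e1
  · by_cases hit : (i : ℕ) = t
    · right; left
      refine ⟨cur_succ_self _ hit, Sum.inl (τ, b, some i, none), ?_⟩
      rw [Mu, SimpleGraph.fromRel_adj]
      exact ⟨by simp, Or.inr ⟨τ, hτ, Or.inl ⟨b, i, hit, hi, rfl, rfl⟩⟩⟩
    · left
      rw [cur_succ _ hit]
      refine ⟨?_, ?_⟩
      · rw [Gam, SimpleGraph.fromRel_adj]
        refine ⟨?_, Or.inl ⟨τ, hτ, Or.inr (Or.inl ⟨b, i, hi, rfl, rfl⟩)⟩⟩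
        intro h
        have := (cur_eq_inl h).1
        simp at this
      · intro h
        rw [Mu, SimpleGraph.fromRel_adj] at h
        rcases h.2 with ⟨τ', -, h2⟩ | ⟨τ', -, h2⟩
        · rcases h2 with ⟨b', i', hi't, -, e1, e2⟩ | ⟨i', j', -, -, -, -, e1, e2⟩ |
            ⟨i', j', -, -, -, -, e1, e2⟩
          · have := (cur_eq_inl e1).1
            simp only [Prod.mk.injEq, Option.some.injEq] at this
            rw [← this.2.2.1] at hi't
            exact hit hi't
          · simp at e2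
          · simp at e2
        · rcases h2 with ⟨b', i', -, -, e1, e2⟩ | ⟨i', j', -, -, -, -, e1, e2⟩ |
            ⟨i', j', -, -, -, -, e1, e2⟩
          · simp at e1
          · simp at e1
          · simp at e1
  · have hij' : (i : ℕ) < j := hij
    by_cases hit : (i : ℕ) = t
    · right; left
      refine ⟨cur_succ_self _ hit, Sum.inl (τ, true, some i, some j), ?_⟩
      rw [cur_succ _ (by omega)]
      rw [Mu, SimpleGraph.fromRel_adj]
      have e : cur t ((τ, false, some i, some j) : Old T) j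
          = Sum.inl (τ, false, some i, some j) := by
        unfold cur
        rw [if_neg (by omega)]
      rw [e]
      exact ⟨by simp, Or.inr ⟨τ, hτ, Or.inr (Or.inl ⟨i, j, hij, hit, hi, hj, rfl, rfl⟩)⟩⟩
    · by_cases hjt : (j : ℕ) = t
      · right; right
        refine ⟨cur_succ_self _ hjt, Sum.inl (τ, false, some i, some j), ?_⟩
        rw [cur_succ _ hit]
        rw [Mu, SimpleGraph.fromRel_adj]
        have e : cur t ((τ, true, some i, some j) : Old T) i = Sum.inr (i : ℕ) := by
          unfold cur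
          rw [if_pos (by omega)]
        rw [e]
        exact ⟨by simp, Or.inl ⟨τ, hτ, Or.inr (Or.inr ⟨i, j, hij, hjt, hi, hj, rfl, rfl⟩)⟩⟩
      · left
        rw [cur_succ _ hit, cur_succ _ hjt]
        refine ⟨?_, ?_⟩
        · rw [Gam, SimpleGraph.fromRel_adj]
          refine ⟨?_, Or.inl ⟨τ, hτ, Or.inr (Or.inr ⟨i, j, hij, hi, hj, rfl, rfl⟩)⟩⟩
          intro h
          rcases hc : cur t ((τ, true, some i, some j) : Old T) i with e' | n
          · rw [hc] at h
            have h1 := (cur_eq_inl hc).1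
            have h2 := (cur_eq_inl h.symm).1
            rw [← h2] at h1
            simp at h1
          · rw [hc] at h
            have h1 := (cur_eq_inr hc).1
            have h2 := (cur_eq_inr h.symm).1
            omega
        · intro h
          rw [Mu, SimpleGraph.fromRel_adj] at h
          rcases h.2 with ⟨τ', -, h2⟩ | ⟨τ', -, h2⟩
          · rcases h2 with ⟨b', i', hi't, -, e1, e2⟩ | ⟨i', j', -, hi't, -, -, e1, e2⟩ |
              ⟨i', j', -, hj't, -, -, e1, e2⟩
            · have := (cur_eq_inl e2).1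
              simp at this
            · have := (cur_eq_inl e1).1
              simp only [Prod.mk.injEq, Option.some.injEq] at this
              rw [← this.2.2.1] at hi't
              exact hit hi't
            · have := (cur_eq_inl e2).1
              simp only [Prod.mk.injEq, Option.some.injEq] at this
              rw [← this.2.2.2] at hj't
              exact hjt hj't
          · rcases h2 with ⟨b', i', -, -, e1, e2⟩ | ⟨i', j', -, -, -, -, e1, e2⟩ |
              ⟨i', j', -, -, -, -, e1, e2⟩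
            · have := (cur_eq_inl e1).1
              simp at this
            · have := (cur_eq_inl e1).1
              simp at this
            · have := (cur_eq_inl e2).1
              simp at this

theorem gam_step (t : ℕ) (σ : ℕ → Bool) (b : Bool) (x y : Old T ⊕ ℕ)
    (h : (Gam P (t + 1) (upd σ t b)).Adj x y) :
    ((Gam P t σ).Adj x y ∧ ¬ (Mu P t σ).Adj x y) ∨ (x = Sum.inr t ∧ ∃ z, (Mu P t σ).Adj y z) ∨
      (y = Sum.inr t ∧ ∃ z, (Mu P t σ).Adj x z) := by
  rw [Gam, SimpleGraph.fromRel_adj] at h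
  rcases h.2 with ⟨τ, h1, h2⟩ | ⟨τ, h1, h2⟩
  · exact rel_step P (agree_upd h1) h2
  · rcases rel_step P (agree_upd h1) h2 with ⟨h3, h4⟩ | h3 | h3
    · exact Or.inl ⟨h3.symm, fun h5 => h4 h5.symm⟩
    · exact Or.inr (Or.inr h3)
    · exact Or.inr (Or.inl h3)

/-- An edge needed for two sequences. -/
theorem rel_rel {t : ℕ} {τ τ' : Fin T → Bool} {x y : Old T ⊕ ℕ} (h : Rel P τ t x y)
    (h' : Rel P τ' t x y) : τ = τ' ∨ ∃ i j : ℕ, i < j ∧ j < t ∧ i ∈ P.set τ ∧ j ∈ P.set τ ∧
      i ∈ P.set τ' ∧ j ∈ P.set τ' := by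
  rcases h with ⟨rfl, rfl⟩ | ⟨b, i, hi, rfl, rfl⟩ | ⟨i, j, hij, hi, hj, rfl, rfl⟩
  · rcases h' with ⟨e1, e2⟩ | ⟨b', i', hi', e1, e2⟩ | ⟨i', j', hij', hi', hj', e1, e2⟩
    · simp only [Sum.inl.injEq, Prod.mk.injEq, and_true] at e1
      exact Or.inl e1
    · simp only [Sum.inl.injEq, Prod.mk.injEq, and_true] at e2
      exact Or.inl e2.1
    · have := (cur_eq_inl e2.symm).1
      simp at this
  · rcases h' with ⟨e1, e2⟩ | ⟨b', i', hi', e1, e2⟩ | ⟨i', j', hij', hi', hj', e1, e2⟩
    · simp only [Sum.inl.injEq, Prod.mk.injEq, and_true] at e2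
      exact Or.inl e2.1
    · simp only [Sum.inl.injEq, Prod.mk.injEq, and_true] at e2
      exact Or.inl e2.1
    · have := (cur_eq_inl e2.symm).1
      simp at this
  · rcases h' with ⟨e1, e2⟩ | ⟨b', i', hi', e1, e2⟩ | ⟨i', j', hij', hi', hj', e1, e2⟩
    · have := (cur_eq_inl e2).1
      simp at this
    · have := (cur_eq_inl e2).1
      simp at this
    · rcases hc : cur t ((τ, false, some i, some j) : Old T) j with e' | n
      · rw [hc] at e2
        have h1 := (cur_eq_inl hc).1
        have h2 := (cur_eq_inl e2.symm).1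
        rw [← h2] at h1
        simp only [Prod.mk.injEq] at h1
        exact Or.inl h1.1
      · rw [hc] at e2
        have h1 := cur_eq_inr hc
        have h2 := cur_eq_inr e2.symm
        have hij1 : (i : ℕ) < j := hij
        have hij2 : (i' : ℕ) < j' := hij'
        have c1 : cur t ((τ, true, some i, some j) : Old T) i = Sum.inr (i : ℕ) := by
          unfold cur
          rw [if_pos (by omega)]
        have c2 : cur t ((τ', true, some i', some j') : Old T) i' = Sum.inr (i' : ℕ) := by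
          unfold cur
          rw [if_pos (by omega)]
        rw [c1, c2, Sum.inr.injEq] at e1
        have e3 : (j : ℕ) = j' := by omega
        exact Or.inr ⟨i, j, hij, by omega, hi, hj, by rw [e1]; exact hi', by rw [e3]; exact hj'⟩

theorem rel_rel_cross {t : ℕ} {τ τ' : Fin T → Bool} {x y : Old T ⊕ ℕ} (h : Rel P τ t x y)
    (h' : Rel P τ' t y x) : False := by
  rcases h with ⟨rfl, rfl⟩ | ⟨b, i, hi, rfl, rfl⟩ | ⟨i, j, hij, hi, hj, rfl, rfl⟩
  · rcases h' with ⟨e1, e2⟩ | ⟨b', i', hi', e1, e2⟩ | ⟨i', j', hij', hi', hj', e1, e2⟩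
    · simp at e1
    · have := (cur_eq_inl e1.symm).1
      simp at this
    · have := (cur_eq_inl e2.symm).1
      simp at this
  · rcases h' with ⟨e1, e2⟩ | ⟨b', i', hi', e1, e2⟩ | ⟨i', j', hij', hi', hj', e1, e2⟩
    · have := (cur_eq_inl e2).1
      simp at this
    · have := (cur_eq_inl e2).1
      simp at this
    · have := (cur_eq_inl e1.symm).1
      simp at this
  · have hij1 : (i : ℕ) < j := hij
    rcases h' with ⟨e1, e2⟩ | ⟨b', i', hi', e1, e2⟩ | ⟨i', j', hij', hi', hj', e1, e2⟩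
    · have := (cur_eq_inl e1).1
      simp at this
    · have := (cur_eq_inl e2).1
      simp at this
    · have hij2 : (i' : ℕ) < j' := hij'
      rcases hc : cur t ((τ, false, some i, some j) : Old T) j with e' | n
      · rw [hc] at e1
        have h1 := (cur_eq_inl hc).1
        have h2 := (cur_eq_inl e1.symm).1
        rw [← h2] at h1
        simp at h1
      · rw [hc] at e1
        have h1 := cur_eq_inr hc
        have h2 := cur_eq_inr e1.symm
        have c1 : cur t ((τ, true, some i, some j) : Old T) i = Sum.inr (i : ℕ) := by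
          unfold cur
          rw [if_pos (by omega)]
        rw [c1] at e2
        have h3 := cur_eq_inr e2.symm
        omega

theorem gam_disjoint (t : ℕ) (_ : t < T) (σ : ℕ → Bool) :
    Disjoint (Gam P (t + 1) (upd σ t false)) (Gam P (t + 1) (upd σ t true)) := by
  rw [disjoint_iff_inf_le]
  have key : ∀ τ τ' : Fin T → Bool, Agree (t + 1) (upd σ t false) (ext τ) →
      Agree (t + 1) (upd σ t true) (ext τ') → ∀ x y, Rel P τ (t + 1) x y →
      Rel P τ' (t + 1) x y → False := by
    intro τ τ' h1 h1' x y h2 h2'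
    have b1 := agree_upd_bit h1
    have b2 := agree_upd_bit h1'
    rcases rel_rel P h2 h2' with h | ⟨i, j, hij, hjt, c1, c2, c3, c4⟩
    · rw [h, b2] at b1
      exact absurd b1 (by simp)
    · have : τ = τ' := P.set_uniq hij c1 c2 c3 c4 (fun q hq =>
        agree_trans (agree_upd h1) (agree_upd h1') q (by omega))
      rw [this, b2] at b1
      exact absurd b1 (by simp)
  rintro x y ⟨h, h'⟩
  rw [Gam, SimpleGraph.fromRel_adj] at h h'
  rcases h.2 with ⟨τ, h1, h2⟩ | ⟨τ, h1, h2⟩
  · rcases h'.2 with ⟨τ', h1', h2'⟩ | ⟨τ', h1', h2'⟩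
    · exact key τ τ' h1 h1' x y h2 h2'
    · exact rel_rel_cross P h2 h2'
  · rcases h'.2 with ⟨τ', h1', h2'⟩ | ⟨τ', h1', h2'⟩
    · exact rel_rel_cross P h2 h2'
    · exact key τ τ' h1 h1' y x h2 h2'

theorem rel_support {t : ℕ} {τ : Fin T → Bool} {x y : Old T ⊕ ℕ} (h : Rel P τ t x y) :
    (∀ i, t ≤ i → x ≠ Sum.inr i) ∧ ∀ i, t ≤ i → y ≠ Sum.inr i := by
  rcases h with ⟨rfl, rfl⟩ | ⟨b, i, hi, rfl, rfl⟩ | ⟨i, j, hij, hi, hj, rfl, rfl⟩
  · exact ⟨by simp, by simp⟩
  · refine ⟨fun q hq h => ?_, by simp⟩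
    have := cur_eq_inr h
    omega
  · refine ⟨fun q hq h => ?_, fun q hq h => ?_⟩
    · have := cur_eq_inr h
      omega
    · have := cur_eq_inr h
      omega

theorem gam_support (t : ℕ) (σ : ℕ → Bool) (x y : Old T ⊕ ℕ) (h : (Gam P t σ).Adj x y) (i : ℕ)
    (hi : t ≤ i) : x ≠ Sum.inr i := by
  rw [Gam, SimpleGraph.fromRel_adj] at h
  rcases h.2 with ⟨τ, -, h2⟩ | ⟨τ, -, h2⟩
  · exact (rel_support P h2).1 i hi
  · exact (rel_support P h2).2 i hi

theorem gam_clique (σ : ℕ → Bool) : ∃ s : Finset (Old T ⊕ ℕ), s.card = m + 2 ∧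
    (∀ x ∈ s, ∀ i, T ≤ i → x ≠ Sum.inr i) ∧
      ∀ x ∈ s, ∀ y ∈ s, x ≠ y → (Gam P T σ).Adj x y := by
  classical
  let τ : Fin T → Bool := fun i => σ i
  have hτ : Agree T σ (ext τ) := by
    intro i hi
    simp [ext, hi, τ]
  let u : Bool → Old T ⊕ ℕ := fun b => Sum.inl (τ, b, none, none)
  have hset : ∀ i ∈ P.set τ, i < T := P.lt _
  have huw : ∀ b, ∀ i ∈ P.set τ, Rel P τ T (Sum.inr i) (u b) := by
    intro b i hi
    refine Or.inr (Or.inl ⟨b, ⟨i, hset i hi⟩, hi, ?_, rfl⟩)
    unfold cur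
    rw [if_pos (hset i hi)]
  have hww : ∀ i ∈ P.set τ, ∀ j ∈ P.set τ, i < j → Rel P τ T (Sum.inr i) (Sum.inr j) := by
    intro i hi j hj hij
    refine Or.inr (Or.inr ⟨⟨i, hset i hi⟩, ⟨j, hset j hj⟩, hij, hi, hj, ?_, ?_⟩)
    · unfold cur
      rw [if_pos (hset i hi)]
    · unfold cur
      rw [if_pos (hset j hj)]
  have hadj : ∀ x y, x ≠ y → (Rel P τ T x y ∨ Rel P τ T y x) → (Gam P T σ).Adj x y := by
    intro x y hxy h
    rw [Gam, SimpleGraph.fromRel_adj]
    exact ⟨hxy, h.imp (fun h => ⟨τ, hτ, h⟩) (fun h => ⟨τ, hτ, h⟩)⟩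
  refine ⟨insert (u false) (insert (u true) ((P.set τ).map ⟨Sum.inr, Sum.inr_injective⟩)),
    ?_, ?_, ?_⟩
  · rw [Finset.card_insert_of_notMem, Finset.card_insert_of_notMem, Finset.card_map]
    · have : (P.set τ).card = m := P.card _
      omega
    · simp [u]
    · simp [u]
  · intro x hx i hi
    simp only [Finset.mem_insert, Finset.mem_map, Function.Embedding.coeFn_mk] at hx
    rcases hx with rfl | rfl | ⟨a, ha, rfl⟩
    · simp [u]
    · simp [u]
    · have := hset a ha
      simp only [ne_eq, Sum.inr.injEq]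
      omega
  · intro x hx y hy hxy
    apply hadj x y hxy
    simp only [Finset.mem_insert, Finset.mem_map, Function.Embedding.coeFn_mk] at hx hy
    rcases hx with rfl | rfl | ⟨a, ha, rfl⟩
    · rcases hy with rfl | rfl | ⟨c, hc, rfl⟩
      · exact absurd rfl hxy
      · exact Or.inr (Or.inl ⟨rfl, rfl⟩)
      · exact Or.inr (huw _ c hc)
    · rcases hy with rfl | rfl | ⟨c, hc, rfl⟩
      · exact Or.inl (Or.inl ⟨rfl, rfl⟩)
      · exact absurd rfl hxy
      · exact Or.inr (huw _ c hc)
    · rcases hy with rfl | rfl | ⟨c, hc, rfl⟩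
      · exact Or.inl (huw _ a ha)
      · exact Or.inl (huw _ a ha)
      · rcases lt_trichotomy a c with h | h | h
        · exact Or.inl (hww a ha c hc h)
        · exact absurd (by rw [h]) hxy
        · exact Or.inr (hww c hc a ha h)

/-- The starting forest. -/
def start : SimpleGraph (Old T) := (Gam P 0 (fun _ => false)).comap Sum.inl

theorem forcesAt_start : ForcesAt (m + 2) T (start P) := by
  classical
  refine forcesAt_of_plan (m + 2) T (Sum.inr : ℕ → Old T ⊕ ℕ) (Gam P) (Mu P)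
    (fun t _ σ => mu_le_gam P t σ) (fun t _ σ x y y' => mu_unique P t σ x y y')
    (fun t _ σ b x y => gam_step P t σ b x y) (fun t ht σ => gam_disjoint P t ht σ)
    (fun t _ σ x y => gam_support P t σ x y) (gam_clique P) T 0 (by omega) (fun _ => false)
    (Old T) (start P) (Sum.elim id (fun _ => ((fun _ => false), false, none, none))) ?_ ?_
  · intro x hx y hy h
    rcases x with x | x
    · rcases y with y | y
      · simpa using h
      · exact absurd rfl (hy y (Nat.zero_le _))
    · exact absurd rfl (hx x (Nat.zero_le _))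
  · intro x y h
    have hx := gam_support P 0 _ x y h
    have hy := gam_support P 0 _ y x h.symm
    rcases x with x | x
    · rcases y with y | y
      · exact h
      · exact absurd rfl (hy y (Nat.zero_le _))
    · exact absurd rfl (hx x (Nat.zero_le _))

/-- A graph whose edges join each vertex to its parent, of smaller rank, is a forest. -/
theorem isAcyclic_of_parent {V : Type} (G : SimpleGraph V) (par : V → V) (r : V → ℕ)
    (h : ∀ x y, G.Adj x y → (par x = y ∧ r y < r x) ∨ (par y = x ∧ r x < r y)) :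
    G.IsAcyclic := by
  classical
  intro v c hc
  obtain ⟨x, hx, hmax⟩ := c.support.toFinset.exists_max_image r
    ⟨v, by simp⟩
  rw [List.mem_toFinset] at hx
  have hc' := hc.rotate hx
  have hmem : ∀ i, r ((c.rotate x hx).getVert i) ≤ r x := by
    intro i
    apply hmax
    rw [List.mem_toFinset, ← SimpleGraph.Walk.mem_support_rotate_iff c x hx]
    exact SimpleGraph.Walk.getVert_mem_support _ i
  have hnil : ¬ (c.rotate x hx).Nil := hc'.not_nil
  have h1 : G.Adj x (c.rotate x hx).snd := SimpleGraph.Walk.adj_snd hnil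
  have h2 : G.Adj (c.rotate x hx).penultimate x := SimpleGraph.Walk.adj_penultimate hnil
  have e1 : par x = (c.rotate x hx).snd := by
    rcases h x _ h1 with h3 | h3
    · exact h3.1
    · have := hmem 1
      have h4 := h3.2
      unfold SimpleGraph.Walk.snd at h4
      omega
  have e2 : par x = (c.rotate x hx).penultimate := by
    rcases h _ x h2 with h3 | h3
    · have := hmem ((c.rotate x hx).length - 1)
      have h4 := h3.2
      unfold SimpleGraph.Walk.penultimate at h4
      omega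
    · exact h3.1
  exact hc'.snd_ne_penultimate (e1.symm.trans e2)

theorem start_isAcyclic : (start P).IsAcyclic := by
  refine isAcyclic_of_parent (start P)
    (fun x => match x with
      | (τ, b, some i, none) => (τ, b, none, none)
      | (τ, _, i, j) => (τ, false, i, j))
    (fun x => match x with
      | (_, _, some _, none) => 2
      | (_, b, _, _) => if b then 1 else 0) ?_
  have key : ∀ (τ : Fin T → Bool) (x y : Old T), Rel P τ 0 (Sum.inl x) (Sum.inl y) →
      ((fun x : Old T => match x with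
        | (τ, b, some i, none) => ((τ, b, none, none) : Old T)
        | (τ, _, i, j) => (τ, false, i, j)) x = y) ∧
      (fun x : Old T => match x with
        | (_, _, some _, none) => 2
        | (_, b, _, _) => if b then 1 else 0) y <
      (fun x : Old T => match x with
        | (_, _, some _, none) => 2
        | (_, b, _, _) => if b then 1 else 0) x := by
    intro τ x y h
    rcases h with ⟨e1, e2⟩ | ⟨b, i, hi, e1, e2⟩ | ⟨i, j, hij, hi, hj, e1, e2⟩
    · rw [Sum.inl.injEq] at e1 e2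
      subst e1 e2
      simp
    · have e1' := (cur_eq_inl e1.symm).1
      rw [Sum.inl.injEq] at e2
      subst e1' e2
      refine ⟨rfl, ?_⟩
      cases b <;> simp
    · have e1' := (cur_eq_inl e1.symm).1
      have e2' := (cur_eq_inl e2.symm).1
      subst e1' e2'
      simp
  intro x y h
  have h' : (Gam P 0 (fun _ => false)).Adj (Sum.inl x) (Sum.inl y) := h
  rw [Gam, SimpleGraph.fromRel_adj] at h'
  rcases h'.2 with ⟨τ, -, h2⟩ | ⟨τ, -, h2⟩
  · exact Or.inl (key τ x y h2)
  · exact Or.inr (key τ y x h2)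

end graphs

/-- For every `m` there is a finite forest from which Builder can guarantee `K_{m+3}` in the graph
after exactly `planLen m` rounds. -/
theorem exists_forest (m : ℕ) : ∃ (V : Type) (_ : Finite V) (G : SimpleGraph V), G.IsAcyclic ∧
    ForcesAt (m + 3) (planLen m) G := by
  obtain ⟨P⟩ := exists_plan m
  exact ⟨Old (planLen m), inferInstance, start P, start_isAcyclic P, forcesAt_start P⟩

end Pool.Agent.V11150.BuilderChooser
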