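import Mathlib
import Pool.Agent.V11150.BuilderChooser

set_option autoImplicit false

namespace Pool.Agent.V11150.BuilderChooser

/-- The tower function `1, 2, 4, 16, 65536, …`. -/
def twr : ℕ → ℕ
  | 0 => 1
  | n + 1 => 2 ^ twr n

/-- There is an edge between the vertices born at times `i` and `j`. -/
def core {V : Type} (G : SimpleGraph V) (β : V → ℕ) (i j : ℕ) : Prop :=
  ∃ u v, β u = i ∧ β v = j ∧ G.Adj u v

/-- `β` is the birth time (`0` for the vertices of the starting graph). -/
structure Inv {V : Type} (t : ℕ) (β : V → ℕ) (G : SimpleGraph V) : Prop where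
  le : ∀ v, β v ≤ t
  inj : ∀ u v, β u = β v → β u ≠ 0 → u = v
  tri : ∀ a b c, β a = 0 → β b = 0 → β c = 0 → G.Adj a b → G.Adj b c → G.Adj a c → False

/-- The birth times after one more round. -/
def newB {V : Type} (t : ℕ) (β : V → ℕ) : Option V → ℕ
  | none => t + 1
  | some v => β v

theorem Inv.step {V : Type} {t : ℕ} {β : V → ℕ} {G : SimpleGraph V} (h : Inv t β G)
    (M : G.Subgraph) (D : SimpleGraph (Option V)) (hD : D ≤ grow G M) :
    Inv (t + 1) (newB t β) D where
  le := by
    rintro (_ | v)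
    · exact le_rfl
    · exact (h.le v).trans (Nat.le_succ t)
  inj := by
    rintro (_ | u) (_ | v) huv hu
    · rfl
    · have h1 : t + 1 = β v := huv
      have := h.le v
      omega
    · have h1 : β u = t + 1 := huv
      have := h.le u
      omega
    · rw [h.inj u v huv hu]
  tri := by
    rintro (_ | a) (_ | b) (_ | c) ha hb hc h1 h2 h3
    · exact absurd ha (Nat.succ_ne_zero t)
    · exact absurd ha (Nat.succ_ne_zero t)
    · exact absurd ha (Nat.succ_ne_zero t)
    · exact absurd ha (Nat.succ_ne_zero t)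
    · exact absurd hb (Nat.succ_ne_zero t)
    · exact absurd hb (Nat.succ_ne_zero t)
    · exact absurd hc (Nat.succ_ne_zero t)
    · exact h.tri a b c ha hb hc (hD h1).1 (hD h2).1 (hD h3).1

open Classical in
/-- The potential of a position. -/
noncomputable def pot (W : ℕ → ℝ) {V : Type} (t : ℕ) (β : V → ℕ) (G : SimpleGraph V) : ℝ :=
  ∑ j ∈ Finset.range (t + 1), ∑ i ∈ Finset.Ico 1 j,
    if core G β i j then W (j - i) * (9 / 5 : ℝ) ^ (t + 1 - j) else 0

theorem core_step {V : Type} {t : ℕ} {β : V → ℕ} {G : SimpleGraph V}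
    (M : G.Subgraph) (D : SimpleGraph (Option V)) (hD : D ≤ grow G M) {i j : ℕ}
    (hi : i ≤ t) (hj : j ≤ t) (hc : core D (newB t β) i j) : core G β i j := by
  obtain ⟨u, v, hu, hv, huv⟩ := hc
  rcases u with _ | u
  · have : t + 1 = i := hu
    omega
  · rcases v with _ | v
    · have : t + 1 = j := hv
      omega
    · exact ⟨u, v, hu, hv, (hD huv).1⟩

theorem core_disjoint {V : Type} {t : ℕ} {β : V → ℕ} {G : SimpleGraph V} (h : Inv t β G)
    {M : G.Subgraph} {A B : SimpleGraph (Option V)} (hA : A ≤ grow G M)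
    (hAB : Disjoint A B) {i j : ℕ} (hi : i ≠ 0) (hj : j ≠ 0) (h1 : core A (newB t β) i j)
    (h2 : core B (newB t β) i j) : False := by
  obtain ⟨u, v, hu, hv, huv⟩ := h1
  obtain ⟨u', v', hu', hv', huv'⟩ := h2
  have hI := h.step M A hA
  have e1 : u = u' := hI.inj u u' (by rw [hu, hu']) (by rw [hu]; exact hi)
  have e2 : v = v' := hI.inj v v' (by rw [hv, hv']) (by rw [hv]; exact hj)
  subst e1 e2
  exact hAB.le_bot (show (A ⊓ B).Adj u v from ⟨huv, huv'⟩)

theorem pot_step (W : ℕ → ℝ) (hW : ∀ d, 0 ≤ W d) {V : Type} {t : ℕ} {β : V → ℕ}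
    {G : SimpleGraph V} (h : Inv t β G) {M : G.Subgraph} {A B : SimpleGraph (Option V)}
    (hA : A ≤ grow G M) (hB : B ≤ grow G M) (hAB : Disjoint A B) :
    pot W (t + 1) (newB t β) A + pot W (t + 1) (newB t β) B
      ≤ 9 / 5 * (pot W t β G + ∑ i ∈ Finset.Ico 1 (t + 1), W (t + 1 - i)) := by
  classical
  unfold pot
  rw [Finset.sum_range_succ _ (t + 1), Finset.sum_range_succ _ (t + 1)]
  have key1 : ∑ j ∈ Finset.range (t + 1), (∑ i ∈ Finset.Ico 1 j,
        if core A (newB t β) i j then W (j - i) * (9 / 5 : ℝ) ^ (t + 1 + 1 - j) else 0)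
      + ∑ j ∈ Finset.range (t + 1), (∑ i ∈ Finset.Ico 1 j,
        if core B (newB t β) i j then W (j - i) * (9 / 5 : ℝ) ^ (t + 1 + 1 - j) else 0)
      ≤ 9 / 5 * ∑ j ∈ Finset.range (t + 1), (∑ i ∈ Finset.Ico 1 j,
        if core G β i j then W (j - i) * (9 / 5 : ℝ) ^ (t + 1 - j) else 0) := by
    rw [← Finset.sum_add_distrib, Finset.mul_sum]
    refine Finset.sum_le_sum fun j hj => ?_
    rw [← Finset.sum_add_distrib, Finset.mul_sum]
    refine Finset.sum_le_sum fun i hi => ?_
    rw [Finset.mem_range] at hj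
    rw [Finset.mem_Ico] at hi
    have hpos : 0 ≤ W (j - i) * (9 / 5 : ℝ) ^ (t + 1 - j) := mul_nonneg (hW _) (by positivity)
    have hexp : W (j - i) * (9 / 5 : ℝ) ^ (t + 1 + 1 - j)
        = 9 / 5 * (W (j - i) * (9 / 5 : ℝ) ^ (t + 1 - j)) := by
      have : t + 1 + 1 - j = (t + 1 - j) + 1 := by omega
      rw [this, pow_succ]
      ring
    rw [hexp]
    by_cases ca : core A (newB t β) i j
    · have cg := core_step M A hA (by omega) (by omega) ca
      have cb : ¬ core B (newB t β) i j := fun cb =>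
        core_disjoint h hA hAB (by omega) (by omega) ca cb
      rw [if_pos ca, if_neg cb, if_pos cg]
      linarith
    · rw [if_neg ca]
      by_cases cb : core B (newB t β) i j
      · have cg := core_step M B hB (by omega) (by omega) cb
        rw [if_pos cb, if_pos cg]
        linarith
      · rw [if_neg cb]
        split_ifs
        · linarith
        · simp
  have key2 : (∑ i ∈ Finset.Ico 1 (t + 1),
        if core A (newB t β) i (t + 1) then W (t + 1 - i) * (9 / 5 : ℝ) ^ (t + 1 + 1 - (t + 1))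
        else 0)
      + (∑ i ∈ Finset.Ico 1 (t + 1),
        if core B (newB t β) i (t + 1) then W (t + 1 - i) * (9 / 5 : ℝ) ^ (t + 1 + 1 - (t + 1))
        else 0)
      ≤ 9 / 5 * ∑ i ∈ Finset.Ico 1 (t + 1), W (t + 1 - i) := by
    rw [← Finset.sum_add_distrib, Finset.mul_sum]
    refine Finset.sum_le_sum fun i hi => ?_
    rw [Finset.mem_Ico] at hi
    have hpos := hW (t + 1 - i)
    have hexp : W (t + 1 - i) * (9 / 5 : ℝ) ^ (t + 1 + 1 - (t + 1))
        = 9 / 5 * W (t + 1 - i) := by
      have : t + 1 + 1 - (t + 1) = 1 := by omega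
      rw [this, pow_one]
      ring
    rw [hexp]
    by_cases ca : core A (newB t β) i (t + 1)
    · have cb : ¬ core B (newB t β) i (t + 1) := fun cb =>
        core_disjoint h hA hAB (by omega) (by omega) ca cb
      rw [if_pos ca, if_neg cb]
      linarith
    · rw [if_neg ca]
      split_ifs
      · linarith
      · linarith
  linarith

theorem term_le_pot (W : ℕ → ℝ) (hW : ∀ d, 0 ≤ W d) {V : Type} {t : ℕ} {β : V → ℕ}
    {G : SimpleGraph V} {i j : ℕ} (hi : 1 ≤ i) (hij : i < j) (hj : j ≤ t) (hc : core G β i j) :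
    W (j - i) * (9 / 5 : ℝ) ^ (t + 1 - j) ≤ pot W t β G := by
  classical
  have hnn : ∀ i j, 0 ≤ (if core G β i j then W (j - i) * (9 / 5 : ℝ) ^ (t + 1 - j) else 0) := by
    intro i j
    split_ifs
    · exact mul_nonneg (hW _) (by positivity)
    · exact le_rfl
  unfold pot
  refine le_trans ?_ (Finset.single_le_sum (fun j _ => Finset.sum_nonneg fun i _ => hnn i j)
    (Finset.mem_range.2 (show j < t + 1 by omega)))
  refine le_trans ?_ (Finset.single_le_sum (fun i _ => hnn i j)
    (Finset.mem_Ico.2 ⟨hi, hij⟩))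
  rw [if_pos hc]

/-- The window sizes. -/
def win (l : ℕ) : ℕ := 9 * 2 ^ (twr l - 1)

/-- The weights of the potential. -/
noncomputable def wt (h d : ℕ) : ℝ :=
  ∑ l ∈ Finset.range h, if d ≤ win (l + 1) then (5 / 9 : ℝ) ^ win l else 0

theorem wt_nonneg (h d : ℕ) : 0 ≤ wt h d := by
  unfold wt
  refine Finset.sum_nonneg fun l _ => ?_
  split_ifs
  · positivity
  · exact le_rfl

theorem wt_ge {h l d : ℕ} (hl : l < h) (hd : d ≤ win (l + 1)) : (5 / 9 : ℝ) ^ win l ≤ wt h d := by
  unfold wt
  refine le_trans ?_ (Finset.single_le_sum (fun l _ => ?_) (Finset.mem_range.2 hl))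
  · rw [if_pos hd]
  · split_ifs
    · positivity
    · exact le_rfl

theorem lt_twr (l : ℕ) : l < twr l := by
  induction l with
  | zero => decide
  | succ n ih =>
    show n + 1 < 2 ^ twr n
    calc n + 1 ≤ twr n := ih
      _ < 2 ^ twr n := Nat.lt_two_pow_self

theorem win_term (l : ℕ) : (win (l + 1) : ℝ) * (5 / 9 : ℝ) ^ win l ≤ (1 / 10 : ℝ) ^ (l + 1) := by
  set x : ℕ := 2 ^ (twr l - 1) with hx
  have hxl : l + 1 ≤ x := by
    have h1 := lt_twr l
    calc l + 1 ≤ twr l := h1
      _ ≤ 2 ^ (twr l - 1) := by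
        have := @Nat.lt_two_pow_self (twr l - 1)
        omega
  have ht : twr (l + 1) = 2 * x := by
    show 2 ^ twr l = 2 * 2 ^ (twr l - 1)
    have h1 := lt_twr l
    rw [← pow_succ']
    congr 1
    omega
  have hw : win l = 9 * x := rfl
  have hw' : (win (l + 1) : ℝ) = 9 / 2 * 4 ^ x := by
    unfold win
    rw [ht]
    have h2 : (2 : ℝ) ^ (2 * x - 1) * 2 = 4 ^ x := by
      rw [← pow_succ]
      have : 2 * x - 1 + 1 = 2 * x := by omega
      rw [this, pow_mul]
      norm_num
    push_cast
    linarith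
  rw [hw, hw', pow_mul]
  have h3 : (9 / 2 * 4 ^ x : ℝ) * ((5 / 9) ^ 9) ^ x = 9 / 2 * (4 * (5 / 9) ^ 9) ^ x := by
    rw [mul_pow]
    ring
  rw [h3]
  have h4 : (4 * (5 / 9 : ℝ) ^ 9) ≤ 1 / 10 * (2 / 9) := by norm_num
  calc 9 / 2 * (4 * (5 / 9 : ℝ) ^ 9) ^ x ≤ 9 / 2 * (1 / 10 * (2 / 9)) ^ x := by
        gcongr
    _ = (1 / 10) ^ x * (9 / 2 * (2 / 9) ^ x) := by
        rw [mul_pow]
        ring
    _ ≤ (1 / 10) ^ x * 1 := by
        gcongr
        have h5 : (2 / 9 : ℝ) ^ x ≤ (2 / 9) ^ 1 :=
          pow_le_pow_of_le_one (by norm_num) (by norm_num) (by omega)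
        linarith
    _ ≤ (1 / 10) ^ (l + 1) := by
        rw [mul_one]
        exact pow_le_pow_of_le_one (by norm_num) (by norm_num) hxl

/-- The bound for the potential. -/
noncomputable def bnd (h : ℕ) : ℝ := 9 * ∑ l ∈ Finset.range h, (1 / 10 : ℝ) ^ (l + 1)

theorem bnd_lt_one (h : ℕ) : bnd h < 1 := by
  have h1 : ∀ h : ℕ, bnd h = 1 - (1 / 10 : ℝ) ^ h := by
    intro h
    unfold bnd
    induction h with
    | zero => simp
    | succ n ih =>
      rw [Finset.sum_range_succ, mul_add, ih, pow_succ]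
      ring
  rw [h1]
  have : (0 : ℝ) < (1 / 10) ^ h := by positivity
  linarith

theorem sum_wt (h t : ℕ) : ∑ i ∈ Finset.Ico 1 (t + 1), wt h (t + 1 - i) ≤ bnd h / 9 := by
  unfold wt
  rw [Finset.sum_comm]
  have : bnd h / 9 = ∑ l ∈ Finset.range h, (1 / 10 : ℝ) ^ (l + 1) := by
    unfold bnd
    ring
  rw [this]
  refine Finset.sum_le_sum fun l _ => ?_
  refine le_trans ?_ (win_term l)
  rw [← Finset.sum_filter, Finset.sum_const, nsmul_eq_mul]
  refine mul_le_mul_of_nonneg_right ?_ (by positivity)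
  have hcard : ((Finset.Ico 1 (t + 1)).filter (fun i => t + 1 - i ≤ win (l + 1))).card
      ≤ (Finset.Icc 1 (win (l + 1))).card := by
    refine Finset.card_le_card_of_injOn (fun i => t + 1 - i) ?_ ?_
    · intro i hi
      rw [Finset.mem_coe, Finset.mem_filter, Finset.mem_Ico] at hi
      rw [Finset.mem_coe, Finset.mem_Icc]
      show 1 ≤ t + 1 - i ∧ t + 1 - i ≤ win (l + 1)
      omega
    · intro i hi j hj hij
      rw [Finset.mem_coe, Finset.mem_filter, Finset.mem_Ico] at hi hj
      have hij' : t + 1 - i = t + 1 - j := hij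
      omega
  rw [Nat.card_Icc, Nat.add_sub_cancel] at hcard
  exact_mod_cast hcard

/-- No large clique among the new vertices if the potential is small. -/
theorem window {V : Type} {t : ℕ} {β : V → ℕ} {G : SimpleGraph V} {h : ℕ}
    (hpot : pot (wt h) t β G ≤ bnd h) (ht : t < win h) (I : Finset ℕ)
    (hI : ∀ i ∈ I, 1 ≤ i ∧ i ≤ t) (hcore : ∀ i ∈ I, ∀ j ∈ I, i < j → core G β i j) :
    I.card < h + 9 := by
  have key : ∀ d, d ≤ h → ∃ J ⊆ I, I.card ≤ J.card + d ∧ ∀ j ∈ J, t + 1 - j < win (h - d) := by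
    intro d
    induction d with
    | zero =>
      intro _
      refine ⟨I, subset_rfl, by omega, fun j hj => ?_⟩
      have := hI j hj
      rw [Nat.sub_zero]
      omega
    | succ d ih =>
      intro hd
      obtain ⟨J, hJI, hcard, hJ⟩ := ih (by omega)
      by_cases hne : J.Nonempty
      · refine ⟨J.erase (J.min' hne), (Finset.erase_subset _ _).trans hJI, ?_, ?_⟩
        · rw [Finset.card_erase_of_mem (J.min'_mem hne)]
          have := hne.card_pos
          omega
        · intro j hj
          rw [Finset.mem_erase] at hj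
          have hjI := hJI hj.2
          have hmin := J.min'_mem hne
          have hlt : J.min' hne < j := lt_of_le_of_ne (J.min'_le j hj.2) (Ne.symm hj.1)
          have h1 := hI _ (hJI hmin)
          have h2 := hI _ hjI
          have h3 := hJ _ hmin
          have hc := hcore _ (hJI hmin) _ hjI hlt
          by_contra hcon
          push Not at hcon
          have h4 := term_le_pot (wt h) (wt_nonneg h) h1.1 hlt h2.2 hc
          have h5 : (5 / 9 : ℝ) ^ win (h - (d + 1)) ≤ wt h (j - J.min' hne) := by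
            refine wt_ge (by omega) ?_
            have e : h - (d + 1) + 1 = h - d := by omega
            rw [e]
            omega
          have h6 : (9 / 5 : ℝ) ^ win (h - (d + 1)) ≤ (9 / 5 : ℝ) ^ (t + 1 - j) :=
            pow_le_pow_right₀ (by norm_num) hcon
          have h7 : (1 : ℝ) ≤ wt h (j - J.min' hne) * (9 / 5 : ℝ) ^ (t + 1 - j) := by
            calc (1 : ℝ) = (5 / 9 : ℝ) ^ win (h - (d + 1)) * (9 / 5 : ℝ) ^ win (h - (d + 1)) := by
                  rw [← mul_pow]
                  norm_num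
              _ ≤ _ := mul_le_mul h5 h6 (by positivity) (wt_nonneg _ _)
          have h8 := bnd_lt_one h
          linarith
      · rw [Finset.not_nonempty_iff_eq_empty] at hne
        subst hne
        refine ⟨∅, Finset.empty_subset _, ?_, by simp⟩
        rw [Finset.card_empty] at hcard ⊢
        omega
  obtain ⟨J, hJI, hcard, hJ⟩ := key h le_rfl
  rw [Nat.sub_self] at hJ
  have h0 : win 0 = 9 := rfl
  rw [h0] at hJ
  have hJc : J.card ≤ (Finset.Icc 1 8).card := by
    refine Finset.card_le_card_of_injOn (fun j => t + 1 - j) ?_ ?_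
    · intro j hj
      have h1 := hJ j hj
      have h2 := hI j (hJI hj)
      rw [Finset.mem_coe, Finset.mem_Icc]
      show 1 ≤ t + 1 - j ∧ t + 1 - j ≤ 8
      omega
    · intro i hi j hj hij
      have hij' : t + 1 - i = t + 1 - j := hij
      have h1 := hI i (hJI hi)
      have h2 := hI j (hJI hj)
      omega
  rw [Nat.card_Icc] at hJc
  omega

theorem cliqueFree_of_pot {V : Type} {t : ℕ} {β : V → ℕ} {G : SimpleGraph V} {h : ℕ}
    (hInv : Inv t β G) (hpot : pot (wt h) t β G ≤ bnd h) (ht : t < win h) :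
    G.CliqueFree (h + 11) := by
  classical
  intro s hs
  have hadj : ∀ a ∈ s, ∀ b ∈ s, a ≠ b → G.Adj a b := fun a ha b hb hab =>
    hs.isClique (Finset.mem_coe.2 ha) (Finset.mem_coe.2 hb) hab
  have h1 : (s.filter (fun v => β v = 0)).card ≤ 2 := by
    by_contra hcon
    push Not at hcon
    obtain ⟨a, ha, b, hb, c, hc, hab, hac, hbc⟩ := Finset.two_lt_card.1 hcon
    rw [Finset.mem_filter] at ha hb hc
    exact hInv.tri a b c ha.2 hb.2 hc.2 (hadj a ha.1 b hb.1 hab) (hadj b hb.1 c hc.1 hbc)
      (hadj a ha.1 c hc.1 hac)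
  have h2 : (s.filter (fun v => β v = 0)).card + (s.filter (fun v => ¬ β v = 0)).card = s.card :=
    Finset.card_filter_add_card_filter_not _
  have h3 : ((s.filter (fun v => ¬ β v = 0)).image β).card
      = (s.filter (fun v => ¬ β v = 0)).card := by
    refine Finset.card_image_of_injOn ?_
    intro a ha b hb hab
    rw [Finset.mem_coe, Finset.mem_filter] at ha hb
    exact hInv.inj a b hab ha.2
  have h4 := window hpot ht ((s.filter (fun v => ¬ β v = 0)).image β) (by
    intro i hi
    rw [Finset.mem_image] at hi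
    obtain ⟨v, hv, rfl⟩ := hi
    rw [Finset.mem_filter] at hv
    have := hInv.le v
    have := hv.2
    omega) (by
    intro i hi j hj hij
    rw [Finset.mem_image] at hi hj
    obtain ⟨u, hu, rfl⟩ := hi
    obtain ⟨v, hv, rfl⟩ := hj
    rw [Finset.mem_filter] at hu hv
    exact ⟨u, v, rfl, rfl, hadj u hu.1 v hv.1 (fun e => by rw [e] at hij; omega)⟩)
  have h5 := hs.card_eq
  omega

theorem not_forcesBy_aux {h : ℕ} : ∀ (n t : ℕ) {V : Type} (β : V → ℕ) (G : SimpleGraph V),
    Inv t β G → pot (wt h) t β G ≤ bnd h → t + n < win h → ¬ ForcesBy (h + 11) n G := by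
  intro n
  induction n with
  | zero =>
    intro t V β G hInv hpot ht hF
    exact hF (cliqueFree_of_pot hInv hpot (by omega))
  | succ n ih =>
    intro t V β G hInv hpot ht hF
    rcases hF with hF | ⟨M, hM, A, B, hAB, hsup, hFA, hFB⟩
    · exact hF (cliqueFree_of_pot hInv hpot (by omega))
    · have hA : A ≤ grow G M := by rw [← hsup]; exact le_sup_left
      have hB : B ≤ grow G M := by rw [← hsup]; exact le_sup_right
      have h1 := pot_step (wt h) (wt_nonneg h) hInv hA hB hAB
      have h2 := sum_wt h t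
      by_cases hc : pot (wt h) (t + 1) (newB t β) A ≤ bnd h
      · exact ih (t + 1) (newB t β) A (hInv.step M A hA) hc (by omega) hFA
      · push Not at hc
        refine ih (t + 1) (newB t β) B (hInv.step M B hB) ?_ (by omega) hFB
        linarith

/-- From a triangle-free graph Builder cannot force `K_{h+11}` in fewer than `win h` rounds. -/
theorem not_forcesBy {h n : ℕ} {V : Type} {G : SimpleGraph V} (hG : G.CliqueFree 3)
    (hn : n < win h) : ¬ ForcesBy (h + 11) n G := by
  classical
  refine not_forcesBy_aux n 0 (fun _ => 0) G ⟨by simp, by simp, ?_⟩ ?_ (by omega)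
  · intro a b c _ _ _ h1 h2 h3
    exact hG {a, b, c} (SimpleGraph.is3Clique_triple_iff.2 ⟨h1, h3, h2⟩)
  · have : pot (wt h) 0 (fun _ : V => 0) G = 0 := by
      unfold pot
      simp
    rw [this]
    unfold bnd
    positivity

end Pool.Agent.V11150.BuilderChooser
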