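import Mathlib
import Pool.Agent.V11150.BuilderPlan
import Pool.Agent.V11150.ChooserBound

set_option autoImplicit false

namespace Pool.Agent.V11150.BuilderChooser

/-- `ρ(k)`: the minimum of `τ_{K_k}(G)` over all finite triangle-free graphs `G` (exact-time
reading of `τ`). -/
noncomputable def rhoAt (k : ℕ) : ℕ∞ :=
  ⨅ (V : Type) (_ : Finite V) (G : SimpleGraph V) (_ : G.CliqueFree 3), tauAt k G

/-- `ρ(k)`: the minimum of `τ_{K_k}(G)` over all finite triangle-free graphs `G` (the copy of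
`K_k` may appear at any moment up to time `τ`). -/
noncomputable def rhoBy (k : ℕ) : ℕ∞ :=
  ⨅ (V : Type) (_ : Finite V) (G : SimpleGraph V) (_ : G.CliqueFree 3), tauBy k G

/-- `ρ(k, g)`: the minimum of `τ_{K_k}(G)` over all finite graphs `G` of girth at least `g`
(exact-time reading of `τ`). -/
noncomputable def rhoGirthAt (k g : ℕ) : ℕ∞ :=
  ⨅ (V : Type) (_ : Finite V) (G : SimpleGraph V) (_ : (g : ℕ∞) ≤ G.egirth), tauAt k G

/-- `ρ(k, g)`: the minimum of `τ_{K_k}(G)` over all finite graphs `G` of girth at least `g`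
(the copy of `K_k` may appear at any moment up to time `τ`). -/
noncomputable def rhoGirthBy (k g : ℕ) : ℕ∞ :=
  ⨅ (V : Type) (_ : Finite V) (G : SimpleGraph V) (_ : (g : ℕ∞) ≤ G.egirth), tauBy k G

theorem planLen_lt (m : ℕ) : planLen m < twr (m + 1) := by
  induction m with
  | zero => decide
  | succ n ih =>
    show 2 ^ planLen n + planLen n < 2 ^ twr (n + 1)
    have h1 : planLen n < 2 ^ planLen n := Nat.lt_two_pow_self
    calc 2 ^ planLen n + planLen n < 2 ^ planLen n + 2 ^ planLen n := by omega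
      _ = 2 ^ (planLen n + 1) := by rw [pow_succ]; ring
      _ ≤ 2 ^ twr (n + 1) := Nat.pow_le_pow_right (by norm_num) ih

/-- For every `k ≥ 3` there is a finite forest from which Builder forces `K_k`. -/
theorem exists_forest_tau (k : ℕ) (hk : 3 ≤ k) : ∃ (V : Type) (_ : Finite V) (G : SimpleGraph V),
    G.IsAcyclic ∧ tauAt k G ≤ (twr (k - 2) : ℕ) := by
  obtain ⟨V, hV, G, hG, hF⟩ := exists_forest (k - 3)
  have e : k - 3 + 3 = k := by omega
  rw [e] at hF
  refine ⟨V, hV, G, hG, ?_⟩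
  unfold tauAt
  refine (iInf₂_le (planLen (k - 3)) hF).trans ?_
  have h := planLen_lt (k - 3)
  have e2 : k - 3 + 1 = k - 2 := by omega
  rw [e2] at h
  exact_mod_cast h.le

theorem rhoBy_le_rhoAt (k : ℕ) : rhoBy k ≤ rhoAt k := by
  unfold rhoBy rhoAt
  exact iInf_mono fun V => iInf_mono fun _ => iInf_mono fun G => iInf_mono fun _ =>
    tauBy_le_tauAt k G

theorem rhoGirthBy_le_rhoGirthAt (k g : ℕ) : rhoGirthBy k g ≤ rhoGirthAt k g := by
  unfold rhoGirthBy rhoGirthAt
  exact iInf_mono fun V => iInf_mono fun _ => iInf_mono fun G => iInf_mono fun _ =>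
    tauBy_le_tauAt k G

theorem rhoAt_le (k : ℕ) (hk : 3 ≤ k) : rhoAt k ≤ (twr (k - 2) : ℕ) := by
  obtain ⟨V, hV, G, hG, hF⟩ := exists_forest_tau k hk
  unfold rhoAt
  exact (iInf_le_of_le V (iInf_le_of_le hV (iInf_le_of_le G
    (iInf_le_of_le (hG.cliqueFree le_rfl) le_rfl)))).trans hF

theorem rhoGirthAt_le (k g : ℕ) (hk : 3 ≤ k) : rhoGirthAt k g ≤ (twr (k - 2) : ℕ) := by
  obtain ⟨V, hV, G, hG, hF⟩ := exists_forest_tau k hk
  unfold rhoGirthAt
  refine (iInf_le_of_le V (iInf_le_of_le hV (iInf_le_of_le G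
    (iInf_le_of_le ?_ le_rfl)))).trans hF
  rw [SimpleGraph.egirth_eq_top.2 hG]
  exact le_top

theorem le_rhoBy (k : ℕ) (hk : 3 ≤ k) : ((twr (k - 10) : ℕ) : ℕ∞) ≤ rhoBy k := by
  unfold rhoBy tauBy
  refine le_iInf fun V => le_iInf fun _ => le_iInf fun G => le_iInf fun hG => le_iInf₂ fun n hn => ?_
  by_contra hcon
  rw [not_le] at hcon
  have hlt : n < twr (k - 10) := by exact_mod_cast hcon
  by_cases hk' : k < 11
  · have e : k - 10 = 0 := by omega
    rw [e] at hlt
    have hn0 : n = 0 := by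
      have : twr 0 = 1 := rfl
      omega
    subst hn0
    exact hn (hG.mono hk)
  · have e : k - 10 = (k - 11) + 1 := by omega
    have e2 : k - 11 + 11 = k := by omega
    rw [e] at hlt
    have hw : twr (k - 11 + 1) ≤ win (k - 11) := by
      show 2 ^ twr (k - 11) ≤ 9 * 2 ^ (twr (k - 11) - 1)
      have h1 := lt_twr (k - 11)
      have h2 : 2 ^ twr (k - 11) = 2 * 2 ^ (twr (k - 11) - 1) := by
        rw [← pow_succ']
        congr 1
        omega
      omega
    have h3 := not_forcesBy (h := k - 11) hG (lt_of_lt_of_le hlt hw)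
    rw [e2] at h3
    exact h3 hn

end Pool.Agent.V11150.BuilderChooser
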