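import Mathlib
import Pool.Agent.V11150.Lions

set_option autoImplicit false

namespace Pool.Agent.V11150.Lions

/-! ### A graph swept by two lions with a spanning subgraph that needs three -/

/-- Neighbour lists of `G`. -/
def nbG : List (List ℕ) :=
  [[1], [0, 4, 5, 6, 7], [4, 7], [5, 6], [1, 2, 7], [1, 3, 6], [1, 3, 5, 7], [1, 2, 4, 6]]

/-- Neighbour lists of `H`. -/
def nbH : List (List ℕ) :=
  [[1], [0, 4, 5, 7], [4, 7], [5, 6], [1, 2, 7], [1, 3, 6], [3, 5, 7], [1, 2, 4, 6]]

/-- The graph `G` (8 vertices, 12 edges). -/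
def bigG : SimpleGraph (Fin 8) where
  Adj u v := (v : ℕ) ∈ nbG.getD u []
  symm := ⟨by decide⟩
  loopless := ⟨by decide⟩

/-- The graph `H = G - {1,6}`. -/
def smallH : SimpleGraph (Fin 8) where
  Adj u v := (v : ℕ) ∈ nbH.getD u []
  symm := ⟨by decide⟩
  loopless := ⟨by decide⟩

instance : DecidableRel bigG.Adj := fun u v => by
  unfold bigG
  infer_instance

instance : DecidableRel smallH.Adj := fun u v => by
  unfold smallH
  infer_instance

theorem smallH_le : smallH ≤ bigG := by
  have : ∀ u v : Fin 8, smallH.Adj u v → bigG.Adj u v := by decide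
  intro u v h
  exact this u v h

theorem connected_smallH : smallH.Connected := by
  have h0 : ∀ i : Fin 8, smallH.Reachable 1 i := by
    have h10 : smallH.Reachable 1 0 := SimpleGraph.Adj.reachable (by decide)
    have h14 : smallH.Reachable 1 4 := SimpleGraph.Adj.reachable (by decide)
    have h15 : smallH.Reachable 1 5 := SimpleGraph.Adj.reachable (by decide)
    have h17 : smallH.Reachable 1 7 := SimpleGraph.Adj.reachable (by decide)
    have h42 : smallH.Reachable 4 2 := SimpleGraph.Adj.reachable (by decide)
    have h53 : smallH.Reachable 5 3 := SimpleGraph.Adj.reachable (by decide)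
    have h76 : smallH.Reachable 7 6 := SimpleGraph.Adj.reachable (by decide)
    intro i
    fin_cases i
    · exact h10
    · exact SimpleGraph.Reachable.refl _
    · exact h14.trans h42
    · exact h15.trans h53
    · exact h14
    · exact h15
    · exact h17.trans h76
    · exact h17
  exact ⟨fun i j => (h0 i).symm.trans (h0 j)⟩

theorem connected_bigG : bigG.Connected := connected_smallH.mono smallH_le

/-- The sweep of `G`. -/
def pathG : List (Fin 8 × Fin 8) :=
  [(2, 2), (4, 7), (1, 7), (1, 6), (0, 1), (1, 7), (1, 6), (5, 6)]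

/-- Lower bounds for the cleared sets. -/
def maskG : List ℕ := [4, 148, 150, 214, 151, 151, 215, 247, 255]

theorem sweeps_bigG : Sweeps bigG 2 := by
  refine sweeps_of_path (nb := nbG) (fun u v => Iff.rfl) (by decide) pathG (5, 3)
    (fun t => maskG.getD t 255) ?_ ?_ ?_ ?_
  · decide
  · decide
  · decide
  · decide

/-- The invariant for `H`. -/
def invTab : List (List (List ℕ)) :=
   [[[21, 41], [23, 107], [21, 109], [31, 41, 157], [21, 121], [41, 55, 181], [87, 105, 213], [149, 233]],
    [[23, 107], [7, 43, 75, 106, 150], [23, 79, 110, 134], [15, 42, 78, 158], [23, 59, 91, 94, 122, 150], [39, 43, 106, 182], [71, 75, 78, 99, 106, 214], [135, 142, 147, 150, 171, 203, 234]],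
    [[21, 109], [23, 79, 110, 134], [21, 76], [13, 76], [23, 124], [39, 52, 108], [76, 85], [135, 149, 236]],
    [[31, 41, 157], [15, 42, 78, 158], [13, 76], [41, 76], [25, 56, 88, 156], [41, 108, 188], [76, 105], [156, 169, 200]],
    [[21, 121], [23, 59, 91, 94, 122, 150], [23, 124], [25, 56, 88, 156], [19, 21, 92, 120], [51, 120, 180], [83, 85, 92, 113, 120, 212], [147, 149, 220, 248]],
    [[41, 55, 181], [39, 43, 106, 182], [39, 52, 108], [41, 108, 188], [51, 120, 180], [33, 40, 180], [99, 108, 244], [163, 165, 177, 180, 232]],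
    [[87, 105, 213], [71, 75, 78, 99, 106, 214], [76, 85], [76, 105], [83, 85, 92, 113, 120, 212], [99, 108, 244], [65, 76], [212, 225, 232]],
    [[149, 233], [135, 142, 147, 150, 171, 203, 234], [135, 149, 236], [156, 169, 200], [147, 149, 220, 248], [163, 165, 177, 180, 232], [212, 225, 232], [131, 140, 149, 232]]]

/-- The invariant for `H`. -/
def invH (p q : ℕ) : List ℕ := (invTab.getD p []).getD q []

theorem checkInv_H : checkInv 8 nbH invH = true := by decide +kernel

theorem not_sweeps_smallH : ¬ Sweeps smallH 2 :=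
  not_sweeps_of_check (nb := nbH) (fun u v => Iff.rfl) (by decide) invH checkInv_H

end Pool.Agent.V11150.Lions
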