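import Mathlib

/-!
# Gaps between consecutive primes of residue classes, for many moduli at the same time

`p r q n` is the `n`-th prime congruent to `r` modulo `q` (as in the starting hand-in `MP_4dc525_nt.GapForm`,
from which the lemmas `inf_set`, `p_prime` and `gap_count` are copied).
-/

set_option autoImplicit false

namespace Pool.Agent.V11150.GapQ

open Finset Filter

/-- the `n`-th prime (`n ≥ 1`) congruent to `r` modulo `q` -/
noncomputable def p (r q n : ℕ) : ℕ := Nat.nth (fun m => m.Prime ∧ m % q = r) (n - 1)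

lemma inf_set (r q : ℕ) (hr : r < q) (hc : r.Coprime q) :
    (Set.ofPred (fun m : ℕ => m.Prime ∧ m % q = r)).Infinite := by
  have h := Nat.infinite_setOfPred_prime_and_modEq (by omega : q ≠ 0) hc
  refine h.mono ?_
  rintro m ⟨h1, h2⟩
  refine ⟨h1, ?_⟩
  have h3 : m % q = r % q := h2
  rw [h3, Nat.mod_eq_of_lt hr]

lemma p_mem (r q n : ℕ) (hr : r < q) (hc : r.Coprime q) : (p r q n).Prime ∧ p r q n % q = r :=
  Nat.nth_mem_of_infinite (inf_set r q hr hc) (n - 1)

lemma p_prime (r q n : ℕ) (hr : r < q) (hc : r.Coprime q) : (p r q n).Prime := (p_mem r q n hr hc).1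

lemma p_lt (r q n : ℕ) (hr : r < q) (hc : r.Coprime q) (hn : 1 ≤ n) : p r q n < p r q (n + 1) :=
  Nat.nth_strictMono (inf_set r q hr hc) (by omega : n - 1 < n + 1 - 1)

lemma p_inj (r q m n : ℕ) (hr : r < q) (hc : r.Coprime q) (hm : 1 ≤ m) (hn : 1 ≤ n)
    (h : p r q m = p r q n) : m = n := by
  have := Nat.nth_injective (inf_set r q hr hc) h
  omega

lemma gap_count (b : ℕ → ℕ) (hb : StrictMono b) (S : Finset ℕ) (x : ℕ) (hS : ∀ m ∈ S, b m ≤ x)
    (H : ℝ) (hH : 0 < H) (hg : ∀ m ∈ S, H ≤ (b (m + 1) : ℝ) - b m) :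
    (S.card : ℝ) * H ≤ x + H := by
  rcases S.eq_empty_or_nonempty with rfl | hne
  · simp only [card_empty, Nat.cast_zero, zero_mul]
    positivity
  · have hM := S.max'_mem hne
    set M := S.max' hne with hMdef
    have h1 : ∑ m ∈ S.erase M, ((b (m + 1) : ℝ) - b m) ≤ ∑ m ∈ range M, ((b (m + 1) : ℝ) - b m) := by
      apply sum_le_sum_of_subset_of_nonneg
      · intro m hm
        rw [mem_erase] at hm
        rw [mem_range]
        exact lt_of_le_of_ne (S.le_max' m hm.2) hm.1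
      · intro m _ _
        have h2 : (b m : ℝ) < b (m + 1) := by exact_mod_cast hb (Nat.lt_succ_self m)
        linarith
    have h3 : ∑ m ∈ range M, ((b (m + 1) : ℝ) - b m) = (b M : ℝ) - b 0 :=
      sum_range_sub (fun m => (b m : ℝ)) M
    have h4 : ((S.erase M).card : ℝ) * H ≤ ∑ m ∈ S.erase M, ((b (m + 1) : ℝ) - b m) := by
      rw [← nsmul_eq_mul]
      exact card_nsmul_le_sum _ _ _ (fun m hm => hg m (mem_of_mem_erase hm))
    have h5 : (b M : ℝ) ≤ x := by exact_mod_cast hS M hM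
    have h6 : (0 : ℝ) ≤ b 0 := Nat.cast_nonneg _
    have h7 : (S.card : ℝ) = ((S.erase M).card : ℝ) + 1 := by
      rw [card_erase_of_mem hM]
      have h8 : 1 ≤ S.card := card_pos.2 hne
      push_cast [Nat.cast_sub h8]
      ring
    rw [h7]
    nlinarith

open Classical in
/-- the primes `P ≤ x` for which the gap after `P` among the primes `≡ P (mod q)` is at least `H q`, for some
modulus `q ∈ Q` -/
noncomputable def bad (Q : Finset ℕ) (H : ℕ → ℝ) (x : ℕ) : Finset ℕ :=
  (Icc 1 x).filter (fun P => ∃ q ∈ Q, ∃ r n : ℕ, r < q ∧ r.Coprime q ∧ 1 ≤ n ∧ p r q n = P ∧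
    H q ≤ (p r q (n + 1) : ℝ) - p r q n)

/-- one modulus and one class -/
lemma one_class (q r : ℕ) (hr : r < q) (hc : r.Coprime q) (H : ℝ) (hH : 0 < H) (x : ℕ) (S : Finset ℕ)
    (hS : ∀ P ∈ S, P ≤ x ∧ ∃ n : ℕ, 1 ≤ n ∧ p r q n = P ∧ H ≤ (p r q (n + 1) : ℝ) - p r q n) :
    (S.card : ℝ) ≤ x / H + 1 := by
  classical
  choose! f hf using fun P (hP : P ∈ S) => (hS P hP).2
  have hinj : Set.InjOn (fun P => f P - 1) (S : Set ℕ) := by
    intro P hP P' hP' h
    have h1 := hf P (mem_coe.1 hP)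
    have h2 := hf P' (mem_coe.1 hP')
    have h : f P - 1 = f P' - 1 := h
    have h3 : f P = f P' := by omega
    rw [← h1.2.1, ← h2.2.1, h3]
  have h1 := gap_count (fun m => Nat.nth (fun m => m.Prime ∧ m % q = r) m)
    (Nat.nth_strictMono (inf_set r q hr hc)) (S.image fun P => f P - 1) x (by
      intro m hm
      obtain ⟨P, hP, rfl⟩ := mem_image.1 hm
      have h2 := hf P hP
      have h3 : p r q (f P) ≤ x := by rw [h2.2.1]; exact (hS P hP).1
      exact h3) H hH (by
      intro m hm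
      obtain ⟨P, hP, rfl⟩ := mem_image.1 hm
      have h2 := hf P hP
      have h3 := h2.2.2
      unfold p at h3
      have h4 : f P - 1 + 1 = f P + 1 - 1 := by omega
      show H ≤ ((Nat.nth (fun m => m.Prime ∧ m % q = r) (f P - 1 + 1) : ℕ) : ℝ) -
        (Nat.nth (fun m => m.Prime ∧ m % q = r) (f P - 1) : ℕ)
      rw [h4]
      exact h3)
  rw [card_image_of_injOn hinj] at h1
  rw [← sub_le_iff_le_add, le_div_iff₀ hH]
  linarith

/-- the number of the primes with a large gap for one of the moduli -/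
theorem bad_card (Q : Finset ℕ) (H : ℕ → ℝ) (hH : ∀ q ∈ Q, 0 < H q) (x : ℕ) :
    ((bad Q H x).card : ℝ) ≤ ∑ q ∈ Q, (Nat.totient q : ℝ) * (x / H q + 1) := by
  classical
  have hsub : bad Q H x ⊆ Q.biUnion fun q => ((range q).filter fun r => r.Coprime q).biUnion fun r =>
      (Icc 1 x).filter (fun P => ∃ n : ℕ, 1 ≤ n ∧ p r q n = P ∧
        H q ≤ (p r q (n + 1) : ℝ) - p r q n) := by
    intro P hP
    obtain ⟨h1, q, hq, r, n, hr, hc, hn, h2, h3⟩ := mem_filter.1 hP
    simp only [mem_biUnion, mem_filter, mem_range]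
    exact ⟨q, hq, r, ⟨hr, hc⟩, h1, n, hn, h2, h3⟩
  have h1 : ((bad Q H x).card : ℝ) ≤ ∑ q ∈ Q, ((((range q).filter fun r => r.Coprime q).biUnion fun r =>
      (Icc 1 x).filter (fun P => ∃ n : ℕ, 1 ≤ n ∧ p r q n = P ∧
        H q ≤ (p r q (n + 1) : ℝ) - p r q n)).card : ℝ) := by
    exact_mod_cast (card_le_card hsub).trans card_biUnion_le
  refine h1.trans (sum_le_sum fun q hq => ?_)
  have h2 : ((((range q).filter fun r => r.Coprime q).biUnion fun r =>
      (Icc 1 x).filter (fun P => ∃ n : ℕ, 1 ≤ n ∧ p r q n = P ∧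
        H q ≤ (p r q (n + 1) : ℝ) - p r q n)).card : ℝ) ≤
      ∑ r ∈ (range q).filter (fun r => r.Coprime q), (((Icc 1 x).filter (fun P => ∃ n : ℕ, 1 ≤ n ∧
        p r q n = P ∧ H q ≤ (p r q (n + 1) : ℝ) - p r q n)).card : ℝ) := by
    exact_mod_cast card_biUnion_le
  refine h2.trans ?_
  have h3 : ∑ r ∈ (range q).filter (fun r => r.Coprime q), (((Icc 1 x).filter (fun P => ∃ n : ℕ, 1 ≤ n ∧
        p r q n = P ∧ H q ≤ (p r q (n + 1) : ℝ) - p r q n)).card : ℝ) ≤
      ∑ _r ∈ (range q).filter (fun r => r.Coprime q), ((x : ℝ) / H q + 1) := by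
    apply sum_le_sum
    intro r hr
    obtain ⟨h4, h5⟩ := mem_filter.1 hr
    refine one_class q r (mem_range.1 h4) h5 (H q) (hH q hq) x _ ?_
    intro P hP
    obtain ⟨h6, h7⟩ := mem_filter.1 hP
    exact ⟨(mem_Icc.1 h6).2, h7⟩
  refine h3.trans (le_of_eq ?_)
  rw [sum_const, nsmul_eq_mul]
  congr 2
  rw [Nat.totient_eq_card_coprime]
  congr 1
  ext r
  simp only [mem_filter, mem_range, Nat.coprime_comm]

end Pool.Agent.V11150.GapQ
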