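import Mathlib

/-!
# Elements of a set with few elements of their class to the right
-/

set_option autoImplicit false

namespace Pool.Agent.V11150.GapS

open Finset Filter

open Classical in
/-- the elements of `S` after `P`, at distance at most `H`, in the class of `P` modulo `q` -/
noncomputable def next (S : Finset ℕ) (q : ℕ) (H : ℝ) (P : ℕ) : Finset ℕ :=
  S.filter fun P' => P < P' ∧ (P' : ℝ) ≤ P + H ∧ P' % q = P % q

open Classical in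
theorem bad_card (S : Finset ℕ) (x q k : ℕ) (H : ℝ) (hH : 0 < H) (hq : 0 < q) (hS : ∀ P ∈ S, P ≤ x) :
    (((S.filter fun P => (next S q H P).card < k).card : ℕ) : ℝ) ≤ (q : ℝ) * k * (x / H + 1) := by
  set B := S.filter fun P => (next S q H P).card < k with hB
  have hmaps : ∀ P ∈ B, (P % q, ⌊(P : ℝ) / H⌋₊) ∈ range q ×ˢ range (⌊(x : ℝ) / H⌋₊ + 1) := by
    intro P hP
    rw [mem_product, mem_range, mem_range]
    refine ⟨Nat.mod_lt _ hq, Nat.lt_succ_of_le (Nat.floor_le_floor ?_)⟩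
    have h1 : (P : ℝ) ≤ x := by exact_mod_cast hS P (mem_filter.1 hP).1
    exact div_le_div_of_nonneg_right h1 hH.le
  have hfib : ∀ y ∈ range q ×ˢ range (⌊(x : ℝ) / H⌋₊ + 1),
      (B.filter fun P => (P % q, ⌊(P : ℝ) / H⌋₊) = y).card ≤ k := by
    intro y _
    set F := B.filter fun P => (P % q, ⌊(P : ℝ) / H⌋₊) = y with hF
    by_contra hcon
    rw [not_le] at hcon
    have hne : F.Nonempty := card_pos.1 (by omega)
    obtain ⟨P₀, hP₀⟩ : ∃ P₀, P₀ = F.min' hne := ⟨_, rfl⟩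
    have hP₀F : P₀ ∈ F := by rw [hP₀]; exact F.min'_mem hne
    obtain ⟨h1, h2⟩ := mem_filter.1 hP₀F
    have h3 := (mem_filter.1 h1).2
    have hsub : F.erase P₀ ⊆ next S q H P₀ := by
      intro P hP
      obtain ⟨h4, h5⟩ := mem_erase.1 hP
      obtain ⟨h6, h7⟩ := mem_filter.1 h5
      have h8 : P₀ ≤ P := by rw [hP₀]; exact F.min'_le P h5
      have h9 : (P % q, ⌊(P : ℝ) / H⌋₊) = (P₀ % q, ⌊(P₀ : ℝ) / H⌋₊) := by rw [h7, h2]
      obtain ⟨h10, h11⟩ := Prod.mk.inj h9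
      refine mem_filter.2 ⟨(mem_filter.1 h6).1, lt_of_le_of_ne h8 (Ne.symm h4), ?_, h10⟩
      have h12 := Nat.lt_floor_add_one ((P : ℝ) / H)
      have h13 := Nat.floor_le (show (0 : ℝ) ≤ (P₀ : ℝ) / H by positivity)
      rw [h11] at h12
      have h14 : (P : ℝ) / H < P₀ / H + 1 := by linarith
      rw [div_lt_iff₀ hH] at h14
      have h15 : ((P₀ : ℝ) / H + 1) * H = P₀ + H := by field_simp
      linarith
    have h4 := card_le_card hsub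
    rw [card_erase_of_mem hP₀F] at h4
    omega
  have h := card_le_mul_card_image_of_maps_to hmaps k hfib
  rw [card_product, card_range, card_range] at h
  have h1 : ((B.card : ℕ) : ℝ) ≤ (k : ℝ) * (q * (⌊(x : ℝ) / H⌋₊ + 1)) := by exact_mod_cast h
  have h2 := Nat.floor_le (show (0 : ℝ) ≤ (x : ℝ) / H by positivity)
  calc ((B.card : ℕ) : ℝ) ≤ (k : ℝ) * (q * (⌊(x : ℝ) / H⌋₊ + 1)) := h1
    _ = (q : ℝ) * k * (⌊(x : ℝ) / H⌋₊ + 1) := by ring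
    _ ≤ _ := by gcongr

/-- **square roots** -/
theorem main (ε : ℝ) (hε : 0 < ε) (hε1 : ε ≤ 1 / 6) : ∃ X₀ : ℕ, ∀ x : ℕ, X₀ ≤ x → ∀ S : Finset ℕ,
    (∀ P ∈ S, P ≤ x) → ∀ Q : Finset ℕ, (∀ q ∈ Q, 0 < q) →
    (∑ q ∈ Q, (q : ℝ)) ≤ (x : ℝ) ^ (1 / 2 - 3 * ε) →
    ∃ E : Finset ℕ, E ⊆ S ∧ (E.card : ℝ) ≤ 6 * (x : ℝ) ^ (1 - ε) ∧ ∀ P ∈ S, P ∉ E → ∀ q ∈ Q,
      ∃ N : Finset ℕ, N ⊆ S ∧ (x : ℝ) ^ ε ≤ (N.card : ℝ) ∧
        ∀ P' ∈ N, P < P' ∧ P' ≡ P [MOD q] ∧ √(P' : ℝ) - √(P : ℝ) ≤ (x : ℝ) ^ (-(ε / 2)) := by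
  classical
  refine ⟨1, ?_⟩
  intro x hx S hS Q hQ0 hQ
  have hxr : (1 : ℝ) ≤ x := by exact_mod_cast hx
  have hx0 : (0 : ℝ) < x := by linarith
  obtain ⟨H, hH⟩ : ∃ H : ℝ, H = (x : ℝ) ^ (1 / 2 - ε) := ⟨_, rfl⟩
  have hH0 : 0 < H := by rw [hH]; positivity
  obtain ⟨k, hk⟩ : ∃ k : ℕ, k = ⌈(x : ℝ) ^ ε⌉₊ := ⟨_, rfl⟩
  have hk1 : (x : ℝ) ^ ε ≤ k := by rw [hk]; exact Nat.le_ceil _
  have hk2 : (k : ℝ) ≤ 2 * (x : ℝ) ^ ε := by
    have h1 : (1 : ℝ) ≤ (x : ℝ) ^ ε := Real.one_le_rpow hxr hε.le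
    have h2 := (Nat.ceil_lt_add_one (show (0 : ℝ) ≤ (x : ℝ) ^ ε by positivity)).le
    rw [hk]
    linarith
  obtain ⟨E, hE⟩ : ∃ E : Finset ℕ, E = (S.filter fun P : ℕ => (P : ℝ) < (x : ℝ) ^ (1 - ε)) ∪
      Q.biUnion fun q => S.filter fun P => (next S q H P).card < k := ⟨_, rfl⟩
  refine ⟨E, ?_, ?_, ?_⟩
  · rw [hE]
    intro P hP
    rw [mem_union, mem_biUnion] at hP
    rcases hP with hP | ⟨q, -, hP⟩
    · exact (mem_filter.1 hP).1
    · exact (mem_filter.1 hP).1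
  · have h1 : ((S.filter fun P : ℕ => (P : ℝ) < (x : ℝ) ^ (1 - ε)).card : ℝ) ≤ (x : ℝ) ^ (1 - ε) + 1 := by
      have h2 : S.filter (fun P : ℕ => (P : ℝ) < (x : ℝ) ^ (1 - ε)) ⊆ range (⌊(x : ℝ) ^ (1 - ε)⌋₊ + 1) := by
        intro P hP
        rw [mem_range]
        exact Nat.lt_succ_of_le (Nat.le_floor (mem_filter.1 hP).2.le)
      have h3 := card_le_card h2
      rw [card_range] at h3
      have h4 := Nat.floor_le (show (0 : ℝ) ≤ (x : ℝ) ^ (1 - ε) by positivity)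
      have h5 : ((S.filter fun P : ℕ => (P : ℝ) < (x : ℝ) ^ (1 - ε)).card : ℝ) ≤ (⌊(x : ℝ) ^ (1 - ε)⌋₊ : ℝ) + 1 := by
        exact_mod_cast h3
      linarith
    have h2 : (((Q.biUnion fun q => S.filter fun P => (next S q H P).card < k).card : ℕ) : ℝ) ≤
        ∑ q ∈ Q, (((S.filter fun P => (next S q H P).card < k).card : ℕ) : ℝ) := by
      exact_mod_cast card_biUnion_le
    have h3 : ∑ q ∈ Q, (((S.filter fun P => (next S q H P).card < k).card : ℕ) : ℝ) ≤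
        ∑ q ∈ Q, (q : ℝ) * (k * (x / H + 1)) := by
      apply sum_le_sum
      intro q hq
      have := bad_card S x q k H hH0 (hQ0 q hq) hS
      calc _ ≤ (q : ℝ) * k * (x / H + 1) := this
        _ = _ := by ring
    rw [← sum_mul] at h3
    have h4 : x / H + 1 ≤ 2 * (x : ℝ) ^ (1 / 2 + ε) := by
      have h5 : x / H = (x : ℝ) ^ (1 / 2 + ε) := by
        rw [hH, div_eq_iff (by positivity), ← Real.rpow_add hx0,
          show 1 / 2 + ε + (1 / 2 - ε) = (1 : ℝ) by ring, Real.rpow_one]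
      have h6 : (1 : ℝ) ≤ (x : ℝ) ^ (1 / 2 + ε) := Real.one_le_rpow hxr (by positivity)
      rw [h5]
      linarith
    have h5 : (∑ q ∈ Q, (q : ℝ)) * (k * (x / H + 1)) ≤ 4 * (x : ℝ) ^ (1 - ε) := by
      calc (∑ q ∈ Q, (q : ℝ)) * (k * (x / H + 1))
          ≤ (x : ℝ) ^ (1 / 2 - 3 * ε) * ((2 * (x : ℝ) ^ ε) * (2 * (x : ℝ) ^ (1 / 2 + ε))) := by
            gcongr
        _ = 4 * ((x : ℝ) ^ (1 / 2 - 3 * ε) * ((x : ℝ) ^ ε * (x : ℝ) ^ (1 / 2 + ε))) := by ring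
        _ = 4 * (x : ℝ) ^ (1 - ε) := by
            rw [← Real.rpow_add hx0, ← Real.rpow_add hx0]
            congr 2
            ring
    have h6 : (E.card : ℝ) ≤ ((S.filter fun P : ℕ => (P : ℝ) < (x : ℝ) ^ (1 - ε)).card : ℝ) +
        (((Q.biUnion fun q => S.filter fun P => (next S q H P).card < k).card : ℕ) : ℝ) := by
      rw [hE]
      exact_mod_cast card_union_le _ _
    have h7 : (1 : ℝ) ≤ (x : ℝ) ^ (1 - ε) := Real.one_le_rpow hxr (by linarith)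
    linarith
  · intro P hP hPE q hq
    rw [hE, mem_union, mem_biUnion, not_or] at hPE
    obtain ⟨h1, h2⟩ := hPE
    have h3 : (x : ℝ) ^ (1 - ε) ≤ P := by
      by_contra h
      exact h1 (mem_filter.2 ⟨hP, not_le.1 h⟩)
    have h4 : k ≤ (next S q H P).card := by
      by_contra h
      exact h2 ⟨q, hq, mem_filter.2 ⟨hP, not_le.1 h⟩⟩
    refine ⟨next S q H P, filter_subset _ _, hk1.trans (by exact_mod_cast h4), ?_⟩
    intro P' hP'
    obtain ⟨-, h5, h6, h7⟩ := mem_filter.1 hP'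
    refine ⟨h5, h7, ?_⟩
    have hP0 : (0 : ℝ) < P := lt_of_lt_of_le (by positivity) h3
    have hs : (x : ℝ) ^ ((1 - ε) / 2) ≤ √(P : ℝ) := by
      rw [Real.le_sqrt (by positivity) hP0.le, ← Real.rpow_natCast, ← Real.rpow_mul hx0.le]
      refine le_trans (le_of_eq ?_) h3
      congr 1
      push_cast
      ring
    have hs0 : 0 < √(P : ℝ) := Real.sqrt_pos.2 hP0
    have hs' : √(P : ℝ) ≤ √(P' : ℝ) := Real.sqrt_le_sqrt (by exact_mod_cast h5.le)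
    have h8 : (√(P' : ℝ) - √(P : ℝ)) * √(P : ℝ) ≤ H := by
      have e1 : √(P' : ℝ) * √(P' : ℝ) = P' := Real.mul_self_sqrt (Nat.cast_nonneg _)
      have e2 : √(P : ℝ) * √(P : ℝ) = P := Real.mul_self_sqrt (Nat.cast_nonneg _)
      have e3 : (√(P' : ℝ) - √(P : ℝ)) * √(P : ℝ) ≤ (√(P' : ℝ) - √(P : ℝ)) * (√(P' : ℝ) + √(P : ℝ)) := by
        apply mul_le_mul_of_nonneg_left _ (by linarith)
        have := Real.sqrt_nonneg (P' : ℝ)
        linarith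
      have e4 : (√(P' : ℝ) - √(P : ℝ)) * (√(P' : ℝ) + √(P : ℝ)) = P' - P := by
        ring_nf
        rw [Real.sq_sqrt (Nat.cast_nonneg _), Real.sq_sqrt (Nat.cast_nonneg _)]
      linarith
    have h9 : √(P' : ℝ) - √(P : ℝ) ≤ H / √(P : ℝ) := by
      rw [le_div_iff₀ hs0]
      exact h8
    refine h9.trans ?_
    rw [div_le_iff₀ hs0, hH]
    calc (x : ℝ) ^ (1 / 2 - ε) = (x : ℝ) ^ (-(ε / 2)) * (x : ℝ) ^ ((1 - ε) / 2) := by
          rw [← Real.rpow_add hx0]; congr 1; ring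
      _ ≤ (x : ℝ) ^ (-(ε / 2)) * √(P : ℝ) := by gcongr

end Pool.Agent.V11150.GapS
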