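import Pool.Agent.V11150.GapS
import Pool.Agent.V11150.GapQ

/-!
# Square roots of primes in progressions: the sequence form
-/

set_option autoImplicit false

namespace Pool.Agent.V11150.GapT

open Finset Pool.Agent.V11150.GapQ

/-- if `N` is a set of primes of the class of `p r q n`, larger than it and at most `M`, then the `j`-th next prime
of the class is at most `M` for `j ≤ |N|`, `1 ≤ j` -/
theorem nth_le (r q n j M : ℕ) (hr : r < q) (hc : r.Coprime q) (hn : 1 ≤ n) (hj1 : 1 ≤ j) (N : Finset ℕ)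
    (hN : ∀ P' ∈ N, P'.Prime ∧ P' % q = r ∧ p r q n < P' ∧ P' ≤ M) (hj : j ≤ N.card) :
    p r q (n + j) ≤ M := by
  classical
  obtain ⟨P, hP⟩ : ∃ P, P = p r q n := ⟨_, rfl⟩
  have hinf := inf_set r q hr hc
  have hmem := p_mem r q n hr hc
  rw [← hP] at hmem hN
  have hNne : N.Nonempty := card_pos.1 (by omega)
  obtain ⟨P₁, hP₁⟩ := hNne
  have hPM : P ≤ M := by
    have := hN P₁ hP₁
    omega
  have hcount : Nat.count (fun m => m.Prime ∧ m % q = r) P = n - 1 := by
    rw [hP]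
    exact Nat.count_nth_of_infinite hinf (n - 1)
  have hlt : p r q (n + j) < M + 1 := by
    show Nat.nth (fun m => m.Prime ∧ m % q = r) (n + j - 1) < M + 1
    apply Nat.nth_lt_of_lt_count
    have h1 : ((range P).filter (fun m => m.Prime ∧ m % q = r)) ∪ (insert P N) ⊆
        (range (M + 1)).filter (fun m => m.Prime ∧ m % q = r) := by
      intro m hm
      rw [mem_union, mem_insert] at hm
      rw [mem_filter, mem_range]
      rcases hm with hm | hm | hm
      · rw [mem_filter, mem_range] at hm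
        exact ⟨by omega, hm.2⟩
      · rw [hm]
        exact ⟨by omega, hmem⟩
      · have := hN m hm
        exact ⟨by omega, this.1, this.2.1⟩
    have h2 := card_le_card h1
    have hdis : Disjoint ((range P).filter (fun m => m.Prime ∧ m % q = r)) (insert P N) := by
      rw [disjoint_left]
      intro m hm hm'
      rw [mem_filter, mem_range] at hm
      rw [mem_insert] at hm'
      rcases hm' with hm' | hm'
      · omega
      · have := hN m hm'
        omega
    rw [card_union_of_disjoint hdis, ← Nat.count_eq_card_filter_range, ← Nat.count_eq_card_filter_range, hcount,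
      card_insert_of_notMem] at h2
    · omega
    · intro h
      have := hN P h
      omega
  omega

open Classical in
/-- the exceptional primes -/
noncomputable def exc (ε : ℝ) (Q : Finset ℕ) (x : ℕ) : Finset ℕ :=
  (Icc 1 x).filter fun P => P.Prime ∧ ∃ q ∈ Q, ∃ r n j : ℕ, r < q ∧ r.Coprime q ∧ 1 ≤ n ∧ p r q n = P ∧
    (j : ℝ) ≤ (x : ℝ) ^ ε ∧ (x : ℝ) ^ (-(ε / 2)) < √(p r q (n + j) : ℝ) - √(p r q n : ℝ)

theorem exc_card (ε : ℝ) (hε : 0 < ε) (hε1 : ε ≤ 1 / 6) : ∃ X₀ : ℕ, ∀ x : ℕ, X₀ ≤ x →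
    ∀ Q : Finset ℕ, (∀ q ∈ Q, 0 < q) → (∑ q ∈ Q, (q : ℝ)) ≤ (x : ℝ) ^ (1 / 2 - 3 * ε) →
    ((exc ε Q x).card : ℝ) ≤ 6 * (x : ℝ) ^ (1 - ε) := by
  classical
  obtain ⟨X₀, hX₀⟩ := GapS.main ε hε hε1
  refine ⟨X₀, ?_⟩
  intro x hx Q hQ0 hQ
  obtain ⟨E, hE1, hE2, hE3⟩ := hX₀ x hx ((Icc 1 x).filter Nat.Prime)
    (fun P hP => (mem_Icc.1 (mem_filter.1 hP).1).2) Q hQ0 hQ
  refine le_trans ?_ hE2
  suffices h : exc ε Q x ⊆ E by exact_mod_cast card_le_card h
  intro P hP
  obtain ⟨hP1, hP2, q, hq, r, n, j, hr, hc, hn, hPn, hj, hlt⟩ := mem_filter.1 hP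
  by_contra hPE
  obtain ⟨N, hN1, hN2, hN3⟩ := hE3 P (mem_filter.2 ⟨hP1, hP2⟩) hPE q hq
  have hPr : P % q = r := by rw [← hPn]; exact (p_mem r q n hr hc).2
  rcases Nat.eq_zero_or_pos j with hj0 | hj0
  · rw [hj0, Nat.add_zero, sub_self] at hlt
    have : (0 : ℝ) ≤ (x : ℝ) ^ (-(ε / 2)) := Real.rpow_nonneg (Nat.cast_nonneg _) _
    linarith
  · have hjN : j ≤ N.card := by
      have : (j : ℝ) ≤ N.card := hj.trans hN2
      exact_mod_cast this
    have hNne : N.Nonempty := card_pos.1 (by omega)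
    have hmax := N.max'_mem hNne
    obtain ⟨M, hM⟩ : ∃ M, M = N.max' hNne := ⟨_, rfl⟩
    rw [← hM] at hmax
    have h1 : p r q (n + j) ≤ M := by
      apply nth_le r q n j M hr hc hn hj0 N _ hjN
      intro P' hP'
      have h2 := hN3 P' hP'
      have h3 : P' % q = P % q := h2.2.1
      refine ⟨(mem_filter.1 (hN1 hP')).2, by rw [h3, hPr], by rw [hPn]; exact h2.1, ?_⟩
      rw [hM]
      exact N.le_max' P' hP'
    have h4 := (hN3 M hmax).2.2
    have h5 : √(p r q (n + j) : ℝ) ≤ √(M : ℝ) := Real.sqrt_le_sqrt (by exact_mod_cast h1)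
    rw [hPn] at hlt
    linarith

end Pool.Agent.V11150.GapT
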