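import Pool.Agent.Y342.SK.EtfMain

/-!
# Hadamard matrices of order `2 * q ^ r * (q + 1)` from a symmetric core of order `q`
-/

set_option autoImplicit false

namespace Pool.Agent.V11150.HadA

open Matrix Finset
open scoped Kronecker
open Pool.Agent.H108R3.Had (HasHad)
open Pool.Agent.Y342.SK

/-- the all ones matrix -/
def J (ι : Type) : Matrix ι ι ℤ := Matrix.of fun _ _ => 1

theorem J_apply {ι : Type} (i j : ι) : J ι i j = 1 := rfl

/-- four sign matrices of order `N` which can be plugged into a symmetric conference matrix of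
order `q + 1` -/
structure Quad (q : ℤ) (N : ℤ) {κ : Type} [Fintype κ] [DecidableEq κ]
    (X Y Z W : Matrix κ κ ℤ) : Prop where
  sX : ∀ i j, Sg (X i j)
  sY : ∀ i j, Sg (Y i j)
  sZ : ∀ i j, Sg (Z i j)
  sW : ∀ i j, Sg (W i j)
  s : ∀ i j, (X * Xᵀ) i j + (Z * Zᵀ) i j + q * ((Y * Yᵀ) i j + (W * Wᵀ) i j) =
    if i = j then 2 * (q + 1) * N else 0
  c : ∀ i j, (X * Yᵀ) i j + (Y * Xᵀ) i j + (Z * Wᵀ) i j + (W * Zᵀ) i j = 0
  a : ∀ i j, (X * Zᵀ) i j + q * (Y * Wᵀ) i j = (Z * Xᵀ) i j + q * (W * Yᵀ) i j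
  b : ∀ i j, (X * Wᵀ) i j + (Y * Zᵀ) i j = (W * Xᵀ) i j + (Z * Yᵀ) i j

theorem kk {ι κ : Type} [Fintype ι] [Fintype κ] (P P' : Matrix ι ι ℤ) (X X' : Matrix κ κ ℤ)
    (i j : ι × κ) : ((P ⊗ₖ X) * (P' ⊗ₖ X')ᵀ) i j = (P * P'ᵀ) i.1 j.1 * (X * X'ᵀ) i.2 j.2 := by
  rw [← kroneckerMap_transpose, ← mul_kronecker_mul, kroneckerMap_apply]

section core

variable {ι : Type} [Fintype ι] [DecidableEq ι] {B : ι → ι → ℤ}

theorem core_QQ (h : IsCoreG 1 B) (i j : ι) :
    ((Matrix.of B) * (Matrix.of B)ᵀ) i j = (if i = j then (Fintype.card ι : ℤ) else 0) - 1 := by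
  rw [Matrix.mul_apply]
  exact h.mul i j

theorem core_JQ (h : IsCoreG 1 B) (i j : ι) : (J ι * (Matrix.of B)ᵀ) i j = 0 := by
  rw [Matrix.mul_apply]
  have := h.row j
  simpa [J] using this

theorem core_QJ (h : IsCoreG 1 B) (i j : ι) : ((Matrix.of B) * (J ι)ᵀ) i j = 0 := by
  rw [Matrix.mul_apply]
  have := h.row i
  simpa [J] using this

theorem JJ (i j : ι) : (J ι * (J ι)ᵀ) i j = (Fintype.card ι : ℤ) := by
  rw [Matrix.mul_apply]
  simp [J]

theorem J1 (i j : ι) : (J ι * (1 : Matrix ι ι ℤ)ᵀ) i j = 1 := by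
  rw [transpose_one, mul_one]; rfl

theorem oneJ (i j : ι) : ((1 : Matrix ι ι ℤ) * (J ι)ᵀ) i j = 1 := by
  rw [one_mul]; rfl

theorem Q1 (i j : ι) : ((Matrix.of B) * (1 : Matrix ι ι ℤ)ᵀ) i j = B i j := by
  rw [transpose_one, mul_one]; rfl

theorem oneQ (h : IsCoreG 1 B) (i j : ι) : ((1 : Matrix ι ι ℤ) * (Matrix.of B)ᵀ) i j = B i j := by
  rw [one_mul, transpose_apply]
  have := h.sym i j
  rw [one_mul] at this
  exact this

theorem oneone (i j : ι) : ((1 : Matrix ι ι ℤ) * (1 : Matrix ι ι ℤ)ᵀ) i j = if i = j then 1 else 0 := by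
  rw [transpose_one, mul_one, Matrix.one_apply]

end core

theorem Quad.step {ι κ : Type} [Fintype ι] [DecidableEq ι] [Fintype κ] [DecidableEq κ]
    {B : ι → ι → ℤ} (h : IsCoreG 1 B) {N : ℤ} {X Y Z W : Matrix κ κ ℤ}
    (Q : Quad (Fintype.card ι : ℤ) N X Y Z W) :
    Quad (Fintype.card ι : ℤ) ((Fintype.card ι : ℤ) * N) (J ι ⊗ₖ Y)
      ((1 : Matrix ι ι ℤ) ⊗ₖ X + (Matrix.of B) ⊗ₖ Y) (J ι ⊗ₖ W)
      ((1 : Matrix ι ι ℤ) ⊗ₖ Z + (Matrix.of B) ⊗ₖ W) := by
  have hadd : ∀ (P R P' R' : Matrix (ι × κ) (ι × κ) ℤ) (i j : ι × κ),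
      ((P + R) * (P' + R')ᵀ) i j = (P * P'ᵀ) i j + (P * R'ᵀ) i j + (R * P'ᵀ) i j +
        (R * R'ᵀ) i j := by
    intro P R P' R' i j
    rw [transpose_add, Matrix.add_mul, Matrix.mul_add, Matrix.mul_add]
    simp only [Matrix.add_apply]
    ring
  have hadd2 : ∀ (P P' R' : Matrix (ι × κ) (ι × κ) ℤ) (i j : ι × κ),
      (P * (P' + R')ᵀ) i j = (P * P'ᵀ) i j + (P * R'ᵀ) i j := by
    intro P P' R' i j
    rw [transpose_add, Matrix.mul_add, Matrix.add_apply]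
  have hadd3 : ∀ (P R P' : Matrix (ι × κ) (ι × κ) ℤ) (i j : ι × κ),
      ((P + R) * P'ᵀ) i j = (P * P'ᵀ) i j + (R * P'ᵀ) i j := by
    intro P R P' i j
    rw [Matrix.add_mul, Matrix.add_apply]
  have hsum : ∀ (X Y : Matrix κ κ ℤ), (∀ i j, Sg (X i j)) → (∀ i j, Sg (Y i j)) →
      ∀ i j : ι × κ, Sg (((1 : Matrix ι ι ℤ) ⊗ₖ X + (Matrix.of B) ⊗ₖ Y) i j) := by
    intro X Y hX hY i j
    simp only [Matrix.add_apply, kroneckerMap_apply, Matrix.of_apply]
    by_cases hij : i.1 = j.1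
    · rw [hij, h.diag, zero_mul, add_zero, Matrix.one_apply_eq, one_mul]
      exact hX _ _
    · rw [Matrix.one_apply_ne hij, zero_mul, zero_add]
      exact (h.sign _ _ hij).mul (hY _ _)
  refine ⟨?_, hsum X Y Q.sX Q.sY, ?_, hsum Z W Q.sZ Q.sW, ?_, ?_, ?_, ?_⟩
  · intro i j
    simp only [kroneckerMap_apply, J_apply, one_mul]
    exact Q.sY _ _
  · intro i j
    simp only [kroneckerMap_apply, J_apply, one_mul]
    exact Q.sW _ _
  · intro i j
    simp only [hadd, kk, core_QQ h, JJ, Q1, oneQ h, oneone]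
    have hs := Q.s i.2 j.2
    have hc := Q.c i.2 j.2
    have hij : (if i = j then 2 * ((Fintype.card ι : ℤ) + 1) * ((Fintype.card ι : ℤ) * N) else 0) =
        (if i.1 = j.1 then 1 else 0) * ((Fintype.card ι : ℤ) *
          (if i.2 = j.2 then 2 * ((Fintype.card ι : ℤ) + 1) * N else 0)) := by
      by_cases h1 : i.1 = j.1
      · by_cases h2 : i.2 = j.2
        · have : i = j := Prod.ext h1 h2
          rw [if_pos this, if_pos h1, if_pos h2]; ring
        · have : i ≠ j := fun h' => h2 (by rw [h'])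
          rw [if_neg this, if_neg h2]; ring
      · have : i ≠ j := fun h' => h1 (by rw [h'])
        rw [if_neg this, if_neg h1]; ring
    rw [hij]
    have hz : (if i.1 = j.1 then (Fintype.card ι : ℤ) else 0) = (Fintype.card ι : ℤ) *
        (if i.1 = j.1 then 1 else 0) := by split_ifs <;> simp
    rw [hz]
    linear_combination (Fintype.card ι : ℤ) * (if i.1 = j.1 then 1 else 0) * hs +
      (Fintype.card ι : ℤ) * B i.1 j.1 * hc
  · intro i j
    simp only [hadd2, hadd3, kk, core_JQ h, core_QJ h, J1, oneJ]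
    have hc := Q.c i.2 j.2
    linear_combination hc
  · intro i j
    simp only [hadd, kk, core_QQ h, JJ, Q1, oneQ h, oneone]
    have ha := Q.a i.2 j.2
    have hb := Q.b i.2 j.2
    have hz : (if i.1 = j.1 then (Fintype.card ι : ℤ) else 0) = (Fintype.card ι : ℤ) *
        (if i.1 = j.1 then 1 else 0) := by split_ifs <;> simp
    rw [hz]
    linear_combination (Fintype.card ι : ℤ) * (if i.1 = j.1 then 1 else 0) * ha +
      (Fintype.card ι : ℤ) * B i.1 j.1 * hb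
  · intro i j
    simp only [hadd2, hadd3, kk, core_JQ h, core_QJ h, J1, oneJ]
    have hb := Q.b i.2 j.2
    linear_combination hb

theorem quad_zero (q : ℤ) : Quad (κ := Unit) q 1 (Matrix.of fun _ _ => 1) (Matrix.of fun _ _ => 1)
    (Matrix.of fun _ _ => 1) (Matrix.of fun _ _ => -1) := by
  refine ⟨?_, ?_, ?_, ?_, ?_, ?_, ?_, ?_⟩
  · intro i j; left; rfl
  · intro i j; left; rfl
  · intro i j; left; rfl
  · intro i j; right; rfl
  · intro i j
    simp [Matrix.mul_apply]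
    ring
  · intro i j
    simp [Matrix.mul_apply]
  · intro i j
    simp [Matrix.mul_apply]
  · intro i j
    simp [Matrix.mul_apply]

theorem quad_exists {ι : Type} [Fintype ι] [DecidableEq ι] {B : ι → ι → ℤ} (h : IsCoreG 1 B)
    (r : ℕ) : ∃ (κ : Type) (_ : Fintype κ) (_ : DecidableEq κ) (X Y Z W : Matrix κ κ ℤ),
      Fintype.card κ = Fintype.card ι ^ r ∧
      Quad (Fintype.card ι : ℤ) ((Fintype.card ι : ℤ) ^ r) X Y Z W := by
  induction r with
  | zero =>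
    refine ⟨Unit, inferInstance, inferInstance, (Matrix.of fun _ _ => 1), (Matrix.of fun _ _ => 1),
      (Matrix.of fun _ _ => 1), (Matrix.of fun _ _ => -1), by simp, ?_⟩
    rw [pow_zero]
    exact quad_zero _
  | succ r ih =>
    obtain ⟨κ, i1, i2, X, Y, Z, W, h1, h2⟩ := ih
    have h3 := h2.step h
    have h4 : (Fintype.card ι : ℤ) * (Fintype.card ι : ℤ) ^ r = (Fintype.card ι : ℤ) ^ (r + 1) := by
      ring
    rw [h4] at h3
    refine ⟨ι × κ, inferInstance, inferInstance, _, _, _, _, ?_, h3⟩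
    rw [Fintype.card_prod, h1, pow_succ, mul_comm]

/-- Hadamard matrices of order `2 * q ^ r * (q + 1)` from a symmetric core of order `q` -/
theorem had_of_core {m : ℕ} {B : Fin m → Fin m → ℤ} (h : IsCoreG 1 B) (r : ℕ) :
    HasHad (2 * m ^ r * (m + 1)) := by
  obtain ⟨C, C1, C2, C3, C4⟩ := conf_of_core h
  obtain ⟨κ, i1, i2, X, Y, Z, W, hκ, Q⟩ := quad_exists h r
  rw [Fintype.card_fin] at hκ Q
  have hCC : ∀ i j, (C * Cᵀ) i j = (m : ℤ) * (if i = j then 1 else 0) := by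
    intro i j
    rw [C3, C4, Matrix.smul_apply, Matrix.one_apply, smul_eq_mul]
  have hC1 : ∀ i j, (C * (1 : Matrix (Fin (m + 1)) (Fin (m + 1)) ℤ)ᵀ) i j = C i j := by
    intro i j
    rw [transpose_one, mul_one]
  have h1C : ∀ i j, ((1 : Matrix (Fin (m + 1)) (Fin (m + 1)) ℤ) * Cᵀ) i j = C i j := by
    intro i j
    rw [one_mul, C3]
  let A : Matrix (Fin (m + 1) × κ) (Fin (m + 1) × κ) ℤ :=
    (1 : Matrix (Fin (m + 1)) (Fin (m + 1)) ℤ) ⊗ₖ X + C ⊗ₖ Y
  let D : Matrix (Fin (m + 1) × κ) (Fin (m + 1) × κ) ℤ :=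
    (1 : Matrix (Fin (m + 1)) (Fin (m + 1)) ℤ) ⊗ₖ Z + C ⊗ₖ W
  have hadd : ∀ (P R P' R' : Matrix (Fin (m + 1) × κ) (Fin (m + 1) × κ) ℤ)
      (i j : Fin (m + 1) × κ),
      ((P + R) * (P' + R')ᵀ) i j = (P * P'ᵀ) i j + (P * R'ᵀ) i j + (R * P'ᵀ) i j +
        (R * R'ᵀ) i j := by
    intro P R P' R' i j
    rw [transpose_add, Matrix.add_mul, Matrix.mul_add, Matrix.mul_add]
    simp only [Matrix.add_apply]
    ring
  have hsum : ∀ (X Y : Matrix κ κ ℤ), (∀ i j, Sg (X i j)) → (∀ i j, Sg (Y i j)) →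
      ∀ i j : Fin (m + 1) × κ,
        Sg (((1 : Matrix (Fin (m + 1)) (Fin (m + 1)) ℤ) ⊗ₖ X + C ⊗ₖ Y) i j) := by
    intro X Y hX hY i j
    simp only [Matrix.add_apply, kroneckerMap_apply]
    by_cases hij : i.1 = j.1
    · rw [hij, C1, zero_mul, add_zero, Matrix.one_apply_eq, one_mul]
      exact hX _ _
    · rw [Matrix.one_apply_ne hij, zero_mul, zero_add]
      exact (C2 _ _ hij).mul (hY _ _)
  have hAD : ∀ i j, (A * Aᵀ) i j + (D * Dᵀ) i j =
      if i = j then 2 * ((m : ℤ) + 1) * (m : ℤ) ^ r else 0 := by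
    intro i j
    simp only [A, D, hadd, kk, hCC, hC1, h1C, oneone]
    have hs := Q.s i.2 j.2
    have hc := Q.c i.2 j.2
    have hij : (if i = j then 2 * ((m : ℤ) + 1) * (m : ℤ) ^ r else 0) =
        (if i.1 = j.1 then 1 else 0) *
          (if i.2 = j.2 then 2 * ((m : ℤ) + 1) * (m : ℤ) ^ r else 0) := by
      by_cases h1 : i.1 = j.1
      · by_cases h2 : i.2 = j.2
        · have : i = j := Prod.ext h1 h2
          rw [if_pos this, if_pos h1, if_pos h2]; ring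
        · have : i ≠ j := fun h' => h2 (by rw [h'])
          rw [if_neg this, if_neg h2]; ring
      · have : i ≠ j := fun h' => h1 (by rw [h'])
        rw [if_neg this, if_neg h1]; ring
    rw [hij]
    linear_combination (if i.1 = j.1 then 1 else 0) * hs + C i.1 j.1 * hc
  have hADc : ∀ i j, (A * Dᵀ) i j = (D * Aᵀ) i j := by
    intro i j
    simp only [A, D, hadd, kk, hCC, hC1, h1C, oneone]
    have ha := Q.a i.2 j.2
    have hb := Q.b i.2 j.2
    linear_combination (if i.1 = j.1 then 1 else 0) * ha + C i.1 j.1 * hb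
  let M : Matrix ((Fin (m + 1) × κ) ⊕ (Fin (m + 1) × κ)) ((Fin (m + 1) × κ) ⊕ (Fin (m + 1) × κ)) ℤ :=
    Matrix.fromBlocks A D D (-A)
  have hM : M * Mᵀ = Matrix.fromBlocks (A * Aᵀ + D * Dᵀ) (A * Dᵀ - D * Aᵀ)
      (D * Aᵀ - A * Dᵀ) (D * Dᵀ + A * Aᵀ) := by
    simp only [M, Matrix.fromBlocks_transpose, Matrix.fromBlocks_multiply, transpose_neg,
      Matrix.mul_neg, Matrix.neg_mul, neg_neg, sub_eq_add_neg]
  refine Pool.Agent.TH432.Had.had_reindex
    (ι := (Fin (m + 1) × κ) ⊕ (Fin (m + 1) × κ)) ?_ M ?_ ?_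
  · rw [Fintype.card_sum, Fintype.card_prod, Fintype.card_fin, hκ]
    ring
  · have hA : ∀ i j, Sg (A i j) := hsum X Y Q.sX Q.sY
    have hD : ∀ i j, Sg (D i j) := hsum Z W Q.sZ Q.sW
    rintro (i | i) (j | j)
    · exact hA i j
    · exact hD i j
    · exact hD i j
    · change (-A) i j = 1 ∨ (-A) i j = -1
      rw [Matrix.neg_apply]
      rcases hA i j with h' | h' <;> rw [h'] <;> simp
  · intro i j
    have h2 : ∑ k, M i k * M j k = (M * Mᵀ) i j := by
      rw [Matrix.mul_apply]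
      rfl
    rw [h2, hM]
    have hcast : ((2 * m ^ r * (m + 1) : ℕ) : ℤ) = 2 * ((m : ℤ) + 1) * (m : ℤ) ^ r := by
      push_cast; ring
    rw [hcast]
    rcases i with i | i <;> rcases j with j | j
    · rw [Matrix.fromBlocks_apply₁₁, Matrix.add_apply, hAD]
      simp only [Sum.inl.injEq]
    · rw [Matrix.fromBlocks_apply₁₂, Matrix.sub_apply, hADc]
      simp
    · rw [Matrix.fromBlocks_apply₂₁, Matrix.sub_apply, hADc]
      simp
    · rw [Matrix.fromBlocks_apply₂₂, Matrix.add_apply, add_comm, hAD]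
      simp only [Sum.inr.injEq]

open Pool.Agent.W851.Had (tow)

/-- Hadamard matrices of order `2 * w ^ r * (w + 1)`, `w = v ^ 2 ^ (j + 1)` -/
theorem main : ∃ C : ℕ, 2 ≤ C ∧ ∀ n v t j r : ℕ, v ≤ tow n → 2 ^ C ^ (n + 1) ≤ t →
    2 ^ t ∣ v + 1 → HasHad (2 * (v ^ 2 ^ (j + 1)) ^ r * (v ^ 2 ^ (j + 1) + 1)) := by
  obtain ⟨C, hC, h⟩ := main_skew
  refine ⟨C, hC, fun n v t j r hv ht hd => ?_⟩
  obtain ⟨S, hS⟩ := core_of h hv ht hd
  obtain ⟨B, hB⟩ := sym_core hS j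
  exact had_of_core hB r

end Pool.Agent.V11150.HadA
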