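import Pool.Agent.V11150.HadA

/-!
# Hadamard matrices of order `4 (2 n + 1)` from two symmetric matrices and a skew core of order `n`
-/

set_option autoImplicit false

namespace Pool.Agent.V11150.HadB

open Matrix Finset
open scoped Kronecker
open Pool.Agent.H108R3.Had (HasHad)
open Pool.Agent.Y342.SK
open Pool.Agent.V11150.HadA (J kk oneone)

/-- positions of `A` -/
def VA : Matrix (Fin 4) (Fin 4) ℤ := !![1, 0, 0, 0; 0, -1, 0, 0; 0, 0, -1, 0; 0, 0, 0, 1]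
/-- positions of `B` -/
def VB : Matrix (Fin 4) (Fin 4) ℤ := !![0, 1, 0, 0; 1, 0, 0, 0; 0, 0, 0, -1; 0, 0, -1, 0]
/-- positions of the identity -/
def VI : Matrix (Fin 4) (Fin 4) ℤ := !![0, 0, 1, 1; 0, 0, -1, 1; 1, 1, 0, 0; -1, 1, 0, 0]
/-- positions of the core -/
def US : Matrix (Fin 4) (Fin 4) ℤ := !![0, 0, 1, 1; 0, 0, 1, -1; 1, 1, 0, 0; 1, -1, 0, 0]
/-- a Hadamard matrix of order four -/
def H4 : Matrix (Fin 4) (Fin 4) ℤ := !![1, 1, 1, 1; 1, -1, 1, -1; 1, 1, -1, -1; 1, -1, -1, 1]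
/-- another one -/
def E4 : Matrix (Fin 4) (Fin 4) ℤ := !![-1, -1, -1, -1; 1, -1, 1, -1; 1, 1, -1, -1; 1, -1, -1, 1]
/-- another one -/
def L4 : Matrix (Fin 4) (Fin 4) ℤ := !![-1, 1, 1, 1; 1, -1, 1, 1; 1, 1, -1, 1; 1, 1, 1, -1]
/-- all ones of order two -/
def J2 : Matrix (Fin 2) (Fin 2) ℤ := !![1, 1; 1, 1]
/-- its complement -/
def K2 : Matrix (Fin 2) (Fin 2) ℤ := !![1, -1; -1, 1]

/-- the data: two commuting symmetric matrices `A`, `B` of order `n` with `A² + B² = (2 n - 1) I`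
and a skew core of order `n` -/
structure Dat {α : Type} [Fintype α] [DecidableEq α] (A B S : Matrix α α ℤ) : Prop where
  Ad : ∀ x, A x x = 0
  As : ∀ x y, x ≠ y → Sg (A x y)
  Bs : ∀ x y, Sg (B x y)
  At : Aᵀ = A
  Bt : Bᵀ = B
  AB : ∀ x y, (A * Aᵀ) x y + (B * Bᵀ) x y =
    if x = y then 2 * (Fintype.card α : ℤ) - 1 else 0
  cm : ∀ x y, (A * Bᵀ) x y = (B * Aᵀ) x y
  Sd : ∀ x, S x x = 0
  Ss : ∀ x y, x ≠ y → Sg (S x y)
  St : Sᵀ = -S
  Sr : ∀ x, ∑ y, S x y = 0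
  SS : ∀ x y, (S * Sᵀ) x y = (if x = y then (Fintype.card α : ℤ) else 0) - 1

namespace Dat

variable {α : Type} [Fintype α] [DecidableEq α] {A B S : Matrix α α ℤ}

/-- first inner matrix -/
def MV (A B : Matrix α α ℤ) : Matrix (Fin 4 × α) (Fin 4 × α) ℤ :=
  VA ⊗ₖ A + VB ⊗ₖ B + VI ⊗ₖ (1 : Matrix α α ℤ)

/-- second inner matrix -/
def MU (S : Matrix α α ℤ) : Matrix (Fin 4 × α) (Fin 4 × α) ℤ :=
  (1 : Matrix (Fin 4) (Fin 4) ℤ) ⊗ₖ (1 : Matrix α α ℤ) + US ⊗ₖ S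

theorem MVV (D : Dat A B S) (p q : Fin 4 × α) : (MV A B * (MV A B)ᵀ) p q =
    (2 * (Fintype.card α : ℤ) + 1) * (if p = q then 1 else 0) := by
  have e1 : ∀ i j, (VA * VAᵀ) i j = if i = j then 1 else 0 := by decide
  have e2 : ∀ i j, (VB * VBᵀ) i j = if i = j then 1 else 0 := by decide
  have e3 : ∀ i j, (VI * VIᵀ) i j = 2 * if i = j then 1 else 0 := by decide
  have e4 : ∀ i j, (VA * VBᵀ) i j = - (VB * VAᵀ) i j := by decide
  have e5 : ∀ i j, (VA * VIᵀ) i j = - (VI * VAᵀ) i j := by decide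
  have e6 : ∀ i j, (VB * VIᵀ) i j = - (VI * VBᵀ) i j := by decide
  have f1 : ∀ x y, (A * (1 : Matrix α α ℤ)ᵀ) x y = A x y := by
    intro x y; rw [transpose_one, mul_one]
  have f2 : ∀ x y, ((1 : Matrix α α ℤ) * Aᵀ) x y = A x y := by
    intro x y; rw [one_mul, D.At]
  have f3 : ∀ x y, (B * (1 : Matrix α α ℤ)ᵀ) x y = B x y := by
    intro x y; rw [transpose_one, mul_one]
  have f4 : ∀ x y, ((1 : Matrix α α ℤ) * Bᵀ) x y = B x y := by
    intro x y; rw [one_mul, D.Bt]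
  have hexp : (MV A B * (MV A B)ᵀ) p q =
      ((VA ⊗ₖ A) * (VA ⊗ₖ A)ᵀ) p q + ((VA ⊗ₖ A) * (VB ⊗ₖ B)ᵀ) p q +
      ((VA ⊗ₖ A) * (VI ⊗ₖ (1 : Matrix α α ℤ))ᵀ) p q + ((VB ⊗ₖ B) * (VA ⊗ₖ A)ᵀ) p q +
      ((VB ⊗ₖ B) * (VB ⊗ₖ B)ᵀ) p q + ((VB ⊗ₖ B) * (VI ⊗ₖ (1 : Matrix α α ℤ))ᵀ) p q +
      ((VI ⊗ₖ (1 : Matrix α α ℤ)) * (VA ⊗ₖ A)ᵀ) p q +
      ((VI ⊗ₖ (1 : Matrix α α ℤ)) * (VB ⊗ₖ B)ᵀ) p q +
      ((VI ⊗ₖ (1 : Matrix α α ℤ)) * (VI ⊗ₖ (1 : Matrix α α ℤ))ᵀ) p q := by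
    unfold MV
    rw [transpose_add, transpose_add, Matrix.add_mul, Matrix.add_mul, Matrix.mul_add,
      Matrix.mul_add, Matrix.mul_add, Matrix.mul_add, Matrix.mul_add, Matrix.mul_add]
    simp only [Matrix.add_apply]
    ring
  rw [hexp]
  simp only [kk, e1, e2, e3, e4, e5, e6, f1, f2, f3, f4, D.cm, oneone]
  have hpq : (if p = q then (1 : ℤ) else 0) = (if p.1 = q.1 then 1 else 0) *
      (if p.2 = q.2 then 1 else 0) := by
    by_cases h1 : p.1 = q.1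
    · by_cases h2 : p.2 = q.2
      · have : p = q := Prod.ext h1 h2
        simp [this]
      · have : p ≠ q := fun h' => h2 (by rw [h'])
        simp [this, h2]
    · have : p ≠ q := fun h' => h1 (by rw [h'])
      simp [this, h1]
  rw [hpq]
  have h := D.AB p.2 q.2
  have hz : (if p.2 = q.2 then 2 * (Fintype.card α : ℤ) - 1 else 0) =
      (2 * (Fintype.card α : ℤ) - 1) * (if p.2 = q.2 then 1 else 0) := by split_ifs <;> simp
  rw [hz] at h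
  linear_combination (if p.1 = q.1 then 1 else 0) * h

theorem MUU (D : Dat A B S) (p q : Fin 4 × α) : (MU S * (MU S)ᵀ) p q =
    (2 * (Fintype.card α : ℤ) + 1) * (if p = q then 1 else 0) -
      2 * (if p.1 = q.1 then 1 else 0) := by
  have e1 : ∀ i j, (US * USᵀ) i j = 2 * if i = j then 1 else 0 := by decide
  have e2 : ∀ i j, (US * (1 : Matrix (Fin 4) (Fin 4) ℤ)ᵀ) i j =
      ((1 : Matrix (Fin 4) (Fin 4) ℤ) * USᵀ) i j := by decide
  have f1 : ∀ x y, (S * (1 : Matrix α α ℤ)ᵀ) x y = S x y := by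
    intro x y; rw [transpose_one, mul_one]
  have f2 : ∀ x y, ((1 : Matrix α α ℤ) * Sᵀ) x y = - S x y := by
    intro x y; rw [one_mul, D.St]; rfl
  have hexp : (MU S * (MU S)ᵀ) p q =
      (((1 : Matrix (Fin 4) (Fin 4) ℤ) ⊗ₖ (1 : Matrix α α ℤ)) *
        ((1 : Matrix (Fin 4) (Fin 4) ℤ) ⊗ₖ (1 : Matrix α α ℤ))ᵀ) p q +
      (((1 : Matrix (Fin 4) (Fin 4) ℤ) ⊗ₖ (1 : Matrix α α ℤ)) * (US ⊗ₖ S)ᵀ) p q +
      ((US ⊗ₖ S) * ((1 : Matrix (Fin 4) (Fin 4) ℤ) ⊗ₖ (1 : Matrix α α ℤ))ᵀ) p q +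
      ((US ⊗ₖ S) * (US ⊗ₖ S)ᵀ) p q := by
    unfold MU
    rw [transpose_add, Matrix.add_mul, Matrix.mul_add, Matrix.mul_add]
    simp only [Matrix.add_apply]
    ring
  rw [hexp]
  simp only [kk, e1, e2, f1, f2, oneone, D.SS]
  have hpq : (if p = q then (1 : ℤ) else 0) = (if p.1 = q.1 then 1 else 0) *
      (if p.2 = q.2 then 1 else 0) := by
    by_cases h1 : p.1 = q.1
    · by_cases h2 : p.2 = q.2
      · have : p = q := Prod.ext h1 h2
        simp [this]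
      · have : p ≠ q := fun h' => h2 (by rw [h'])
        simp [this, h2]
    · have : p ≠ q := fun h' => h1 (by rw [h'])
      simp [this, h1]
  rw [hpq]
  have hz : (if p.2 = q.2 then (Fintype.card α : ℤ) else 0) =
      (Fintype.card α : ℤ) * (if p.2 = q.2 then 1 else 0) := by split_ifs <;> simp
  rw [hz]
  ring

/-- the inner matrix -/
def X (A B S : Matrix α α ℤ) : Matrix ((Fin 4 × α) × Fin 2) ((Fin 4 × α) × Fin 2) ℤ :=
  (MU S) ⊗ₖ J2 + (MV A B) ⊗ₖ K2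

theorem XX (D : Dat A B S) (p q : (Fin 4 × α) × Fin 2) : (X A B S * (X A B S)ᵀ) p q =
    4 * (2 * (Fintype.card α : ℤ) + 1) * (if p = q then 1 else 0) -
      4 * (if p.1.1 = q.1.1 then 1 else 0) := by
  have e1 : ∀ i j, (J2 * J2ᵀ) i j = 2 := by decide
  have e2 : ∀ i j, (J2 * K2ᵀ) i j = 0 := by decide
  have e3 : ∀ i j, (K2 * J2ᵀ) i j = 0 := by decide
  have e4 : ∀ i j, (K2 * K2ᵀ) i j = 4 * (if i = j then 1 else 0) - 2 := by decide
  have hexp : (X A B S * (X A B S)ᵀ) p q =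
      ((MU S ⊗ₖ J2) * (MU S ⊗ₖ J2)ᵀ) p q + ((MU S ⊗ₖ J2) * (MV A B ⊗ₖ K2)ᵀ) p q +
      ((MV A B ⊗ₖ K2) * (MU S ⊗ₖ J2)ᵀ) p q + ((MV A B ⊗ₖ K2) * (MV A B ⊗ₖ K2)ᵀ) p q := by
    unfold X
    rw [transpose_add, Matrix.add_mul, Matrix.mul_add, Matrix.mul_add]
    simp only [Matrix.add_apply]
    ring
  have k2 : ∀ (P P' : Matrix (Fin 4 × α) (Fin 4 × α) ℤ) (Y Y' : Matrix (Fin 2) (Fin 2) ℤ)
      (i j : (Fin 4 × α) × Fin 2),
      ((P ⊗ₖ Y) * (P' ⊗ₖ Y')ᵀ) i j = (P * P'ᵀ) i.1 j.1 * (Y * Y'ᵀ) i.2 j.2 :=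
    fun P P' Y Y' i j => kk P P' Y Y' i j
  rw [hexp]
  simp only [k2, e1, e2, e3, e4, D.MVV, D.MUU]
  have hpq : (if p = q then (1 : ℤ) else 0) = (if p.1 = q.1 then 1 else 0) *
      (if p.2 = q.2 then 1 else 0) := by
    by_cases h1 : p.1 = q.1
    · by_cases h2 : p.2 = q.2
      · have : p = q := Prod.ext h1 h2
        simp [this]
      · have : p ≠ q := fun h' => h2 (by rw [h'])
        simp [this, h2]
    · have : p ≠ q := fun h' => h1 (by rw [h'])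
      simp [this, h1]
  rw [hpq]
  ring

theorem X_sg (D : Dat A B S) (p q : (Fin 4 × α) × Fin 2) : Sg (X A B S p q) := by
  obtain ⟨⟨a, x⟩, ε⟩ := p
  obtain ⟨⟨b, y⟩, δ⟩ := q
  have hX : X A B S ((a, x), ε) ((b, y), δ) =
      ((1 : Matrix (Fin 4) (Fin 4) ℤ) a b * (1 : Matrix α α ℤ) x y + US a b * S x y) * J2 ε δ +
      (VA a b * A x y + VB a b * B x y + VI a b * (1 : Matrix α α ℤ) x y) * K2 ε δ := rfl
  rw [hX]
  clear hX
  by_cases hxy : x = y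
  · subst hxy
    rw [D.Ad, D.Sd, Matrix.one_apply_eq]
    have hB := D.Bs x x
    unfold Sg at hB ⊢
    rcases hB with hB | hB <;> rw [hB] <;> revert a b ε δ <;> decide
  · rw [Matrix.one_apply_ne hxy]
    have hB := D.Bs x y
    have hA := D.As x y hxy
    have hS := D.Ss x y hxy
    unfold Sg at hA hB hS ⊢
    rcases hB with hB | hB <;> rcases hA with hA | hA <;> rcases hS with hS | hS <;>
      rw [hB, hA, hS] <;> revert a b ε δ <;> decide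

/-- the border rows -/
def G (α : Type) : Matrix (Fin 4) ((Fin 4 × α) × Fin 2) ℤ := Matrix.of fun b p => H4 b p.1.1

/-- the border columns -/
def G' (α : Type) : Matrix ((Fin 4 × α) × Fin 2) (Fin 4) ℤ := Matrix.of fun p b => L4 p.1.1 b

theorem GG (b b' : Fin 4) : (G α * (G α)ᵀ) b b' =
    8 * (Fintype.card α : ℤ) * (if b = b' then 1 else 0) := by
  rw [Matrix.mul_apply]
  have h1 : ∀ p : (Fin 4 × α) × Fin 2, G α b p * (G α)ᵀ p b' = H4 b p.1.1 * H4 b' p.1.1 :=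
    fun p => rfl
  rw [Finset.sum_congr rfl fun p _ => h1 p, Fintype.sum_prod_type, Fintype.sum_prod_type]
  simp only [Finset.sum_const, card_univ, Fintype.card_fin, nsmul_eq_mul]
  have h2 : ∀ b b' : Fin 4, ∑ x : Fin 4, H4 b x * H4 b' x = 4 * (if b = b' then 1 else 0) := by
    decide
  rw [← Finset.mul_sum, ← Finset.mul_sum, h2]
  push_cast
  ring

theorem G'G' (p q : (Fin 4 × α) × Fin 2) : (G' α * (G' α)ᵀ) p q =
    4 * (if p.1.1 = q.1.1 then 1 else 0) := by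
  rw [Matrix.mul_apply]
  have h2 : ∀ b b' : Fin 4, ∑ x : Fin 4, L4 b x * L4 b' x = 4 * (if b = b' then 1 else 0) := by
    decide
  exact h2 p.1.1 q.1.1

theorem EG' (b : Fin 4) (q : (Fin 4 × α) × Fin 2) : (E4 * (G' α)ᵀ) b q = - 2 * H4 b q.1.1 := by
  rw [Matrix.mul_apply]
  have h2 : ∀ b b' : Fin 4, ∑ x : Fin 4, E4 b x * L4 b' x = - 2 * H4 b b' := by
    decide
  exact h2 b q.1.1

theorem GX (D : Dat A B S) (b : Fin 4) (q : (Fin 4 × α) × Fin 2) :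
    (G α * (X A B S)ᵀ) b q = 2 * H4 b q.1.1 := by
  obtain ⟨⟨a, x⟩, ε⟩ := q
  rw [Matrix.mul_apply]
  have h1 : ∀ p : (Fin 4 × α) × Fin 2, G α b p * (X A B S)ᵀ p ((a, x), ε) =
      H4 b p.1.1 * (MU S (a, x) p.1 * J2 ε p.2 + MV A B (a, x) p.1 * K2 ε p.2) := fun p => rfl
  rw [Finset.sum_congr rfl fun p _ => h1 p, Fintype.sum_prod_type]
  have h2 : ∀ r : Fin 4 × α, ∑ y : Fin 2, H4 b r.1 * (MU S (a, x) r * J2 ε y +
      MV A B (a, x) r * K2 ε y) = 2 * (H4 b r.1 * MU S (a, x) r) := by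
    intro r
    have e1 : ∀ ε : Fin 2, J2 ε 0 = 1 ∧ J2 ε 1 = 1 := by decide
    have e2 : ∀ ε : Fin 2, K2 ε 0 + K2 ε 1 = 0 := by decide
    rw [Fin.sum_univ_two, (e1 ε).1, (e1 ε).2]
    linear_combination (H4 b r.1 * MV A B (a, x) r) * e2 ε
  rw [Finset.sum_congr rfl fun r _ => h2 r, ← Finset.mul_sum, Fintype.sum_prod_type]
  have h3 : ∀ c : Fin 4, ∑ y : α, H4 b c * MU S (a, x) (c, y) = if a = c then H4 b c else 0 := by
    intro c
    have h4 : ∀ y : α, H4 b c * MU S (a, x) (c, y) =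
        H4 b c * (1 : Matrix (Fin 4) (Fin 4) ℤ) a c * (1 : Matrix α α ℤ) x y +
          H4 b c * US a c * S x y := by
      intro y
      change H4 b c * ((1 : Matrix (Fin 4) (Fin 4) ℤ) a c * (1 : Matrix α α ℤ) x y +
        US a c * S x y) = _
      ring
    rw [Finset.sum_congr rfl fun y _ => h4 y, Finset.sum_add_distrib, ← Finset.mul_sum,
      ← Finset.mul_sum, D.Sr, mul_zero, add_zero]
    simp only [Matrix.one_apply, Finset.sum_ite_eq, Finset.mem_univ, if_true]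
    split_ifs <;> simp
  rw [Finset.sum_congr rfl fun c _ => h3 c, Finset.sum_ite_eq]
  simp

theorem hasHad (D : Dat A B S) : HasHad (4 * (2 * Fintype.card α + 1)) := by
  let M : Matrix (Fin 4 ⊕ ((Fin 4 × α) × Fin 2)) (Fin 4 ⊕ ((Fin 4 × α) × Fin 2)) ℤ :=
    Matrix.fromBlocks E4 (G α) (G' α) (X A B S)
  have hM : M * Mᵀ = Matrix.fromBlocks (E4 * E4ᵀ + G α * (G α)ᵀ) (E4 * (G' α)ᵀ + G α * (X A B S)ᵀ)
      (G' α * E4ᵀ + X A B S * (G α)ᵀ) (G' α * (G' α)ᵀ + X A B S * (X A B S)ᵀ) := by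
    simp only [M, Matrix.fromBlocks_transpose, Matrix.fromBlocks_multiply]
  have hoff : ∀ b q, (E4 * (G' α)ᵀ + G α * (X A B S)ᵀ) b q = 0 := by
    intro b q
    rw [Matrix.add_apply, EG', D.GX]
    ring
  have hoff' : ∀ q b, (G' α * E4ᵀ + X A B S * (G α)ᵀ) q b = 0 := by
    intro q b
    have h1 : (G' α * E4ᵀ + X A B S * (G α)ᵀ) = (E4 * (G' α)ᵀ + G α * (X A B S)ᵀ)ᵀ := by
      rw [transpose_add, transpose_mul, transpose_mul, transpose_transpose, transpose_transpose]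
    rw [h1, transpose_apply]
    exact hoff b q
  refine Pool.Agent.TH432.Had.had_reindex (ι := Fin 4 ⊕ ((Fin 4 × α) × Fin 2)) ?_ M ?_ ?_
  · rw [Fintype.card_sum, Fintype.card_prod, Fintype.card_prod, Fintype.card_fin, Fintype.card_fin]
    ring
  · rintro (i | i) (j | j)
    · change E4 i j = 1 ∨ E4 i j = -1
      revert i j; decide
    · change H4 i j.1.1 = 1 ∨ H4 i j.1.1 = -1
      generalize j.1.1 = c
      revert i c; decide
    · change L4 i.1.1 j = 1 ∨ L4 i.1.1 j = -1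
      generalize i.1.1 = c
      revert j c; decide
    · exact D.X_sg i j
  · intro i j
    have h2 : ∑ k, M i k * M j k = (M * Mᵀ) i j := by
      rw [Matrix.mul_apply]
      rfl
    rw [h2, hM]
    have hcast : ((4 * (2 * Fintype.card α + 1) : ℕ) : ℤ) = 4 * (2 * (Fintype.card α : ℤ) + 1) := by
      push_cast; ring
    rw [hcast]
    have hEE : ∀ b b' : Fin 4, (E4 * E4ᵀ) b b' = 4 * (if b = b' then 1 else 0) := by decide
    rcases i with i | i <;> rcases j with j | j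
    · rw [Matrix.fromBlocks_apply₁₁, Matrix.add_apply, GG, hEE]
      simp only [Sum.inl.injEq]
      split_ifs <;> ring
    · rw [Matrix.fromBlocks_apply₁₂, hoff]
      simp
    · rw [Matrix.fromBlocks_apply₂₁, hoff']
      simp
    · rw [Matrix.fromBlocks_apply₂₂, Matrix.add_apply, G'G', D.XX]
      simp only [Sum.inr.injEq]
      split_ifs <;> ring

end Dat

end Pool.Agent.V11150.HadB
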