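import Pool.Agent.V11150.HadB

/-!
# Hadamard matrices of order `4 (q + 2)`, `q` a prime power, from a skew core of order `(q + 1) / 2`
-/

set_option autoImplicit false

namespace Pool.Agent.V11150.HadC

open Matrix Finset
open Pool.Agent.H108R3.Had (HasHad)
open Pool.Agent.Y342.SK
open Pool.Agent.V11150.HadB (Dat)

section paley

variable {K : Type} [Field K] [Fintype K] [DecidableEq K]

/-- the quadratic character -/
def ch (x : K) : ℤ := quadraticChar K x

theorem ch_mul (x y : K) : ch (x * y) = ch x * ch y := map_mul _ _ _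

theorem ch_zero : ch (0 : K) = 0 := MulChar.map_zero _

theorem ch_ne {x : K} (h : ch x ≠ 0) : x ≠ 0 := fun h0 => h (by rw [h0, ch_zero])

theorem ch_sg {x : K} (h : x ≠ 0) : Sg (ch x) := quadraticChar_dichotomy h

theorem ch_neg (h4 : Fintype.card K % 4 = 1) (x : K) : ch (-x) = ch x :=
  Pool.Agent.TH432.Had.chi_neg h4 x

theorem ch_sub (h4 : Fintype.card K % 4 = 1) (x y : K) : ch (x - y) = ch (y - x) := by
  rw [← neg_sub, ch_neg h4]

theorem ch_sum (h4 : Fintype.card K % 4 = 1) : ∑ z : K, ch z = 0 :=
  quadraticChar_sum_zero (Pool.Agent.TH432.Had.char_ne_two h4)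

theorem ch_sum' (h4 : Fintype.card K % 4 = 1) (x : K) : ∑ z : K, ch (x - z) = 0 := by
  have h7 := Equiv.sum_comp (Equiv.subLeft x) (fun w : K => ch w)
  simp only [Equiv.subLeft_apply] at h7
  rw [h7, ch_sum h4]

theorem ch_corr (h4 : Fintype.card K % 4 = 1) (x y : K) :
    ∑ z, ch (x - z) * ch (y - z) = (if x = y then (Fintype.card K : ℤ) else 0) - 1 :=
  Pool.Agent.TH432.Had.sum_chi h4 x y

/-- the nonzero squares -/
abbrev Sq (K : Type) [Field K] [Fintype K] [DecidableEq K] := {x : K // ch x = 1}

theorem sq_ne (z : Sq K) : (z : K) ≠ 0 := ch_ne (by rw [z.2]; norm_num)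

theorem sum_sq (f : K → ℤ) : ∑ z : Sq K, f z = ∑ z : K, if ch z = 1 then f z else 0 := by
  rw [← Finset.sum_filter]
  exact (Finset.sum_subtype (Finset.univ.filter fun x : K => ch x = 1) (by simp) f).symm

variable {c : K}

theorem split (hc : ch c = -1) (f : K → ℤ) :
    ∑ z : Sq K, f z + ∑ z : Sq K, f (c / z) = ∑ z, f z - f 0 := by
  have hc0 : c ≠ 0 := ch_ne (by rw [hc]; norm_num)
  have hinv : Function.Involutive (fun z : K => c / z) := by
    intro z
    by_cases hz : z = 0
    · simp [hz]
    · change c / (c / z) = z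
      field_simp
  have h1 : ∑ z : Sq K, f (c / z) = ∑ z : K, if ch z = -1 then f z else 0 := by
    rw [sum_sq (fun z => f (c / z))]
    rw [← Equiv.sum_comp hinv.toPerm (fun z : K => if ch z = -1 then f z else 0)]
    refine Finset.sum_congr rfl fun z _ => ?_
    change (if ch z = 1 then f (c / z) else 0) = if ch (c / z) = -1 then f (c / z) else 0
    by_cases hz : z = 0
    · subst hz
      rw [div_zero, ch_zero, if_neg (by norm_num), if_neg (by norm_num)]
    · have h2 : ch (c / z) * ch z = -1 := by
        rw [← ch_mul, div_mul_cancel₀ _ hz, hc]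
      rcases ch_sg hz with h3 | h3
      · rw [h3, mul_one] at h2
        rw [if_pos h3, if_pos h2]
      · have h4 : ch (c / z) = 1 := by rw [h3] at h2; linarith
        rw [if_neg (by rw [h3]; norm_num), if_neg (by rw [h4]; norm_num)]
  rw [h1, sum_sq, ← Finset.sum_add_distrib]
  have h2 : ∀ z : K, ((if ch z = 1 then f z else 0) + if ch z = -1 then f z else 0) =
      f z - if z = 0 then f 0 else 0 := by
    intro z
    by_cases hz : z = 0
    · subst hz
      rw [ch_zero, if_neg (by norm_num), if_neg (by norm_num), if_pos rfl]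
      ring
    · rw [if_neg hz]
      rcases ch_sg hz with h3 | h3 <;> rw [h3] <;> norm_num
  rw [Finset.sum_congr rfl fun z _ => h2 z, Finset.sum_sub_distrib]
  simp

theorem sq_div (x : K) (z : Sq K) : ch (x - c / z) = ch (x * z - c) := by
  have hz := sq_ne z
  have h1 : x * z - c = (x - c / z) * z := by field_simp
  rw [h1, ch_mul, z.2, mul_one]

theorem T1 (h4 : Fintype.card K % 4 = 1) (hc : ch c = -1) (x : Sq K) :
    ∑ z : Sq K, ch ((x : K) - z) + ∑ z : Sq K, ch ((x : K) * z - c) = -1 := by
  have h := split hc (fun z => ch ((x : K) - z))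
  simp only [sq_div, sub_zero] at h
  rw [h, ch_sum' h4, x.2]
  norm_num

theorem T2 (h4 : Fintype.card K % 4 = 1) (hc : ch c = -1) (x y : Sq K) :
    ∑ z : Sq K, ch ((x : K) - z) * ch ((y : K) - z) +
      ∑ z : Sq K, ch ((x : K) * z - c) * ch ((y : K) * z - c) =
      (if x = y then (Fintype.card K : ℤ) else 0) - 2 := by
  have h := split hc (fun z => ch ((x : K) - z) * ch ((y : K) - z))
  simp only [sq_div, sub_zero] at h
  rw [h, ch_corr h4, x.2, y.2]
  have : ((x : K) = y) ↔ x = y := Subtype.ext_iff.symm
  simp only [this]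
  ring

theorem T3 (h4 : Fintype.card K % 4 = 1) (hc : ch c = -1) (x : Sq K) :
    ∑ z : Sq K, ch ((x : K) * z - c) = 1 + ∑ z : Sq K, ch ((x : K) - z) := by
  have h := split hc (fun z => ch (0 - z) * ch ((x : K) - z))
  have h1 : ∀ z : Sq K, ch (0 - (z : K)) * ch ((x : K) - z) = ch ((x : K) - z) := by
    intro z
    rw [zero_sub, ch_neg h4, z.2, one_mul]
  have h2 : ∀ z : Sq K, ch (0 - c / (z : K)) * ch ((x : K) - c / z) = - ch ((x : K) * z - c) := by
    intro z
    rw [sq_div, sq_div, zero_mul, zero_sub, ch_neg h4, hc]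
    ring
  rw [Finset.sum_congr rfl fun z _ => h1 z, Finset.sum_congr rfl fun z _ => h2 z,
    Finset.sum_neg_distrib, ch_corr h4, if_neg (sq_ne x).symm] at h
  simp only [sub_zero, ch_zero, zero_mul] at h
  linarith

theorem T4 (h4 : Fintype.card K % 4 = 1) (hc : ch c = -1) (x y : Sq K) :
    ∑ z : Sq K, ch ((x : K) - z) * ch ((y : K) * z - c) =
      ∑ z : Sq K, ch ((x : K) * z - c) * ch ((y : K) - z) := by
  have h := split hc (fun z => ch ((x : K) - z) * ch ((y : K) * z - c))
  have hy := sq_ne y
  have h2 : ∀ z : Sq K, ch ((x : K) - c / z) * ch ((y : K) * (c / z) - c) =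
      - (ch ((x : K) * z - c) * ch ((y : K) - z)) := by
    intro z
    have hz := sq_ne z
    have h3 : ((y : K) * (c / z) - c) * z = c * ((y : K) - z) := by field_simp
    have h5 : ch ((y : K) * (c / z) - c) = - ch ((y : K) - z) := by
      have h6 := congrArg ch h3
      rw [ch_mul, ch_mul, z.2, hc, mul_one] at h6
      rw [h6]; ring
    rw [sq_div, h5]
    ring
  have h3 : ∀ z : K, ch ((x : K) - z) * ch ((y : K) * z - c) =
      ch ((x : K) - z) * ch (c / y - z) := by
    intro z
    have h5 : (y : K) * z - c = - ((c / y - z) * y) := by field_simp; ring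
    rw [h5, ch_neg h4, ch_mul, y.2, mul_one]
  have h6 : (x : K) ≠ c / y := by
    intro h7
    have h8 := congrArg (fun t : K => ch (t * (y : K))) h7
    simp only [div_mul_cancel₀ _ hy, ch_mul, x.2, y.2, hc] at h8
    norm_num at h8
  rw [Finset.sum_congr rfl fun z _ => h2 z, Finset.sum_neg_distrib,
    Finset.sum_congr rfl fun z _ => h3 z, ch_corr h4, if_neg h6] at h
  simp only [sub_zero, mul_zero, zero_sub, ch_neg h4, hc, x.2] at h
  linarith

theorem card_sq (hc : ch c = -1) : 2 * (Fintype.card (Sq K) : ℤ) = (Fintype.card K : ℤ) - 1 := by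
  have h := split hc (fun _ => 1)
  simp only [Finset.sum_const, card_univ, nsmul_eq_mul, mul_one] at h
  linarith

/-- the matrix `A` -/
def pA (K : Type) [Field K] [Fintype K] [DecidableEq K] : Matrix (Option (Sq K)) (Option (Sq K)) ℤ
  | none, none => 0
  | none, some _ => 1
  | some _, none => 1
  | some x, some y => ch ((x : K) - y)

/-- the matrix `B` -/
def pB (c : K) : Matrix (Option (Sq K)) (Option (Sq K)) ℤ
  | none, none => 1
  | none, some _ => 1
  | some _, none => 1
  | some x, some y => ch ((x : K) * y - c)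

theorem pAB (h4 : Fintype.card K % 4 = 1) (hc : ch c = -1) (x y : Option (Sq K)) :
    (pA K * (pA K)ᵀ) x y + (pB c * (pB c)ᵀ) x y =
      if x = y then 2 * (Fintype.card (Option (Sq K)) : ℤ) - 1 else 0 := by
  rw [Matrix.mul_apply, Matrix.mul_apply, Fintype.sum_option, Fintype.sum_option,
    Fintype.card_option]
  have hcard := card_sq hc
  push_cast
  rcases x with _ | x <;> rcases y with _ | y
  · simp only [transpose_apply, pA, pB, mul_one, Finset.sum_const, card_univ, nsmul_eq_mul,
      if_true]
    linarith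
  · have h := T1 h4 hc y
    simp only [transpose_apply, pA, pB, mul_one, one_mul, reduceCtorEq, if_false]
    linarith
  · have h := T1 h4 hc x
    simp only [transpose_apply, pA, pB, mul_one, one_mul, reduceCtorEq, if_false]
    linarith
  · have h := T2 h4 hc x y
    simp only [transpose_apply, pA, pB, mul_one, Option.some.injEq]
    have h5 : (if x = y then 2 * ((Fintype.card (Sq K) : ℤ) + 1) - 1 else 0) =
        if x = y then (Fintype.card K : ℤ) else 0 := by
      split_ifs
      · linarith
      · rfl
    rw [h5]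
    linarith

theorem pcm (h4 : Fintype.card K % 4 = 1) (hc : ch c = -1) (x y : Option (Sq K)) :
    (pA K * (pB c)ᵀ) x y = (pB c * (pA K)ᵀ) x y := by
  rw [Matrix.mul_apply, Matrix.mul_apply, Fintype.sum_option, Fintype.sum_option]
  rcases x with _ | x <;> rcases y with _ | y
  · simp [pA, pB]
  · have h := T3 h4 hc y
    simp only [transpose_apply, pA, pB, mul_one, one_mul]
    linarith
  · have h := T3 h4 hc x
    simp only [transpose_apply, pA, pB, mul_one, one_mul]
    linarith
  · have h := T4 h4 hc x y
    simp only [transpose_apply, pA, pB, mul_one]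
    linarith

/-- the main construction -/
theorem yamada (h4 : Fintype.card K % 4 = 1) {v : ℕ} (hv : 2 * v = Fintype.card K + 1)
    {S : Fin v → Fin v → ℤ} (hS : IsCore S) : HasHad (4 * (Fintype.card K + 2)) := by
  obtain ⟨c, hc'⟩ := FiniteField.exists_nonsquare (Pool.Agent.TH432.Had.char_ne_two h4)
  have hc : ch c = -1 := quadraticChar_neg_one_iff_not_isSquare.2 hc'
  have hcard : Fintype.card (Option (Sq K)) = v := by
    have h1 := card_sq hc
    rw [Fintype.card_option]
    omega
  let e : Option (Sq K) ≃ Fin v := Fintype.equivFinOfCardEq hcard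
  have D : Dat (pA K) (pB c) (Matrix.of fun x y => S (e x) (e y)) :=
    { Ad := by
        rintro (_ | x)
        · rfl
        · change ch ((x : K) - x) = 0
          rw [sub_self, ch_zero]
      As := by
        rintro (_ | x) (_ | y) hxy
        · exact absurd rfl hxy
        · left; rfl
        · left; rfl
        · refine ch_sg ?_
          rw [sub_ne_zero]
          exact fun h => hxy (congrArg some (Subtype.ext h))
      Bs := by
        rintro (_ | x) (_ | y)
        · left; rfl
        · left; rfl
        · left; rfl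
        · refine ch_sg ?_
          intro h
          have h1 : (x : K) * y = c := sub_eq_zero.1 h
          have h2 := congrArg ch h1
          rw [ch_mul, x.2, y.2, hc] at h2
          norm_num at h2
      At := by
        ext x y
        rw [transpose_apply]
        rcases x with _ | x <;> rcases y with _ | y
        · rfl
        · rfl
        · rfl
        · exact ch_sub h4 _ _
      Bt := by
        ext x y
        rw [transpose_apply]
        rcases x with _ | x <;> rcases y with _ | y
        · rfl
        · rfl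
        · rfl
        · change ch ((y : K) * x - c) = ch ((x : K) * y - c)
          rw [mul_comm]
      AB := pAB h4 hc
      cm := pcm h4 hc
      Sd := fun x => hS.diag _
      Ss := fun x y hxy => hS.sign _ _ fun h => hxy (e.injective h)
      St := by
        ext x y
        rw [transpose_apply, Matrix.neg_apply]
        exact hS.skew _ _
      Sr := by
        intro x
        change ∑ y, S (e x) (e y) = 0
        rw [Equiv.sum_comp e (fun y => S (e x) y)]
        exact hS.row _
      SS := by
        intro x y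
        rw [Matrix.mul_apply]
        change ∑ z, S (e x) (e z) * S (e y) (e z) = _
        rw [Equiv.sum_comp e (fun z => S (e x) z * S (e y) z), hS.mul, hcard]
        by_cases hxy : x = y
        · rw [if_pos hxy, if_pos (congrArg e hxy)]
        · rw [if_neg hxy, if_neg fun h => hxy (e.injective h)] }
  have h := D.hasHad
  rw [hcard] at h
  rw [hv] at h
  exact h

end paley

open Pool.Agent.W851.Had (tow)

/-- Hadamard matrices of order `4 (q + 2)` -/
theorem main : ∃ C : ℕ, 2 ≤ C ∧ ∀ n q t : ℕ, IsPrimePow q → q ≤ tow n → 2 ^ C ^ (n + 1) ≤ t →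
    2 ^ (t + 1) ∣ q + 3 → HasHad (4 * (q + 2)) := by
  obtain ⟨C, hC, h⟩ := main_skew
  refine ⟨C, hC, fun n q t hq hqn ht hd => ?_⟩
  obtain ⟨m, hm⟩ := hd
  have h1t : 1 ≤ t := le_trans Nat.one_le_two_pow ht
  obtain ⟨s, rfl⟩ : ∃ s, t = s + 1 := ⟨t - 1, by omega⟩
  have hq4 : q % 4 = 1 := by
    have h5 : 2 ^ (s + 1 + 1) = 4 * 2 ^ s := by ring
    rw [h5, mul_assoc] at hm
    omega
  set v := (q + 1) / 2 with hv
  have hv2 : 2 * v = q + 1 := by omega
  have hdv : 2 ^ (s + 1) ∣ v + 1 := by
    refine ⟨m, ?_⟩
    have h5 : 2 ^ (s + 1 + 1) = 2 * 2 ^ (s + 1) := by ring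
    rw [h5, mul_assoc] at hm
    omega
  obtain ⟨S, hS⟩ := core_of (v := v) h (by omega) ht hdv
  obtain ⟨p, k, hp, hk, rfl⟩ := hq
  have hp' : p.Prime := hp.nat_prime
  have : Fact p.Prime := ⟨hp'⟩
  have : Fintype (GaloisField p k) := Fintype.ofFinite _
  have hcard : Fintype.card (GaloisField p k) = p ^ k := by
    rw [← Nat.card_eq_fintype_card, GaloisField.card p k (by omega)]
  classical
  have h6 := yamada (K := GaloisField p k) (by rw [hcard]; exact hq4) (v := v)
    (by rw [hcard]; exact hv2) hS
  rwa [hcard] at h6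

end Pool.Agent.V11150.HadC
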