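import Mathlib

/-!
# Countability of the data of Lenstra's problem
-/

set_option autoImplicit false

namespace Pool.Agent.V11150.LenC

open NumberField

instance countable_closure : Countable (AlgebraicClosure ℚ) := by
  have h := Algebraic.countable ℚ (AlgebraicClosure ℚ)
  have h1 : (Set.univ : Set (AlgebraicClosure ℚ)).Countable :=
    h.mono (fun x _ => by
      have h2 := (AlgebraicClosure.isAlgebraic ℚ).isAlgebraic x
      show IsAlgebraic ℚ x
      obtain ⟨q, hq, hq2⟩ := h2
      refine ⟨q, hq, ?_⟩
      rw [← hq2]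
      simp only [Polynomial.aeval_def, Polynomial.eval₂_eq_sum]
      congr! 3)
  exact Set.countable_univ_iff.1 h1

/-- the finite Galois extensions of `ℚ` in the algebraic closure -/
def FIdx : Type := {F : IntermediateField ℚ (AlgebraicClosure ℚ) // NumberField F ∧ IsGalois ℚ F}

lemma fg_of (F : FIdx) : ∃ S : Finset (AlgebraicClosure ℚ),
    IntermediateField.adjoin ℚ (S : Set (AlgebraicClosure ℚ)) = F.1 := by
  have := F.2.1
  have h : F.1.FG := by
    apply IntermediateField.fg_of_fg_toSubalgebra
    apply Subalgebra.fg_of_fg_toSubmodule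
    rw [Submodule.fg_iff_finiteDimensional]
    exact (inferInstance : FiniteDimensional ℚ F.1)
  exact h

instance countable_FIdx : Countable FIdx := by
  choose f hf using fg_of
  refine Function.Injective.countable (f := f) ?_
  intro F G h
  apply Subtype.ext
  rw [← hf F, ← hf G, h]

instance countable_units : Countable ℚˣ :=
  Function.Injective.countable (f := fun u : ℚˣ => (u : ℚ)) (fun _ _ h => Units.ext h)

instance countable_W : Countable {W : Subgroup ℚˣ // W.FG} := by
  have h : ∀ W : {W : Subgroup ℚˣ // W.FG}, ∃ S : Finset ℚˣ, Subgroup.closure (S : Set ℚˣ) = W.1 :=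
    fun W => W.2
  choose f hf using h
  refine Function.Injective.countable (f := f) ?_
  intro F G h
  apply Subtype.ext
  rw [← hf F, ← hf G, h]

instance countable_C (F : FIdx) : Countable (Set (F.1 ≃ₐ[ℚ] F.1)) := by
  have := F.2.1
  have : Finite (F.1 ≃ₐ[ℚ] F.1) := inferInstance
  have : Finite (Set (F.1 ≃ₐ[ℚ] F.1)) := inferInstance
  infer_instance

/-- the data -/
abbrev Idx : Type :=
  Σ F : FIdx, Set (F.1 ≃ₐ[ℚ] F.1) × ({W : Subgroup ℚˣ // W.FG} × (ℕ × (ℚˣ × (ℕ × ℕ))))

instance countable_Idx : Countable Idx := by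
  unfold Idx
  infer_instance

end Pool.Agent.V11150.LenC
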