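import Pool.Agent.V11150.LenW
import Pool.Agent.Results.MP_48b1c3_nt.PrimeMultiples

/-!
# Lenstra's law for all primes near the members of a sequence

Adapted from the hand-in `MP_991e92_nt.PrimeWindows` (helper109).
-/

set_option autoImplicit false

namespace Pool.Agent.V11150.LenP

open NumberField Filter Topology
open Pool.Agent.Results.MP_48b1c3_nt.PrimeMultiples (S δ)
open Pool.Agent.V11150.LenC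
open Pool.Agent.V11150.LenW (grp Engine)

/-- Lenstra's law, for all data, for the primes `q` with `near n q` -/
def LawP (near : ℕ → ℕ → Prop) (C a : ℝ) : Prop :=
  ∀ (F : IntermediateField ℚ (AlgebraicClosure ℚ)) [NumberField F] [IsGalois ℚ F]
    (C' : Set (F ≃ₐ[ℚ] F)) (W₀ : Subgroup ℚˣ) (k : ℕ) (D : ℚˣ) (r : ℕ),
    (∀ σ ∈ C', ∀ τ : F ≃ₐ[ℚ] F, τ * σ * τ⁻¹ ∈ C') → W₀.FG → 0 < k →
    0 < r → (∀ l : ℕ, l.Prime → l ∣ r → l ^ (k.factorization l + 1) ∣ r) →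
    ∀ ε : ℝ, 0 < ε → ∃ n₀ : ℕ, ∀ n : ℕ, n₀ ≤ n → ∀ q : ℕ, q.Prime → near n q → ∀ x : ℕ,
      (q : ℝ) ^ C ≤ x → (x : ℝ) ≤ Real.exp ((q : ℝ) ^ a) →
      |(S F C' (grp W₀ D q r) k x : ℝ) - δ F C' (grp W₀ D q r) k * (Nat.primeCounting x : ℝ)| ≤
        ε * (Nat.primeCounting x : ℝ)

lemma one {s : ℝ} {d : ENNReal} {A : Set ℝ} {near : ℝ → ℕ → ℕ → Prop} (he : Engine s d A near)
    {C₀ C a : ℝ} (hC₀ : 0 < C₀) (hC : C₀ < C)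
    (ha : 0 < a) (G : ℕ → ℕ → ℝ) (b : ℕ → ℝ) (ε : ℝ) (bad : ℕ → Finset ℕ) (N₀ : ℕ)
    (hbad : ∀ N : ℕ, N₀ ≤ N → ((bad N).card : ℝ) ≤ (N : ℝ) ^ s)
    (hmem : ∀ N q : ℕ, q.Prime → q ≤ N → (∃ x : ℕ, ((N : ℝ) ^ C₀ ≤ x ∧
      (x : ℝ) ≤ Real.exp ((N : ℝ) ^ a)) ∧
      ε * (Nat.primeCounting x : ℝ) < |G q x - b q * (Nat.primeCounting x : ℝ)|) → q ∈ bad N) :
    ∃ E : Set ℝ, dimH E ≤ d ∧ ∀ α ∈ A, α ∉ E →
      ∃ n0 : ℕ, ∀ n : ℕ, n0 ≤ n → ∀ q : ℕ, q.Prime → near α n q →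
        ∀ x : ℕ, (q : ℝ) ^ C ≤ x → (x : ℝ) ≤ Real.exp ((q : ℝ) ^ a) →
        |G q x - b q * (Nat.primeCounting x : ℝ)| ≤ ε * (Nat.primeCounting x : ℝ) := by
  set T : Set ℕ := {q | q.Prime ∧ ∃ x : ℕ, (q : ℝ) ^ C ≤ x ∧
    (x : ℝ) ≤ Real.exp ((q : ℝ) ^ a) ∧
    ε * (Nat.primeCounting x : ℝ) < |G q x - b q * (Nat.primeCounting x : ℝ)|} with hTdef
  obtain ⟨E, hE, h⟩ := he T bad N₀ hbad ⌈C₀ / (C - C₀)⌉₊ (by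
      rintro i hi q ⟨hq, x, hx1, hx2, hx3⟩ hqi hqi2
      refine hmem _ q hq hqi2 ⟨x, ⟨?_, ?_⟩, hx3⟩
      · exact (Pool.Agent.V11109.WIN.pow_block hC₀ hC
          ((Nat.le_ceil _).trans (by exact_mod_cast hi)) hqi).trans hx1
      · refine hx2.trans (Real.exp_le_exp.2 ?_)
        have h4 : (q : ℝ) ≤ ((2 ^ (i + 1) : ℕ) : ℝ) := by exact_mod_cast hqi2
        exact Real.rpow_le_rpow (Nat.cast_nonneg _) h4 ha.le)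
  refine ⟨E, hE, fun α hα hαE => ?_⟩
  obtain ⟨n0, hn0⟩ := h α hα hαE
  refine ⟨n0, fun n hn q hq hm x hx1 hx2 => ?_⟩
  by_contra hcon
  push Not at hcon
  exact hn0 n hn q ⟨hq, x, hx1, hx2, hcon⟩ hm

theorem law_of_engine {a s C : ℝ} (ha : 0 < a) (hs : 1 / 2 + 2 * a < s) (hs1 : s < 1) (hC : 1 < C)
    (hCs : s * (1 - s) < C * (2 * s - 1)) (d : ENNReal) (A : Set ℝ) (near : ℝ → ℕ → ℕ → Prop)
    (he : Engine s d A near) :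
    ∃ E : Set ℝ, dimH E ≤ d ∧ ∀ α ∈ A, α ∉ E → LawP (near α) C a := by
  classical
  have h2s : 0 < 2 * s - 1 := by linarith
  -- a smaller exponent
  obtain ⟨C₀, hC1, hC0C, hC0s⟩ : ∃ C₀ : ℝ, 1 < C₀ ∧ C₀ < C ∧ s * (1 - s) < C₀ * (2 * s - 1) := by
    have h1 : s * (1 - s) / (2 * s - 1) < C := by
      rw [div_lt_iff₀ h2s]
      exact hCs
    obtain ⟨C0, h2, h3⟩ := exists_between (max_lt hC h1)
    refine ⟨C0, lt_of_le_of_lt (le_max_left _ _) h2, h3, ?_⟩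
    have h4 := lt_of_le_of_lt (le_max_right _ _) h2
    rwa [div_lt_iff₀ h2s] at h4
  have hfirst : ∀ e : Idx, ∃ E : Set ℝ, dimH E ≤ d ∧ ∀ α ∈ A, α ∉ E →
      (∀ σ ∈ e.2.1, ∀ τ : e.1.1 ≃ₐ[ℚ] e.1.1, τ * σ * τ⁻¹ ∈ e.2.1) → 0 < e.2.2.2.1 →
      0 < e.2.2.2.2.2.1 →
      (∀ l : ℕ, l.Prime → l ∣ e.2.2.2.2.2.1 → l ^ (e.2.2.2.1.factorization l + 1) ∣ e.2.2.2.2.2.1) →
      ∃ n0 : ℕ, ∀ n : ℕ, n0 ≤ n → ∀ q : ℕ, q.Prime → near α n q →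
        ∀ x : ℕ, (q : ℝ) ^ C ≤ x → (x : ℝ) ≤ Real.exp ((q : ℝ) ^ a) →
        |(@S e.1.1 e.1.2.1 e.2.1 (grp e.2.2.1.1 e.2.2.2.2.1 q e.2.2.2.2.2.1) e.2.2.2.1 x : ℝ) -
          @δ e.1.1 e.1.2.1 e.2.1 (grp e.2.2.1.1 e.2.2.2.2.1 q e.2.2.2.2.2.1) e.2.2.2.1 *
            (Nat.primeCounting x : ℝ)| ≤
            (1 / ((e.2.2.2.2.2.2 : ℝ) + 1)) * (Nat.primeCounting x : ℝ) := by
    rintro ⟨⟨F, hF1, hF2⟩, C', ⟨W₀, hW₀⟩, k, D, r, j⟩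
    dsimp only
    by_cases hgood : (∀ σ ∈ C', ∀ τ : F ≃ₐ[ℚ] F, τ * σ * τ⁻¹ ∈ C') ∧ 0 < k ∧ 0 < r ∧
        (∀ l : ℕ, l.Prime → l ∣ r → l ^ (k.factorization l + 1) ∣ r)
    swap
    · refine ⟨∅, by rw [dimH_empty]; exact zero_le, fun α _ _ h1 h2 h3 h4 => ?_⟩
      exact absurd ⟨h1, h2, h3, h4⟩ hgood
    obtain ⟨g1, g2, g3, g4⟩ := hgood
    obtain ⟨N₀, hN₀⟩ := Pool.Agent.Results.MP_48b1c3_nt.PrimeMultiples.result a s C₀ ha hs hs1 hC1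
      hC0s F C' W₀ k D r g1 hW₀ g2 g3 g4 (1 / ((j : ℝ) + 1)) (by positivity)
    obtain ⟨E, hE, h⟩ := one he (by linarith) hC0C ha
      (fun q x => (S F C' (grp W₀ D q r) k x : ℝ)) (fun q => δ F C' (grp W₀ D q r) k)
      (1 / ((j : ℝ) + 1)) _ N₀ (fun y hy => hN₀ y hy 1 (le_refl 1) (by
        rw [Nat.cast_one, Real.log_one]
        exact Real.sqrt_nonneg _))
      (fun N q hq hqN hx => Finset.mem_filter.2 ⟨Finset.mem_range.2 (by omega), hq, by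
        rw [one_mul]
        exact hx⟩)
    exact ⟨E, hE, fun α hα hαE _ _ _ _ => h α hα hαE⟩
  choose E₁ hE₁ h₁ using hfirst
  refine ⟨⋃ e, E₁ e, ?_, fun α hα hαE => ?_⟩
  · rw [dimH_iUnion]
    exact iSup_le hE₁
  intro F hF1 hF2 C' W₀ k D r g1 hW₀ g2 g3 g4 ε hε
  obtain ⟨j, hj⟩ := exists_nat_one_div_lt hε
  obtain ⟨n0, hn0⟩ := h₁ ⟨⟨F, hF1, hF2⟩, C', ⟨W₀, hW₀⟩, k, D, r, j⟩ α hα
    (fun h => hαE (Set.mem_iUnion.2 ⟨_, h⟩)) g1 g2 g3 g4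
  refine ⟨n0, fun n hn q hq hm x hx1 hx2 => ?_⟩
  refine (hn0 n hn q hq hm x hx1 hx2).trans ?_
  exact mul_le_mul_of_nonneg_right hj.le (Nat.cast_nonneg _)

theorem windows {a s C : ℝ} (ha : 0 < a) (hs : 1 / 2 + 2 * a < s) (hs1 : s < 1) (hC : 1 < C)
    (hCs : s * (1 - s) < C * (2 * s - 1)) (v : ℕ → ℝ) (τ θ : ℝ) (hpos : ∀ n, 1 ≤ v n) (hτ : 0 ≤ τ)
    (hv : Pool.Agent.Y854.GM.ExpLe v τ) (hθ1 : θ < 1) :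
    ∃ E : Set ℝ, dimH E ≤ ENNReal.ofReal ((s + τ) / (1 - θ)) ∧
      ∀ α : ℝ, 0 < α → α ∉ E → LawP (fun n m => |(m : ℝ) - α * v n| ≤ (v n) ^ θ) C a := by
  refine law_of_engine ha hs hs1 hC hCs _ {α | 0 < α}
    (fun α n m => |(m : ℝ) - α * v n| ≤ (v n) ^ θ) ?_
  intro T bad N₀ hbad i₀ hT
  obtain ⟨E, hE, h1⟩ := Pool.Agent.V11109.WIN.windows_of_bad hpos hτ hv (by linarith) hθ1 T bad N₀
    hbad i₀ hT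
  refine ⟨E, hE, fun α hα hαE => ?_⟩
  obtain ⟨n0, hn0⟩ := h1 α hα hαE
  exact ⟨n0, fun n hn m hm => not_le.2 (hn0 n hn m hm)⟩

theorem powers {a s C : ℝ} (ha : 0 < a) (hs : 1 / 2 + 2 * a < s) (hs1 : s < 1) (hC : 1 < C)
    (hCs : s * (1 - s) < C * (2 * s - 1)) (ν : ℕ → ℝ) (θ β : ℝ)
    (hν : Tendsto (fun n : ℕ => ν n / Real.log n) atTop atTop) (hβ : 0 < β) (hθ1 : θ < 1) :
    ∃ E : Set ℝ, dimH E ≤ ENNReal.ofReal (s / (1 - θ)) ∧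
      ∀ z : ℝ, 1 < z → z ∉ E → LawP (fun n m => |(m : ℝ) - β * z ^ ν n| ≤ z ^ (θ * ν n)) C a := by
  refine law_of_engine ha hs hs1 hC hCs _ {z | 1 < z}
    (fun z n m => |(m : ℝ) - β * z ^ ν n| ≤ z ^ (θ * ν n)) ?_
  intro T bad N₀ hbad i₀ hT
  obtain ⟨E, hE, h1⟩ := Pool.Agent.V11001.KM.powers_of_bad hν hβ (by linarith) hθ1 T bad N₀
    hbad i₀ hT
  refine ⟨E, hE, fun z hz hzE => ?_⟩
  obtain ⟨n0, hn0⟩ := h1 z hz hzE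
  exact ⟨n0, fun n hn m hm => not_le.2 (hn0 n hn m hm)⟩

end Pool.Agent.V11150.LenP
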