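import Pool.Agent.Results.MP_48b1c3_nt.FewExceptions
import Pool.Agent.V11150.LenC
import Pool.Agent.V11109.WIN.Dyad
import Pool.Agent.V11001.KM.Nat

/-!
# Lenstra's law for all integers near the members of a sequence

The lemmas `one`, `pos_of_window` and the arrangement of the proofs are adapted from the hand-ins
`MP_991e92_nt.SequenceWindows` (helper109) and `MP_991e92_nt.IntegersNearPowers` (helper1).
-/

set_option autoImplicit false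

namespace Pool.Agent.V11150.LenW

open NumberField Filter Topology
open Pool.Agent.Results.MP_48b1c3_nt.FewExceptions (S δ)
open Pool.Agent.V11150.LenC

/-- the group `⟨W₀, D m ^ r⟩` -/
def grp (W₀ : Subgroup ℚˣ) (D : ℚˣ) (m r : ℕ) : Subgroup ℚˣ :=
  W₀ ⊔ Subgroup.closure {w : ℚˣ | (w : ℚ) = (D : ℚ) * (m : ℚ) ^ r}

/-- Lenstra's law, for all data, for the integers `m` with `near n m` -/
def Law (near : ℕ → ℕ → Prop) (C κ : ℝ) : Prop :=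
  ∀ (F : IntermediateField ℚ (AlgebraicClosure ℚ)) [NumberField F] [IsGalois ℚ F]
    (C' : Set (F ≃ₐ[ℚ] F)) (W₀ : Subgroup ℚˣ) (k : ℕ) (D : ℚˣ) (r : ℕ),
    (∀ σ ∈ C', ∀ τ : F ≃ₐ[ℚ] F, τ * σ * τ⁻¹ ∈ C') → W₀.FG → 0 < k →
    0 < r → (∀ l : ℕ, l.Prime → l ∣ r → l ^ (k.factorization l + 1) ∣ r) →
    ∀ ε : ℝ, 0 < ε → ∃ n₀ : ℕ, ∀ n : ℕ, n₀ ≤ n → ∀ m : ℕ, near n m → ∀ x : ℕ,
      (m : ℝ) ^ C ≤ x → (x : ℝ) ≤ Real.exp ((Real.log m) ^ (1 + κ)) →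
      |(S F C' (grp W₀ D m r) k x : ℝ) - δ F C' (grp W₀ D m r) k * (Nat.primeCounting x : ℝ)| ≤
        ε * (Nat.primeCounting x : ℝ)

/-- an engine which excludes thin sets of integers -/
def Engine (s : ℝ) (d : ENNReal) (A : Set ℝ) (near : ℝ → ℕ → ℕ → Prop) : Prop :=
  ∀ (T : Set ℕ) (bad : ℕ → Finset ℕ) (N₀ : ℕ), (∀ N : ℕ, N₀ ≤ N → ((bad N).card : ℝ) ≤ (N : ℝ) ^ s) →
    ∀ i₀ : ℕ, (∀ i : ℕ, i₀ ≤ i → ∀ m ∈ T, 2 ^ i < m → m ≤ 2 ^ (i + 1) → m ∈ bad (2 ^ (i + 1))) →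
    ∃ E : Set ℝ, dimH E ≤ d ∧ ∀ α ∈ A, α ∉ E → ∃ n0 : ℕ, ∀ n : ℕ, n0 ≤ n → ∀ m ∈ T, ¬ near α n m

lemma one {s : ℝ} {d : ENNReal} {A : Set ℝ} {near : ℝ → ℕ → ℕ → Prop} (he : Engine s d A near)
    {C₀ C κ κ' : ℝ} (hC₀ : 0 < C₀) (hC : C₀ < C)
    (hκ : 0 < κ) (hκ' : κ ≤ κ') (G : ℕ → ℕ → ℝ) (a : ℕ → ℝ) (ε : ℝ) (bad : ℕ → Finset ℕ) (N₀ : ℕ)
    (hbad : ∀ N : ℕ, N₀ ≤ N → ((bad N).card : ℝ) ≤ (N : ℝ) ^ s)
    (hmem : ∀ N m : ℕ, 1 ≤ m → m ≤ N → (∃ x : ℕ, ((N : ℝ) ^ C₀ ≤ x ∧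
      (x : ℝ) ≤ Real.exp ((Real.log N) ^ (1 + κ'))) ∧
      ε * (Nat.primeCounting x : ℝ) < |G m x - a m * (Nat.primeCounting x : ℝ)|) → m ∈ bad N) :
    ∃ E : Set ℝ, dimH E ≤ d ∧ ∀ α ∈ A, α ∉ E →
      ∃ n0 : ℕ, ∀ n : ℕ, n0 ≤ n → ∀ m : ℕ, 1 ≤ m → near α n m →
        ∀ x : ℕ, (m : ℝ) ^ C ≤ x → (x : ℝ) ≤ Real.exp ((Real.log m) ^ (1 + κ)) →
        |G m x - a m * (Nat.primeCounting x : ℝ)| ≤ ε * (Nat.primeCounting x : ℝ) := by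
  set T : Set ℕ := {m | 1 ≤ m ∧ ∃ x : ℕ, (m : ℝ) ^ C ≤ x ∧
    (x : ℝ) ≤ Real.exp ((Real.log m) ^ (1 + κ)) ∧
    ε * (Nat.primeCounting x : ℝ) < |G m x - a m * (Nat.primeCounting x : ℝ)|} with hTdef
  obtain ⟨E, hE, h⟩ := he T bad N₀ hbad (max 2 ⌈C₀ / (C - C₀)⌉₊) (by
      rintro i hi m ⟨hm1, x, hx1, hx2, hx3⟩ hmi hmi2
      have hi2 : ⌈C₀ / (C - C₀)⌉₊ ≤ i := (le_max_right _ _).trans hi
      have hi3 : 2 ≤ i := (le_max_left _ _).trans hi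
      refine hmem _ m hm1 hmi2 ⟨x, ⟨?_, ?_⟩, hx3⟩
      · exact (Pool.Agent.V11109.WIN.pow_block hC₀ hC
          ((Nat.le_ceil _).trans (by exact_mod_cast hi2)) hmi).trans hx1
      · refine hx2.trans (Real.exp_le_exp.2 ?_)
        have h0 : 2 ^ 2 ≤ 2 ^ i := Nat.pow_le_pow_right (by norm_num) hi3
        have h1 : (3 : ℝ) ≤ m := by exact_mod_cast (by omega : 3 ≤ m)
        have h2 : (m : ℝ) ≤ ((2 ^ (i + 1) : ℕ) : ℝ) := by exact_mod_cast hmi2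
        have h3 : Real.log m ≤ Real.log ((2 ^ (i + 1) : ℕ) : ℝ) := Real.log_le_log (by linarith) h2
        have h4 : 1 ≤ Real.log m := by
          rw [Real.le_log_iff_exp_le (by linarith)]
          linarith [Real.exp_one_lt_d9]
        calc (Real.log m) ^ (1 + κ) ≤ (Real.log m) ^ (1 + κ') :=
              Real.rpow_le_rpow_of_exponent_le h4 (by linarith)
          _ ≤ _ := Real.rpow_le_rpow (by linarith) h3 (by linarith))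
  refine ⟨E, hE, fun α hα hαE => ?_⟩
  obtain ⟨n0, hn0⟩ := h α hα hαE
  refine ⟨n0, fun n hn m hm1 hm x hx1 hx2 => ?_⟩
  by_contra hcon
  push Not at hcon
  exact hn0 n hn m ⟨hm1, x, hx1, hx2, hcon⟩ hm

theorem law_of_engine {s C : ℝ} (hs : 1 / 2 < s) (hs1 : s < 1) (hC : 1 < C)
    (hCs : s * (1 - s) < C * (2 * s - 1)) :
    ∃ κ : ℝ, 0 < κ ∧ ∀ (d : ENNReal) (A : Set ℝ) (near : ℝ → ℕ → ℕ → Prop), Engine s d A near →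
      (∀ α ∈ A, ∃ n0 : ℕ, ∀ n : ℕ, n0 ≤ n → ∀ m : ℕ, near α n m → 1 ≤ m) →
      ∃ E : Set ℝ, dimH E ≤ d ∧ ∀ α ∈ A, α ∉ E → Law (near α) C κ := by
  classical
  have h2s : 0 < 2 * s - 1 := by linarith
  -- a smaller exponent
  obtain ⟨C₀, hC1, hC0C, hC0s⟩ : ∃ C₀ : ℝ, 1 < C₀ ∧ C₀ < C ∧ s * (1 - s) < C₀ * (2 * s - 1) := by
    have h1 : s * (1 - s) / (2 * s - 1) < C := by
      rw [div_lt_iff₀ h2s]
      exact hCs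
    obtain ⟨C0, h2, h3⟩ := exists_between (max_lt hC h1)
    refine ⟨C0, lt_of_le_of_lt (le_max_left _ _) h2, h3, ?_⟩
    have h4 := lt_of_le_of_lt (le_max_right _ _) h2
    rwa [div_lt_iff₀ h2s] at h4
  obtain ⟨κ, hκ, hA⟩ := Pool.Agent.Results.MP_48b1c3_nt.FewExceptions.result s C₀ hs hs1 hC1 hC0s
  refine ⟨κ, hκ, fun d A near he hpos => ?_⟩
  have hfirst : ∀ e : Idx, ∃ E : Set ℝ, dimH E ≤ d ∧ ∀ α ∈ A, α ∉ E →
      (∀ σ ∈ e.2.1, ∀ τ : e.1.1 ≃ₐ[ℚ] e.1.1, τ * σ * τ⁻¹ ∈ e.2.1) → 0 < e.2.2.2.1 →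
      0 < e.2.2.2.2.2.1 →
      (∀ l : ℕ, l.Prime → l ∣ e.2.2.2.2.2.1 → l ^ (e.2.2.2.1.factorization l + 1) ∣ e.2.2.2.2.2.1) →
      ∃ n0 : ℕ, ∀ n : ℕ, n0 ≤ n → ∀ m : ℕ, 1 ≤ m → near α n m →
        ∀ x : ℕ, (m : ℝ) ^ C ≤ x → (x : ℝ) ≤ Real.exp ((Real.log m) ^ (1 + κ)) →
        |(@S e.1.1 e.1.2.1 e.2.1 (grp e.2.2.1.1 e.2.2.2.2.1 m e.2.2.2.2.2.1) e.2.2.2.1 x : ℝ) -
          @δ e.1.1 e.1.2.1 e.2.1 (grp e.2.2.1.1 e.2.2.2.2.1 m e.2.2.2.2.2.1) e.2.2.2.1 *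
            (Nat.primeCounting x : ℝ)| ≤
            (1 / ((e.2.2.2.2.2.2 : ℝ) + 1)) * (Nat.primeCounting x : ℝ) := by
    rintro ⟨⟨F, hF1, hF2⟩, C', ⟨W₀, hW₀⟩, k, D, r, j⟩
    dsimp only
    by_cases hgood : (∀ σ ∈ C', ∀ τ : F ≃ₐ[ℚ] F, τ * σ * τ⁻¹ ∈ C') ∧ 0 < k ∧ 0 < r ∧
        (∀ l : ℕ, l.Prime → l ∣ r → l ^ (k.factorization l + 1) ∣ r)
    swap
    · refine ⟨∅, by rw [dimH_empty]; exact zero_le, fun α _ _ h1 h2 h3 h4 => ?_⟩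
      exact absurd ⟨h1, h2, h3, h4⟩ hgood
    obtain ⟨g1, g2, g3, g4⟩ := hgood
    obtain ⟨N₀, hN₀⟩ := hA F C' W₀ k D r g1 hW₀ g2 g3 g4 (1 / ((j : ℝ) + 1)) (by positivity)
    obtain ⟨E, hE, h⟩ := one he (by linarith) hC0C hκ (le_refl κ)
      (fun m x => (S F C' (grp W₀ D m r) k x : ℝ)) (fun m => δ F C' (grp W₀ D m r) k)
      (1 / ((j : ℝ) + 1)) _ N₀ hN₀
      (fun N m hm1 hmN hx => Finset.mem_filter.2 ⟨Finset.mem_Icc.2 ⟨hm1, hmN⟩, hx⟩)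
    exact ⟨E, hE, fun α hα hαE _ _ _ _ => h α hα hαE⟩
  choose E₁ hE₁ h₁ using hfirst
  refine ⟨⋃ e, E₁ e, ?_, fun α hα hαE => ?_⟩
  · rw [dimH_iUnion]
    exact iSup_le hE₁
  obtain ⟨n1, hn1⟩ := hpos α hα
  intro F hF1 hF2 C' W₀ k D r g1 hW₀ g2 g3 g4 ε hε
  obtain ⟨j, hj⟩ := exists_nat_one_div_lt hε
  obtain ⟨n0, hn0⟩ := h₁ ⟨⟨F, hF1, hF2⟩, C', ⟨W₀, hW₀⟩, k, D, r, j⟩ α hα
    (fun h => hαE (Set.mem_iUnion.2 ⟨_, h⟩)) g1 g2 g3 g4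
  refine ⟨max n0 n1, fun n hn m hm x hx1 hx2 => ?_⟩
  refine (hn0 n ((le_max_left _ _).trans hn) m (hn1 n ((le_max_right _ _).trans hn) m hm) hm x
    hx1 hx2).trans ?_
  exact mul_le_mul_of_nonneg_right hj.le (Nat.cast_nonneg _)

/-- the integers in the windows are eventually positive -/
lemma pos_of_window {v : ℕ → ℝ} {τ θ : ℝ} (hpos : ∀ n, 1 ≤ v n) (hτ : 0 ≤ τ)
    (hv : Pool.Agent.Y854.GM.ExpLe v τ) (hθ1 : θ < 1) {α : ℝ} (hα : 0 < α) :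
    ∃ n0 : ℕ, ∀ n : ℕ, n0 ≤ n → ∀ m : ℕ, |(m : ℝ) - α * v n| ≤ (v n) ^ θ → 1 ≤ m := by
  have hlim : Tendsto v atTop atTop :=
    Pool.Agent.Y854.GM.tendsto_of_expLe (fun n => lt_of_lt_of_le one_pos (hpos n)) hτ hv
  have h1 : Tendsto (fun n => (v n) ^ (1 - θ)) atTop atTop :=
    (tendsto_rpow_atTop (by linarith : 0 < 1 - θ)).comp hlim
  obtain ⟨n0, hn0⟩ := (h1.eventually (eventually_gt_atTop (1 / α))).exists_forall_of_atTop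
  refine ⟨n0, fun n hn m hm => ?_⟩
  by_contra hcon
  have h0 : m = 0 := by omega
  rw [h0, Nat.cast_zero, zero_sub, abs_neg] at hm
  have hv0 : 0 < v n := lt_of_lt_of_le one_pos (hpos n)
  rw [abs_of_pos (by positivity)] at hm
  have h2 := hn0 n hn
  rw [Real.rpow_sub hv0, Real.rpow_one, div_lt_div_iff₀ hα (Real.rpow_pos_of_pos hv0 _)] at h2
  linarith

theorem windows {s C : ℝ} (hs : 1 / 2 < s) (hs1 : s < 1) (hC : 1 < C)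
    (hCs : s * (1 - s) < C * (2 * s - 1)) :
    ∃ κ : ℝ, 0 < κ ∧ ∀ (v : ℕ → ℝ) (τ θ : ℝ), (∀ n, 1 ≤ v n) → 0 ≤ τ →
      Pool.Agent.Y854.GM.ExpLe v τ → θ < 1 →
      ∃ E : Set ℝ, dimH E ≤ ENNReal.ofReal ((s + τ) / (1 - θ)) ∧
        ∀ α : ℝ, 0 < α → α ∉ E → Law (fun n m => |(m : ℝ) - α * v n| ≤ (v n) ^ θ) C κ := by
  obtain ⟨κ, hκ, h⟩ := law_of_engine hs hs1 hC hCs
  refine ⟨κ, hκ, fun v τ θ hpos hτ hv hθ1 => ?_⟩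
  refine h _ {α | 0 < α} (fun α n m => |(m : ℝ) - α * v n| ≤ (v n) ^ θ) ?_
    (fun α hα => pos_of_window hpos hτ hv hθ1 hα)
  intro T bad N₀ hbad i₀ hT
  obtain ⟨E, hE, h1⟩ := Pool.Agent.V11109.WIN.windows_of_bad hpos hτ hv (by linarith) hθ1 T bad N₀
    hbad i₀ hT
  refine ⟨E, hE, fun α hα hαE => ?_⟩
  obtain ⟨n0, hn0⟩ := h1 α hα hαE
  exact ⟨n0, fun n hn m hm => not_le.2 (hn0 n hn m hm)⟩

theorem powers {s C : ℝ} (hs : 1 / 2 < s) (hs1 : s < 1) (hC : 1 < C)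
    (hCs : s * (1 - s) < C * (2 * s - 1)) :
    ∃ κ : ℝ, 0 < κ ∧ ∀ (ν : ℕ → ℝ) (θ β : ℝ), Tendsto (fun n : ℕ => ν n / Real.log n) atTop atTop →
      0 < β → θ < 1 → ∃ E : Set ℝ, dimH E ≤ ENNReal.ofReal (s / (1 - θ)) ∧
        ∀ z : ℝ, 1 < z → z ∉ E → Law (fun n m => |(m : ℝ) - β * z ^ ν n| ≤ z ^ (θ * ν n)) C κ := by
  obtain ⟨κ, hκ, h⟩ := law_of_engine hs hs1 hC hCs
  refine ⟨κ, hκ, fun ν θ β hν hβ hθ1 => ?_⟩
  refine h _ {z | 1 < z} (fun z n m => |(m : ℝ) - β * z ^ ν n| ≤ z ^ (θ * ν n)) ?_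
    (fun z hz => ?_)
  · intro T bad N₀ hbad i₀ hT
    obtain ⟨E, hE, h1⟩ := Pool.Agent.V11001.KM.powers_of_bad hν hβ (by linarith) hθ1 T bad N₀
      hbad i₀ hT
    refine ⟨E, hE, fun z hz hzE => ?_⟩
    obtain ⟨n0, hn0⟩ := h1 z hz hzE
    exact ⟨n0, fun n hn m hm => not_le.2 (hn0 n hn m hm)⟩
  · obtain ⟨n1, hn1⟩ := Pool.Agent.V11001.KM.large_of_near hν hβ hθ1 hz 1
    exact ⟨n1, fun n hn m hm => by exact_mod_cast hn1 n hn m hm⟩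

/-- **windows, the smaller exceptional set** -/
theorem windows2 (v : ℕ → ℝ) (τ θ : ℝ) (hpos : ∀ n, 1 ≤ v n) (hτ : 0 ≤ τ)
    (hv : Pool.Agent.Y854.GM.ExpLe v τ) (hθ1 : θ < 1) :
    ∃ E : Set ℝ, dimH E ≤ ENNReal.ofReal ((1 / 2 + τ) / (1 - θ)) ∧
      ∀ α : ℝ, 0 < α → α ∉ E → ∃ C κ : ℝ, 1 < C ∧ 0 < κ ∧
        Law (fun n m => |(m : ℝ) - α * v n| ≤ (v n) ^ θ) C κ := by
  have h1θ : 0 < 1 - θ := by linarith
  have hj : ∀ j : ℕ, ∃ E : Set ℝ,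
      dimH E ≤ ENNReal.ofReal ((1 / 2 + 1 / ((j : ℝ) + 3) + τ) / (1 - θ)) ∧
      ∀ α : ℝ, 0 < α → α ∉ E → ∃ C κ : ℝ, 1 < C ∧ 0 < κ ∧
        Law (fun n m => |(m : ℝ) - α * v n| ≤ (v n) ^ θ) C κ := by
    intro j
    have hj0 : (0 : ℝ) < (j : ℝ) + 3 := by positivity
    have hj1 : (0 : ℝ) < 1 / ((j : ℝ) + 3) := by positivity
    have hj2 : 1 / ((j : ℝ) + 3) ≤ 1 / 3 :=
      one_div_le_one_div_of_le (by norm_num) (by linarith [(Nat.cast_nonneg j : (0 : ℝ) ≤ j)])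
    obtain ⟨κ, hκ, h⟩ := windows (s := 1 / 2 + 1 / ((j : ℝ) + 3)) (C := (j : ℝ) + 3)
      (by linarith) (by linarith) (by linarith [(Nat.cast_nonneg j : (0 : ℝ) ≤ j)]) (by
        have h1 : ((j : ℝ) + 3) * (2 * (1 / 2 + 1 / ((j : ℝ) + 3)) - 1) = 2 := by
          field_simp
          ring
        rw [h1]
        nlinarith)
    obtain ⟨E, hE, h2⟩ := h v τ θ hpos hτ hv hθ1
    exact ⟨E, hE, fun α hα hαE => ⟨(j : ℝ) + 3, κ,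
      by linarith [(Nat.cast_nonneg j : (0 : ℝ) ≤ j)], hκ, h2 α hα hαE⟩⟩
  choose E hE h using hj
  refine ⟨⋂ j, E j, ?_, fun α hα hαE => ?_⟩
  · have hlim : Tendsto (fun j : ℕ => ENNReal.ofReal ((1 / 2 + 1 / ((j : ℝ) + 3) + τ) / (1 - θ)))
        atTop (𝓝 (ENNReal.ofReal ((1 / 2 + 0 + τ) / (1 - θ)))) := by
      refine ENNReal.tendsto_ofReal (Tendsto.div_const ?_ _)
      refine Tendsto.add_const _ (Tendsto.const_add _ ?_)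
      have h1 : Tendsto (fun j : ℕ => (j : ℝ) + 3) atTop atTop :=
        tendsto_atTop_add_const_right _ _ tendsto_natCast_atTop_atTop
      simp only [one_div]
      exact h1.inv_tendsto_atTop
    rw [add_zero] at hlim
    refine ge_of_tendsto' hlim fun j => ?_
    exact (dimH_mono (Set.iInter_subset _ j)).trans (hE j)
  · rw [Set.mem_iInter] at hαE
    push Not at hαE
    obtain ⟨j, hj⟩ := hαE
    exact h j α hα hj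

/-- **powers, the smaller exceptional set** -/
theorem powers2 (ν : ℕ → ℝ) (θ β : ℝ) (hν : Tendsto (fun n : ℕ => ν n / Real.log n) atTop atTop)
    (hβ : 0 < β) (hθ1 : θ < 1) :
    ∃ E : Set ℝ, dimH E ≤ ENNReal.ofReal ((1 / 2) / (1 - θ)) ∧
      ∀ z : ℝ, 1 < z → z ∉ E → ∃ C κ : ℝ, 1 < C ∧ 0 < κ ∧
        Law (fun n m => |(m : ℝ) - β * z ^ ν n| ≤ z ^ (θ * ν n)) C κ := by
  have h1θ : 0 < 1 - θ := by linarith
  have hj : ∀ j : ℕ, ∃ E : Set ℝ,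
      dimH E ≤ ENNReal.ofReal ((1 / 2 + 1 / ((j : ℝ) + 3)) / (1 - θ)) ∧
      ∀ z : ℝ, 1 < z → z ∉ E → ∃ C κ : ℝ, 1 < C ∧ 0 < κ ∧
        Law (fun n m => |(m : ℝ) - β * z ^ ν n| ≤ z ^ (θ * ν n)) C κ := by
    intro j
    have hj0 : (0 : ℝ) < (j : ℝ) + 3 := by positivity
    have hj1 : (0 : ℝ) < 1 / ((j : ℝ) + 3) := by positivity
    have hj2 : 1 / ((j : ℝ) + 3) ≤ 1 / 3 :=
      one_div_le_one_div_of_le (by norm_num) (by linarith [(Nat.cast_nonneg j : (0 : ℝ) ≤ j)])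
    obtain ⟨κ, hκ, h⟩ := powers (s := 1 / 2 + 1 / ((j : ℝ) + 3)) (C := (j : ℝ) + 3)
      (by linarith) (by linarith) (by linarith [(Nat.cast_nonneg j : (0 : ℝ) ≤ j)]) (by
        have h1 : ((j : ℝ) + 3) * (2 * (1 / 2 + 1 / ((j : ℝ) + 3)) - 1) = 2 := by
          field_simp
          ring
        rw [h1]
        nlinarith)
    obtain ⟨E, hE, h2⟩ := h ν θ β hν hβ hθ1
    exact ⟨E, hE, fun z hz hzE => ⟨(j : ℝ) + 3, κ,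
      by linarith [(Nat.cast_nonneg j : (0 : ℝ) ≤ j)], hκ, h2 z hz hzE⟩⟩
  choose E hE h using hj
  refine ⟨⋂ j, E j, ?_, fun z hz hzE => ?_⟩
  · have hlim : Tendsto (fun j : ℕ => ENNReal.ofReal ((1 / 2 + 1 / ((j : ℝ) + 3)) / (1 - θ)))
        atTop (𝓝 (ENNReal.ofReal ((1 / 2 + 0) / (1 - θ)))) := by
      refine ENNReal.tendsto_ofReal (Tendsto.div_const ?_ _)
      refine Tendsto.const_add _ ?_
      have h1 : Tendsto (fun j : ℕ => (j : ℝ) + 3) atTop atTop :=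
        tendsto_atTop_add_const_right _ _ tendsto_natCast_atTop_atTop
      simp only [one_div]
      exact h1.inv_tendsto_atTop
    rw [add_zero] at hlim
    refine ge_of_tendsto' hlim fun j => ?_
    exact (dimH_mono (Set.iInter_subset _ j)).trans (hE j)
  · rw [Set.mem_iInter] at hzE
    push Not at hzE
    obtain ⟨j, hj⟩ := hzE
    exact h j z hz hj

end Pool.Agent.V11150.LenW
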