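import Pool.Agent.V11150.RatG

/-!
# A third of all times are gaps between isolated consecutive primes of the orbits
-/

set_option autoImplicit false

namespace Pool.Agent.V11150.RatH

open Finset Filter Pool.Agent.V11150.RatL Pool.Agent.V11150.RatC Pool.Agent.V11150.RatD
open Pool.Agent.V11150.RatG
open Pool.Agent.H947R3.GM Pool.Agent.W59.GB

/-- the primes `q` for which the `j`-th iterate `p` is prime, the earlier iterates are not, none of the
`R` iterates after `p` is a prime, and `q` is none of the first `R` iterates of a prime -/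
def Gap (R : ℕ) (a b c : ℤ) (j : ℕ) : Set ℕ :=
  {q | q.Prime ∧ ∃ p : ℕ, p.Prime ∧ a ^ j * p - b ^ j * q = cj a b c j ∧
    (∀ l, 0 < l → l < j → ∀ p' : ℕ, p'.Prime → a ^ l * p' - b ^ l * q ≠ cj a b c l) ∧
    ∀ l, 0 < l → l ≤ R → (∀ p' : ℕ, p'.Prime → a ^ l * p' - b ^ l * p ≠ cj a b c l) ∧
      ∀ q' : ℕ, q'.Prime → a ^ l * q - b ^ l * q' ≠ cj a b c l}

/-- consecutive members of different classes -/
theorem exists_consec {T K : ℕ} (P : Finset (Fin T × Fin K)) (H : Fin T × Fin K → ℕ)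
    (hinj : Function.Injective H) {x₀ y₀ : Fin T × Fin K} (hx : x₀ ∈ P) (hy : y₀ ∈ P)
    (hne : x₀.1 ≠ y₀.1) :
    ∃ x ∈ P, ∃ y ∈ P, x.1 ≠ y.1 ∧ H x < H y ∧ ∀ z ∈ P, ¬ (H x < H z ∧ H z < H y) := by
  classical
  set W : Finset ((Fin T × Fin K) × (Fin T × Fin K)) :=
    (P ×ˢ P).filter fun v => v.1.1 ≠ v.2.1 ∧ H v.1 < H v.2 with hW
  have hWne : W.Nonempty := by
    have hHne : H x₀ ≠ H y₀ := fun h => hne (congrArg Prod.fst (hinj h))
    rcases lt_or_gt_of_ne hHne with h | h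
    · exact ⟨(x₀, y₀), mem_filter.2 ⟨mem_product.2 ⟨hx, hy⟩, hne, h⟩⟩
    · exact ⟨(y₀, x₀), mem_filter.2 ⟨mem_product.2 ⟨hy, hx⟩, hne.symm, h⟩⟩
  obtain ⟨v, hv, hmin⟩ := W.exists_min_image (fun v => H v.2 - H v.1) hWne
  obtain ⟨h1, h2, h3⟩ := mem_filter.1 hv
  obtain ⟨h4, h5⟩ := mem_product.1 h1
  refine ⟨v.1, h4, v.2, h5, h2, h3, ?_⟩
  rintro z hz ⟨h6, h7⟩
  by_cases h8 : v.1.1 = z.1
  · have h9 : z.1 ≠ v.2.1 := fun h => h2 (h8.trans h)
    have := hmin (z, v.2) (mem_filter.2 ⟨mem_product.2 ⟨hz, h5⟩, h9, h7⟩)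
    simp only at this
    omega
  · have := hmin (v.1, z) (mem_filter.2 ⟨mem_product.2 ⟨h4, hz⟩, h8, h6⟩)
    simp only at this
    omega

theorem classes_gap (a b c : ℤ) (ha : 1 ≤ a) (hb : 1 ≤ b) (hc : c ≠ 0) (hab : IsCoprime a b)
    (hac : IsCoprime a c) (hbc : IsCoprime b c) (hpar : ¬ (Odd a ∧ Odd b ∧ Odd c)) {T K C : ℕ}
    (hQ : Col T 1 K C) (N : ℕ)
    (hN : ∀ p : ℕ, p.Prime → p ∣ N → (p : ℤ) ∣ a - b → (p : ℤ) ∣ c) (R : ℕ)
    (H : Fin T × Fin K → ℕ) (hadm : ∀ p : ℕ, p.Prime → ¬ p ∣ N → ∃ n : ℤ, ∀ x, ¬ ((p : ℤ) ∣ n + H x))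
    (hsp : ∀ x y : Fin T × Fin K, x ≠ y → H x + R < H y ∨ H y + R < H x) :
    ∃ x y : Fin T × Fin K, x.1 ≠ y.1 ∧ H x < H y ∧ Often (C + 2) (Gap R a b c (H y - H x)) := by
  classical
  have hinj : Function.Injective H := by
    intro x y h
    by_contra hne
    rcases hsp x y hne with h1 | h1 <;> omega
  obtain ⟨J, hJ⟩ : ∃ J : ℕ, ∀ x : Fin T × Fin K, H x + 2 * R + 2 < J :=
    ⟨(univ.sup fun x : Fin T × Fin K => H x) + 2 * R + 3, fun x => by
      have := le_sup (f := fun x : Fin T × Fin K => H x) (mem_univ x)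
      omega⟩
  obtain ⟨β, hβ⟩ := exists_beta a b c (by omega) hab J
  obtain ⟨e, he⟩ : ∃ e : Fin T × Fin K → ℕ, ∀ x, e x = H x + (R + 1) := ⟨_, fun _ => rfl⟩
  have heJ : ∀ x, 1 ≤ e x ∧ e x < J := fun x => by have := hJ x; rw [he]; omega
  have heR : ∀ x, e x + R ≤ J ∧ R < e x := fun x => by have := hJ x; rw [he]; omega
  have hadm' : ∀ p : ℕ, p.Prime → ∃ n : ℤ, ∀ x, ¬ (p : ℤ) ∣ a ^ (J - e x) * b ^ e x * n + β (e x) := by
    intro p hp
    refine rat_admissible hab hac hbc hpar hβ e heJ hp ?_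
    intro _ hp1 hpc
    obtain ⟨n, hn⟩ := hadm p hp (fun hpN => hpc (hN p hp hpN hp1))
    have hp0 : (0 : ℤ) < p := by exact_mod_cast hp.pos
    refine rat_miss hβ e (fun x => (heJ x).2.le) hp
      (bad_not_dvd hab hp hp1).1 hp1 hpc (((-n) % p).toNat + (R + 1)) ?_
    intro x h
    rw [he] at h
    have h := Nat.ModEq.add_right_cancel' (R + 1) h
    apply hn x
    have h3 : ((H x : ℕ) : ℤ) ≡ (((-n) % p).toNat : ℤ) [ZMOD p] := by
      exact_mod_cast (Int.natCast_modEq_iff).2 h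
    rw [Int.toNat_of_nonneg (Int.emod_nonneg _ hp0.ne')] at h3
    have h4 : ((H x : ℕ) : ℤ) ≡ -n [ZMOD p] := h3.trans (Int.mod_modEq _ _)
    have h5 := (Int.modEq_iff_dvd.1 h4.symm)
    have h6 : ((H x : ℕ) : ℤ) - -n = n + H x := by ring
    rwa [h6] at h5
  obtain ⟨Q, r, hQ0, hblock, hQp⟩ := block ha hb hc hβ (univ.image e)
  have hQz : (0 : ℤ) < Q := by exact_mod_cast hQ0
  have hval : ∀ x (m : ℤ), a ^ (J - e x) * b ^ e x * Q * m + LL a b β J (e x) (r : ℤ) =
      LL a b β J (e x) (Q * m + r) := by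
    intro x m
    unfold LL
    ring
  obtain ⟨S, σ, hS, hOften⟩ := hQ (fun g i => a ^ (J - e (g, i)) * b ^ e (g, i) * Q)
    (fun g i => LL a b β J (e (g, i)) (r : ℤ))
    (fun g i => by positivity)
    (by
      rintro x y h
      simp only [Prod.mk.injEq] at h
      obtain ⟨h1, h2⟩ := h
      have h3 := mul_right_cancel₀ hQz.ne' h1
      unfold LL at h2
      have h4 : β (e (x.1, x.2)) = β (e (y.1, y.2)) := by
        rw [h3] at h2
        linarith
      have h5 := forms_inj ha hb hc hab hβ (heJ _).2.le (heJ _).2.le h3 h4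
      rw [he, he] at h5
      exact hinj (show H x = H y by
        have : H (x.1, x.2) = H (y.1, y.2) := by omega
        exact this))
    (by
      intro p hp
      by_cases hpQ : p ∣ Q
      · refine ⟨0, fun g i hd => hQp p hp hpQ (e (g, i)) (mem_image_of_mem _ (mem_univ _))
          (heJ _).2.le ?_⟩
        rwa [mul_zero, zero_add] at hd
      · obtain ⟨n, hn⟩ := hadm' p hp
        have hcop : IsCoprime (Q : ℤ) (p : ℤ) := by
          rw [Nat.isCoprime_iff_coprime]
          exact ((Nat.Prime.coprime_iff_not_dvd hp).2 hpQ).symm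
        obtain ⟨u, v, huv⟩ := hcop
        refine ⟨u * (n - r), fun g i hd => hn (g, i) ?_⟩
        rw [hval] at hd
        unfold LL at hd
        have e1 : a ^ (J - e (g, i)) * b ^ e (g, i) * n + β (e (g, i)) =
            (a ^ (J - e (g, i)) * b ^ e (g, i) * (Q * (u * (n - r)) + r) + β (e (g, i))) +
            p * (a ^ (J - e (g, i)) * b ^ e (g, i) * (v * (n - r))) := by
          linear_combination (-(a ^ (J - e (g, i)) * b ^ e (g, i) * (n - (r : ℤ)))) * huv
        rw [e1]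
        exact dvd_add hd (dvd_mul_right _ _))
  -- the patterns
  set V : Fin T × Fin K → ℕ → ℤ := fun x m => LL a b β J (e x) ((Q * m + r : ℕ) : ℤ) with hV
  have hOften' : Often C {m : ℕ | ∀ g ∈ S, (V (g, σ g) m).toNat.Prime} := by
    refine Often.mono hOften ?_
    intro m hm g hg
    have h1 := hm g hg
    rw [hval] at h1
    simp only [hV]
    push_cast
    exact h1
  obtain ⟨P, hP⟩ := often_cover (fun P : Finset (Fin T × Fin K) =>
    {m : ℕ | (∀ g ∈ S, (g, σ g) ∈ P) ∧ ∀ x, x ∈ P ↔ (V x m).toNat.Prime}) _ hOften' (by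
    intro m hm
    refine ⟨univ.filter fun x => (V x m).toNat.Prime, ?_, ?_⟩
    · intro g hg
      exact mem_filter.2 ⟨mem_univ _, hm g hg⟩
    · intro x
      simp)
  obtain ⟨x₁, hx₁⟩ := hP.exists
  have hSP : ∀ g ∈ S, (g, σ g) ∈ P := by
    -- the set is not empty
    by_contra hcon
    have hempty : {m : ℕ | (∀ g ∈ S, (g, σ g) ∈ P) ∧ ∀ x, x ∈ P ↔ (V x m).toNat.Prime} = ∅ := by
      ext m
      simp only [Set.mem_ofPred_eq, Set.mem_empty_iff_false, iff_false]
      exact fun h => hcon h.1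
    rw [hempty] at hP
    obtain ⟨x, hx, hx1, hx2⟩ := (Filter.Frequently.and_eventually hP ((eventually_ge_atTop 1).and
      ((Real.tendsto_log_atTop.comp tendsto_natCast_atTop_atTop).eventually_ge_atTop 1))).exists
    have hx2' : 1 ≤ Real.log x := hx2
    have h0 : {n : ℕ | n ∈ (∅ : Set ℕ) ∧ n ≤ x} = ∅ := by ext; simp
    rw [h0, Set.ncard_empty, Nat.cast_zero] at hx
    have h1 : (1 : ℝ) ≤ x := by exact_mod_cast hx1
    have h2 : (0 : ℝ) < (x : ℝ) / Real.log x ^ (C + 1) := by positivity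
    linarith
  have hS2 : 1 < S.card := by omega
  obtain ⟨g, hg, g', hg', hne⟩ := Finset.one_lt_card.1 hS2
  obtain ⟨x, hx, y, hy, hxy, hlt, hbet⟩ := exists_consec P H hinj (hSP g hg) (hSP g' hg') hne
  refine ⟨x, y, hxy, hlt, ?_⟩
  have hlt' : e x < e y := by rw [he, he]; omega
  have hD : (0 : ℤ) < a ^ (J - e x) * b ^ e x := by positivity
  have hdiff : H y - H x = e y - e x := by rw [he, he]; omega
  rw [hdiff]
  -- the relation between two terms
  have hrel : ∀ (n : ℤ) (i k : ℕ), i ≤ k → k ≤ J →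
      a ^ (k - i) * LL a b β J k n = b ^ (k - i) * LL a b β J i n + cj a b c (k - i) := by
    intro n i k h1 h2
    have h3 := LL_iter hβ n i (k - i) (by omega)
    rwa [show i + (k - i) = k by omega] at h3
  refine Often.image hP (fun m => (V x m).toNat)
    (((a ^ (J - e x) * b ^ e x).toNat) * (Q + r) + (β (e x)).natAbs) ?_ ?_
  · rintro m ⟨-, hm⟩
    have hpx : (V x m).toNat.Prime := (hm x).1 hx
    have hpy : (V y m).toNat.Prime := (hm y).1 hy
    have ex := toNat_eq hpx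
    have ey := toNat_eq hpy
    have ex' : (((V x m).toNat : ℕ) : ℤ) = LL a b β J (e x) ((Q * m + r : ℕ) : ℤ) := ex
    have ey' : (((V y m).toNat : ℕ) : ℤ) = LL a b β J (e y) ((Q * m + r : ℕ) : ℤ) := ey
    -- at all other times the terms are not prime
    have hoff : ∀ t ≤ J, (∀ z ∈ P, e z ≠ t) →
        ¬ (LL a b β J t ((Q * m + r : ℕ) : ℤ)).toNat.Prime := by
      intro t ht hz hpr
      by_cases htp : t ∈ univ.image e
      · obtain ⟨z, -, hzt⟩ := mem_image.1 htp
        apply hz z ?_ hzt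
        rw [hm z]
        simp only [hV]
        rw [hzt]
        exact hpr
      · exact hblock t ht htp m hpr
    have hnum : ∀ (t : ℕ) (p' : ℕ), p'.Prime → (p' : ℤ) = LL a b β J t ((Q * m + r : ℕ) : ℤ) →
        (LL a b β J t ((Q * m + r : ℕ) : ℤ)).toNat.Prime := by
      intro t p' hp' h
      rw [← h]
      simpa using hp'
    refine ⟨⟨hpx, (V y m).toNat, hpy, ?_, ?_, ?_⟩, ?_⟩
    · rw [ex', ey']
      have h3 := hrel ((Q * m + r : ℕ) : ℤ) (e x) (e y) hlt'.le (heJ y).2.le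
      linear_combination h3
    · intro l hl0 hl p' hp' h
      rw [ex'] at h
      have h3 := hrel ((Q * m + r : ℕ) : ℤ) (e x) (e x + l) (by omega) (by have := (heJ y).2; omega)
      rw [show e x + l - e x = l by omega] at h3
      have h4 : a ^ l * (p' : ℤ) = a ^ l * LL a b β J (e x + l) ((Q * m + r : ℕ) : ℤ) := by linarith
      have h5 := mul_left_cancel₀ (pow_ne_zero l (show a ≠ 0 by omega)) h4
      refine hoff (e x + l) (by have := (heJ y).2; omega) ?_ (hnum _ p' hp' h5)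
      intro z hz hzt
      apply hbet z hz
      have h6 := he z
      have h7 := he x
      have h8 := he y
      constructor <;> omega
    · intro l hl0 hlR
      refine ⟨?_, ?_⟩
      · intro p' hp' h
        rw [ey'] at h
        have h3 := hrel ((Q * m + r : ℕ) : ℤ) (e y) (e y + l) (by omega)
          (by have := (heR y).1; omega)
        rw [show e y + l - e y = l by omega] at h3
        have h4 : a ^ l * (p' : ℤ) = a ^ l * LL a b β J (e y + l) ((Q * m + r : ℕ) : ℤ) := by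
          linarith
        have h5 := mul_left_cancel₀ (pow_ne_zero l (show a ≠ 0 by omega)) h4
        refine hoff (e y + l) (by have := (heR y).1; omega) ?_ (hnum _ p' hp' h5)
        intro z hz hzt
        have h6 := he z
        have h8 := he y
        have hne' : z ≠ y := by
          rintro rfl
          omega
        rcases hsp z y hne' with h9 | h9 <;> omega
      · intro q' hq' h
        rw [ex'] at h
        have h3 := hrel ((Q * m + r : ℕ) : ℤ) (e x - l) (e x) (by omega) (heJ x).2.le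
        have h10 := (heR x).2
        rw [show e x - (e x - l) = l by omega] at h3
        have h4 : b ^ l * (q' : ℤ) = b ^ l * LL a b β J (e x - l) ((Q * m + r : ℕ) : ℤ) := by
          linarith
        have h5 := mul_left_cancel₀ (pow_ne_zero l (show b ≠ 0 by omega)) h4
        refine hoff (e x - l) (by have := (heJ x).2; omega) ?_ (hnum _ q' hq' h5)
        intro z hz hzt
        have h6 := he z
        have h8 := he x
        have hne' : z ≠ x := by
          rintro rfl
          omega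
        rcases hsp z x hne' with h9 | h9 <;> omega
    · have e3 : (((a ^ (J - e x) * b ^ e x).toNat : ℕ) : ℤ) = a ^ (J - e x) * b ^ e x :=
        Int.toNat_of_nonneg hD.le
      have e4 : β (e x) ≤ ((β (e x)).natAbs : ℕ) := by
        have := le_abs_self (β (e x))
        rwa [Int.abs_eq_natAbs] at this
      have e5 : (((V x m).toNat : ℕ) : ℤ) ≤ (((((a ^ (J - e x) * b ^ e x).toNat) * (Q + r) +
          (β (e x)).natAbs) * (m + 1) : ℕ) : ℤ) := by
        rw [ex']
        unfold LL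
        push_cast
        rw [e3]
        have h0 : (0 : ℤ) ≤ m := Nat.cast_nonneg _
        have h4 : (0 : ℤ) ≤ ((β (e x)).natAbs : ℕ) := Nat.cast_nonneg _
        have h5 : (0 : ℤ) ≤ (r : ℤ) := Nat.cast_nonneg _
        have h6 : (Q : ℤ) * m + r ≤ (Q + r) * (m + 1) := by nlinarith
        have h7 := mul_le_mul_of_nonneg_left h6 hD.le
        push_cast at e4 h4
        nlinarith
      exact_mod_cast e5
  · rintro m ⟨-, hm⟩ m' ⟨-, hm'⟩ hmm
    have e1 := toNat_eq ((hm x).1 hx)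
    have e2 := toNat_eq ((hm' x).1 hx)
    have h1 : V x m = V x m' := by
      rw [← e1, ← e2]
      exact_mod_cast hmm
    simp only [hV] at h1
    unfold LL at h1
    have h2 : a ^ (J - e x) * b ^ e x * (((Q * m + r : ℕ) : ℤ)) =
        a ^ (J - e x) * b ^ e x * (((Q * m' + r : ℕ) : ℤ)) := by linarith
    have h3 := mul_left_cancel₀ hD.ne' h2
    have h4 : Q * m + r = Q * m' + r := by exact_mod_cast h3
    have h5 : Q * m = Q * m' := by omega
    exact Nat.eq_of_mul_eq_mul_left hQ0 h5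

/-- **a third of all times are gaps between isolated primes, in every long window** -/
theorem thirdGap : ∃ C : ℕ, ∀ R : ℕ, ∀ a b c : ℤ, 1 ≤ a → 1 ≤ b → c ≠ 0 → IsCoprime a b →
    IsCoprime a c → IsCoprime b c → ¬ (Odd a ∧ Odd b ∧ Odd c) → ∀ ε : ℝ, 0 < ε →
    ∃ L : ℕ, ∀ T : ℕ, L ≤ T → ∀ u : ℕ,
      (1 / 3 - ε) * (T : ℝ) ≤
        ({j : ℕ | u < j ∧ j ≤ u + T ∧ Often C (Gap R a b c j)}.ncard : ℝ) := by
  classical
  obtain ⟨K, hK, C, hQ⟩ := coloured 4 1 (by norm_num) (by norm_num)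
  refine ⟨C + 2, ?_⟩
  intro R a b c ha hb hc hab hac hbc hpar ε hε
  obtain ⟨K', hK'⟩ : ∃ K', K' = (2 * R + 1) * Fintype.card (Fin 4 × Fin K) := ⟨_, rfl⟩
  have hcardpos : 0 < Fintype.card (Fin 4 × Fin K) := by
    rw [Fintype.card_prod, Fintype.card_fin, Fintype.card_fin]
    omega
  obtain ⟨L, hL⟩ := Pool.Agent.W432.UB.main 2 {j | Often (C + 2) (Gap R a b c j)} dvd_rfl
    ⟨K', by rw [hK']; exact Nat.mul_pos (by omega) hcardpos, by
    intro H hH
    obtain ⟨hinj, hadm⟩ := hH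
    obtain ⟨h, h1, h2⟩ := spaced R (fun z : Fin 4 × Fin K => univ.image (H z.1)) (fun z => by
      rw [card_image_of_injective, card_univ, Fintype.card_fin, hK']
      intro i j hij
      exact (Prod.ext_iff.1 (hinj (a₁ := (z.1, i)) (a₂ := (z.1, j)) hij)).2)
    have h1' : ∀ z, ∃ i, H z.1 i = h z := fun z => by
      obtain ⟨i, -, hi⟩ := mem_image.1 (h1 z)
      exact ⟨i, hi⟩
    choose τ hτ using h1'
    obtain ⟨x, y, hxy, hlt, hg⟩ := classes_gap a b c ha hb hc hab hac hbc hpar hQ 2 (by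
      intro p hp hp2 hp1
      have hp2' : p = 2 := (Nat.prime_dvd_prime_iff_eq hp Nat.prime_two).1 hp2
      subst hp2'
      by_contra h4
      obtain ⟨h5, h6⟩ := bad_not_dvd hab Nat.prime_two hp1
      apply hpar
      rw [← Int.not_even_iff_odd, ← Int.not_even_iff_odd, ← Int.not_even_iff_odd]
      exact ⟨fun h => h5 (by exact_mod_cast h.two_dvd), fun h => h6 (by exact_mod_cast h.two_dvd),
        fun h => h4 (by exact_mod_cast h.two_dvd)⟩) R h (by
      intro p hp hp2
      obtain ⟨n, hn⟩ := hadm p hp hp2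
      exact ⟨n, fun z => by rw [← hτ z]; exact hn z.1 (τ z)⟩) h2
    refine ⟨x.1, y.1, τ x, τ y, hxy, ?_, ?_⟩
    · rw [hτ, hτ]; exact hlt
    · rw [hτ, hτ]; exact hg⟩ ε hε
  refine ⟨L, fun T hT u => (hL T hT u).trans ?_⟩
  rw [win_eq, ← Set.ncard_coe_finset, Nat.cast_le]
  refine Set.ncard_le_ncard ?_ ((Set.finite_Ioc u (u + T)).subset fun k hk => ⟨hk.1, hk.2.1⟩)
  intro j hj
  obtain ⟨h1, h2⟩ := mem_filter.1 (mem_coe.1 hj)
  rw [mem_Ioc] at h1
  exact ⟨h1.1, h1.2, h2⟩

end Pool.Agent.V11150.RatH
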