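import Pool.Agent.Y827.RO.NinE
import Pool.Agent.V11150.RatH

/-!
# A third of all even numbers are gaps between isolated consecutive primes, along narrow progressions
-/

set_option autoImplicit false

namespace Pool.Agent.V11150.NarT

open Finset Filter Pool.Agent.H947R3.GM Pool.Agent.W142.TF Pool.Agent.W142.TB Pool.Agent.Y827.RO
open Pool.Agent.V11150.RatG Pool.Agent.V11150.RatH

/-- the coloured theorem for classes of shifts, all other shifts being blocked, also in a margin `M₀` after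
the last one, exact sets (after `Pool.Agent.Y827.RO.blockE`) -/
theorem blockM (n M' : ℕ) (hn : 1 ≤ n) (hM' : (18 / 5 : ℝ) * M' < n) :
    ∃ K : ℕ, 1 ≤ K ∧ ∀ N a : ℕ, 0 < N → a.Coprime N →
    ∀ H : Fin n → Fin K → ℕ, AdmN N H → ∀ M₀ : ℕ,
    ∃ (Q r M : ℕ) (E : Finset (Fin n × Fin K)), 0 < Q ∧ N ∣ Q ∧ r ≡ a [MOD N] ∧
      (∀ g i, N * H g i + M₀ ≤ M) ∧ M' + 1 ≤ (E.image Prod.fst).card ∧
      Nar (fun m => (∀ g i, (Q * m + r + N * H g i).Prime ↔ (g, i) ∈ E) ∧
        ∀ t ≤ M, (∀ g i, N * H g i ≠ t) → ¬ (Q * m + r + t).Prime) := by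
  classical
  obtain ⟨K, hK, hQ⟩ := bigE n M' hn hM'
  refine ⟨K, hK, fun N a hN ha H hH M₀ => ?_⟩
  set H' : Fin n → Fin K → ℕ := fun g i => N * H g i with hH'
  have hinjH' : Function.Injective (fun x : Fin n × Fin K => H' x.1 x.2) := by
    intro x y hxy
    exact hH.1 (Nat.eq_of_mul_eq_mul_left hN hxy)
  -- a bound for the shifts
  obtain ⟨M, hM0⟩ : ∃ M, ∀ g i, H' g i + M₀ ≤ M :=
    ⟨univ.sup fun x : Fin n × Fin K => H' x.1 x.2 + M₀, fun g i =>
      le_sup (f := fun x : Fin n × Fin K => H' x.1 x.2 + M₀) (mem_univ (g, i))⟩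
  have hM : ∀ g i, H' g i ≤ M := fun g i => (Nat.le_add_right _ _).trans (hM0 g i)
  set q : ℕ → ℕ := fun t => Nat.nth Nat.Prime (M + N + t) with hq
  have hqp : ∀ t, (q t).Prime := fun t => Nat.prime_nth_prime _
  have hqM : ∀ t, M + N + t < q t := fun t => by
    have := Nat.add_two_le_nth_prime (M + N + t)
    simp only [hq]; omega
  have hqinj : Function.Injective q := by
    intro s t hst
    have := Nat.nth_injective Nat.infinite_setOfPred_prime hst
    omega
  set U : Finset ℕ := (range (M + 1)).filter fun t => ∀ g i, H' g i ≠ t with hU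
  have hpair : Set.Pairwise (U : Set ℕ) (Function.onFun Nat.Coprime q) := by
    intro s _ t _ hst
    exact (Nat.coprime_primes (hqp s) (hqp t)).2 fun h => hst (hqinj h)
  obtain ⟨r₀, hr₀⟩ := Nat.chineseRemainderOfFinset (fun t => q t - t) q U
    (fun t _ => (hqp t).ne_zero) hpair
  set Q₀ : ℕ := ∏ t ∈ U, q t with hQ₀def
  have hQ₀ : 0 < Q₀ := prod_pos fun t _ => (hqp t).pos
  have hcopN : Nat.Coprime Q₀ N := by
    refine Nat.Coprime.prod_left fun t _ => ?_
    rw [Nat.Prime.coprime_iff_not_dvd (hqp t)]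
    intro hd
    have h1 := Nat.le_of_dvd hN hd
    have h2 := hqM t
    omega
  obtain ⟨r, hrQ, hrN⟩ := Nat.chineseRemainder hcopN r₀ a
  have hr' : ∀ t ∈ U, q t ∣ r + t := by
    intro t ht
    have h0 : r ≡ r₀ [MOD q t] := hrQ.of_dvd (dvd_prod_of_mem q ht)
    have h1 := (h0.trans (hr₀ t ht)).add_right t
    have h2 : q t - t + t = q t := by have := hqM t; omega
    rw [h2] at h1
    exact (Nat.modEq_zero_iff_dvd.1 (h1.trans (by simp [Nat.ModEq])))
  set Q : ℕ := Q₀ * N with hQdef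
  have hQ0 : 0 < Q := Nat.mul_pos hQ₀ hN
  have hadm : ∀ p : ℕ, p.Prime → ∃ n : ℤ, ∀ g i, ¬ ((p : ℤ) ∣ (Q : ℤ) * n + ((r + H' g i : ℕ) : ℤ)) := by
      intro p hp
      by_cases hpN : p ∣ N
      · refine ⟨0, fun g i hd => ?_⟩
        rw [mul_zero, zero_add] at hd
        have hd' : p ∣ r + N * H g i := by exact_mod_cast hd
        have h1 : p ∣ r := (Nat.dvd_add_left (hpN.mul_right _)).1 hd'
        have h2 : p ∣ a := by
          have h3 : r ≡ a [MOD p] := hrN.of_dvd hpN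
          exact (h3.dvd_iff dvd_rfl).1 h1
        have h4 : p ∣ Nat.gcd a N := Nat.dvd_gcd h2 hpN
        rw [ha] at h4
        exact hp.one_lt.ne' (Nat.dvd_one.1 h4)
      by_cases hpQ : p ∣ Q₀
      · refine ⟨0, fun g i hd => ?_⟩
        obtain ⟨t, htU, hpt⟩ := (hp.prime.dvd_finsetProd_iff _).1 hpQ
        have hpq : p = q t := (Nat.prime_dvd_prime_iff_eq hp (hqp t)).1 hpt
        rw [mul_zero, zero_add] at hd
        have hd' : q t ∣ r + H' g i := by rw [← hpq]; exact_mod_cast hd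
        have h1 := hr' t htU
        have hne : H' g i ≠ t := (mem_filter.1 htU).2 g i
        have htM : t ≤ M := by
          have := (mem_filter.1 htU).1
          rw [mem_range] at this; omega
        have h2 : (q t : ℤ) ∣ (H' g i : ℤ) - t := by
          have h3 : (q t : ℤ) ∣ ((r + H' g i : ℕ) : ℤ) - ((r + t : ℕ) : ℤ) :=
            dvd_sub (by exact_mod_cast hd') (by exact_mod_cast h1)
          push_cast at h3
          have e : (r : ℤ) + H' g i - (r + t) = H' g i - t := by ring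
          rwa [e] at h3
        have h4 : |(H' g i : ℤ) - t| < q t := by
          have := hqM t
          have h5 := hM g i
          rw [abs_lt]
          constructor <;> omega
        have h6 := Int.eq_zero_of_abs_lt_dvd h2 h4
        omega
      · obtain ⟨n₀, hn₀⟩ := hH.2 p hp hpN
        have hpQ' : ¬ p ∣ Q := fun h => (hp.dvd_mul.1 h).elim hpQ hpN
        have hcop : IsCoprime (Q : ℤ) (p : ℤ) := by
          rw [Nat.isCoprime_iff_coprime]
          exact ((Nat.Prime.coprime_iff_not_dvd hp).2 hpQ').symm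
        obtain ⟨u, v, huv⟩ := hcop
        refine ⟨u * (N * n₀ - r), fun g i hd => ?_⟩
        have hd2 : (p : ℤ) ∣ N * (n₀ + H g i) := by
          have e : (N : ℤ) * (n₀ + H g i) = ((Q : ℤ) * (u * (N * n₀ - r)) + ((r + H' g i : ℕ) : ℤ)) +
              p * (v * (N * n₀ - r)) := by
            simp only [hH']
            push_cast
            linear_combination (-(N * n₀ - (r : ℤ))) * huv
          rw [e]
          exact dvd_add hd (dvd_mul_right _ _)
        rcases (Nat.prime_iff_prime_int.1 hp).dvd_or_dvd hd2 with h1 | h1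
        · exact hpN (by exact_mod_cast h1)
        · exact hn₀ g i h1
  obtain ⟨E, hE, hnar⟩ := hQ (fun g i => ((Q : ℤ), ((r + H' g i : ℕ) : ℤ)))
    (by
      intro x y hxy
      apply hinjH'
      simp only [Prod.mk.injEq, Nat.cast_inj, true_and] at hxy
      exact Nat.add_left_cancel hxy)
    (fun g i => ⟨by
      show (0 : ℤ) < (Q : ℤ)
      exact_mod_cast hQ0, coprime_of_adm fun p hp => by
        obtain ⟨m, hm⟩ := hadm p hp
        exact ⟨m, hm g i⟩⟩)
    (fun p hp _ => hadm p hp)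
  refine ⟨Q, r, M, E, hQ0, Dvd.intro_left _ rfl, hrN, hM0, hE, ?_⟩
  have hnar' : Nar (fun m => ∀ g i, ((Q : ℤ) * (m : ℤ) + ((r + H' g i : ℕ) : ℤ)).toNat.Prime ↔
      (g, i) ∈ E) := by
    intro l
    obtain ⟨C, hC⟩ := hnar l
    refine ⟨C, hC.mono ?_⟩
    rintro N' ⟨d, h1, h2, h3⟩
    refine ⟨d, h1, h2, h3.trans (le_of_eq ?_)⟩
    unfold cntE
    congr!
  refine hnar'.ge_two.mono ?_
  rintro m ⟨hm, hm2⟩
  have e1 : ∀ g i, ((Q : ℤ) * (m : ℤ) + ((r + H' g i : ℕ) : ℤ)).toNat = Q * m + r + N * H g i := by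
    intro g i
    have : ((Q : ℤ) * (m : ℤ) + ((r + H' g i : ℕ) : ℤ)) = ((Q * m + r + N * H g i : ℕ) : ℤ) := by
      simp only [hH']
      push_cast
      ring
    rw [this, Int.toNat_natCast]
  refine ⟨fun g i => ?_, ?_⟩
  · rw [← hm g i, e1]
  · intro t ht hne hpr
    have htU : t ∈ U := by
      rw [hU, mem_filter, mem_range]; exact ⟨by omega, hne⟩
    have hqr := hr' t htU
    have hqQ : q t ∣ Q := (dvd_prod_of_mem q htU).mul_right N
    have h1 : q t ∣ Q * m + r + t := by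
      rw [add_assoc]
      exact dvd_add (hqQ.mul_right m) hqr
    have h2 : q t = Q * m + r + t := (Nat.prime_dvd_prime_iff_eq (hqp t) hpr).1 h1
    have h3 : q t ≤ Q := Nat.le_of_dvd hQ0 hqQ
    have h4 := (hqp t).pos
    nlinarith


/-- `p` and `p + d` are consecutive primes, `p ≡ a (mod N)`, and there is no further prime at distance at
most `R` from one of them -/
def Iso (N a R d p : ℕ) : Prop := p ≡ a [MOD N] ∧ p.Prime ∧ (p + d).Prime ∧
  (∀ s, 0 < s → s < d → ¬ (p + s).Prime) ∧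
  ∀ s, 0 < s → s ≤ R → ¬ (p - s).Prime ∧ ¬ (p + d + s).Prime

theorem pair_of {n K N a R Q r M : ℕ} (hN : 0 < N) (H : Fin n → Fin K → ℕ) (hQ : 0 < Q)
    (hNQ : N ∣ Q) (hr : r ≡ a [MOD N]) (hM : ∀ g i, N * H g i + R ≤ M)
    {E : Finset (Fin n × Fin K)} (hnar : Nar (fun m => (∀ g i, (Q * m + r + N * H g i).Prime ↔ (g, i) ∈ E) ∧
        ∀ t ≤ M, (∀ g i, N * H g i ≠ t) → ¬ (Q * m + r + t).Prime))
    (hR : ∀ g i, R < H g i)
    (hsp : ∀ x y : Fin n × Fin K, x ≠ y → H x.1 x.2 + R < H y.1 y.2 ∨ H y.1 y.2 + R < H x.1 x.2)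
    {x y : Fin n × Fin K} (hx : x ∈ E) (hy : y ∈ E) (hlt : H x.1 x.2 < H y.1 y.2)
    (hcon : ∀ z ∈ E, ¬ (H x.1 x.2 < H z.1 z.2 ∧ H z.1 z.2 < H y.1 y.2)) :
    Nar (Iso N a R (N * (H y.1 y.2 - H x.1 x.2))) := by
  have hle : N * H x.1 x.2 ≤ N * H y.1 y.2 := Nat.mul_le_mul_left _ hlt.le
  obtain ⟨d, hd⟩ : ∃ d, d = N * (H y.1 y.2 - H x.1 x.2) := ⟨_, rfl⟩
  have hde : N * H x.1 x.2 + d = N * H y.1 y.2 := by
    rw [hd, Nat.mul_sub]
    omega
  rw [← hd]
  refine Nar.affine (q := Q) (b := r + N * H x.1 x.2) hQ (hnar.mono ?_)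
  rintro m ⟨hm1, hm2⟩
  -- a prime at a shift is a prime of `E`
  have key : ∀ t, t ≤ M → (Q * m + r + t).Prime → ∃ z ∈ E, N * H z.1 z.2 = t := by
    intro t ht hp
    by_contra hnot
    push Not at hnot
    refine hm2 t ht (fun g i he => ?_) hp
    refine hnot (g, i) ((hm1 g i).1 ?_) he
    rw [he]
    exact hp
  have hspN : ∀ z w : Fin n × Fin K, z ≠ w →
      N * H z.1 z.2 + R < N * H w.1 w.2 ∨ N * H w.1 w.2 + R < N * H z.1 z.2 := by
    intro z w hzw
    rcases hsp z w hzw with h | h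
    · left
      have h1 : N * (H z.1 z.2 + R + 1) ≤ N * H w.1 w.2 := Nat.mul_le_mul_left _ h
      nlinarith
    · right
      have h1 : N * (H w.1 w.2 + R + 1) ≤ N * H z.1 z.2 := Nat.mul_le_mul_left _ h
      nlinarith
  have hRx : R < N * H x.1 x.2 := by
    have h1 := hR x.1 x.2
    nlinarith
  have hMx := hM x.1 x.2
  have hMy := hM y.1 y.2
  have e0 : Q * m + (r + N * H x.1 x.2) = Q * m + r + N * H x.1 x.2 := by ring
  rw [e0]
  refine ⟨?_, ?_, ?_, ?_, ?_⟩
  · have h4 : Q * m ≡ 0 [MOD N] := (Nat.modEq_zero_iff_dvd).2 (hNQ.mul_right m)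
    have h5 : N * H x.1 x.2 ≡ 0 [MOD N] := (Nat.modEq_zero_iff_dvd).2 (Dvd.intro _ rfl)
    have h6 := (h4.add hr).add h5
    simpa using h6
  · exact (hm1 x.1 x.2).2 hx
  · have e1 : Q * m + r + N * H x.1 x.2 + d = Q * m + r + N * H y.1 y.2 := by omega
    rw [e1]
    exact (hm1 y.1 y.2).2 hy
  · intro s hs0 hsd hp
    have e1 : Q * m + r + N * H x.1 x.2 + s = Q * m + r + (N * H x.1 x.2 + s) := by omega
    rw [e1] at hp
    obtain ⟨z, hz, hzt⟩ := key _ (by omega) hp
    apply hcon z hz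
    constructor
    · by_contra h
      have h1 : N * H z.1 z.2 ≤ N * H x.1 x.2 := Nat.mul_le_mul_left _ (not_lt.1 h)
      omega
    · by_contra h
      have h1 : N * H y.1 y.2 ≤ N * H z.1 z.2 := Nat.mul_le_mul_left _ (not_lt.1 h)
      omega
  · intro s hs0 hsR
    constructor
    · intro hp
      have e1 : Q * m + r + N * H x.1 x.2 - s = Q * m + r + (N * H x.1 x.2 - s) := by omega
      rw [e1] at hp
      obtain ⟨z, hz, hzt⟩ := key _ (by omega) hp
      have hne : z ≠ x := by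
        rintro rfl
        omega
      rcases hspN z x hne with h | h <;> omega
    · intro hp
      have e1 : Q * m + r + N * H x.1 x.2 + d + s = Q * m + r + (N * H y.1 y.2 + s) := by omega
      rw [e1] at hp
      obtain ⟨z, hz, hzt⟩ := key _ (by omega) hp
      have hne : z ≠ y := by
        rintro rfl
        omega
      rcases hspN z y hne with h | h <;> omega

/-- **a third of all multiples of an even number `N`, in every long window** -/
theorem thirdNar (N a R : ℕ) (hN : 0 < N) (h2 : 2 ∣ N) (ha : a.Coprime N) (ε : ℝ) (hε : 0 < ε) :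
    ∃ L : ℕ, ∀ T : ℕ, L ≤ T → ∀ u : ℕ, (1 / 3 - ε) * (T : ℝ) ≤
      ({k : ℕ | u < k ∧ k ≤ u + T ∧ Nar (Iso N a R (N * k))}.ncard : ℝ) := by
  classical
  obtain ⟨K, hK, hQ⟩ := blockM 4 1 (by norm_num) (by norm_num)
  obtain ⟨K', hK'⟩ : ∃ K', K' = (2 * R + 1) * Fintype.card (Fin 4 × Fin K) := ⟨_, rfl⟩
  have hcardpos : 0 < Fintype.card (Fin 4 × Fin K) := by
    rw [Fintype.card_prod, Fintype.card_fin, Fintype.card_fin]
    omega
  obtain ⟨L, hL⟩ := Pool.Agent.W432.UB.main N {k | Nar (Iso N a R (N * k))} h2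
    ⟨K', by rw [hK']; exact Nat.mul_pos (by omega) hcardpos, by
    intro H hH
    obtain ⟨hinj, hadm⟩ := hH
    obtain ⟨h, h1, h2⟩ := spaced R (fun z : Fin 4 × Fin K => univ.image (H z.1)) (fun z => by
      rw [card_image_of_injective, card_univ, Fintype.card_fin, hK']
      intro i j hij
      exact (Prod.ext_iff.1 (hinj (a₁ := (z.1, i)) (a₂ := (z.1, j)) hij)).2)
    have h1' : ∀ z, ∃ i, H z.1 i = h z := fun z => by
      obtain ⟨i, -, hi⟩ := mem_image.1 (h1 z)
      exact ⟨i, hi⟩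
    choose τ hτ using h1'
    obtain ⟨G, hG⟩ : ∃ G : Fin 4 → Fin K → ℕ, ∀ g i, G g i = h (g, i) + (R + 1) := ⟨_, fun _ _ => rfl⟩
    have hGinj : Function.Injective (fun x : Fin 4 × Fin K => G x.1 x.2) := by
      intro x y hxy
      by_contra hne
      simp only [hG] at hxy
      rcases h2 x y hne with h3 | h3 <;> simp only [Prod.mk.eta] at hxy <;> omega
    have hGadm : AdmN N G := by
      refine ⟨hGinj, ?_⟩
      intro p hp hpN
      obtain ⟨n, hn⟩ := hadm p hp hpN
      refine ⟨n - (R + 1), fun g i hd => hn g (τ (g, i)) ?_⟩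
      rw [hG, ← hτ (g, i)] at hd
      push_cast at hd
      have e : n - ((R : ℤ) + 1) + ((H g (τ (g, i)) : ℤ) + (R + 1)) = n + H g (τ (g, i)) := by ring
      rwa [e] at hd
    obtain ⟨Q, r, M, E, hQ0, hNQ, hr, hM, hE, hnar⟩ := hQ N a hN ha G hGadm R
    obtain ⟨c, hc, c', hc', hcc⟩ := one_lt_card.1 (show 1 < (E.image Prod.fst).card by omega)
    obtain ⟨x₀, hx₀, hx₀c⟩ := mem_image.1 hc
    obtain ⟨y₀, hy₀, hy₀c⟩ := mem_image.1 hc'
    obtain ⟨x, hx, y, hy, hxy, hlt, hcon⟩ := exists_consec E (fun x => G x.1 x.2) hGinj hx₀ hy₀ (by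
      rw [hx₀c, hy₀c]; exact hcc)
    have hgap := pair_of hN G hQ0 hNQ hr hM hnar (fun g i => by rw [hG]; omega) (fun z w hzw => by
      rcases h2 z w hzw with h3 | h3
      · left
        simp only [hG, Prod.mk.eta]
        omega
      · right
        simp only [hG, Prod.mk.eta]
        omega) hx hy hlt hcon
    refine ⟨x.1, y.1, τ x, τ y, hxy, ?_, ?_⟩
    · rw [hτ, hτ]
      simp only [hG, Prod.mk.eta] at hlt
      omega
    · rw [hτ, hτ]
      show Nar (Iso N a R (N * (h y - h x)))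
      have e : G y.1 y.2 - G x.1 x.2 = h y - h x := by
        simp only [hG, Prod.mk.eta]
        omega
      rwa [e] at hgap⟩ ε hε
  refine ⟨L, fun T hT u => (hL T hT u).trans ?_⟩
  rw [Pool.Agent.W59.GB.win_eq, ← Set.ncard_coe_finset, Nat.cast_le]
  refine Set.ncard_le_ncard ?_ ((Set.finite_Ioc u (u + T)).subset fun k hk => ⟨hk.1, hk.2.1⟩)
  intro j hj
  obtain ⟨h1, h2⟩ := mem_filter.1 (mem_coe.1 hj)
  rw [mem_Ioc] at h1
  exact ⟨h1.1, h1.2, h2⟩

end Pool.Agent.V11150.NarT
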