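import Pool.Agent.Y827.RO.LamR

/-!
# The coloured Maynard-Tao theorem with the constant `18 / 5` for fixed linear forms, with a power of
the logarithm

From `Pool.Agent.Y827.RO.lamR0` (starting files).
-/

set_option autoImplicit false

namespace Pool.Agent.V11150.RatC

open Finset Filter Pool.Agent.Y827.RO Pool.Agent.Y827.GS

/-- `F` has at least `x / (log x) ^ C` elements up to `x`, for arbitrarily large `x` -/
def Often (C : ℕ) (F : Set ℕ) : Prop :=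
  ∃ᶠ x : ℕ in atTop, (x : ℝ) / (Real.log x) ^ C ≤ ({n : ℕ | n ∈ F ∧ n ≤ x}.ncard : ℝ)

theorem fin_le (F : Set ℕ) (x : ℕ) : {n : ℕ | n ∈ F ∧ n ≤ x}.Finite :=
  (Set.finite_Iic x).subset fun _ h => h.2

theorem Often.mono {C : ℕ} {F G : Set ℕ} (h : Often C F) (hFG : F ⊆ G) : Often C G := by
  refine Filter.Frequently.mono h fun x hx => hx.trans ?_
  rw [Nat.cast_le]
  exact Set.ncard_le_ncard (fun n hn => ⟨hFG hn.1, hn.2⟩) (fin_le G x)

theorem logs (c : ℝ) (hc : 0 < c) (k C : ℕ) (h : k + 1 ≤ C) : ∀ᶠ N : ℕ in atTop,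
    (N : ℝ) / (Real.log N) ^ C ≤ c * (N / (Real.log N) ^ k) := by
  have hlog : ∀ᶠ N : ℕ in atTop, max (1 / c) 1 ≤ Real.log N :=
    (Real.tendsto_log_atTop.comp tendsto_natCast_atTop_atTop).eventually_ge_atTop _
  filter_upwards [hlog] with N hN
  have h1 : 1 / c ≤ Real.log N := (le_max_left _ _).trans hN
  have h2 : 1 ≤ Real.log N := (le_max_right _ _).trans hN
  have h3 : 1 ≤ c * Real.log N := by
    rw [div_le_iff₀ hc] at h1
    linarith
  have hNr : (0 : ℝ) ≤ N := Nat.cast_nonneg _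
  calc (N : ℝ) / (Real.log N) ^ C ≤ N / (Real.log N) ^ (k + 1) := by
        apply div_le_div_of_nonneg_left hNr (by positivity)
        exact pow_le_pow_right₀ h2 h
    _ ≤ c * (N / (Real.log N) ^ k) := by
        rw [pow_succ, ← div_div, div_le_iff₀ (by linarith)]
        have h4 : 0 ≤ (N : ℝ) / Real.log N ^ k := by positivity
        nlinarith

/-- the image of `F` under an injective map bounded by `D (n + 1)` -/
theorem Often.image {C : ℕ} {F G : Set ℕ} (h : Often C F) (f : ℕ → ℕ) (D : ℕ)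
    (hf : ∀ n ∈ F, f n ∈ G ∧ f n ≤ D * (n + 1)) (hinj : Set.InjOn f F) : Often (C + 1) G := by
  obtain ⟨E, hE⟩ : ∃ E : ℕ, E = 2 * D + 1 := ⟨_, rfl⟩
  have hE0 : 0 < E := by omega
  have hlim : Tendsto (fun N : ℕ => E * N) atTop atTop :=
    tendsto_id.const_mul_atTop' hE0
  refine hlim.frequently ((h.and_eventually ((logs (1 / E) (by positivity) C (C + 1) le_rfl).and
    ((eventually_ge_atTop 1).and ((Real.tendsto_log_atTop.comp
      tendsto_natCast_atTop_atTop).eventually_ge_atTop 1)))).mono ?_)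
  rintro N ⟨h1, h2, h3, h4⟩
  have h4' : 1 ≤ Real.log N := h4
  have hEr : (1 : ℝ) ≤ E := by exact_mod_cast hE0
  have hNr : (1 : ℝ) ≤ N := by exact_mod_cast h3
  have e1 : ((E * N : ℕ) : ℝ) / (Real.log ((E * N : ℕ) : ℝ)) ^ (C + 1) ≤ N / (Real.log N) ^ C := by
    have e2 : Real.log N ≤ Real.log ((E * N : ℕ) : ℝ) := by
      apply Real.log_le_log (by linarith)
      push_cast
      nlinarith
    calc ((E * N : ℕ) : ℝ) / (Real.log ((E * N : ℕ) : ℝ)) ^ (C + 1)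
        ≤ ((E * N : ℕ) : ℝ) / (Real.log N) ^ (C + 1) :=
          div_le_div_of_nonneg_left (Nat.cast_nonneg _) (by positivity)
            (pow_le_pow_left₀ (by linarith) e2 _)
      _ = E * (N / (Real.log N) ^ (C + 1)) := by push_cast; ring
      _ ≤ E * (1 / E * (N / (Real.log N) ^ C)) :=
          mul_le_mul_of_nonneg_left h2 (by linarith)
      _ = _ := by field_simp
  refine e1.trans (h1.trans ?_)
  rw [Nat.cast_le]
  refine Set.ncard_le_ncard_of_injOn f ?_ (hinj.mono fun n hn => hn.1) (fin_le G _)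
  rintro n ⟨hn, hnN⟩
  obtain ⟨g1, g2⟩ := hf n hn
  refine ⟨g1, g2.trans ?_⟩
  rw [hE]
  nlinarith

/-- the coloured theorem for fixed forms -/
theorem coloured (T M : ℕ) (hT : 1 ≤ T) (hTM : (18 / 5 : ℝ) * M < T) : ∃ K : ℕ, 1 ≤ K ∧ ∃ C : ℕ,
    ∀ (a b : Fin T → Fin K → ℤ), (∀ g i, 0 < a g i) →
    Function.Injective (fun x : Fin T × Fin K => (a x.1 x.2, b x.1 x.2)) →
    (∀ p : ℕ, p.Prime → ∃ n : ℤ, ∀ g i, ¬ ((p : ℤ) ∣ a g i * n + b g i)) →
    ∃ (S : Finset (Fin T)) (σ : Fin T → Fin K), M + 1 ≤ S.card ∧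
      Often C {n : ℕ | ∀ g ∈ S, (a g (σ g) * (n : ℤ) + b g (σ g)).toNat.Prime} := by
  classical
  obtain ⟨K, hK, δ, hδ, H⟩ := lamR0 T M hT hTM
  refine ⟨K, hK, T * K + 2, ?_⟩
  intro a b ha hinj hadm
  obtain ⟨A, hA⟩ : ∃ A : ℕ, ∀ g i, |a g i| ≤ A := by
    refine ⟨∑ x : Fin T × Fin K, (a x.1 x.2).natAbs, fun g i => ?_⟩
    rw [Int.abs_eq_natAbs]
    exact_mod_cast single_le_sum (f := fun x : Fin T × Fin K => (a x.1 x.2).natAbs)
      (fun _ _ => Nat.zero_le _) (mem_univ (g, i))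
  obtain ⟨B, hB⟩ : ∃ B : ℕ, ∀ g i, |b g i| ≤ B := by
    refine ⟨∑ x : Fin T × Fin K, (b x.1 x.2).natAbs, fun g i => ?_⟩
    rw [Int.abs_eq_natAbs]
    exact_mod_cast single_le_sum (f := fun x : Fin T × Fin K => (b x.1 x.2).natAbs)
      (fun _ _ => Nat.zero_le _) (mem_univ (g, i))
  have hcop : ∀ g i, IsCoprime (a g i) (b g i) := by
    intro g i
    rw [Int.isCoprime_iff_gcd_eq_one]
    by_contra hne
    obtain ⟨p, hp, hpd⟩ := Nat.exists_prime_and_dvd hne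
    have h1 : (p : ℤ) ∣ (Int.gcd (a g i) (b g i) : ℤ) := Int.natCast_dvd_natCast.2 hpd
    obtain ⟨n, hn⟩ := hadm p hp
    exact hn g i (dvd_add (Dvd.dvd.mul_right (h1.trans (Int.gcd_dvd_left _ _)) _)
      (h1.trans (Int.gcd_dvd_right _ _)))
  obtain ⟨s₀, c, hc, H⟩ := H A
  -- a set and a choice for every large `N`
  have key : ∀ᶠ N : ℕ in atTop, ∃ x : Finset (Fin T) × (Fin T → Fin K), M + 1 ≤ x.1.card ∧
      (N : ℝ) / (Real.log N) ^ (T * K + 2) ≤ ({n : ℕ | n ∈ {n : ℕ | ∀ g ∈ x.1,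
        (a g (x.2 g) * (n : ℤ) + b g (x.2 g)).toNat.Prime} ∧ n ≤ N}.ncard : ℝ) := by
    filter_upwards [H, logs c hc (T * K + 1) (T * K + 2) le_rfl,
      eventually_ge_atTop (48 * B + 1)] with N hN hlog hNB
    have hNBr : 48 * (B : ℝ) + 1 ≤ N := by exact_mod_cast hNB
    obtain ⟨s, S, σ, -, -, -, hS, hcnt⟩ := hN (fun g i => (a g i, b g i)) hinj (by
      intro g i
      have hBr : |((b g i : ℤ) : ℝ)| ≤ B := by exact_mod_cast hB g i
      refine ⟨(ha g i).ne', hA g i, ?_, hcop g i, ?_⟩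
      · have h1 := hB g i
        have h2 : (48 * B + 1 : ℤ) ≤ N := by exact_mod_cast hNB
        have h3 : (0 : ℤ) ≤ B := Nat.cast_nonneg _
        show |b g i| ≤ N
        linarith
      · intro t ht1 ht2
        show (N : ℝ) / 24 ≤ ((a g i : ℤ) : ℝ) * t + ((b g i : ℤ) : ℝ)
        have h1 : (1 : ℝ) ≤ (a g i : ℤ) := by exact_mod_cast ha g i
        have h2 := neg_abs_le ((b g i : ℤ) : ℝ)
        have h3 : (0 : ℝ) ≤ N := Nat.cast_nonneg _
        have h4 : (0 : ℝ) ≤ B := Nat.cast_nonneg _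
        nlinarith) (fun p hp _ => hadm p hp)
    refine ⟨(S, σ), hS, hlog.trans (hcnt.trans ?_)⟩
    rw [← Set.ncard_coe_finset, Nat.cast_le]
    refine Set.ncard_le_ncard ?_ (fin_le _ N)
    intro n hn
    unfold Rs at hn
    obtain ⟨h1, -, -, -, h5⟩ := mem_filter.1 (mem_coe.1 hn)
    exact ⟨h5, (mem_Icc.1 h1).2⟩
  obtain ⟨x, hx⟩ : ∃ x : Finset (Fin T) × (Fin T → Fin K), ∃ᶠ N : ℕ in atTop, M + 1 ≤ x.1.card ∧
      (N : ℝ) / (Real.log N) ^ (T * K + 2) ≤ ({n : ℕ | n ∈ {n : ℕ | ∀ g ∈ x.1,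
        (a g (x.2 g) * (n : ℤ) + b g (x.2 g)).toNat.Prime} ∧ n ≤ N}.ncard : ℝ) := by
    by_contra hcon
    push Not at hcon
    have h1 : ∀ x : Finset (Fin T) × (Fin T → Fin K), ∀ᶠ N : ℕ in atTop, ¬ (M + 1 ≤ x.1.card ∧
      (N : ℝ) / (Real.log N) ^ (T * K + 2) ≤ ({n : ℕ | n ∈ {n : ℕ | ∀ g ∈ x.1,
        (a g (x.2 g) * (n : ℤ) + b g (x.2 g)).toNat.Prime} ∧ n ≤ N}.ncard : ℝ)) := by
      intro x
      filter_upwards [hcon x] with N hN h
      exact absurd (hN h.1) (not_lt.2 h.2)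
    obtain ⟨N, ⟨x, hx⟩, hN⟩ := (key.and (eventually_all.2 h1)).exists
    exact hN x hx
  refine ⟨x.1, x.2, ?_, hx.mono fun N hN => hN.2⟩
  obtain ⟨N, hN⟩ := hx.exists
  exact hN.1

end Pool.Agent.V11150.RatC
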