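import Pool.Agent.V11150.RatL
import Pool.Agent.V11150.RatC
import Pool.Agent.W432.UB.C1b
import Pool.Agent.W142.TF.FinG
import Pool.Agent.W142.TB.All

/-!
# Prime solutions of the iterated equations: a third of all exponents, and five ninths of the multiples
of suitable numbers
-/

set_option autoImplicit false

namespace Pool.Agent.V11150.RatD

open Finset Filter Pool.Agent.V11150.RatL Pool.Agent.V11150.RatC Pool.Agent.H947R3.GM
open Pool.Agent.W59.GB
open Pool.Agent.W142.TF (windows Cpl select_aux points admN_of' not_Cpl)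
open Pool.Agent.W142.TB (s_maiB)

/-- the exponents `j` for which the `j`-th iterated equation has at least `x / (log x) ^ C` prime
solutions with `q ≤ x`, for arbitrarily large `x` -/
def Sol (C : ℕ) (a b c : ℤ) : Set ℕ :=
  {j | Often C {q : ℕ | q.Prime ∧ ∃ p : ℕ, p.Prime ∧ a ^ j * p - b ^ j * q = cj a b c j}}

theorem toNat_eq {x : ℤ} (h : x.toNat.Prime) : ((x.toNat : ℕ) : ℤ) = x := by
  apply Int.toNat_of_nonneg
  by_contra hcon
  rw [Int.toNat_of_nonpos (by omega)] at h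
  exact Nat.not_prime_zero h

/-- from two forms to an equation -/
theorem sol_of_forms {a b c : ℤ} (ha : 1 ≤ a) (hb : 1 ≤ b) {β : ℕ → ℤ} {J : ℕ}
    (hβ : ∀ i < J, a * β (i + 1) = b * β i + c) {i k : ℕ} (hik : i < k) (hk : k ≤ J) {C : ℕ}
    (h : Often C {n : ℕ | (a ^ (J - i) * b ^ i * (n : ℤ) + β i).toNat.Prime ∧
      (a ^ (J - k) * b ^ k * (n : ℤ) + β k).toNat.Prime}) : k - i ∈ Sol (C + 1) a b c := by
  have hD : (0 : ℤ) < a ^ (J - i) * b ^ i := by positivity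
  refine Often.image h (fun n => (a ^ (J - i) * b ^ i * (n : ℤ) + β i).toNat)
    ((a ^ (J - i) * b ^ i).toNat + (β i).natAbs) ?_ ?_
  · rintro n ⟨h1, h2⟩
    have e1 := toNat_eq h1
    have e2 := toNat_eq h2
    refine ⟨⟨h1, _, h2, ?_⟩, ?_⟩
    · rw [e1, e2]
      have h3 := LL_iter hβ (n : ℤ) i (k - i) (by omega)
      rw [show i + (k - i) = k by omega] at h3
      unfold LL at h3
      linear_combination h3
    · have e3 : (((a ^ (J - i) * b ^ i).toNat : ℕ) : ℤ) = a ^ (J - i) * b ^ i :=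
        Int.toNat_of_nonneg hD.le
      have e4 : β i ≤ ((β i).natAbs : ℕ) := by
        have := le_abs_self (β i)
        rwa [Int.abs_eq_natAbs] at this
      have e5 : (((a ^ (J - i) * b ^ i * (n : ℤ) + β i).toNat : ℕ) : ℤ) ≤
          ((((a ^ (J - i) * b ^ i).toNat + (β i).natAbs) * (n + 1) : ℕ) : ℤ) := by
        rw [e1]
        push_cast
        rw [e3]
        have h0 : (0 : ℤ) ≤ n := Nat.cast_nonneg _
        have h4 : (0 : ℤ) ≤ ((β i).natAbs : ℕ) := Nat.cast_nonneg _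
        push_cast at e4 h4
        nlinarith
      exact_mod_cast e5
  · intro n hn n' hn' hnn
    have e1 := toNat_eq hn.1
    have e2 := toNat_eq hn'.1
    have h1 : (((a ^ (J - i) * b ^ i * (n : ℤ) + β i).toNat : ℕ) : ℤ) =
        (((a ^ (J - i) * b ^ i * (n' : ℤ) + β i).toNat : ℕ) : ℤ) := by
      exact_mod_cast hnn
    rw [e1, e2] at h1
    have h2 : a ^ (J - i) * b ^ i * (n : ℤ) = a ^ (J - i) * b ^ i * (n' : ℤ) := by linarith
    exact_mod_cast mul_left_cancel₀ hD.ne' h2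

/-- the conclusion of the coloured theorem -/
def Col (T M K C : ℕ) : Prop :=
  ∀ (a b : Fin T → Fin K → ℤ), (∀ g i, 0 < a g i) →
    Function.Injective (fun x : Fin T × Fin K => (a x.1 x.2, b x.1 x.2)) →
    (∀ p : ℕ, p.Prime → ∃ n : ℤ, ∀ g i, ¬ ((p : ℤ) ∣ a g i * n + b g i)) →
    ∃ (S : Finset (Fin T)) (σ : Fin T → Fin K), M + 1 ≤ S.card ∧
      Often C {n : ℕ | ∀ g ∈ S, (a g (σ g) * (n : ℤ) + b g (σ g)).toNat.Prime}

/-- classes of exponents, admissible at the primes not dividing `N` -/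
theorem classes_rat (a b c : ℤ) (ha : 1 ≤ a) (hb : 1 ≤ b) (hc : c ≠ 0) (hab : IsCoprime a b)
    (hac : IsCoprime a c) (hbc : IsCoprime b c) (hpar : ¬ (Odd a ∧ Odd b ∧ Odd c)) {T M K C : ℕ}
    (hQ : Col T M K C) (N : ℕ)
    (hN : ∀ p : ℕ, p.Prime → p ∣ N → (p : ℤ) ∣ a - b → (p : ℤ) ∣ c)
    (H : Fin T → Fin K → ℕ) (hH : AdmN N H) :
    ∃ (S : Finset (Fin T)) (t : Fin T → Fin K), M + 1 ≤ S.card ∧
      ∀ g ∈ S, ∀ g' ∈ S, H g (t g) < H g' (t g') →
        H g' (t g') - H g (t g) ∈ Sol (C + 1) a b c := by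
  classical
  obtain ⟨hinj, hadm⟩ := hH
  obtain ⟨J, hJ⟩ : ∃ J : ℕ, ∀ x : Fin T × Fin K, H x.1 x.2 + 1 < J :=
    ⟨(univ.sup fun x : Fin T × Fin K => H x.1 x.2) + 2, fun x => by
      have := le_sup (f := fun x : Fin T × Fin K => H x.1 x.2) (mem_univ x)
      omega⟩
  obtain ⟨β, hβ⟩ := exists_beta a b c (by omega) hab J
  have hHJ : ∀ x : Fin T × Fin K, 1 ≤ H x.1 x.2 + 1 ∧ H x.1 x.2 + 1 < J :=
    fun x => ⟨by omega, hJ x⟩
  obtain ⟨S, t, hS, hBig⟩ := hQ (fun g i => a ^ (J - (H g i + 1)) * b ^ (H g i + 1))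
    (fun g i => β (H g i + 1))
    (fun g i => by positivity)
    (by
      rintro x y h
      simp only [Prod.mk.injEq] at h
      have h1 := forms_inj ha hb hc hab hβ (hHJ x).2.le (hHJ y).2.le h.1 h.2
      exact hinj (show H x.1 x.2 = H y.1 y.2 by omega))
    (by
      intro p hp
      obtain ⟨n, hn⟩ := rat_admissible hab hac hbc hpar hβ (fun x : Fin T × Fin K => H x.1 x.2 + 1)
        hHJ hp (by
        intro _ hp1 hpc
        obtain ⟨n, hn⟩ := hadm p hp (fun hpN => hpc (hN p hp hpN hp1))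
        have hp0 : (0 : ℤ) < p := by exact_mod_cast hp.pos
        refine rat_miss hβ (fun x : Fin T × Fin K => H x.1 x.2 + 1) (fun x => (hHJ x).2.le) hp
          (bad_not_dvd hab hp hp1).1 hp1 hpc (((-n) % p).toNat + 1) ?_
        rintro ⟨g, i⟩ h
        have h := Nat.ModEq.add_right_cancel' 1 h
        apply hn g i
        have h3 : ((H g i : ℕ) : ℤ) ≡ (((-n) % p).toNat : ℤ) [ZMOD p] := by
          exact_mod_cast (Int.natCast_modEq_iff).2 h
        rw [Int.toNat_of_nonneg (Int.emod_nonneg _ hp0.ne')] at h3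
        have h4 : ((H g i : ℕ) : ℤ) ≡ -n [ZMOD p] := h3.trans (Int.mod_modEq _ _)
        have h5 := (Int.modEq_iff_dvd.1 h4.symm)
        have h6 : ((H g i : ℕ) : ℤ) - -n = n + H g i := by ring
        rwa [h6] at h5)
      exact ⟨n, fun g i => hn (g, i)⟩)
  refine ⟨S, t, hS, ?_⟩
  intro g hgS g' hgS' hlt
  have h4 := sol_of_forms ha hb hβ (show H g (t g) + 1 < H g' (t g') + 1 by omega)
    (hHJ (g', t g')).2.le (hBig.mono fun n hn => ⟨hn g hgS, hn g' hgS'⟩)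
  rwa [Nat.add_sub_add_right] at h4

/-- **a third of all exponents, in every long window** -/
theorem third : ∃ C : ℕ, ∀ a b c : ℤ, 1 ≤ a → 1 ≤ b → c ≠ 0 → IsCoprime a b →
    IsCoprime a c → IsCoprime b c → ¬ (Odd a ∧ Odd b ∧ Odd c) → ∀ ε : ℝ, 0 < ε →
    ∃ L : ℕ, ∀ T : ℕ, L ≤ T → ∀ u : ℕ,
      (1 / 3 - ε) * (T : ℝ) ≤ ({j : ℕ | u < j ∧ j ≤ u + T ∧ j ∈ Sol C a b c}.ncard : ℝ) := by
  classical
  obtain ⟨K, hK, C, hQ⟩ := coloured 4 1 (by norm_num) (by norm_num)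
  refine ⟨C + 1, ?_⟩
  intro a b c ha hb hc hab hac hbc hpar ε hε
  obtain ⟨L, hL⟩ := Pool.Agent.W432.UB.main 2 (Sol (C + 1) a b c) dvd_rfl ⟨K, hK, by
    intro H hH
    obtain ⟨S, t, hS, h⟩ := classes_rat a b c ha hb hc hab hac hbc hpar hQ 2 (by
      intro p hp hp2 hp1
      have hp2' : p = 2 := (Nat.prime_dvd_prime_iff_eq hp Nat.prime_two).1 hp2
      subst hp2'
      by_contra h4
      obtain ⟨h5, h6⟩ := bad_not_dvd hab Nat.prime_two hp1
      apply hpar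
      rw [← Int.not_even_iff_odd, ← Int.not_even_iff_odd, ← Int.not_even_iff_odd]
      exact ⟨fun h => h5 (by exact_mod_cast h.two_dvd), fun h => h6 (by exact_mod_cast h.two_dvd),
        fun h => h4 (by exact_mod_cast h.two_dvd)⟩) H hH
    have hS2 : 1 < S.card := by omega
    obtain ⟨g, hg', g', hg'', hne⟩ := Finset.one_lt_card.1 hS2
    have hHne : H g (t g) ≠ H g' (t g') := by
      intro h
      exact hne (congrArg Prod.fst (hH.1 (a₁ := (g, t g)) (a₂ := (g', t g')) h))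
    rcases lt_or_gt_of_ne hHne with h1 | h1
    · exact ⟨g, g', t g, t g', hne, h1, h g hg' g' hg'' h1⟩
    · exact ⟨g', g, t g', t g, hne.symm, h1, h g' hg'' g hg' h1⟩⟩ ε hε
  refine ⟨L, fun T hT u => (hL T hT u).trans ?_⟩
  rw [win_eq, ← Set.ncard_coe_finset, Nat.cast_le]
  refine Set.ncard_le_ncard ?_ ((Set.finite_Ioc u (u + T)).subset fun k hk => ⟨hk.1, hk.2.1⟩)
  intro j hj
  obtain ⟨h1, h2⟩ := mem_filter.1 (mem_coe.1 hj)
  rw [mem_Ioc] at h1
  exact ⟨h1.1, h1.2, h2⟩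

/-- **five ninths of the multiples of suitable numbers** -/
theorem fiveNinths (ε : ℝ) (hε : 0 < ε) : ∃ C : ℕ, ∀ a b c : ℤ, 1 ≤ a → 1 ≤ b → c ≠ 0 →
    IsCoprime a b → IsCoprime a c → IsCoprime b c → ¬ (Odd a ∧ Odd b ∧ Odd c) →
    ∃ M : ℕ, 0 < M ∧ ∀ N : ℕ, 0 < N → M ∣ N → ∃ L : ℕ, ∀ T : ℕ, L ≤ T → ∀ u : ℕ,
      (5 / 9 - ε) * (T : ℝ) ≤ ({k : ℕ | u < k ∧ k ≤ u + T ∧ N * k ∈ Sol C a b c}.ncard : ℝ) := by
  classical
  obtain ⟨lam, hlam⟩ : ∃ lam : ℝ, lam = 18 / 5 := ⟨_, rfl⟩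
  rw [show (5 / 9 : ℝ) = 2 / lam by rw [hlam]; norm_num]
  obtain ⟨β, hβ⟩ : ∃ β : ℝ, β = 1 / lam := ⟨_, rfl⟩
  have h4 : 0 < lam := by linarith
  have hβ5 : 1 / 5 ≤ β := by
    rw [hβ, div_le_div_iff₀ (by norm_num) h4]; linarith
  have hβ2 : β ≤ 1 / 2 := by
    rw [hβ, div_le_div_iff₀ h4 (by norm_num)]; linarith
  have hβc : 2 / lam = 2 * β := by rw [hβ]; ring
  obtain ⟨n₀, hn₀⟩ := s_maiB β hβ5 hβ2 ε hε
  obtain ⟨n, hn⟩ : ∃ n, n = max n₀ 1 := ⟨_, rfl⟩
  have hnn₀ : n₀ ≤ n := by omega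
  have hn1 : 1 ≤ n := by omega
  have hn1' : (1 : ℝ) ≤ n := by exact_mod_cast hn1
  -- the number of classes
  obtain ⟨M', hM'⟩ : ∃ M', M' = ⌈β * n⌉₊ - 1 := ⟨_, rfl⟩
  have hβn : 0 < β * n := by positivity
  have hceil : 0 < ⌈β * n⌉₊ := Nat.ceil_pos.2 hβn
  have hM'1 : M' + 1 = ⌈β * n⌉₊ := by omega
  have hM'lt : (M' : ℝ) < β * n := by
    have h := Nat.ceil_lt_add_one hβn.le
    have h2 : ((M' + 1 : ℕ) : ℝ) = (⌈β * n⌉₊ : ℝ) := by rw [hM'1]
    push_cast at h2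
    linarith
  have hM'n : lam * M' < n := by
    have h : lam * M' < lam * (β * n) := mul_lt_mul_of_pos_left hM'lt h4
    have e : lam * (β * n) = n := by rw [hβ]; field_simp
    linarith
  obtain ⟨K, hK, C, hQ⟩ := coloured n M' hn1 (by rw [← hlam]; exact hM'n)
  refine ⟨C + 1, ?_⟩
  intro a b c ha hb hc hab hac hbc hpar
  obtain ⟨M, hM, hall⟩ := windows (Sol (C + 1) a b c) (n * K).factorial (Nat.factorial_pos _)
    (2 * β) ε (fun hall => by
      obtain ⟨Q, A, s, hs, hQ1, hinj, hcr⟩ := hn₀ n hnn₀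
        {k : ℤ | (((n * K).factorial : ℕ) : ℤ) * k ∈ Cpl (Sol (C + 1) a b c)}
        (fun M hM => by
          obtain ⟨Q, h1, h2, h3⟩ := hall M hM
          exact ⟨Q, h1, h2, fun L₀ => h3 L₀⟩) (n * K)
      -- distinct points
      obtain ⟨σ, hσ1, hσ2⟩ := select_aux n K (fun g i => (Q g : ℤ) * A g i) (fun g => by
        intro x hx y hy hxy
        have hQ0 : (Q g : ℤ) ≠ 0 := by have := hQ1 g; omega
        exact hinj g hx hy (mul_left_cancel₀ hQ0 hxy)) n le_rfl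
      obtain ⟨H, D, hH⟩ := points n K (n * K).factorial Q (fun g i => A g (σ g i))
      have hM0 : (((n * K).factorial : ℕ) : ℤ) ≠ 0 := by
        exact_mod_cast (Nat.factorial_pos (n * K)).ne'
      have hHinj : ∀ (g g' : Fin n) (i i' : Fin K), H g i = H g' i' → g = g' ∧ i = i' := by
        intro g g' i i' h
        have e : (((n * K).factorial : ℕ) : ℤ) * (Q g * A g (σ g i) + D) =
            ((n * K).factorial : ℕ) * (Q g' * A g' (σ g' i') + D) := by rw [← hH, ← hH, h]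
        have e1 := mul_left_cancel₀ hM0 e
        have e2 : (Q g : ℤ) * A g (σ g i) = Q g' * A g' (σ g' i') := by linarith
        have e3 := hσ2 g g.2 g' g'.2 i i.2 i' i'.2 e2
        exact ⟨Fin.ext e3.1, Fin.ext e3.2⟩
      have hadm : AdmN 1 H := by
        refine admN_of' H (fun x y h => ?_) fun p hp hle g i => ?_
        · have := hHinj x.1 y.1 x.2 y.2 h
          exact Prod.ext this.1 this.2
        · rw [hH]
          exact Dvd.dvd.mul_right (Int.natCast_dvd_natCast.2 (Nat.dvd_factorial hp.pos hle)) _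
      obtain ⟨S, t, hS, hB⟩ := classes_rat a b c ha hb hc hab hac hbc hpar hQ 1
        (fun p hp hp1 => absurd (Nat.dvd_one.1 hp1) hp.one_lt.ne') H hadm
      obtain ⟨i, hi, j, hj, hij⟩ := hs.2 (S.map Fin.valEmbedding) (fun x hx => by
        rw [Finset.mem_map] at hx
        obtain ⟨y, _, rfl⟩ := hx
        exact mem_range.2 y.2) (by
          rw [card_map]
          refine (Nat.le_ceil _).trans ?_
          rw [← hM'1]
          exact_mod_cast hS)
      rw [Finset.mem_map] at hi hj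
      obtain ⟨i', hi', rfl⟩ := hi
      obtain ⟨j', hj', rfl⟩ := hj
      have hd := hcr j' j'.2 i' hij (σ j' (t j')) (σ i' (t i')) (hσ1 _ j'.2 _ (t j').2)
        (hσ1 _ i'.2 _ (t i').2)
      have h := not_Cpl D (hH j' (t j')) (hH i' (t i')) hd
      rcases lt_or_gt_of_ne h.1 with hlt | hlt
      · exact h.2.1 hlt (hB j' hj' i' hi' hlt)
      · exact h.2.2 hlt (hB i' hi' j' hj' hlt))
  refine ⟨M, hM, fun N hN hd => ?_⟩
  obtain ⟨L, hL⟩ := hall N hN hd
  refine ⟨L, fun T hT u => le_trans ?_ (hL T hT u)⟩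
  exact mul_le_mul_of_nonneg_right (by linarith) (Nat.cast_nonneg _)

end Pool.Agent.V11150.RatD
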