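import Pool.Agent.V11150.RatD

/-!
# Isolated consecutive primes in the orbits of `x ↦ (b x + c) / a`: a third of all times
-/

set_option autoImplicit false

namespace Pool.Agent.V11150.RatG

open Finset Filter Pool.Agent.V11150.RatL Pool.Agent.V11150.RatC Pool.Agent.V11150.RatD
open Pool.Agent.H947R3.GM Pool.Agent.W59.GB

/-- points of given sets, at distance more than `R` (copied from `Pool.Agent.Y862.Win3`) -/
theorem spaced {ι : Type*} [Fintype ι] [DecidableEq ι] (R : ℕ) (A : ι → Finset ℕ)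
    (hA : ∀ i, (2 * R + 1) * Fintype.card ι ≤ (A i).card) :
    ∃ H : ι → ℕ, (∀ i, H i ∈ A i) ∧ ∀ i j, i ≠ j → H i + R < H j ∨ H j + R < H i := by
  have key : ∀ s : Finset ι, ∃ H : ι → ℕ, (∀ i ∈ s, H i ∈ A i) ∧
      ∀ i ∈ s, ∀ j ∈ s, i ≠ j → H i + R < H j ∨ H j + R < H i := by
    intro s
    induction s using Finset.induction_on with
    | empty => exact ⟨fun _ => 0, by simp, by simp⟩
    | insert a s ha ih =>
      obtain ⟨H, h1, h2⟩ := ih
      have h3 : (s.biUnion fun i => Icc (H i - R) (H i + R)).card ≤ s.card * (2 * R + 1) := by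
        refine card_biUnion_le_card_mul _ _ _ fun i _ => ?_
        rw [Nat.card_Icc]
        omega
      have h4 : s.card + 1 ≤ Fintype.card ι := by
        rw [← card_insert_of_notMem ha]
        exact card_le_univ _
      have h5 : (s.biUnion fun i => Icc (H i - R) (H i + R)).card < (A a).card := by
        refine lt_of_le_of_lt h3 (lt_of_lt_of_le ?_ (hA a))
        have h6 : s.card * (2 * R + 1) < (s.card + 1) * (2 * R + 1) := by
          have : (s.card + 1) * (2 * R + 1) = s.card * (2 * R + 1) + (2 * R + 1) := by ring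
          omega
        refine lt_of_lt_of_le h6 ?_
        rw [mul_comm]
        exact Nat.mul_le_mul_left _ h4
      obtain ⟨x, hx1, hx2⟩ := exists_mem_notMem_of_card_lt_card h5
      refine ⟨Function.update H a x, ?_, ?_⟩
      · intro i hi
        rcases mem_insert.1 hi with rfl | hi'
        · rwa [Function.update_self]
        · have hne : i ≠ a := fun h => ha (h ▸ hi')
          rw [Function.update_of_ne hne]
          exact h1 i hi'
      · have hfar : ∀ i ∈ s, H i + R < x ∨ x + R < H i := by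
          intro i hi
          by_contra hcon
          push Not at hcon
          exact hx2 (mem_biUnion.2 ⟨i, hi, mem_Icc.2 ⟨by omega, by omega⟩⟩)
        intro i hi j hj hij
        rcases mem_insert.1 hi with hia | hi' <;> rcases mem_insert.1 hj with hja | hj'
        · exact absurd (hia.trans hja.symm) hij
        · have hne : j ≠ a := fun h => ha (h ▸ hj')
          rw [hia, Function.update_self, Function.update_of_ne hne]
          exact (hfar j hj').symm
        · have hne : i ≠ a := fun h => ha (h ▸ hi')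
          rw [hja, Function.update_self, Function.update_of_ne hne]
          exact hfar i hi'
        · have hne : i ≠ a := fun h => ha (h ▸ hi')
          have hne' : j ≠ a := fun h => ha (h ▸ hj')
          rw [Function.update_of_ne hne, Function.update_of_ne hne']
          exact h2 i hi' j hj' hij
  obtain ⟨H, h1, h2⟩ := key univ
  exact ⟨H, fun i => h1 i (mem_univ i), fun i j => h2 i (mem_univ i) j (mem_univ j)⟩

/-- a finite cover of a set with many elements has a member with many elements -/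
theorem often_cover {ι : Type*} [Finite ι] {C : ℕ} (F : ι → Set ℕ) (G : Set ℕ) (hG : Often C G)
    (hcov : ∀ n ∈ G, ∃ i, n ∈ F i) : ∃ i, Often (C + 1) (F i) := by
  classical
  have := Fintype.ofFinite ι
  by_contra hcon
  push Not at hcon
  have h1 : ∀ i, ∀ᶠ x : ℕ in atTop, ¬ ((x : ℝ) / (Real.log x) ^ (C + 1) ≤
      ({n : ℕ | n ∈ F i ∧ n ≤ x}.ncard : ℝ)) := by
    intro i
    have := hcon i
    unfold Often at this
    rwa [Filter.not_frequently] at this
  obtain ⟨x, hx, hx1, hx2, hx3⟩ := (Filter.Frequently.and_eventually hG ((eventually_all.2 h1).and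
    ((eventually_ge_atTop 1).and ((Real.tendsto_log_atTop.comp
      tendsto_natCast_atTop_atTop).eventually_ge_atTop (Fintype.card ι + 1 : ℝ))))).exists
  have hx3' : (Fintype.card ι + 1 : ℝ) ≤ Real.log x := hx3
  have hcard : (0 : ℝ) ≤ Fintype.card ι := Nat.cast_nonneg _
  have hlog : 0 < Real.log x := by linarith
  have h2 : ({n : ℕ | n ∈ G ∧ n ≤ x}.ncard : ℝ) ≤
      ∑ i, ({n : ℕ | n ∈ F i ∧ n ≤ x}.ncard : ℝ) := by
    have hsub : {n : ℕ | n ∈ G ∧ n ≤ x} ⊆ ⋃ i ∈ (univ : Finset ι), {n : ℕ | n ∈ F i ∧ n ≤ x} := by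
      rintro n ⟨hn, hnx⟩
      obtain ⟨i, hi⟩ := hcov n hn
      exact Set.mem_iUnion₂.2 ⟨i, mem_univ i, hi, hnx⟩
    have hfin : (⋃ i ∈ (univ : Finset ι), {n : ℕ | n ∈ F i ∧ n ≤ x}).Finite :=
      Set.Finite.biUnion (univ : Finset ι).finite_toSet (fun i _ => fin_le _ _)
    have h3 := Set.ncard_le_ncard hsub hfin
    have h4 : (⋃ i ∈ (univ : Finset ι), {n : ℕ | n ∈ F i ∧ n ≤ x}).ncard ≤
        ∑ i, {n : ℕ | n ∈ F i ∧ n ≤ x}.ncard :=
      Finset.set_ncard_biUnion_le _ _
    exact_mod_cast h3.trans h4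
  have h5 : ∑ i, ({n : ℕ | n ∈ F i ∧ n ≤ x}.ncard : ℝ) ≤
      Fintype.card ι * ((x : ℝ) / (Real.log x) ^ (C + 1)) := by
    calc _ ≤ ∑ _i : ι, (x : ℝ) / (Real.log x) ^ (C + 1) :=
          sum_le_sum fun i _ => (not_le.1 (hx1 i)).le
      _ = _ := by rw [sum_const, card_univ, nsmul_eq_mul]
  have h6 : (0 : ℝ) < (x : ℝ) / (Real.log x) ^ (C + 1) := by
    have : (1 : ℝ) ≤ x := by exact_mod_cast hx2
    positivity
  have h7 : (x : ℝ) / (Real.log x) ^ C = Real.log x * ((x : ℝ) / (Real.log x) ^ (C + 1)) := by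
    rw [pow_succ]
    field_simp
  rw [h7] at hx
  nlinarith

/-- congruences which make the terms at all other times composite -/
theorem block {a b c : ℤ} (ha : 1 ≤ a) (hb : 1 ≤ b) (hc : c ≠ 0) {β : ℕ → ℤ} {J : ℕ}
    (hβ : ∀ i < J, a * β (i + 1) = b * β i + c) (pos : Finset ℕ) :
    ∃ Q r : ℕ, 0 < Q ∧
      (∀ t ≤ J, t ∉ pos → ∀ m : ℕ, ¬ (LL a b β J t ((Q * m + r : ℕ) : ℤ)).toNat.Prime) ∧
      (∀ p : ℕ, p.Prime → p ∣ Q → ∀ h ∈ pos, h ≤ J → ¬ (p : ℤ) ∣ LL a b β J h (r : ℤ)) := by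
  classical
  -- a bound
  obtain ⟨B, hBa, hBb, hBc⟩ : ∃ B : ℕ, a ≤ B ∧ b ≤ B ∧ ∀ m ≤ J, |cj a b c m| ≤ B := by
    refine ⟨a.natAbs + b.natAbs + ∑ m ∈ range (J + 1), (cj a b c m).natAbs, ?_, ?_, ?_⟩
    · have h1 := le_abs_self a
      rw [Int.abs_eq_natAbs] at h1
      push_cast at h1 ⊢
      have h2 := abs_nonneg b
      have h3 : (0 : ℤ) ≤ ∑ m ∈ range (J + 1), |cj a b c m| := sum_nonneg fun _ _ => abs_nonneg _
      linarith
    · have h1 := le_abs_self b
      have h2 := abs_nonneg a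
      push_cast
      have h3 : (0 : ℤ) ≤ ∑ m ∈ range (J + 1), |cj a b c m| := sum_nonneg fun _ _ => abs_nonneg _
      linarith
    · intro m hm
      have h1 := abs_nonneg a
      have h2 := abs_nonneg b
      have h3 : |cj a b c m| ≤ ∑ m ∈ range (J + 1), |cj a b c m| :=
        single_le_sum (f := fun m => |cj a b c m|) (fun _ _ => abs_nonneg _)
          (mem_range.2 (by omega))
      push_cast
      linarith
  set q : ℕ → ℕ := fun t => Nat.nth Nat.Prime (B + t) with hq
  have hqp : ∀ t, (q t).Prime := fun t => Nat.prime_nth_prime _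
  have hqB : ∀ t, B < q t := fun t => by
    have := Nat.add_two_le_nth_prime (B + t)
    simp only [hq]; omega
  have hqinj : Function.Injective q := by
    intro s t hst
    have := Nat.nth_injective Nat.infinite_setOfPred_prime hst
    omega
  set U : Finset ℕ := (range (J + 1)).filter fun t => t ∉ pos with hU
  have hpair : Set.Pairwise (U : Set ℕ) (Function.onFun Nat.Coprime q) := by
    intro s _ t _ hst
    exact (Nat.coprime_primes (hqp s) (hqp t)).2 fun h => hst (hqinj h)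
  -- `q t` does not divide `a` and `b`
  have hqnd : ∀ t, ∀ x : ℤ, 1 ≤ x → x ≤ B → ¬ (q t : ℤ) ∣ x := by
    intro t x hx1 hx2 hd
    have h1 := Int.le_of_dvd (by omega) hd
    have h2 : (B : ℤ) < q t := by exact_mod_cast hqB t
    omega
  have hz : ∀ t, ∃ z : ℕ, (q t : ℤ) ∣ LL a b β J t z := by
    intro t
    have hpp := Nat.prime_iff_prime_int.1 (hqp t)
    have hcop : IsCoprime (a ^ (J - t) * b ^ t) (q t : ℤ) := by
      apply isCoprime_of_forall_prime
      rintro s hs ⟨h1, h2⟩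
      have h3 := (Nat.prime_dvd_prime_iff_eq hs (hqp t)).1 (Int.natCast_dvd_natCast.1 h2)
      subst h3
      rcases hpp.dvd_or_dvd h1 with h4 | h4
      · exact hqnd t a ha hBa (hpp.dvd_of_dvd_pow h4)
      · exact hqnd t b hb hBb (hpp.dvd_of_dvd_pow h4)
    obtain ⟨u, v, huv⟩ := hcop
    have hq0 : (0 : ℤ) < q t := by exact_mod_cast (hqp t).pos
    refine ⟨((-(β t) * u) % (q t : ℤ)).toNat, ?_⟩
    rw [Int.toNat_of_nonneg (Int.emod_nonneg _ hq0.ne')]
    have h1 : (q t : ℤ) ∣ (-(β t) * u) - (-(β t) * u) % (q t : ℤ) := Int.dvd_self_sub_emod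
    obtain ⟨w, hw⟩ := h1
    unfold LL
    refine ⟨β t * v - a ^ (J - t) * b ^ t * w, ?_⟩
    have h2 : (-(β t) * u) % (q t : ℤ) = -(β t) * u - q t * w := by linarith
    rw [h2]
    linear_combination (-(β t)) * huv
  choose z hz using hz
  obtain ⟨r₀, hr₀⟩ := Nat.chineseRemainderOfFinset z q U (fun t _ => (hqp t).ne_zero) hpair
  set Q : ℕ := ∏ t ∈ U, q t with hQdef
  have hQ : 0 < Q := prod_pos fun t _ => (hqp t).pos
  obtain ⟨w, hw⟩ : ∃ w : ℕ, ∀ t ≤ J, |β t| + q t < w := by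
    refine ⟨∑ t ∈ range (J + 1), ((β t).natAbs + q t) + 1, fun t ht => ?_⟩
    have h1 : (β t).natAbs + q t ≤ ∑ t ∈ range (J + 1), ((β t).natAbs + q t) :=
      single_le_sum (f := fun t => (β t).natAbs + q t) (fun _ _ => Nat.zero_le _)
        (mem_range.2 (by omega))
    rw [Int.abs_eq_natAbs]
    exact_mod_cast Nat.lt_succ_of_le h1
  -- divisibility on the whole class
  have hdiv : ∀ t ∈ U, ∀ m : ℕ, (q t : ℤ) ∣ LL a b β J t ((Q * m + (r₀ + Q * w) : ℕ) : ℤ) := by
    intro t ht m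
    have h1 : (q t : ℤ) ∣ ((Q * m + (r₀ + Q * w) : ℕ) : ℤ) - z t := by
      have h2 : (q t : ℤ) ∣ (r₀ : ℤ) - z t := by
        have h3 : z t ≡ r₀ [MOD q t] := (hr₀ t ht).symm
        exact (Nat.modEq_iff_dvd.1 h3)
      have h4 : (q t : ℤ) ∣ (Q : ℤ) := Int.natCast_dvd_natCast.2 (dvd_prod_of_mem q ht)
      have h5 : ((Q * m + (r₀ + Q * w) : ℕ) : ℤ) - z t = Q * (m + w) + (r₀ - z t) := by
        push_cast; ring
      rw [h5]
      exact dvd_add (Dvd.dvd.mul_right h4 _) h2
    have h6 : LL a b β J t ((Q * m + (r₀ + Q * w) : ℕ) : ℤ) =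
        a ^ (J - t) * b ^ t * (((Q * m + (r₀ + Q * w) : ℕ) : ℤ) - z t) + LL a b β J t (z t) := by
      unfold LL; ring
    rw [h6]
    exact dvd_add (Dvd.dvd.mul_left h1 _) (hz t)
  refine ⟨Q, r₀ + Q * w, hQ, ?_, ?_⟩
  · intro t ht htp m hpr
    have htU : t ∈ U := by
      rw [hU, mem_filter, mem_range]; exact ⟨by omega, htp⟩
    have h1 := hdiv t htU m
    have e1 := toNat_eq hpr
    rw [← e1] at h1
    have h2 : q t ∣ (LL a b β J t ((Q * m + (r₀ + Q * w) : ℕ) : ℤ)).toNat :=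
      Int.natCast_dvd_natCast.1 h1
    have h3 : q t = (LL a b β J t ((Q * m + (r₀ + Q * w) : ℕ) : ℤ)).toNat :=
      (Nat.prime_dvd_prime_iff_eq (hqp t) hpr).1 h2
    have h4 : LL a b β J t ((Q * m + (r₀ + Q * w) : ℕ) : ℤ) = q t := by rw [← e1, ← h3]
    have h5 := hw t ht
    have h6 : (1 : ℤ) ≤ a ^ (J - t) * b ^ t := by
      have : (0 : ℤ) < a ^ (J - t) * b ^ t := by positivity
      omega
    have h7 : (w : ℤ) ≤ ((Q * m + (r₀ + Q * w) : ℕ) : ℤ) := by
      have : w ≤ Q * m + (r₀ + Q * w) := by nlinarith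
      exact_mod_cast this
    have h8 := neg_abs_le (β t)
    unfold LL at h4
    have h9 : (0 : ℤ) ≤ (w : ℤ) := Nat.cast_nonneg _
    nlinarith
  · intro p hp hpQ h hh hhJ hd
    have hpp := Nat.prime_iff_prime_int.1 hp
    obtain ⟨t, htU, hpt⟩ := (hp.prime.dvd_finsetProd_iff _).1 hpQ
    have hpq : p = q t := (Nat.prime_dvd_prime_iff_eq hp (hqp t)).1 hpt
    have h1 := hdiv t htU 0
    rw [Nat.mul_zero, Nat.zero_add, ← hpq] at h1
    have htJ : t ≤ J := by
      have := (mem_filter.1 htU).1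
      rw [mem_range] at this; omega
    have hne : h ≠ t := fun e => (mem_filter.1 htU).2 (e ▸ hh)
    have hbad : ∀ m, 1 ≤ m → m ≤ J → ¬ (p : ℤ) ∣ cj a b c m := by
      intro m hm1 hm2 hd'
      have h2 := hBc m hm2
      have h3 : (B : ℤ) < p := by rw [hpq]; exact_mod_cast hqB t
      exact cj_pos a b c ha hb hc hm1 (Int.eq_zero_of_abs_lt_dvd hd' (by linarith))
    rcases lt_or_gt_of_ne hne with hlt | hlt
    · have h2 := LL_iter hβ ((r₀ + Q * w : ℕ) : ℤ) h (t - h) (by omega)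
      rw [show h + (t - h) = t by omega] at h2
      apply hbad (t - h) (by omega) (by omega)
      have h3 : cj a b c (t - h) = a ^ (t - h) * LL a b β J t ((r₀ + Q * w : ℕ) : ℤ) -
          b ^ (t - h) * LL a b β J h ((r₀ + Q * w : ℕ) : ℤ) := by linarith
      rw [h3]
      exact dvd_sub (Dvd.dvd.mul_left h1 _) (Dvd.dvd.mul_left hd _)
    · have h2 := LL_iter hβ ((r₀ + Q * w : ℕ) : ℤ) t (h - t) (by omega)
      rw [show t + (h - t) = h by omega] at h2
      apply hbad (h - t) (by omega) (by omega)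
      have h3 : cj a b c (h - t) = a ^ (h - t) * LL a b β J h ((r₀ + Q * w : ℕ) : ℤ) -
          b ^ (h - t) * LL a b β J t ((r₀ + Q * w : ℕ) : ℤ) := by linarith
      rw [h3]
      exact dvd_sub (Dvd.dvd.mul_left hd _) (Dvd.dvd.mul_left h1 _)

end Pool.Agent.V11150.RatG
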