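import Mathlib

/-!
# Iterates of the rational map `x ↦ (b x + c) / a`

The elementary lemmas of `Pool.Agent.W25.IT.Rat` (starting files), copied here without the imports of
that file.
-/

set_option autoImplicit false

namespace Pool.Agent.V11150.RatL

open Finset Filter

theorem isCoprime_of_forall_prime {a b : ℤ} (h : ∀ p : ℕ, p.Prime → ¬ ((p : ℤ) ∣ a ∧ (p : ℤ) ∣ b)) :
    IsCoprime a b := by
  rw [Int.isCoprime_iff_gcd_eq_one]
  by_contra hne
  obtain ⟨p, hp, hpd⟩ := Nat.exists_prime_and_dvd hne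
  apply h p hp
  have h1 : (p : ℤ) ∣ (Int.gcd a b : ℤ) := Int.natCast_dvd_natCast.2 hpd
  exact ⟨h1.trans (Int.gcd_dvd_left _ _), h1.trans (Int.gcd_dvd_right _ _)⟩

/-- the right-hand side of the `j`-th iterated equation -/
def cj (a b c : ℤ) (j : ℕ) : ℤ := c * ∑ i ∈ range j, a ^ i * b ^ (j - 1 - i)

theorem cj_zero (a b c : ℤ) : cj a b c 0 = 0 := by simp [cj]

theorem cj_succ (a b c : ℤ) (j : ℕ) : cj a b c (j + 1) = b * cj a b c j + a ^ j * c := by
  unfold cj
  rw [Finset.sum_range_succ]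
  have h1 : ∑ i ∈ range j, a ^ i * b ^ (j + 1 - 1 - i) = b * ∑ i ∈ range j, a ^ i * b ^ (j - 1 - i) := by
    rw [Finset.mul_sum]
    apply Finset.sum_congr rfl
    intro i hi
    have h2 := Finset.mem_range.1 hi
    have h3 : j + 1 - 1 - i = (j - 1 - i) + 1 := by omega
    rw [h3, pow_succ]
    ring
  rw [h1]
  have h4 : j + 1 - 1 - j = 0 := by omega
  rw [h4, pow_zero]
  ring

theorem cj_pos (a b c : ℤ) (ha : 1 ≤ a) (hb : 1 ≤ b) (hc : c ≠ 0) {j : ℕ} (hj : 1 ≤ j) :
    cj a b c j ≠ 0 := by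
  unfold cj
  apply mul_ne_zero hc
  have : 0 < ∑ i ∈ range j, a ^ i * b ^ (j - 1 - i) := by
    apply Finset.sum_pos
    · intro i _; positivity
    · exact ⟨0, Finset.mem_range.2 hj⟩
  exact this.ne'

theorem cj_mod_a {a b c p : ℤ} (hp : p ∣ a) (j : ℕ) : p ∣ cj a b c (j + 1) - b ^ j * c := by
  induction j with
  | zero => simp [cj]
  | succ j ih =>
    rw [cj_succ]
    have h1 : b * cj a b c (j + 1) + a ^ (j + 1) * c - b ^ (j + 1) * c =
        b * (cj a b c (j + 1) - b ^ j * c) + a * (a ^ j * c) := by ring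
    rw [h1]
    exact dvd_add (Dvd.dvd.mul_left ih _) (Dvd.dvd.mul_right hp _)

theorem cj_mod_b {a b c p : ℤ} (hp : p ∣ b) (j : ℕ) : p ∣ cj a b c (j + 1) - a ^ j * c := by
  rw [cj_succ]
  have h1 : b * cj a b c j + a ^ j * c - a ^ j * c = b * cj a b c j := by ring
  rw [h1]
  exact Dvd.dvd.mul_right hp _

theorem cj_coprime {a b c : ℤ} (hab : IsCoprime a b) (hac : IsCoprime a c) (hbc : IsCoprime b c)
    {j : ℕ} (hj : 1 ≤ j) : IsCoprime (a ^ j) (cj a b c j) ∧ IsCoprime (b ^ j) (cj a b c j) := by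
  obtain ⟨i, rfl⟩ : ∃ i, j = i + 1 := ⟨j - 1, by omega⟩
  constructor
  · apply isCoprime_of_forall_prime
    rintro p hp ⟨h1, h2⟩
    have hpp := Nat.prime_iff_prime_int.1 hp
    have h3 := hpp.dvd_of_dvd_pow h1
    have h4 := dvd_sub h2 (cj_mod_a (b := b) (c := c) h3 i)
    rw [sub_sub_cancel] at h4
    rcases hpp.dvd_or_dvd h4 with h5 | h5
    · exact hpp.not_isUnit (hab.isUnit_of_dvd' h3 (hpp.dvd_of_dvd_pow h5))
    · exact hpp.not_isUnit (hac.isUnit_of_dvd' h3 h5)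
  · apply isCoprime_of_forall_prime
    rintro p hp ⟨h1, h2⟩
    have hpp := Nat.prime_iff_prime_int.1 hp
    have h3 := hpp.dvd_of_dvd_pow h1
    have h4 := dvd_sub h2 (cj_mod_b (a := a) (c := c) h3 i)
    rw [sub_sub_cancel] at h4
    rcases hpp.dvd_or_dvd h4 with h5 | h5
    · exact hpp.not_isUnit (hab.isUnit_of_dvd' (hpp.dvd_of_dvd_pow h5) h3)
    · exact hpp.not_isUnit (hbc.isUnit_of_dvd' h3 h5)

theorem cj_parity {a b c : ℤ} (h : ¬ (Odd a ∧ Odd b ∧ Odd c)) {j : ℕ} (hj : 1 ≤ j) :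
    ¬ (Odd (a ^ j) ∧ Odd (b ^ j) ∧ Odd (cj a b c j)) := by
  rintro ⟨h1, h2, h3⟩
  have h4 : Odd a := (Int.odd_pow.1 h1).resolve_right (by omega)
  have h5 : Odd b := (Int.odd_pow.1 h2).resolve_right (by omega)
  apply h
  refine ⟨h4, h5, ?_⟩
  unfold cj at h3
  exact (Int.odd_mul.1 h3).1

/-- integral orbits of any length -/
theorem exists_beta (a b c : ℤ) (ha : a ≠ 0) (hab : IsCoprime a b) (J : ℕ) :
    ∃ β : ℕ → ℤ, ∀ i < J, a * β (i + 1) = b * β i + c := by
  induction J with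
  | zero => exact ⟨fun _ => 0, fun i hi => absurd hi (by omega)⟩
  | succ J ih =>
    obtain ⟨β, hβ⟩ := ih
    have hcop : IsCoprime a (b ^ (J + 1)) := hab.pow_right
    obtain ⟨u, v, huv⟩ := hcop
    -- `b (β J + b^J s) + c ≡ 0 mod a`
    set s : ℤ := -(b * β J + c) * v with hs
    have hdiv : a ∣ b * (β J + b ^ J * s) + c := by
      refine ⟨(b * β J + c) * u, ?_⟩
      rw [hs]
      have h1 : v * b ^ (J + 1) = 1 - u * a := by linarith
      have h2 : b * (β J + b ^ J * (-(b * β J + c) * v)) + c =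
          (b * β J + c) - (b * β J + c) * (v * b ^ (J + 1)) := by ring
      rw [h2, h1]
      ring
    obtain ⟨y, hy⟩ := hdiv
    refine ⟨fun i => if i ≤ J then β i + a ^ (J - i) * b ^ i * s else y, fun i hi => ?_⟩
    rcases (Nat.lt_succ_iff.1 hi).eq_or_lt with h1 | h1
    · subst h1
      simp only [le_refl, if_true, Nat.sub_self, pow_zero, one_mul]
      rw [if_neg (by omega), ← hy]
    · simp only
      rw [if_pos (show i + 1 ≤ J by omega), if_pos (show i ≤ J by omega)]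
      have h2 : J - i = (J - (i + 1)) + 1 := by omega
      rw [h2, pow_succ a, pow_succ b]
      linear_combination hβ i h1

/-- the forms -/
def LL (a b : ℤ) (β : ℕ → ℤ) (J : ℕ) (i : ℕ) (n : ℤ) : ℤ := a ^ (J - i) * b ^ i * n + β i

theorem LL_step {a b c : ℤ} {β : ℕ → ℤ} {J : ℕ} (hβ : ∀ i < J, a * β (i + 1) = b * β i + c)
    (n : ℤ) {i : ℕ} (hi : i < J) : a * LL a b β J (i + 1) n = b * LL a b β J i n + c := by
  unfold LL
  have h2 : J - i = (J - (i + 1)) + 1 := by omega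
  rw [h2, pow_succ a, pow_succ b]
  linear_combination hβ i hi

theorem LL_iter {a b c : ℤ} {β : ℕ → ℤ} {J : ℕ} (hβ : ∀ i < J, a * β (i + 1) = b * β i + c)
    (n : ℤ) (i m : ℕ) (h : i + m ≤ J) :
    a ^ m * LL a b β J (i + m) n = b ^ m * LL a b β J i n + cj a b c m := by
  induction m with
  | zero => simp [cj_zero]
  | succ m ih =>
    have h1 := ih (by omega)
    have h2 := LL_step hβ n (show i + m < J by omega)
    rw [cj_succ, show i + (m + 1) = i + m + 1 by ring, pow_succ a, pow_succ b]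
    linear_combination a ^ m * h2 + b * h1

theorem beta_iter {a b c : ℤ} {β : ℕ → ℤ} {J : ℕ} (hβ : ∀ i < J, a * β (i + 1) = b * β i + c)
    (i m : ℕ) (h : i + m ≤ J) : a ^ m * β (i + m) = b ^ m * β i + cj a b c m := by
  have := LL_iter hβ 0 i m h
  simpa [LL] using this

/-- injectivity -/
theorem forms_inj {a b c : ℤ} (ha : 1 ≤ a) (hb : 1 ≤ b) (hc : c ≠ 0) (hab : IsCoprime a b)
    {β : ℕ → ℤ} {J : ℕ} (hβ : ∀ i < J, a * β (i + 1) = b * β i + c) {i k : ℕ} (hi : i ≤ J) (hk : k ≤ J)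
    (h1 : a ^ (J - i) * b ^ i = a ^ (J - k) * b ^ k) (h2 : β i = β k) : i = k := by
  wlog hik : i ≤ k generalizing i k with H
  · exact (H hk hi h1.symm h2.symm (by omega)).symm
  by_contra hne
  have hlt : i < k := by omega
  obtain ⟨m, rfl⟩ : ∃ m, k = i + m := ⟨k - i, by omega⟩
  have h3 := beta_iter hβ i m hk
  have h4 : a ^ m * (a ^ (J - (i + m)) * b ^ i) = b ^ m * (a ^ (J - (i + m)) * b ^ i) := by
    have e1 : J - i = m + (J - (i + m)) := by omega
    rw [e1, pow_add, pow_add] at h1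
    linear_combination h1
  have hpos : (a ^ (J - (i + m)) * b ^ i : ℤ) ≠ 0 := by positivity
  have h5 : a ^ m = b ^ m := mul_right_cancel₀ hpos h4
  rw [← h2, h5] at h3
  have h6 := cj_pos a b c ha hb hc (show 1 ≤ m by omega)
  apply h6
  linarith

/-- coefficients are coprime in the middle of the orbit -/
theorem forms_cop {a b c : ℤ} (hac : IsCoprime a c) (hbc : IsCoprime b c)
    {β : ℕ → ℤ} {J : ℕ} (hβ : ∀ i < J, a * β (i + 1) = b * β i + c) {i : ℕ} (hi : 1 ≤ i) (hi' : i < J)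
    {p : ℕ} (hp : p.Prime) (h1 : (p : ℤ) ∣ a * b) : ¬ (p : ℤ) ∣ β i := by
  have hpp := Nat.prime_iff_prime_int.1 hp
  intro h2
  rcases hpp.dvd_or_dvd h1 with h3 | h3
  · have h4 := hβ i hi'
    have h5 : (p : ℤ) ∣ c := by
      have h6 : c = a * β (i + 1) - b * β i := by linarith
      rw [h6]
      exact dvd_sub (Dvd.dvd.mul_right h3 _) (Dvd.dvd.mul_left h2 _)
    exact hpp.not_isUnit (hac.isUnit_of_dvd' h3 h5)
  · obtain ⟨k, rfl⟩ : ∃ k, i = k + 1 := ⟨i - 1, by omega⟩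
    have h4 := hβ k (by omega)
    have h5 : (p : ℤ) ∣ c := by
      have h6 : c = a * β (k + 1) - b * β k := by linarith
      rw [h6]
      exact dvd_sub (Dvd.dvd.mul_left h2 _) (Dvd.dvd.mul_right h3 _)
    exact hpp.not_isUnit (hbc.isUnit_of_dvd' h3 h5)

/-- the first form takes every value modulo a prime not dividing `a` -/
theorem hit {a b : ℤ} {β : ℕ → ℤ} {J : ℕ} {p : ℕ} (hp : p.Prime) (hpa : ¬ (p : ℤ) ∣ a) (y : ℤ) :
    ∃ n : ℤ, (p : ℤ) ∣ LL a b β J 0 n - y := by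
  have hc : IsCoprime (a ^ J) (p : ℤ) := by
    apply IsCoprime.pow_left
    apply isCoprime_of_forall_prime
    rintro r hr ⟨h1, h2⟩
    have h3 := (Nat.prime_dvd_prime_iff_eq hr hp).1 (Int.natCast_dvd_natCast.1 h2)
    subst h3
    exact hpa h1
  obtain ⟨u, v, huv⟩ := hc
  refine ⟨(y - β 0) * u, (β 0 - y) * v, ?_⟩
  unfold LL
  simp only [Nat.sub_zero, pow_zero, mul_one]
  linear_combination (y - β 0) * huv

/-- the forms have no fixed prime divisor, if the exponents miss a class modulo the bad primes -/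
theorem rat_admissible {ι : Type*} {a b c : ℤ} (hab : IsCoprime a b) (hac : IsCoprime a c)
    (hbc : IsCoprime b c) (hpar : ¬ (Odd a ∧ Odd b ∧ Odd c)) {β : ℕ → ℤ} {J : ℕ}
    (hβ : ∀ i < J, a * β (i + 1) = b * β i + c) (e : ι → ℕ) (he : ∀ i, 1 ≤ e i ∧ e i < J)
    {p : ℕ} (hp : p.Prime)
    (hE : 3 ≤ p → (p : ℤ) ∣ a - b → ¬ (p : ℤ) ∣ c →
      ∃ n : ℤ, ∀ i, ¬ (p : ℤ) ∣ a ^ (J - e i) * b ^ e i * n + β (e i)) :
    ∃ n : ℤ, ∀ i, ¬ (p : ℤ) ∣ a ^ (J - e i) * b ^ e i * n + β (e i) := by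
  have hpp := Nat.prime_iff_prime_int.1 hp
  by_cases hpab : (p : ℤ) ∣ a * b
  · refine ⟨0, fun i hi => forms_cop hac hbc hβ (he i).1 (he i).2 hp hpab ?_⟩
    simpa using hi
  have hpa : ¬ (p : ℤ) ∣ a := fun h => hpab (Dvd.dvd.mul_right h _)
  have hpb : ¬ (p : ℤ) ∣ b := fun h => hpab (Dvd.dvd.mul_left h _)
  by_cases hpc : (p : ℤ) ∣ c
  · obtain ⟨n, hn⟩ := hit (b := b) (β := β) (J := J) hp hpa 1
    refine ⟨n, fun i hi => ?_⟩
    have h1 : ∀ k, k ≤ J → ¬ (p : ℤ) ∣ LL a b β J k n := by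
      intro k
      induction k with
      | zero =>
        intro _ h
        have := dvd_sub h hn
        rw [sub_sub_cancel] at this
        exact hpp.not_isUnit (isUnit_of_dvd_one this)
      | succ k ih =>
        intro hk h
        have h2 := LL_step hβ n (show k < J by omega)
        have h3 : (p : ℤ) ∣ b * LL a b β J k n := by
          have h4 : b * LL a b β J k n = a * LL a b β J (k + 1) n - c := by linarith
          rw [h4]
          exact dvd_sub (Dvd.dvd.mul_left h _) hpc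
        rcases hpp.dvd_or_dvd h3 with h4 | h4
        · exact hpb h4
        · exact ih (by omega) h4
    exact h1 (e i) (he i).2.le hi
  by_cases hp1 : (p : ℤ) ∣ a - b
  · apply hE _ hp1 hpc
    have h3 := hp.two_le
    by_contra hlt
    have hp2 : p = 2 := by omega
    subst hp2
    apply hpar
    rw [← Int.not_even_iff_odd, ← Int.not_even_iff_odd, ← Int.not_even_iff_odd]
    refine ⟨fun h => hpa h.two_dvd, fun h => hpb h.two_dvd, fun h => hpc h.two_dvd⟩
  · -- the fixed point modulo `p`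
    have hc : IsCoprime (a - b) (p : ℤ) := by
      apply isCoprime_of_forall_prime
      rintro r hr ⟨h1, h2⟩
      have h3 := (Nat.prime_dvd_prime_iff_eq hr hp).1 (Int.natCast_dvd_natCast.1 h2)
      subst h3
      exact hp1 h1
    obtain ⟨u, v, huv⟩ := hc
    obtain ⟨n, hn⟩ := hit (b := b) (β := β) (J := J) hp hpa (c * u)
    refine ⟨n, fun i hi => ?_⟩
    have h1 : ∀ k, k ≤ J → (p : ℤ) ∣ (a - b) * LL a b β J k n - c := by
      intro k
      induction k with
      | zero =>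
        intro _
        obtain ⟨w, hw⟩ := hn
        refine ⟨(a - b) * w - c * v, ?_⟩
        linear_combination (a - b) * hw + c * huv
      | succ k ih =>
        intro hk
        have h2 := LL_step hβ n (show k < J by omega)
        have h3 := ih (by omega)
        have h4 : a * ((a - b) * LL a b β J (k + 1) n - c) = b * ((a - b) * LL a b β J k n - c) := by
          linear_combination (a - b) * h2
        have h5 : (p : ℤ) ∣ a * ((a - b) * LL a b β J (k + 1) n - c) := by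
          rw [h4]; exact Dvd.dvd.mul_left h3 _
        exact (hpp.dvd_or_dvd h5).resolve_left hpa
    have h2 := h1 (e i) (he i).2.le
    apply hpc
    have h3 : (p : ℤ) ∣ (a - b) * LL a b β J (e i) n := Dvd.dvd.mul_left hi _
    have h4 := dvd_sub h3 h2
    rwa [sub_sub_cancel] at h4

/-- exponents missing a class -/
theorem rat_miss {ι : Type*} {a b c : ℤ} {β : ℕ → ℤ} {J : ℕ}
    (hβ : ∀ i < J, a * β (i + 1) = b * β i + c) (e : ι → ℕ) (he : ∀ i, e i ≤ J) {p : ℕ} (hp : p.Prime)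
    (hpa : ¬ (p : ℤ) ∣ a) (hp1 : (p : ℤ) ∣ a - b) (hpc : ¬ (p : ℤ) ∣ c) (r : ℕ)
    (hr : ∀ i, ¬ e i ≡ r [MOD p]) :
    ∃ n : ℤ, ∀ i, ¬ (p : ℤ) ∣ a ^ (J - e i) * b ^ e i * n + β (e i) := by
  have hpp := Nat.prime_iff_prime_int.1 hp
  have hca : IsCoprime a (p : ℤ) := by
    apply isCoprime_of_forall_prime
    rintro s hs ⟨h1, h2⟩
    have h3 := (Nat.prime_dvd_prime_iff_eq hs hp).1 (Int.natCast_dvd_natCast.1 h2)
    subst h3
    exact hpa h1
  obtain ⟨u, v, huv⟩ := hca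
  obtain ⟨n, hn⟩ := hit (b := b) (β := β) (J := J) hp hpa (-(r * c) * u)
  refine ⟨n, fun i hi => ?_⟩
  have h1 : ∀ k : ℕ, k ≤ J → (p : ℤ) ∣ a * LL a b β J k n - (k - r) * c := by
    intro k
    induction k with
    | zero =>
      intro _
      obtain ⟨w, hw⟩ := hn
      refine ⟨a * w + r * c * v, ?_⟩
      push_cast
      linear_combination a * hw + (-(r : ℤ) * c) * huv
    | succ k ih =>
      intro hk
      have h2 := LL_step hβ n (show k < J by omega)
      have h3 := ih (by omega)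
      have h4 : a * LL a b β J (k + 1) n - (((k + 1 : ℕ) : ℤ) - r) * c =
          (a * LL a b β J k n - (k - r) * c) - (a - b) * LL a b β J k n := by
        push_cast
        linear_combination h2
      rw [h4]
      exact dvd_sub h3 (Dvd.dvd.mul_right hp1 _)
  have h2 := h1 (e i) (he i)
  have h3 : (p : ℤ) ∣ a * LL a b β J (e i) n := Dvd.dvd.mul_left hi _
  have h4 := dvd_sub h3 h2
  rw [sub_sub_cancel] at h4
  rcases hpp.dvd_or_dvd h4 with h5 | h5
  · apply hr i
    have h6 : (r : ℤ) ≡ e i [ZMOD p] := Int.modEq_iff_dvd.2 h5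
    exact ((Int.natCast_modEq_iff).1 h6).symm
  · exact hpc h5

theorem bad_not_dvd {a b : ℤ} (hab : IsCoprime a b) {p : ℕ} (hp : p.Prime) (h : (p : ℤ) ∣ a - b) :
    ¬ (p : ℤ) ∣ a ∧ ¬ (p : ℤ) ∣ b := by
  have hpp := Nat.prime_iff_prime_int.1 hp
  constructor
  · intro h1
    have h2 := dvd_sub h1 h
    rw [sub_sub_cancel] at h2
    exact hpp.not_isUnit (hab.isUnit_of_dvd' h1 h2)
  · intro h1
    have h2 := dvd_add h h1
    rw [sub_add_cancel] at h2
    exact hpp.not_isUnit (hab.isUnit_of_dvd' h2 h1)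

end Pool.Agent.V11150.RatL
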