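import Pool.Agent.V11150.RatH

/-!
# A third of all times are gaps between isolated consecutive primes of the orbits of `x ↦ b x + c`
-/

set_option autoImplicit false

namespace Pool.Agent.V11150.RatM

open Finset Filter Pool.Agent.V11150.RatL Pool.Agent.V11150.RatC Pool.Agent.V11150.RatH

/-- the primes `p` whose orbit (`f p j` is the `j`-th iterate) has its next prime at time `j`, such that
the `R` iterates after the latter are not prime and `p` is none of the first `R` iterates of a prime -/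
def GapF (f : ℕ → ℕ → ℕ) (R j : ℕ) : Set ℕ :=
  {p | p.Prime ∧ (f p j).Prime ∧ (∀ l, 0 < l → l < j → ¬ (f p l).Prime) ∧
    ∀ l, 0 < l → l ≤ R → ¬ (f p (j + l)).Prime ∧ ∀ q : ℕ, q.Prime → f q l ≠ p}

theorem cj_add (b c : ℤ) (j l : ℕ) : cj 1 b c (j + l) = b ^ l * cj 1 b c j + cj 1 b c l := by
  induction l with
  | zero => rw [cj_zero]; ring_nf
  | succ l ih =>
    rw [← Nat.add_assoc, cj_succ, cj_succ, ih]
    ring

theorem gap_sub (b c : ℤ) (f : ℕ → ℕ → ℕ)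
    (hf : ∀ p j : ℕ, p.Prime → ((f p j : ℕ) : ℤ) = b ^ j * p + cj 1 b c j) (R j : ℕ) :
    Gap R 1 b c j ⊆ GapF f R j := by
  rintro q ⟨hq, p, hp, h1, h2, h3⟩
  have hpf : p = f q j := by
    have h4 := hf q j hq
    rw [one_pow, one_mul] at h1
    have h5 : ((f q j : ℕ) : ℤ) = p := by rw [h4]; linarith
    exact_mod_cast h5.symm
  subst hpf
  refine ⟨hq, hp, ?_, ?_⟩
  · intro l hl hlj hpr
    apply h2 l hl hlj _ hpr
    rw [one_pow, one_mul, hf q l hq]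
    ring
  · intro l hl hlR
    obtain ⟨h4, h5⟩ := h3 l hl hlR
    refine ⟨fun hpr => h4 _ hpr ?_, fun q' hq' h6 => h5 q' hq' ?_⟩
    · rw [one_pow, one_mul, hf q _ hq, hf q j hq, cj_add, pow_add]
      ring
    · rw [one_pow, one_mul, ← h6, hf q' l hq']
      ring

theorem transfer : ∃ C : ℕ, ∀ (b : ℕ) (c : ℤ), 1 ≤ b → c ≠ 0 → IsCoprime (b : ℤ) c →
    ¬ (Odd (b : ℤ) ∧ Odd c) → ∀ f : ℕ → ℕ → ℕ,
    (∀ p j : ℕ, p.Prime → ((f p j : ℕ) : ℤ) = (b : ℤ) ^ j * p + cj 1 b c j) → ∀ R : ℕ,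
    ∀ ε : ℝ, 0 < ε → ∃ L : ℕ, ∀ T : ℕ, L ≤ T → ∀ u : ℕ, (1 / 3 - ε) * (T : ℝ) ≤
      ({j : ℕ | u < j ∧ j ≤ u + T ∧ ∃ᶠ x : ℕ in atTop, (x : ℝ) / (Real.log x) ^ C ≤
        ({p : ℕ | p ≤ x ∧ p.Prime ∧ (f p j).Prime ∧ (∀ l, 0 < l → l < j → ¬ (f p l).Prime) ∧
          ∀ l, 0 < l → l ≤ R → ¬ (f p (j + l)).Prime ∧
            ∀ q : ℕ, q.Prime → f q l ≠ p}.ncard : ℝ)}.ncard : ℝ) := by
  obtain ⟨C, hC⟩ := thirdGap
  refine ⟨C, ?_⟩
  intro b c hb hc hbc hpar f hf R ε hε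
  obtain ⟨L, hL⟩ := hC R 1 b c le_rfl (by exact_mod_cast hb) hc isCoprime_one_left
    isCoprime_one_left hbc (fun h => hpar ⟨h.2.1, h.2.2⟩) ε hε
  refine ⟨L, fun T hT u => (hL T hT u).trans ?_⟩
  rw [Nat.cast_le]
  refine Set.ncard_le_ncard ?_ ((Set.finite_Ioc u (u + T)).subset fun k hk => ⟨hk.1, hk.2.1⟩)
  rintro j ⟨h1, h2, h3⟩
  refine ⟨h1, h2, ?_⟩
  refine Filter.Frequently.mono h3 fun x hx => hx.trans ?_
  rw [Nat.cast_le]
  refine Set.ncard_le_ncard ?_ ((Set.finite_Iic x).subset fun q hq => hq.1)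
  rintro q ⟨hq, hqx⟩
  exact ⟨hqx, gap_sub b c f hf R j hq⟩

end Pool.Agent.V11150.RatM
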