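import Mathlib

/-! Combinatorics for the slopes theorem: Turán's theorem for graphs without independent sets of size
four, and Brown's lemma on piecewise syndetic colour classes. -/

set_option autoImplicit false

namespace Pool.Agent.V11150.SlopeA

open Finset

/-- Brown's lemma with colours in a finite set, on arbitrarily long intervals. -/
theorem brown_aux {κ : Type} [DecidableEq κ] (χ : ℤ → κ) (S : Finset κ) :
    (∀ L : ℕ, ∃ x : ℤ, ∀ B, x ≤ B → B ≤ x + L → χ B ∈ S) →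
    ∃ k ∈ S, ∃ d : ℕ, ∀ L : ℕ, ∃ B₀ : ℤ, ∀ B, B₀ ≤ B → B ≤ B₀ + L →
      ∃ B', B ≤ B' ∧ B' ≤ B + d ∧ χ B' = k := by
  classical
  induction S using Finset.induction_on with
  | empty =>
    intro h
    obtain ⟨x, hx⟩ := h 0
    exact absurd (hx x le_rfl (by simp)) (by simp)
  | insert k S hk ih =>
    intro h
    by_cases hc : ∃ d : ℕ, ∀ L : ℕ, ∃ B₀ : ℤ, ∀ B, B₀ ≤ B → B ≤ B₀ + L →
        ∃ B', B ≤ B' ∧ B' ≤ B + d ∧ χ B' = k
    · obtain ⟨d, hd⟩ := hc
      exact ⟨k, mem_insert_self _ _, d, hd⟩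
    · push Not at hc
      obtain ⟨k', hk', r⟩ := ih (by
        intro d
        obtain ⟨L, hL⟩ := hc d
        obtain ⟨x, hx⟩ := h (L + d)
        obtain ⟨B, h1, h2, h3⟩ := hL x
        refine ⟨B, fun B' h4 h5 => ?_⟩
        have h6 := hx B' (h1.trans h4) (by push_cast; linarith)
        rcases mem_insert.1 h6 with h7 | h7
        · exact absurd h7 (h3 B' h4 h5)
        · exact h7)
      exact ⟨k', mem_insert_of_mem hk', r⟩

/-- Brown's lemma: one colour class of a finite colouring of the integers is piecewise syndetic. -/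
theorem brown {κ : Type} [Fintype κ] (χ : ℤ → κ) :
    ∃ (k : κ) (d : ℕ), ∀ L : ℕ, ∃ B₀ : ℤ, ∀ B, B₀ ≤ B → B ≤ B₀ + L →
      ∃ B', B ≤ B' ∧ B' ≤ B + d ∧ χ B' = k := by
  classical
  obtain ⟨k, -, d, h⟩ := brown_aux χ univ (fun L => ⟨0, fun B _ _ => mem_univ _⟩)
  exact ⟨k, d, h⟩

open Classical in
/-- Turán's theorem: if every four indices contain a good pair, a third of all pairs are good. -/
theorem count_of_four {T : ℕ} (Good : Fin T → Fin T → Prop)
    (h4 : ∀ σ : Fin 4 → Fin T, StrictMono σ → ∃ i j, i < j ∧ Good (σ i) (σ j)) :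
    (T : ℤ) * (T - 3) ≤
      6 * ((univ.filter (fun x : Fin T × Fin T => x.1 < x.2 ∧ Good x.1 x.2)).card : ℤ) := by
  set bad : Fin T → Fin T → Prop := fun i j => i < j ∧ ¬ Good i j with hbad
  let G : SimpleGraph (Fin T) :=
    { Adj := fun i j => bad i j ∨ bad j i
      symm := ⟨fun i j h => h.symm⟩
      loopless := ⟨fun i h => by rcases h with h | h <;> exact lt_irrefl _ h.1⟩ }
  have hfree : G.CliqueFree (3 + 1) := by
    intro s hs
    have hcard := hs.card_eq
    have hcl := hs.isClique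
    set σ := s.orderEmbOfFin hcard with hσ
    obtain ⟨i, j, hij, hg⟩ := h4 σ σ.strictMono
    have h1 : σ i ∈ s := s.orderEmbOfFin_mem hcard i
    have h2 : σ j ∈ s := s.orderEmbOfFin_mem hcard j
    have hlt : σ i < σ j := σ.strictMono hij
    have h3 := hcl (mem_coe.2 h1) (mem_coe.2 h2) hlt.ne
    rcases h3 with h3 | h3
    · exact h3.2 hg
    · exact absurd h3.1 (not_lt.2 hlt.le)
  have hT := hfree.card_edgeFinset_le
  have hT2 : 6 * G.edgeFinset.card ≤ 2 * T ^ 2 := by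
    have e1 : Fintype.card (Fin T) = T := Fintype.card_fin T
    simp only [e1] at hT
    have h5 : (T ^ 2 - (T % 3) ^ 2) * (3 - 1) / (2 * 3) * 6 ≤ (T ^ 2 - (T % 3) ^ 2) * 2 := by
      have := Nat.div_mul_le_self ((T ^ 2 - (T % 3) ^ 2) * (3 - 1)) (2 * 3)
      simpa using this
    have h6 : T % 3 < 3 := Nat.mod_lt _ (by norm_num)
    have h7 : (T % 3) ^ 2 ≤ T ^ 2 := Nat.pow_le_pow_left (Nat.mod_le _ _) 2
    interval_cases hm : T % 3
    · simp at hT h5 ⊢
      omega
    · simp at hT h5 ⊢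
      omega
    · have h8 : Nat.choose 2 2 = 1 := rfl
      rw [h8] at hT
      omega
  -- number of bad pairs
  have hbadc : G.edgeFinset.card = (univ.filter (fun x : Fin T × Fin T => bad x.1 x.2)).card := by
    symm
    apply Finset.card_bij (fun (x : Fin T × Fin T) _ => s(x.1, x.2))
    · intro x hx
      rw [SimpleGraph.mem_edgeFinset, SimpleGraph.mem_edgeSet]
      exact Or.inl (mem_filter.1 hx).2
    · intro x hx y hy h
      have hx' := (mem_filter.1 hx).2.1
      have hy' := (mem_filter.1 hy).2.1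
      rw [Sym2.eq_iff] at h
      rcases h with ⟨h1, h2⟩ | ⟨h1, h2⟩
      · exact Prod.ext h1 h2
      · exfalso
        rw [h1, h2] at hx'
        exact lt_asymm hx' hy'
    · intro e he
      induction e using Sym2.ind with
      | _ i j =>
        rw [SimpleGraph.mem_edgeFinset, SimpleGraph.mem_edgeSet] at he
        rcases he with he | he
        · exact ⟨(i, j), mem_filter.2 ⟨mem_univ _, he⟩, rfl⟩
        · exact ⟨(j, i), mem_filter.2 ⟨mem_univ _, he⟩, Sym2.eq_swap⟩
  have htot : (univ.filter (fun x : Fin T × Fin T => x.1 < x.2)).card * 2 = T * (T - 1) := by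
    have h1 : (univ.filter (fun x : Fin T × Fin T => x.1 < x.2)).card =
        ∑ j : Fin T, (j : ℕ) := by
      rw [Finset.card_filter, Fintype.sum_prod_type_right]
      apply Finset.sum_congr rfl
      intro j _
      rw [← Finset.card_filter]
      have : (univ.filter (fun i : Fin T => i < j)) = Finset.Iio j := by ext; simp
      rw [this, Fin.card_Iio]
    rw [h1, Fin.sum_univ_eq_sum_range (fun j => j) T, Finset.sum_range_id_mul_two]
  have hsplit : (univ.filter (fun x : Fin T × Fin T => x.1 < x.2)).card =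
      (univ.filter (fun x : Fin T × Fin T => x.1 < x.2 ∧ Good x.1 x.2)).card +
      (univ.filter (fun x : Fin T × Fin T => bad x.1 x.2)).card := by
    rw [← Finset.card_filter_add_card_filter_not (s := univ.filter (fun x : Fin T × Fin T => x.1 < x.2))
      (fun x : Fin T × Fin T => Good x.1 x.2), Finset.filter_filter, Finset.filter_filter]
  rw [hbadc] at hT2
  set g := (univ.filter (fun x : Fin T × Fin T => x.1 < x.2 ∧ Good x.1 x.2)).card with hg
  set b := (univ.filter (fun x : Fin T × Fin T => bad x.1 x.2)).card with hb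
  rcases Nat.eq_zero_or_pos T with h0 | hpos
  · rw [h0]
    simp
  · obtain ⟨t, rfl⟩ : ∃ t, T = t + 1 := ⟨T - 1, by omega⟩
    have e1 : (g + b) * 2 = (t + 1) * t := by
      rw [← hsplit, htot]
      simp
    have e2 : ((g : ℤ) + b) * 2 = (t + 1) * t := by exact_mod_cast e1
    have e3 : 6 * (b : ℤ) ≤ 2 * ((t : ℤ) + 1) ^ 2 := by exact_mod_cast hT2
    push_cast
    nlinarith

open Classical in
/-- The combination. `P C B i j`: the pair `(i, j)` is good near `B` with the constant `C`. -/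
theorem combine {T : ℕ} (P : ℕ → ℤ → Fin T → Fin T → Prop) (M : ℕ)
    (hmono : ∀ (C C' : ℕ) (B : ℤ) (i j : Fin T), C ≤ C' → P C B i j → P C' B i j)
    (hshift : ∀ (C : ℕ) (B B' : ℤ) (d : ℕ) (i j : Fin T), |B - B'| ≤ d → P C B i j →
      P (C + M * d) B' i j)
    (h4 : ∀ σ : Fin 4 → Fin T, StrictMono σ → ∃ C : ℕ, ∀ B : ℤ, ∃ i j, i < j ∧ P C B (σ i) (σ j)) :
    ∃ C : ℕ,
      (∀ B : ℤ, (T : ℤ) * (T - 3) ≤
        6 * ((univ.filter (fun x : Fin T × Fin T => x.1 < x.2 ∧ P C B x.1 x.2)).card : ℤ)) ∧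
      ∃ E : Finset (Fin T × Fin T), (∀ x ∈ E, x.1 < x.2) ∧ (T : ℤ) * (T - 3) ≤ 6 * (E.card : ℤ) ∧
        ∀ L : ℕ, ∃ B₀ : ℤ, ∀ B : ℤ, B₀ ≤ B → B ≤ B₀ + L → ∀ x ∈ E, P C B x.1 x.2 := by
  -- one constant
  obtain ⟨C, hC⟩ : ∃ C : ℕ, ∀ σ : Fin 4 → Fin T, StrictMono σ →
      ∀ B : ℤ, ∃ i j, i < j ∧ P C B (σ i) (σ j) := by
    choose! c hc using h4
    refine ⟨univ.sup c, fun σ hσ B => ?_⟩
    obtain ⟨i, j, hij, h⟩ := hc σ hσ B
    exact ⟨i, j, hij, hmono _ _ _ _ _ (Finset.le_sup (f := c) (mem_univ σ)) h⟩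
  have hcount : ∀ B : ℤ, (T : ℤ) * (T - 3) ≤
      6 * ((univ.filter (fun x : Fin T × Fin T => x.1 < x.2 ∧ P C B x.1 x.2)).card : ℤ) :=
    fun B => count_of_four (P C B) (fun σ hσ => hC σ hσ B)
  obtain ⟨E, d, hE⟩ := brown (fun B : ℤ =>
    univ.filter (fun x : Fin T × Fin T => x.1 < x.2 ∧ P C B x.1 x.2))
  refine ⟨C + M * d, fun B => ?_, E, ?_, ?_, ?_⟩
  · refine (hcount B).trans ?_
    have : (univ.filter (fun x : Fin T × Fin T => x.1 < x.2 ∧ P C B x.1 x.2)).card ≤
        (univ.filter (fun x : Fin T × Fin T => x.1 < x.2 ∧ P (C + M * d) B x.1 x.2)).card := by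
      apply card_le_card
      intro x hx
      rw [mem_filter] at hx ⊢
      exact ⟨hx.1, hx.2.1, hmono _ _ _ _ _ (Nat.le_add_right _ _) hx.2.2⟩
    have h2 : ((univ.filter (fun x : Fin T × Fin T => x.1 < x.2 ∧ P C B x.1 x.2)).card : ℤ) ≤
        ((univ.filter (fun x : Fin T × Fin T => x.1 < x.2 ∧ P (C + M * d) B x.1 x.2)).card : ℤ) := by
      exact_mod_cast this
    linarith
  · intro x hx
    obtain ⟨B₀, h⟩ := hE 0
    obtain ⟨B', -, -, h3⟩ := h B₀ le_rfl (by simp)
    rw [← h3, mem_filter] at hx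
    exact hx.2.1
  · obtain ⟨B₀, h⟩ := hE 0
    obtain ⟨B', -, -, h3⟩ := h B₀ le_rfl (by simp)
    rw [← h3]
    exact hcount B'
  · intro L
    obtain ⟨B₀, h⟩ := hE L
    refine ⟨B₀, fun B h1 h2 x hx => ?_⟩
    obtain ⟨B', h3, h4', h5⟩ := h B h1 h2
    rw [← h5, mem_filter] at hx
    refine hshift C B' B d x.1 x.2 ?_ hx.2.2
    rw [abs_le]
    constructor <;> linarith

end Pool.Agent.V11150.SlopeA
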