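import Pool.Agent.TH899.UG.PairB4
import Pool.Agent.V11150.SlopeA

/-! A third of the pairs of slopes: the equation `a p - b q = c` near every position. -/

set_option autoImplicit false

namespace Pool.Agent.V11150.SlopeB

open Finset Filter Pool.Agent.H732R3.BigQ Pool.Agent.TH899.UG

/-- An equation `a p - b q = c` with the slope `b / a = m' / m`, a constant `c` with
`|c - a B| ≤ C`, satisfying the hypotheses of the question, with many solutions in primes. -/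
def Solv (m m' C : ℕ) (B : ℤ) : Prop :=
  ∃ (a b : ℕ) (c : ℤ), 1 ≤ a ∧ 1 ≤ b ∧ a * m' = b * m ∧ c ≠ 0 ∧
    IsCoprime (a : ℤ) b ∧ IsCoprime (a : ℤ) c ∧ IsCoprime (b : ℤ) c ∧
    ¬ (Odd a ∧ Odd b ∧ Odd c) ∧ |c - a * B| ≤ C ∧
    Big {q : ℕ | q.Prime ∧ ∃ p : ℕ, p.Prime ∧ (a : ℤ) * p - b * q = c}

theorem Solv.mono {m m' C C' : ℕ} {B : ℤ} (hC : C ≤ C') (h : Solv m m' C B) : Solv m m' C' B := by
  obtain ⟨a, b, c, h1, h2, h3, h4, h5, h6, h7, h8, h9, h10⟩ := h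
  exact ⟨a, b, c, h1, h2, h3, h4, h5, h6, h7, h8, h9.trans (by exact_mod_cast hC), h10⟩

theorem Solv.shift {m m' C M d : ℕ} {B B' : ℤ} (hm : 1 ≤ m) (hM : m ≤ M) (hd : |B - B'| ≤ d)
    (h : Solv m m' C B) : Solv m m' (C + M * d) B' := by
  obtain ⟨a, b, c, h1, h2, h3, h4, h5, h6, h7, h8, h9, h10⟩ := h
  refine ⟨a, b, c, h1, h2, h3, h4, h5, h6, h7, h8, ?_, h10⟩
  have ha : a ≤ M := by
    have e1 : a ∣ b * m := ⟨m', h3.symm⟩
    have e2 : Nat.Coprime a b := Nat.isCoprime_iff_coprime.1 h5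
    exact (Nat.le_of_dvd hm (e2.dvd_of_dvd_mul_left e1)).trans hM
  have e3 : |(a : ℤ) * (B - B')| ≤ M * d := by
    rw [abs_mul, Nat.abs_cast]
    exact mul_le_mul (by exact_mod_cast ha) hd (abs_nonneg _) (by positivity)
  calc |c - a * B'| = |(c - a * B) + a * (B - B')| := by congr 1; ring
    _ ≤ |c - a * B| + |a * (B - B')| := abs_add_le _ _
    _ ≤ C + M * d := add_le_add h9 e3
    _ = ((C + M * d : ℕ) : ℤ) := by push_cast; ring

open Classical in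
theorem main {T : ℕ} (m : Fin T → ℕ) (hm : ∀ i, 1 ≤ m i) : ∃ C : ℕ,
      (∀ B : ℤ, (T : ℤ) * (T - 3) ≤
        6 * ((univ.filter (fun x : Fin T × Fin T => x.1 < x.2 ∧ Solv (m x.1) (m x.2) C B)).card : ℤ)) ∧
      ∃ E : Finset (Fin T × Fin T), (∀ x ∈ E, x.1 < x.2) ∧ (T : ℤ) * (T - 3) ≤ 6 * (E.card : ℤ) ∧
        ∀ L : ℕ, ∃ B₀ : ℤ, ∀ B : ℤ, B₀ ≤ B → B ≤ B₀ + L → ∀ x ∈ E, Solv (m x.1) (m x.2) C B := by
  refine SlopeA.combine (fun C B i j => Solv (m i) (m j) C B) (univ.sup m)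
    (fun C C' B i j hC h => h.mono hC)
    (fun C B B' d i j hd h => h.shift (hm i) (Finset.le_sup (f := m) (mem_univ i)) hd) ?_
  intro σ hσ
  obtain ⟨C, hC⟩ := PairB4.slopes fourC (fun i => m (σ i)) (fun i => hm _)
  exact ⟨C, fun B => hC B⟩

end Pool.Agent.V11150.SlopeB
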