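import Pool.Agent.V11150.TradeT

/-! The trade-off for two forms: Goldbach's problem up to bounded errors, or close primes with
differences in prescribed sets, for five ninths of the sets. -/

set_option autoImplicit false

namespace Pool.Agent.V11150.TradeG

open Finset Filter
open Pool.Agent.V11150.TradeS
open Pool.Agent.V11150.TradeT

/-- the pairs of primes with `p + b p' = c` -/
def sols (b : ℕ) (c : ℤ) : Set (ℕ × ℕ) :=
  {x | x.1.Prime ∧ x.2.Prime ∧ (x.1 : ℤ) + b * x.2 = c}

theorem sols_finite {b : ℕ} (hb : 1 ≤ b) (c : ℤ) : (sols b c).Finite := by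
  apply ((Set.finite_Iic c.toNat).prod (Set.finite_Iic c.toNat)).subset
  rintro ⟨x, y⟩ ⟨-, -, h⟩
  simp only at h
  have hb' : (1 : ℤ) ≤ b := by exact_mod_cast hb
  have hx : (0 : ℤ) ≤ x := Int.natCast_nonneg _
  have hy : (0 : ℤ) ≤ y := Int.natCast_nonneg _
  have h1 : (y : ℤ) ≤ b * y := by nlinarith
  constructor
  · show x ≤ c.toNat
    omega
  · show y ≤ c.toNat
    omega

theorem main {n : ℕ} (B : Fin n → Set ℕ) (hB : ∀ i, Rich (B i)) (A m : ℕ) :
    ∃ C : ℕ, ∀ᶠ N : ℕ in atTop,
    (∀ I : Finset (Fin n), I.Nonempty → ∃ J ⊆ I, 5 * I.card ≤ 9 * J.card ∧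
        (N : ℝ) / (Real.log N) ^ C ≤ (common B J C (C * N) : ℝ)) ∨
    (∀ b : ℕ, 1 ≤ b → b ≤ A → ∀ c : ℤ, 3 * (b * N) ≤ 5 * c → 5 * c ≤ 4 * (b * N) →
      ∃ S : Finset ℤ, m ≤ S.card ∧ ∀ c' ∈ S, |c' - c| ≤ C ∧
        (N : ℝ) / (Real.log N) ^ C ≤ ((sols b c').ncard : ℝ)) := by
  classical
  obtain ⟨C, hC⟩ := uni B hB 2 (A + 1) (m + 1) (fun κ => (5 * κ - 1) / 9)
    (fun T => if T = 2 then 1 else 0) (by
    intro κ T hκ _ hT _
    have e1 : (0 : ℝ) < κ := by exact_mod_cast hκ
    have e2 : (0 : ℝ) < T := by exact_mod_cast hT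
    by_cases h : T = 2
    · simp only [h, if_true, Nat.cast_one, mul_one]
      have h1 : 9 * ((5 * κ - 1) / 9) + 1 ≤ 5 * κ := by omega
      have h2 : (9 : ℝ) * (((5 * κ - 1) / 9 : ℕ) : ℝ) + 1 ≤ 5 * κ := by exact_mod_cast h1
      push_cast
      linarith
    · simp only [h, if_false, Nat.cast_zero, mul_zero]
      positivity)
  refine ⟨(A + 2) * C + C, ?_⟩
  have hlog : ∀ᶠ N : ℕ in atTop, 1 ≤ Real.log N :=
    (Real.tendsto_log_atTop.comp tendsto_natCast_atTop_atTop).eventually_ge_atTop _
  filter_upwards [hC, hlog, eventually_ge_atTop 20, eventually_ge_atTop (2 * (A + 1))]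
    with N hN hL hN20 hNA
  have hCC : C ≤ (A + 2) * C + C := Nat.le_add_left _ _
  have hle := div_anti (N := N) hL hCC
  rcases hN with hN | hN
  · left
    intro I hI
    obtain ⟨J, h1, h2, h3⟩ := hN I hI
    refine ⟨J, h1, by omega, (hle.trans h3).trans ?_⟩
    rw [Nat.cast_le]
    exact common_mono hCC (Nat.mul_le_mul_right _ hCC)
  · right
    intro b hb hbA c hc1 hc2
    have hb0 : (0 : ℤ) < b := by exact_mod_cast hb
    obtain ⟨x, hx⟩ : ∃ x : ℤ, x = c % b := ⟨_, rfl⟩
    obtain ⟨y, hy⟩ : ∃ y : ℤ, y = c / b := ⟨_, rfl⟩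
    have hxy : x + b * y = c := by rw [hx, hy]; exact Int.emod_add_mul_ediv c b
    have hx0 : 0 ≤ x := by rw [hx]; exact Int.emod_nonneg _ hb0.ne'
    have hxb : x < b := by rw [hx]; exact Int.emod_lt_of_pos _ hb0
    have hbA' : (b : ℤ) ≤ A := by exact_mod_cast hbA
    have hNA' : 2 * ((A : ℤ) + 1) ≤ N := by exact_mod_cast hNA
    have hN20' : (20 : ℤ) ≤ N := by exact_mod_cast hN20
    -- bounds for y
    have hy1 : 3 * (N : ℤ) ≤ 5 * y + 5 := by
      by_contra hcon
      push Not at hcon
      have h1 : 5 * y + 6 ≤ 3 * (N : ℤ) := by omega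
      have h2 : (b : ℤ) * (5 * y + 6) ≤ b * (3 * N) := mul_le_mul_of_nonneg_left h1 hb0.le
      linarith
    have hy2 : 5 * y ≤ 4 * (N : ℤ) := by
      by_contra hcon
      push Not at hcon
      have h1 : 4 * (N : ℤ) + 1 ≤ 5 * y := by omega
      have h2 : (b : ℤ) * (4 * N + 1) ≤ b * (5 * y) := mul_le_mul_of_nonneg_left h1 hb0.le
      linarith
    obtain ⟨S, E, hS, hE1, hE2, -, hcnt⟩ := hN 2 (by norm_num) (by omega) ![(b : ℤ), -1] ![x, y] (by
        intro i
        fin_cases i
        · exact hb0.ne'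
        · simp) (by
        intro i
        fin_cases i
        · show |(b : ℤ)| ≤ ((A + 1 : ℕ) : ℤ)
          rw [abs_of_pos hb0]
          push_cast
          linarith
        · show |(-1 : ℤ)| ≤ ((A + 1 : ℕ) : ℤ)
          rw [abs_neg, abs_one]
          push_cast
          linarith [Nat.cast_nonneg (α := ℤ) A]) (by
        intro i
        fin_cases i
        · show 10 * |x| ≤ 9 * (N : ℤ)
          rw [abs_of_nonneg hx0]
          linarith
        · show 10 * |y| ≤ 9 * (N : ℤ)
          rw [abs_of_nonneg (by linarith)]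
          linarith) (by
        intro i z hz1 hz2
        have hxR : (0 : ℝ) ≤ x := by exact_mod_cast hx0
        have hbR : (1 : ℝ) ≤ b := by exact_mod_cast hb
        have hyR : 3 * (N : ℝ) ≤ 5 * y + 5 := by exact_mod_cast hy1
        have hNR : (20 : ℝ) ≤ N := by exact_mod_cast hN20
        fin_cases i
        · show (N : ℝ) / 24 ≤ ((b : ℤ) : ℝ) * z + x
          push_cast
          have hz0 : 0 ≤ z := by linarith
          have hz3 := mul_le_mul_of_nonneg_right hbR hz0
          linarith
        · show (N : ℝ) / 24 ≤ ((-1 : ℤ) : ℝ) * z + y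
          push_cast
          linarith)
    have hS2 : S = univ := by
      apply Finset.eq_univ_of_card
      have h1 : S.card ≤ 2 := by simpa using card_le_univ S
      have h2 : 1 + 1 ≤ S.card := by simpa using hS
      rw [Fintype.card_fin]
      omega
    subst hS2
    have hE20 := hE2 0 (mem_univ _)
    have hE21 := hE2 1 (mem_univ _)
    obtain ⟨e, he⟩ : (E 0).Nonempty := card_pos.1 (by rw [hE20]; omega)
    refine ⟨(E 1).image (fun f : ℕ => c + e + b * f), ?_, ?_⟩
    · rw [card_image_of_injective, hE21]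
      · omega
      · intro f g hfg
        simp only at hfg
        have : (b : ℤ) * f = b * g := by linarith
        exact_mod_cast mul_left_cancel₀ hb0.ne' this
    · intro c' hc'
      obtain ⟨f, hf, rfl⟩ := mem_image.1 hc'
      refine ⟨?_, ?_⟩
      · have h1 : (e : ℤ) ≤ C := by exact_mod_cast hE1 0 e he
        have h2 : (f : ℤ) ≤ C := by exact_mod_cast hE1 1 f hf
        have h3 : (b : ℤ) * f ≤ A * C :=
          mul_le_mul hbA' h2 (Int.natCast_nonneg _) (Int.natCast_nonneg _)
        have h4 : (0 : ℤ) ≤ b * f := by positivity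
        have h5 : (0 : ℤ) ≤ e := Int.natCast_nonneg _
        have h6 : (0 : ℤ) ≤ C := Int.natCast_nonneg _
        have h7 : (0 : ℤ) ≤ A * C := by positivity
        rw [abs_le]
        push_cast
        constructor
        · linarith
        · linarith
      · refine (hle.trans hcnt).trans ?_
        rw [Nat.cast_le]
        refine Set.ncard_le_ncard_of_injOn
          (fun n : ℕ => (((b : ℤ) * n + (x + e)).toNat, ((-1 : ℤ) * n + (y + f)).toNat)) ?_ ?_
          (sols_finite hb _)
        · rintro n ⟨-, -, h3⟩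
          have h4 := h3 0 (mem_univ _) e he
          have h5 := h3 1 (mem_univ _) f hf
          change ((b : ℤ) * n + (x + e)).toNat.Prime at h4
          change ((-1 : ℤ) * n + (y + f)).toNat.Prime at h5
          refine ⟨h4, h5, ?_⟩
          have h6 := toNat_eq h4
          have h7 := toNat_eq h5
          show ((((b : ℤ) * n + (x + e)).toNat : ℕ) : ℤ) +
            b * ((((-1 : ℤ) * n + (y + f)).toNat : ℕ) : ℤ) = c + e + b * f
          rw [h6, h7, ← hxy]
          ring
        · rintro n ⟨-, -, h3⟩ n' ⟨-, -, h3'⟩ hnn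
          have h5 := h3 1 (mem_univ _) f hf
          have h5' := h3' 1 (mem_univ _) f hf
          change ((-1 : ℤ) * n + (y + f)).toNat.Prime at h5
          change ((-1 : ℤ) * n' + (y + f)).toNat.Prime at h5'
          have h7 := toNat_eq h5
          have h7' := toNat_eq h5'
          have h8 : ((-1 : ℤ) * n + (y + f)).toNat = ((-1 : ℤ) * n' + (y + f)).toNat :=
            congrArg Prod.snd hnn
          rw [h8, h7'] at h7
          omega

end Pool.Agent.V11150.TradeG
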