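import Pool.Agent.Y827.RO.LamR

/-! The trade-off between close primes with differences in given sets and simultaneous primes in linear
forms, with a power of the logarithm. -/

set_option autoImplicit false

namespace Pool.Agent.V11150.TradeS

open Finset Filter
open Pool.Agent.Y827.RO (lamR0 Rs)
open Pool.Agent.Y827.GS (Adf)

/-- prime values are positive -/
theorem toNat_eq {x : ℤ} (h : x.toNat.Prime) : ((x.toNat : ℕ) : ℤ) = x := by
  apply Int.toNat_of_nonneg
  by_contra hcon
  rw [Int.toNat_of_nonpos (by omega)] at h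
  exact Nat.not_prime_zero h

/-- a set containing, for every `W > 0`, infinitely many integers prime to `W` -/
def Rich (B : Set ℕ) : Prop := ∀ W : ℕ, 0 < W → {b : ℕ | b ∈ B ∧ Nat.Coprime b W}.Infinite

/-- the forms are large -/
def Pos {T : ℕ} (a b : Fin T → ℤ) (N : ℕ) : Prop :=
  ∀ (i : Fin T) (x : ℝ), (N : ℝ) / 16 ≤ x → x ≤ N / 2 → (N : ℝ) / 24 ≤ a i * x + b i

/-- greedy choice of the shifts from given pools -/
theorem greedyP {κ : Type} [DecidableEq κ] (k : ℕ) (P : κ → Finset ℕ) (α γ : κ → ℤ)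
    (hα : ∀ i, α i ≠ 0) (hP : ∀ i, k < (P i).card) (s : Finset κ) (hs : s.card ≤ k) :
    ∃ p : κ → ℕ, (∀ i, p i ∈ P i) ∧
      ∀ i ∈ s, ∀ j ∈ s, i ≠ j → α i * (γ j + p j) ≠ α j * (γ i + p i) := by
  induction s using Finset.induction with
  | empty =>
    have h1 : ∀ i, ∃ u, u ∈ P i := fun i => card_pos.1 (by have := hP i; omega)
    choose p hp using h1
    exact ⟨p, hp, by simp⟩
  | insert a s ha ih =>
    rw [card_insert_of_notMem ha] at hs
    obtain ⟨p, h1, h2⟩ := ih (by omega)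
    obtain ⟨u, hu, hub⟩ : ∃ u ∈ P a, u ∉ s.biUnion
        (fun i => (P a).filter (fun u : ℕ => α i * (γ a + u) = α a * (γ i + p i))) := by
      apply Finset.exists_mem_notMem_of_card_lt_card
      refine lt_of_le_of_lt (card_biUnion_le_card_mul _ _ 1 ?_) ?_
      · intro i hi
        rw [card_le_one]
        intro u hu v hv
        have h3 := (mem_filter.1 hu).2
        have h4 := (mem_filter.1 hv).2
        have h5 := mul_left_cancel₀ (hα i) (h3.trans h4.symm)
        have h6 : (u : ℤ) = v := by linarith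
        exact_mod_cast h6
      · have := hP a
        omega
    have hub' : ∀ i ∈ s, α i * (γ a + u) ≠ α a * (γ i + p i) := by
      intro i hi h
      exact hub (mem_biUnion.2 ⟨i, hi, mem_filter.2 ⟨hu, h⟩⟩)
    have hne : ∀ i ∈ s, i ≠ a := fun i hi h => ha (by rw [← h]; exact hi)
    refine ⟨Function.update p a u, ?_, ?_⟩
    · intro i
      by_cases h : i = a
      · rw [h, Function.update_self]; exact hu
      · rw [Function.update_of_ne h]; exact h1 i
    · intro i hi j hj hij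
      rcases mem_insert.1 hi with h | hi'
      · rcases mem_insert.1 hj with h' | hj'
        · exact absurd (h.trans h'.symm) hij
        · rw [h, Function.update_self, Function.update_of_ne (hne j hj')]
          exact fun h => hub' j hj' h.symm
      · rcases mem_insert.1 hj with h' | hj'
        · rw [h', Function.update_self, Function.update_of_ne (hne i hi')]
          exact hub' i hi'
        · rw [Function.update_of_ne (hne i hi'), Function.update_of_ne (hne j hj')]
          exact h2 i hi' j hj' hij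

theorem logs (c : ℝ) (hc : 0 < c) (k C : ℕ) (h : k + 1 ≤ C) : ∀ᶠ N : ℕ in atTop,
    (N : ℝ) / (Real.log N) ^ C ≤ c * (N / (Real.log N) ^ k) := by
  have hlog : ∀ᶠ N : ℕ in atTop, max (1 / c) 1 ≤ Real.log N :=
    (Real.tendsto_log_atTop.comp tendsto_natCast_atTop_atTop).eventually_ge_atTop _
  filter_upwards [hlog] with N hN
  have h1 : 1 / c ≤ Real.log N := (le_max_left _ _).trans hN
  have h2 : 1 ≤ Real.log N := (le_max_right _ _).trans hN
  have h3 : 1 ≤ c * Real.log N := by
    rw [div_le_iff₀ hc] at h1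
    linarith
  have hNr : (0 : ℝ) ≤ N := Nat.cast_nonneg _
  calc (N : ℝ) / (Real.log N) ^ C ≤ N / (Real.log N) ^ (k + 1) := by
        apply div_le_div_of_nonneg_left hNr (by positivity)
        exact pow_le_pow_right₀ h2 h
    _ ≤ c * (N / (Real.log N) ^ k) := by
        rw [pow_succ, ← div_div, div_le_iff₀ (by linarith)]
        have h4 : 0 ≤ (N : ℝ) / Real.log N ^ k := by positivity
        nlinarith

theorem cop_of {a b : ℤ} {r A W : ℕ} (ha : a ≠ 0) (hA : |a| ≤ A)
    (hW : ∀ p : ℕ, p.Prime → p ≤ A → p ∣ W) (hr : Nat.Coprime r W)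
    (h : (W : ℤ) ∣ a + b - r) : IsCoprime a b := by
  rw [Int.isCoprime_iff_gcd_eq_one]
  by_contra hne
  obtain ⟨p, hp, hpd⟩ := Nat.exists_prime_and_dvd hne
  have h1 : (p : ℤ) ∣ (Int.gcd a b : ℤ) := Int.natCast_dvd_natCast.2 hpd
  have h2 : (p : ℤ) ∣ a := h1.trans (Int.gcd_dvd_left _ _)
  have h3 : (p : ℤ) ∣ b := h1.trans (Int.gcd_dvd_right _ _)
  have h4 : (p : ℤ) ≤ |a| := Int.le_of_dvd (abs_pos.2 ha) ((dvd_abs _ _).2 h2)
  have h5 : p ≤ A := by exact_mod_cast h4.trans hA
  have h6 : (p : ℤ) ∣ W := Int.natCast_dvd_natCast.2 (hW p hp h5)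
  have h7 : (p : ℤ) ∣ r := by
    have : (r : ℤ) = (a + b) - (a + b - r) := by ring
    rw [this]
    exact dvd_sub (dvd_add h2 h3) (h6.trans h)
  exact Nat.not_coprime_of_dvd_of_dvd hp.one_lt (Int.natCast_dvd_natCast.1 h7)
    (Int.natCast_dvd_natCast.1 h6) hr

theorem core {κ : ℕ} (B : Fin κ → Set ℕ) (hB : ∀ i, Rich (B i)) (T M A m s : ℕ)
    (hT : 1 ≤ T) (hκ : 1 ≤ κ) (h : (18 / 5 : ℝ) * (s * M) < κ * T) :
    ∃ C : ℕ, ∀ᶠ N : ℕ in atTop, ∀ a b : Fin T → ℤ, (∀ i, a i ≠ 0) →
      (∀ i, |a i| ≤ A) → (∀ i, 10 * |b i| ≤ 9 * (N : ℤ)) → Pos a b N →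
      (∃ J : Finset (Fin κ), s + 1 ≤ J.card ∧ (N : ℝ) / (Real.log N) ^ C ≤
        ({x : ℤ | |x| ≤ C * N ∧ ∀ i ∈ J, ∃ u : ℕ, u ∈ B i ∧ u ≤ C ∧
          (x + u).toNat.Prime}.ncard : ℝ)) ∨
      (∃ (S : Finset (Fin T)) (E : Fin T → Finset ℕ), M + 1 ≤ S.card ∧
        (∀ i, ∀ e ∈ E i, e ≤ C) ∧ (∀ i ∈ S, (E i).card = m) ∧
        (∀ i j, i ≠ j → ∀ e ∈ E i, ∀ f ∈ E j, a i * (b j + f) ≠ a j * (b i + e)) ∧
        (N : ℝ) / (Real.log N) ^ C ≤ ({n : ℕ | (N : ℝ) / 16 ≤ n ∧ n ≤ N ∧
          ∀ i ∈ S, ∀ e ∈ E i, (a i * n + (b i + e)).toNat.Prime}.ncard : ℝ)) := by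
  classical
  obtain ⟨R, hR⟩ : ∃ R : ℕ, (18 / 5 : ℝ) * (T * m) < R * (κ * T - (18 / 5) * (s * M)) := by
    obtain ⟨R, hR⟩ := exists_nat_gt ((18 / 5 : ℝ) * (T * m) / (κ * T - (18 / 5) * (s * M)))
    refine ⟨R, ?_⟩
    rw [div_lt_iff₀ (by linarith)] at hR
    exact hR
  have hR0 : 0 < R := by
    rcases Nat.eq_zero_or_pos R with h0 | h0
    · rw [h0, Nat.cast_zero, zero_mul] at hR
      have : (0 : ℝ) ≤ (18 / 5) * (T * m) := by positivity
      linarith
    · exact h0
  obtain ⟨T', hT'⟩ : ∃ T' : ℕ, T' = T * (R * κ) := ⟨_, rfl⟩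
  obtain ⟨M', hM'⟩ : ∃ M' : ℕ, M' = M * (s * R) + T * m := ⟨_, rfl⟩
  have hT'1 : 1 ≤ T' := by rw [hT']; exact Nat.mul_pos hT (Nat.mul_pos hR0 hκ)
  obtain ⟨K, hK, δ, hδ, H⟩ := lamR0 T' M' hT'1 (by
    rw [hT', hM']
    push_cast
    nlinarith)
  obtain ⟨s₀, c, hc, H⟩ := H A
  obtain ⟨φ⟩ : Nonempty (Fin T' ≃ Fin T × (Fin R × Fin κ)) :=
    ⟨(Fintype.equivFinOfCardEq (by simp [hT'])).symm⟩
  set ctr : Fin T' → Fin T := fun i => (φ i).1 with hctr
  set typ : Fin T' → Fin κ := fun i => (φ i).2.2 with htyp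
  obtain ⟨W, hWd⟩ : ∃ W : ℕ, W = (T' * K + A).factorial := ⟨_, rfl⟩
  have hW0 : 0 < W := by rw [hWd]; exact Nat.factorial_pos _
  have hWz : (0 : ℤ) < W := by exact_mod_cast hW0
  have hpW : ∀ p : ℕ, p.Prime → p ≤ T' * K + A → p ∣ W := by
    intro p hp hpA
    rw [hWd]
    exact hp.dvd_factorial.2 hpA
  -- the pools
  have hpool : ∀ τ : Fin κ, ∃ P : Finset ℕ, (∀ u ∈ P, u ∈ B τ ∧ Nat.Coprime u W) ∧
      P.card = T' * K + 1 := by
    intro τ
    obtain ⟨P, h1, h2⟩ := (hB τ W hW0).exists_subset_card_eq (T' * K + 1)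
    exact ⟨P, fun u hu => h1 (mem_coe.2 hu), h2⟩
  choose P hP1 hP2 using hpool
  obtain ⟨L, hL⟩ : ∃ L : ℕ, ∀ τ, ∀ u ∈ P τ, u ≤ L := by
    refine ⟨∑ τ, (P τ).sup id, fun τ u hu => ?_⟩
    exact (Finset.le_sup (f := id) hu).trans (single_le_sum (f := fun τ => (P τ).sup id)
      (fun _ _ => Nat.zero_le _) (mem_univ τ))
  obtain ⟨E₀, hE₀⟩ : ∃ E₀ : ℕ, E₀ = W + L := ⟨_, rfl⟩
  obtain ⟨C, hC⟩ : ∃ C : ℕ, C = A + 1 + W + L + (T' * K + 2) := ⟨_, rfl⟩
  refine ⟨C, ?_⟩
  filter_upwards [H, logs c hc (T' * K + 1) C (by omega), eventually_ge_atTop (10 * E₀),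
    eventually_ge_atTop 1] with N hN hlog hNE hN1
  intro a b ha hA hb hpos
  -- the base shifts
  have hbase : ∀ g : Fin T, ∃ t : ℕ, t < W ∧ (W : ℤ) ∣ a g + b g + t := by
    intro g
    refine ⟨((-(a g + b g)) % (W : ℤ)).toNat, ?_, ?_⟩
    · have h1 : ((((-(a g + b g)) % (W : ℤ)).toNat : ℕ) : ℤ) < W := by
        rw [Int.toNat_of_nonneg (Int.emod_nonneg _ hWz.ne')]
        exact Int.emod_lt_of_pos _ hWz
      exact_mod_cast h1
    · rw [Int.toNat_of_nonneg (Int.emod_nonneg _ hWz.ne')]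
      have h1 : (W : ℤ) ∣ (-(a g + b g)) - (-(a g + b g)) % (W : ℤ) := Int.dvd_self_sub_emod
      have h2 : a g + b g + (-(a g + b g)) % (W : ℤ) =
        -((-(a g + b g)) - (-(a g + b g)) % (W : ℤ)) := by ring
      rw [h2]
      exact (dvd_neg).2 h1
  choose t ht1 ht2 using hbase
  obtain ⟨u, hu1, hu2⟩ := greedyP (κ := Fin T' × Fin K) (T' * K) (fun z => P (typ z.1))
    (fun z => a (ctr z.1)) (fun z => b (ctr z.1) + t (ctr z.1)) (fun z => ha _)
    (fun z => by rw [hP2]; omega) univ (by simp)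
  set e : Fin T' → Fin K → ℕ := fun i x => t (ctr i) + u (i, x) with he
  have he1 : ∀ i x, e i x ≤ E₀ := by
    intro i x
    have h1 := ht1 (ctr i)
    have h2 := hL _ _ (hu1 (i, x))
    simp only [he]
    omega
  have he2 : ∀ i x, (W : ℤ) ∣ a (ctr i) + (b (ctr i) + e i x) - (u (i, x) : ℕ) := by
    intro i x
    have h1 : a (ctr i) + (b (ctr i) + (e i x : ℤ)) - (u (i, x) : ℕ) =
        a (ctr i) + b (ctr i) + t (ctr i) := by
      simp only [he]
      push_cast
      ring
    rw [h1]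
    exact ht2 _
  have hcop : ∀ i x, Nat.Coprime (u (i, x)) W := fun i x => (hP1 _ _ (hu1 (i, x))).2
  have he3 : ∀ i x j y, (i, x) ≠ (j, y) →
      a (ctr i) * (b (ctr j) + e j y) ≠ a (ctr j) * (b (ctr i) + e i x) := by
    intro i x j y hne
    have h1 := hu2 (i, x) (mem_univ _) (j, y) (mem_univ _) hne
    simp only [he]
    push_cast
    rw [← add_assoc, ← add_assoc]
    exact h1
  -- the forms
  obtain ⟨s₁, S', σ, -, -, -, hS', hcnt⟩ := hN
    (fun i x => (a (ctr i), b (ctr i) + e i x)) (by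
      rintro ⟨i, x⟩ ⟨j, y⟩ hxy
      by_contra hne
      have h1 := he3 i x j y hne
      have h2 := (Prod.ext_iff.1 hxy).1
      have h3 := (Prod.ext_iff.1 hxy).2
      simp only at h2 h3
      apply h1
      rw [h2, h3]) (by
      intro i x
      refine ⟨ha _, hA _, ?_, ?_, ?_⟩
      · show |b (ctr i) + (e i x : ℤ)| ≤ N
        refine (abs_add_le _ _).trans ?_
        rw [Nat.abs_cast]
        have h1 := hb (ctr i)
        have h2 : (e i x : ℤ) ≤ E₀ := by exact_mod_cast he1 i x
        have h3 : 10 * (E₀ : ℤ) ≤ N := by exact_mod_cast hNE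
        linarith
      · exact cop_of (ha _) (hA _) (fun p hp hpA => hpW p hp (by omega)) (hcop i x) (he2 i x)
      · intro y hy1 hy2
        have h1 := hpos (ctr i) y hy1 hy2
        show (N : ℝ) / 24 ≤ (a (ctr i) : ℝ) * y + ((b (ctr i) + (e i x : ℤ) : ℤ) : ℝ)
        push_cast
        have h2 : (0 : ℝ) ≤ e i x := Nat.cast_nonneg _
        linarith) (by
      intro p hp hpT
      refine ⟨1, fun i x hd => ?_⟩
      have h1 : (p : ℤ) ∣ W := Int.natCast_dvd_natCast.2 (hpW p hp (by omega))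
      have h2 : (p : ℤ) ∣ (u (i, x) : ℕ) := by
        have : ((u (i, x) : ℕ) : ℤ) = (a (ctr i) * 1 + (b (ctr i) + e i x)) -
            (a (ctr i) + (b (ctr i) + e i x) - (u (i, x) : ℕ)) := by ring
        rw [this]
        exact dvd_sub hd (h1.trans (he2 i x))
      exact Nat.not_coprime_of_dvd_of_dvd hp.one_lt (Int.natCast_dvd_natCast.1 h2)
        (Int.natCast_dvd_natCast.1 h1) (hcop i x))
  have hcnt' := hlog.trans hcnt
  set e' : Fin T' → ℕ := fun i => e i (σ i) with he'
  have hprime : ∀ n ∈ Rs (fun i x => (a (ctr i), b (ctr i) + (e i x : ℤ))) δ s₁ S' σ N,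
      1 ≤ n ∧ n ≤ N ∧ (N : ℝ) / 16 ≤ n ∧
        ∀ i ∈ S', (a (ctr i) * n + (b (ctr i) + e' i)).toNat.Prime := by
    intro n hn
    unfold Rs at hn
    obtain ⟨h1, h2, -, -, h5⟩ := mem_filter.1 hn
    exact ⟨(mem_Icc.1 h1).1, (mem_Icc.1 h1).2, h2, h5⟩
  by_cases hcase : ∃ g : Fin T, s + 1 ≤ ((S'.filter (fun i => ctr i = g)).image typ).card
  · -- many types at one centre
    left
    obtain ⟨g, hg⟩ := hcase
    refine ⟨_, hg, hcnt'.trans ?_⟩
    rw [← Set.ncard_coe_finset, Nat.cast_le]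
    refine Set.ncard_le_ncard_of_injOn (fun n : ℕ => a g * n + b g + t g) ?_ ?_
      ((Set.finite_Icc (-((C : ℤ) * N)) (C * N)).subset fun x hx => abs_le.1 hx.1)
    · intro n hn
      rw [mem_coe] at hn
      obtain ⟨hn1, hn2, -, hn4⟩ := hprime n hn
      have hNz : (1 : ℤ) ≤ N := by exact_mod_cast hN1
      have hnz : (n : ℤ) ≤ N := by exact_mod_cast hn2
      have hn0 : (0 : ℤ) ≤ n := Nat.cast_nonneg _
      refine ⟨?_, ?_⟩
      · show |a g * (n : ℤ) + b g + t g| ≤ C * N
        have f1 : |a g * (n : ℤ)| ≤ A * N := by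
          rw [abs_mul, abs_of_nonneg hn0]
          exact mul_le_mul (hA g) hnz hn0 (Nat.cast_nonneg _)
        have f2 : |b g| ≤ N := by
          have g1 := hb g
          have g2 := abs_nonneg (b g)
          linarith
        have f3 : |(t g : ℤ)| ≤ W * N := by
          rw [Nat.abs_cast]
          have g1 : (t g : ℤ) ≤ W := by exact_mod_cast (ht1 g).le
          have g2 : (W : ℤ) * 1 ≤ W * N := mul_le_mul_of_nonneg_left hNz hWz.le
          linarith
        have f4 : (0 : ℤ) ≤ (L * N + (T' * K + 2) * N : ℤ) := by positivity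
        have f5 : (C : ℤ) * N = A * N + N + W * N + (L * N + (T' * K + 2) * N) := by
          rw [hC]
          push_cast
          ring
        rw [f5]
        calc |a g * (n : ℤ) + b g + t g| ≤ |a g * (n : ℤ) + b g| + |(t g : ℤ)| := abs_add_le _ _
          _ ≤ (|a g * (n : ℤ)| + |b g|) + |(t g : ℤ)| :=
              add_le_add (abs_add_le _ _) le_rfl
          _ ≤ _ := by linarith
      · intro τ hτ
        obtain ⟨i, hi, rfl⟩ := mem_image.1 hτ
        obtain ⟨hi1, hi2⟩ := mem_filter.1 hi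
        have p1 := hn4 i hi1
        have f1 := hu1 (i, σ i)
        refine ⟨u (i, σ i), (hP1 _ _ f1).1, ?_, ?_⟩
        · have := hL _ _ f1
          omega
        · have f2 : a g * (n : ℤ) + b g + t g + (u (i, σ i) : ℕ) =
              a (ctr i) * n + (b (ctr i) + e' i) := by
            simp only [he', he, hi2]
            push_cast
            ring
          rw [f2]
          exact p1
    · intro n _ n' _ hnn
      have h1 : a g * (n : ℤ) + b g + t g = a g * n' + b g + t g := hnn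
      have h2 : a g * (n : ℤ) = a g * n' := by linarith
      exact_mod_cast mul_left_cancel₀ (ha g) h2
  · -- few types at each centre
    right
    push Not at hcase
    set F : Fin T → Finset (Fin T') := fun g => S'.filter (fun i => ctr i = g) with hF
    have hinj : ∀ g, Set.InjOn e' (F g : Set (Fin T')) := by
      intro g i hi j hj hij
      by_contra hne'
      have h1 := (mem_filter.1 (mem_coe.1 hi)).2
      have h2 := (mem_filter.1 (mem_coe.1 hj)).2
      have h3 := he3 i (σ i) j (σ j) (fun h => hne' (Prod.ext_iff.1 h).1)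
      simp only [h1, h2] at h3
      have h4 : e i (σ i) = e j (σ j) := hij
      rw [h4] at h3
      exact h3 rfl
    have hFR : ∀ g, (F g).card ≤ s * R := by
      intro g
      have h1 : (F g).card ≤ ((univ : Finset (Fin R)) ×ˢ ((F g).image typ)).card := by
        refine card_le_card_of_injOn (fun i => ((φ i).2.1, (φ i).2.2)) ?_ ?_
        · intro i hi
          rw [mem_coe] at hi ⊢
          exact mem_product.2 ⟨mem_univ _, mem_image.2 ⟨i, hi, rfl⟩⟩
        · intro i hi j hj hij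
          have h3 := (mem_filter.1 (mem_coe.1 hi)).2
          have h4 := (mem_filter.1 (mem_coe.1 hj)).2
          apply φ.injective
          exact Prod.ext (h3.trans h4.symm) hij
      rw [card_product, card_univ, Fintype.card_fin] at h1
      have h2 : ((F g).image typ).card ≤ s := Nat.lt_succ_iff.1 (hcase g)
      calc (F g).card ≤ R * ((F g).image typ).card := h1
        _ ≤ R * s := Nat.mul_le_mul_left _ h2
        _ = s * R := Nat.mul_comm _ _
    set S : Finset (Fin T) := univ.filter (fun g => m ≤ (F g).card) with hS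
    have hexE : ∀ g : Fin T, ∃ E : Finset ℕ, E ⊆ (F g).image e' ∧ (g ∈ S → E.card = m) := by
      intro g
      by_cases hg : g ∈ S
      · have h1 : m ≤ ((F g).image e').card := by
          rw [card_image_of_injOn (hinj g)]
          exact (mem_filter.1 hg).2
        obtain ⟨E, hE1, hE2⟩ := exists_subset_card_eq h1
        exact ⟨E, hE1, fun _ => hE2⟩
      · exact ⟨∅, empty_subset _, fun h => absurd h hg⟩
    choose E hE1 hE2 using hexE
    refine ⟨S, E, ?_, ?_, hE2, ?_, hcnt'.trans ?_⟩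
    · by_contra hcon
      have h1 : S.card ≤ M := by omega
      have h2 : S'.card = ∑ g : Fin T, (F g).card := by
        rw [hF]
        exact card_eq_sum_card_fiberwise (fun i _ => mem_univ (ctr i))
      have h3 : ∀ g : Fin T, (F g).card ≤ m + if g ∈ S then s * R else 0 := by
        intro g
        by_cases hg : g ∈ S
        · rw [if_pos hg]
          have h4 := hFR g
          omega
        · rw [if_neg hg]
          have h4 : ¬ m ≤ (F g).card := fun h => hg (mem_filter.2 ⟨mem_univ _, h⟩)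
          omega
      have h4 : ∑ g : Fin T, (F g).card ≤ ∑ g : Fin T, (m + if g ∈ S then s * R else 0) :=
        sum_le_sum fun g _ => h3 g
      rw [sum_add_distrib, sum_const, card_univ, Fintype.card_fin, smul_eq_mul, sum_ite_mem,
        univ_inter, sum_const, smul_eq_mul] at h4
      have h5 : S.card * (s * R) ≤ M * (s * R) := Nat.mul_le_mul_right _ h1
      rw [hM'] at hS'
      omega
    · intro i x hx
      obtain ⟨j, -, rfl⟩ := mem_image.1 (hE1 i hx)
      exact (he1 j (σ j)).trans (by omega)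
    · intro i j hij x hx y hy
      obtain ⟨i', hi', rfl⟩ := mem_image.1 (hE1 i hx)
      obtain ⟨j', hj', rfl⟩ := mem_image.1 (hE1 j hy)
      have h1 := (mem_filter.1 hi').2
      have h2 := (mem_filter.1 hj').2
      have hne' : i' ≠ j' := by
        rintro rfl
        exact hij (h1.symm.trans h2)
      have h3 := he3 i' (σ i') j' (σ j') (fun h => hne' (Prod.ext_iff.1 h).1)
      simp only [h1, h2] at h3
      exact h3
    · rw [← Set.ncard_coe_finset, Nat.cast_le]
      refine Set.ncard_le_ncard ?_ ((Set.finite_Iic N).subset fun x hx => hx.2.1)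
      intro n hn
      rw [mem_coe] at hn
      obtain ⟨hn1, hn2, hn3, hn4⟩ := hprime n hn
      refine ⟨hn3, hn2, fun g _ x hx => ?_⟩
      obtain ⟨i, hi, rfl⟩ := mem_image.1 (hE1 g hx)
      have h1 := mem_filter.1 hi
      have h2 := hn4 i h1.1
      rwa [h1.2] at h2

end Pool.Agent.V11150.TradeS
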