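import Pool.Agent.V11150.TradeS

/-! The trade-off, uniformly in the subfamilies of a finite family of sets and in the systems of forms. -/

set_option autoImplicit false

namespace Pool.Agent.V11150.TradeT

open Finset Filter
open Pool.Agent.V11150.TradeS

/-- the number of integers `|x| ≤ X` with a prime `x + u`, `u ∈ B i`, `u ≤ C`, for every `i ∈ J` -/
noncomputable def common {n : ℕ} (B : Fin n → Set ℕ) (J : Finset (Fin n)) (C X : ℕ) : ℕ :=
  {x : ℤ | |x| ≤ X ∧ ∀ i ∈ J, ∃ u : ℕ, u ∈ B i ∧ u ≤ C ∧ (x + u).toNat.Prime}.ncard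

theorem common_mono {n : ℕ} {B : Fin n → Set ℕ} {J : Finset (Fin n)} {C C' X X' : ℕ}
    (h : C' ≤ C) (hX : X' ≤ X) : common B J C' X' ≤ common B J C X := by
  unfold common
  refine Set.ncard_le_ncard ?_
    ((Set.finite_Icc (-(X : ℤ)) X).subset fun x hx => abs_le.1 hx.1)
  rintro x ⟨hx1, hx2⟩
  refine ⟨hx1.trans (by exact_mod_cast hX), fun i hi => ?_⟩
  obtain ⟨u, h1, h2, h3⟩ := hx2 i hi
  exact ⟨u, h1, h2.trans h, h3⟩

/-- more than `M` of the `T` forms are simultaneously prime, up to bounded changes -/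
def PB (C N m T M : ℕ) (a b : Fin T → ℤ) : Prop :=
  ∃ (S : Finset (Fin T)) (E : Fin T → Finset ℕ), M + 1 ≤ S.card ∧
    (∀ i, ∀ e ∈ E i, e ≤ C) ∧ (∀ i ∈ S, (E i).card = m) ∧
    (∀ i j, i ≠ j → ∀ e ∈ E i, ∀ f ∈ E j, a i * (b j + f) ≠ a j * (b i + e)) ∧
    (N : ℝ) / (Real.log N) ^ C ≤ ({n : ℕ | (N : ℝ) / 16 ≤ n ∧ n ≤ N ∧
      ∀ i ∈ S, ∀ e ∈ E i, (a i * n + (b i + e)).toNat.Prime}.ncard : ℝ)

theorem div_anti {N : ℕ} (hN : 1 ≤ Real.log N) {C C' : ℕ} (h : C' ≤ C) :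
    (N : ℝ) / (Real.log N) ^ C ≤ (N : ℝ) / (Real.log N) ^ C' :=
  div_le_div_of_nonneg_left (Nat.cast_nonneg _) (by positivity) (pow_le_pow_right₀ hN h)

theorem PB.mono {C C' N m T M : ℕ} {a b : Fin T → ℤ} (hN : 1 ≤ Real.log N) (h : C' ≤ C)
    (hP : PB C' N m T M a b) : PB C N m T M a b := by
  obtain ⟨S, E, h1, h2, h3, h4, h5⟩ := hP
  exact ⟨S, E, h1, fun i e he => (h2 i e he).trans h, h3, h4, (div_anti hN h).trans h5⟩

/-- more than `s` of the sets `B i`, `i ∈ I` -/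
def PA {n : ℕ} (B : Fin n → Set ℕ) (C N s : ℕ) (I : Finset (Fin n)) : Prop :=
  ∃ J ⊆ I, s + 1 ≤ J.card ∧ (N : ℝ) / (Real.log N) ^ C ≤ (common B J C (C * N) : ℝ)

theorem PA.mono {n : ℕ} {B : Fin n → Set ℕ} {C C' N s : ℕ} {I : Finset (Fin n)}
    (hN : 1 ≤ Real.log N) (h : C' ≤ C) (hP : PA B C' N s I) : PA B C N s I := by
  obtain ⟨J, h1, h2, h3⟩ := hP
  refine ⟨J, h1, h2, ((div_anti hN h).trans h3).trans ?_⟩
  rw [Nat.cast_le]
  exact common_mono h (Nat.mul_le_mul_right _ h)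

theorem coreI {n : ℕ} (B : Fin n → Set ℕ) (hB : ∀ i, Rich (B i)) (I : Finset (Fin n))
    (hI : I.Nonempty) (T M A m s : ℕ)
    (hT : 1 ≤ T) (h : (18 / 5 : ℝ) * (s * M) < I.card * T) :
    ∃ C : ℕ, ∀ᶠ N : ℕ in atTop, ∀ a b : Fin T → ℤ, (∀ i, a i ≠ 0) →
      (∀ i, |a i| ≤ A) → (∀ i, 10 * |b i| ≤ 9 * (N : ℤ)) → Pos a b N →
      PA B C N s I ∨ PB C N m T M a b := by
  classical
  obtain ⟨C, hC⟩ := core (κ := I.card) (fun i => B (I.equivFin.symm i)) (fun i => hB _) T M A m s hT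
    (card_pos.2 hI) h
  refine ⟨C, ?_⟩
  filter_upwards [hC] with N hN a b ha hA hb hpos
  refine (hN a b ha hA hb hpos).imp ?_ (fun h => h)
  rintro ⟨J, h1, h2⟩
  have hinj : Function.Injective (fun i : Fin I.card => ((I.equivFin.symm i : I) : Fin n)) :=
    Subtype.val_injective.comp I.equivFin.symm.injective
  refine ⟨J.image (fun i => ((I.equivFin.symm i : I) : Fin n)), ?_, ?_, h2.trans ?_⟩
  · intro r hr
    obtain ⟨i, -, rfl⟩ := mem_image.1 hr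
    exact (I.equivFin.symm i).2
  · rw [card_image_of_injective _ hinj]
    exact h1
  · rw [Nat.cast_le]
    unfold common
    refine Set.ncard_le_ncard ?_
      ((Set.finite_Icc (-((C * N : ℕ) : ℤ)) (C * N : ℕ)).subset fun x hx => abs_le.1 hx.1)
    rintro x ⟨hx1, hx2⟩
    refine ⟨by push_cast; exact hx1, fun r hr => ?_⟩
    obtain ⟨i, hi, rfl⟩ := mem_image.1 hr
    exact hx2 i hi

theorem uni {n : ℕ} (B : Fin n → Set ℕ) (hB : ∀ i, Rich (B i)) (K A m : ℕ) (sf Mf : ℕ → ℕ)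
    (h : ∀ κ T : ℕ, 1 ≤ κ → κ ≤ n → 1 ≤ T → T ≤ K → (18 / 5 : ℝ) * (sf κ * Mf T) < κ * T) :
    ∃ C : ℕ, ∀ᶠ N : ℕ in atTop,
      (∀ I : Finset (Fin n), I.Nonempty → PA B C N (sf I.card) I) ∨
      (∀ T : ℕ, 1 ≤ T → T ≤ K → ∀ a b : Fin T → ℤ, (∀ i, a i ≠ 0) → (∀ i, |a i| ≤ A) →
        (∀ i, 10 * |b i| ≤ 9 * (N : ℤ)) → Pos a b N → PB C N m T (Mf T) a b) := by
  classical
  have h1 : ∀ (I : Finset (Fin n)) (T : ℕ), ∃ C : ℕ, I.Nonempty → 1 ≤ T → T ≤ K →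
      ∀ᶠ N : ℕ in atTop, ∀ a b : Fin T → ℤ, (∀ i, a i ≠ 0) →
      (∀ i, |a i| ≤ A) → (∀ i, 10 * |b i| ≤ 9 * (N : ℤ)) → Pos a b N →
      PA B C N (sf I.card) I ∨ PB C N m T (Mf T) a b := by
    intro I T
    by_cases hh : I.Nonempty ∧ 1 ≤ T ∧ T ≤ K
    · have hIn : I.card ≤ n := by simpa using card_le_univ I
      obtain ⟨C, hC⟩ := coreI B hB I hh.1 T (Mf T) A m (sf I.card) hh.2.1
        (h I.card T (card_pos.2 hh.1) hIn hh.2.1 hh.2.2)
      exact ⟨C, fun _ _ _ => hC⟩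
    · exact ⟨0, fun h1 h2 h3 => absurd ⟨h1, h2, h3⟩ hh⟩
  choose Cf hCf using h1
  obtain ⟨C, hC⟩ : ∃ C : ℕ, ∀ I : Finset (Fin n), ∀ T ≤ K, Cf I T ≤ C := by
    refine ⟨∑ I : Finset (Fin n), ∑ T ∈ range (K + 1), Cf I T, ?_⟩
    intro I T hT
    refine le_trans ?_ (single_le_sum
      (f := fun I : Finset (Fin n) => ∑ T ∈ range (K + 1), Cf I T)
      (fun _ _ => Nat.zero_le _) (mem_univ I))
    exact single_le_sum (f := fun T => Cf I T) (fun _ _ => Nat.zero_le _)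
      (mem_range.2 (by omega : T < K + 1))
  refine ⟨C, ?_⟩
  have hev : ∀ᶠ N : ℕ in atTop, ∀ x ∈ (univ : Finset (Finset (Fin n))) ×ˢ (Icc 1 K),
      x.1.Nonempty → ∀ a b : Fin x.2 → ℤ,
      (∀ i, a i ≠ 0) → (∀ i, |a i| ≤ A) → (∀ i, 10 * |b i| ≤ 9 * (N : ℤ)) → Pos a b N →
      PA B (Cf x.1 x.2) N (sf x.1.card) x.1 ∨ PB (Cf x.1 x.2) N m x.2 (Mf x.2) a b := by
    rw [Filter.eventually_all_finset]
    rintro ⟨I, T⟩ hx
    rw [mem_product] at hx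
    have h4' := mem_Icc.1 hx.2
    by_cases hI : I.Nonempty
    · filter_upwards [hCf I T hI h4'.1 h4'.2] with N hN _ using hN
    · exact Eventually.of_forall fun N h => absurd h hI
  have hlog : ∀ᶠ N : ℕ in atTop, 1 ≤ Real.log N :=
    (Real.tendsto_log_atTop.comp tendsto_natCast_atTop_atTop).eventually_ge_atTop _
  filter_upwards [hev, hlog] with N hN hL
  by_cases hall : ∀ I : Finset (Fin n), I.Nonempty → PA B C N (sf I.card) I
  · exact Or.inl hall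
  right
  push Not at hall
  obtain ⟨I, hI, hno⟩ := hall
  intro T hT1 hTK a b ha hA hb hpos
  rcases hN (I, T) (mem_product.2 ⟨mem_univ _, mem_Icc.2 ⟨hT1, hTK⟩⟩) hI a b ha hA hb hpos
    with h2 | h2
  · exact absurd (h2.mono hL (hC I T hTK)) hno
  · exact h2.mono hL (hC I T hTK)

/-- reduced residue classes are rich -/
theorem rich_class {q : ℕ} (hq : 1 ≤ q) {r : ℤ} (hr : IsCoprime r (q : ℤ)) :
    Rich {b : ℕ | (q : ℤ) ∣ (b : ℤ) - r} := by
  intro W hW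
  -- an integer `≡ r` modulo `q` and prime to `W`
  have hqW : 0 < q * W := Nat.mul_pos hq hW
  haveI : NeZero (q * W) := ⟨hqW.ne'⟩
  haveI : NeZero q := ⟨by omega⟩
  have h1 : IsUnit ((r : ℤ) : ZMod q) := (ZMod.coe_int_isUnit_iff_isCoprime r q).2 hr.symm
  obtain ⟨u, hu⟩ := h1
  obtain ⟨w, hw⟩ := ZMod.unitsMap_surjective (dvd_mul_right q W) u
  have h2 := ZMod.val_coe_unit_coprime w
  have h3 : (q : ℤ) ∣ (((w : ZMod (q * W)).val : ℕ) : ℤ) - r := by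
    rw [← ZMod.intCast_zmod_eq_zero_iff_dvd]
    push_cast
    have h3 : (((w : ZMod (q * W)).val : ℕ) : ZMod q) = (u : ZMod q) := by
      rw [← hw, ZMod.unitsMap_val]
      exact ZMod.natCast_val _
    rw [h3, hu]
    simp
  apply Set.infinite_of_injective_forall_mem
    (f := fun k : ℕ => (w : ZMod (q * W)).val + (q * W) * k)
  · intro k k' hkk
    have h4 : (q * W) * k = (q * W) * k' := Nat.add_left_cancel hkk
    exact Nat.eq_of_mul_eq_mul_left hqW h4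
  · intro k
    refine ⟨?_, ?_⟩
    · show (q : ℤ) ∣ (((w : ZMod (q * W)).val + (q * W) * k : ℕ) : ℤ) - r
      push_cast
      have h4 : (((w : ZMod (q * W)).val : ℕ) : ℤ) + (q * W : ℤ) * k - r =
        ((((w : ZMod (q * W)).val : ℕ) : ℤ) - r) + q * (W * k) := by ring
      rw [h4]
      exact dvd_add h3 (dvd_mul_right _ _)
    · show Nat.Coprime ((w : ZMod (q * W)).val + (q * W) * k) W
      have h4 : Nat.Coprime (w : ZMod (q * W)).val W := h2.coprime_mul_left_right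
      have h5 : (q * W) * k = W * (q * k) := by ring
      rw [h5]
      exact (Nat.coprime_add_mul_left_left _ _ _).2 h4

end Pool.Agent.V11150.TradeT
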