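import Pool.Agent.W54.AD.Fam
import Pool.Agent.W171.EP.IntRangeF

/-!
# Lenstra's set for `F = ℚ(i)`, complex conjugation, `k = 2` and the groups `⟨2 n ^ r⟩`, many exponents `r` at once

The two theorems follow the proofs of the starting results `MP_991e92_nt.TwistedByPowers` and
`MP_991e92_nt.TwistedByPrimes` with the family of counting problems `Pool.Agent.W54.AD.datA`.
-/

set_option autoImplicit false

namespace Pool.Agent.V11150.TwA

open Finset Filter Classical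
open Pool.Agent.W171.EP (badC intRangeF badG primesAll)
open Pool.Agent.W171.LG (Wr)
open Pool.Agent.W54.AD (datA datA_Q famA_int famA_primes)
open Pool.Agent.H771R4.SE (cntE Dat)
open Pool.Agent.H771R4.AQ (Adm)

/-- `p ≡ 3 mod 4`, `p` does not divide `2 n ^ r`, and the index of the group generated by `2 n ^ r` in
`(ℤ/p)ˣ` divides `2` -/
def Lens (r n p : ℕ) : Prop :=
  p.Prime ∧ p % 4 = 3 ∧ ∃ u : (ZMod p)ˣ, (u : ZMod p) = 2 * (n : ZMod p) ^ r ∧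
    (Subgroup.zpowers u).index ∣ 2

/-- the number of primes `p ≤ x` in the set of Lenstra -/
noncomputable def P (r n x : ℕ) : ℕ := ((range (x + 1)).filter (fun p : ℕ => Lens r n p)).card

/-- Artin's constant -/
noncomputable def A : ℝ := ∏' p : Nat.Primes, (1 - 1 / (((p : ℕ) : ℝ) * (((p : ℕ) : ℝ) - 1)))

lemma index_iff {p : ℕ} (hp : p.Prime) (h3 : p % 4 = 3) (a : ZMod p) :
    (∃ u : (ZMod p)ˣ, (u : ZMod p) = a ∧ (Subgroup.zpowers u).index ∣ 2) ↔ Adm p a := by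
  haveI : Fact p.Prime := ⟨hp⟩
  have hcard : Nat.card (ZMod p)ˣ = p - 1 := by
    rw [Nat.card_eq_fintype_card, ZMod.card_units]
  have hp1 : 2 ≤ p - 1 := by
    have := hp.two_le
    omega
  have key : ∀ u : (ZMod p)ˣ, orderOf u * (Subgroup.zpowers u).index = p - 1 := by
    intro u
    rw [← hcard, ← Nat.card_zpowers]
    exact Subgroup.card_mul_index _
  unfold Adm
  constructor
  · rintro ⟨u, hu, hd⟩
    have h1 := key u
    rw [← hu, orderOf_units]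
    rcases (Nat.dvd_prime Nat.prime_two).1 hd with h | h
    · left
      rw [h, mul_one] at h1
      exact h1
    · right
      rw [h] at h1
      omega
  · intro h
    have ha : a ≠ 0 := by
      rintro rfl
      rw [orderOf_zero] at h
      omega
    refine ⟨Units.mk0 a ha, rfl, ?_⟩
    have h1 := key (Units.mk0 a ha)
    have h2 : orderOf (Units.mk0 a ha) = orderOf a := by
      rw [← orderOf_units]
      rfl
    rw [h2] at h1
    rcases h with h | h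
    · rw [h] at h1
      have h3 : (Subgroup.zpowers (Units.mk0 a ha)).index = 1 :=
        Nat.eq_of_mul_eq_mul_left (by omega : 0 < p - 1) (by rw [h1, mul_one])
      rw [h3]
      exact one_dvd 2
    · have ho : 0 < orderOf a := by omega
      have h3 : (Subgroup.zpowers (Units.mk0 a ha)).index = 2 :=
        Nat.eq_of_mul_eq_mul_left ho (by rw [h1, mul_comm]; exact h.symm)
      rw [h3]

lemma P_eq (r : ℕ) (hr : 0 < r) (n x : ℕ) : P r n x = cntE (datA ⟨r, hr⟩) n x := by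
  unfold P cntE
  apply congrArg Finset.card
  apply Finset.filter_congr_decidable _ _ _ |>.symm.trans
  apply Finset.filter_congr
  intro p _
  unfold Lens
  refine and_congr_right fun hp => ?_
  rw [datA_Q]
  refine and_congr_right fun h3 => ?_
  exact index_iff hp h3 _

lemma A_eq (r : ℕ+) : (datA r).A = A := rfl

theorem ints (η C : ℝ) (hη : 0 < η) (hC : 1 < C) :
    ∃ b : ℝ, 0 < b ∧ ∀ ε : ℝ, 0 < ε → ∃ δ₀ : ℝ, 0 < δ₀ ∧ ∀ L : ℕ, ∃ N₀ : ℕ, ∀ N : ℕ, N₀ ≤ N →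
      ∀ E : Finset ℕ, (E.card : ℝ) ≤ (N : ℝ) ^ b →
        (∀ r ∈ E, 1 ≤ r ∧ (r.primeFactors.card : ℝ) ≤ (N : ℝ) ^ (1 / 4 : ℝ) ∧
          ∑ l ∈ r.primeFactors.filter (fun l : ℕ => L < l), (1 / (l : ℝ)) ≤ δ₀) →
        (((Finset.Icc 1 N).filter (fun n : ℕ => ∃ r ∈ E,
          ∃ x : ℕ, ((N : ℝ) ^ C ≤ x ∧ (x : ℝ) ≤ Real.exp ((N : ℝ) ^ b)) ∧
            ε * (Nat.primeCounting x : ℝ) <
              |(P r n x : ℝ) - A * (Nat.primeCounting x : ℝ)|)).card : ℝ) ≤ η * N := by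
  obtain ⟨b, hb, S, ⟨N₁, hS⟩, hall⟩ := intRangeF C hC (η / 2) (by positivity)
  refine ⟨b / 2, by positivity, fun ε hε => ?_⟩
  obtain ⟨δ₁, hδ₁, hfam⟩ := famA_int C hC b S hall ε hε
  refine ⟨δ₁, hδ₁, fun L => ?_⟩
  obtain ⟨N₂, hN₂⟩ := hfam L
  have hpow : ∀ᶠ N : ℕ in atTop, 2 / η ≤ (N : ℝ) ^ (b / 2) :=
    ((tendsto_rpow_atTop (by positivity)).comp tendsto_natCast_atTop_atTop).eventually_ge_atTop _
  obtain ⟨N₃, hN₃⟩ := eventually_atTop.1 hpow
  refine ⟨max (max N₁ N₃) (max N₂ 1), fun N hN E hEc hE => ?_⟩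
  have hA1 : N₁ ≤ N := (le_max_left _ _).trans ((le_max_left _ _).trans hN)
  have hA3 : N₃ ≤ N := (le_max_right _ _).trans ((le_max_left _ _).trans hN)
  have hA2 : N₂ ≤ N := (le_max_left _ _).trans ((le_max_right _ _).trans hN)
  have hA4 : 1 ≤ N := (le_max_right _ _).trans ((le_max_right _ _).trans hN)
  have hN1 : (1 : ℝ) ≤ N := by exact_mod_cast hA4
  have hN0 : (0 : ℝ) < N := by linarith
  have k1 := hS N hA1
  have k3 := hN₃ N hA3
  rw [div_le_iff₀ hη] at k3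
  set Bd := (Finset.Icc 1 N).filter (fun n : ℕ => ∃ r ∈ E,
        ∃ x : ℕ, ((N : ℝ) ^ C ≤ x ∧ (x : ℝ) ≤ Real.exp ((N : ℝ) ^ (b / 2))) ∧
          ε * (Nat.primeCounting x : ℝ) <
            |(P r n x : ℝ) - A * (Nat.primeCounting x : ℝ)|) with hBd
  set F : ℕ → Finset ℕ := fun r => if h : 0 < r then badC (datA ⟨r, h⟩) ε C b N \ S N else ∅ with hF
  have hsub : Bd ⊆ S N ∪ E.biUnion F := by
    intro n hn
    rw [hBd, mem_filter] at hn
    obtain ⟨hnI, r, hrE, x, ⟨hx1, hx2⟩, hx3⟩ := hn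
    by_cases hnS : n ∈ S N
    · exact mem_union_left _ hnS
    · apply mem_union_right
      rw [mem_biUnion]
      refine ⟨r, hrE, ?_⟩
      have hr0 : 0 < r := (hE r hrE).1
      simp only [hF]
      rw [dif_pos hr0, Finset.mem_sdiff, badC, mem_filter]
      refine ⟨⟨hnI, x, ?_, ?_, ?_⟩, hnS⟩
      · rw [← Real.log_rpow hN0]
        exact Real.log_le_log (by positivity) hx1
      · have hx0 : (0 : ℝ) < x := lt_of_lt_of_le (by positivity) hx1
        rw [Real.log_le_iff_le_exp hx0]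
        refine hx2.trans (Real.exp_le_exp.2 ?_)
        exact Real.rpow_le_rpow_of_exponent_le hN1 (by linarith)
      · rw [← P_eq r hr0, A_eq]
        exact hx3
  have h4 := (card_le_card hsub).trans ((card_union_le _ _).trans
    (Nat.add_le_add_left card_biUnion_le _))
  have h5 : (#Bd : ℝ) ≤ (#(S N) : ℝ) + ∑ r ∈ E, (#(F r) : ℝ) := by
    exact_mod_cast h4
  have h6 : ∑ r ∈ E, (#(F r) : ℝ) ≤ (N : ℝ) ^ (b / 2) * (N : ℝ) ^ (1 - b) := by
    calc ∑ r ∈ E, (#(F r) : ℝ)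
        ≤ ∑ r ∈ E, (N : ℝ) ^ (1 - b) := by
          refine sum_le_sum fun r hr => ?_
          have hr0 : 0 < r := (hE r hr).1
          simp only [hF]
          rw [dif_pos hr0]
          exact hN₂ N hA2 ⟨r, hr0⟩ (hE r hr).2
      _ = (E.card : ℝ) * (N : ℝ) ^ (1 - b) := by
          rw [sum_const, nsmul_eq_mul]
      _ ≤ _ := by gcongr
  have h8 : (N : ℝ) ^ (b / 2) * (N : ℝ) ^ (1 - b) ≤ η / 2 * N := by
    have h9 : (N : ℝ) = (N : ℝ) ^ (b / 2) * (N : ℝ) ^ (1 - b) * (N : ℝ) ^ (b / 2) := by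
      rw [← Real.rpow_add hN0, ← Real.rpow_add hN0]
      ring_nf
      simp
    have h10 : 0 < (N : ℝ) ^ (b / 2) * (N : ℝ) ^ (1 - b) := by positivity
    calc (N : ℝ) ^ (b / 2) * (N : ℝ) ^ (1 - b)
        = ((N : ℝ) ^ (b / 2) * (N : ℝ) ^ (1 - b)) * 1 := by ring
      _ ≤ ((N : ℝ) ^ (b / 2) * (N : ℝ) ^ (1 - b)) * (η / 2 * (N : ℝ) ^ (b / 2)) := by
          gcongr
          linarith
      _ = η / 2 * ((N : ℝ) ^ (b / 2) * (N : ℝ) ^ (1 - b) * (N : ℝ) ^ (b / 2)) := by ring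
      _ = η / 2 * N := by rw [← h9]
  linarith

theorem primes (α θ C : ℝ) (hα : 0 < α) (hθ : 1 / 2 + 2 * α < θ) (hθ1 : θ < 1) (hC : 1 < C)
    (hCθ : θ * (1 - θ) < C * (2 * θ - 1)) :
    ∃ b : ℝ, 0 < b ∧ ∀ ε : ℝ, 0 < ε → ∃ δ₀ : ℝ, 0 < δ₀ ∧ ∀ L : ℕ, ∃ y₀ : ℕ, ∀ y : ℕ, y₀ ≤ y →
      ∀ m : ℕ, 1 ≤ m → (m : ℝ) ≤ Real.exp (√(y : ℝ)) →
      ∀ E : Finset ℕ, (E.card : ℝ) ≤ (y : ℝ) ^ b →
        (∀ r ∈ E, 1 ≤ r ∧ (r.primeFactors.card : ℝ) ≤ (y : ℝ) ^ (1 / 4 : ℝ) ∧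
          ∑ l ∈ r.primeFactors.filter (fun l : ℕ => L < l), (1 / (l : ℝ)) ≤ δ₀) →
        (((Finset.range (y + 1)).filter (fun q : ℕ => q.Prime ∧ ∃ r ∈ E,
          ∃ x : ℕ, ((y : ℝ) ^ C ≤ x ∧ (x : ℝ) ≤ Real.exp ((y : ℝ) ^ α)) ∧
            ε * (Nat.primeCounting x : ℝ) <
              |(P r (m * q) x : ℝ) - A * (Nat.primeCounting x : ℝ)|)).card : ℝ) ≤
          (y : ℝ) ^ θ := by
  obtain ⟨θ', hθ', hall⟩ := primesAll α θ C hα hθ hθ1 hC hCθ
  set b : ℝ := (θ - θ') / 2 with hbdef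
  have hb : 0 < b := by rw [hbdef]; linarith
  refine ⟨b, hb, fun ε hε => ?_⟩
  obtain ⟨δ₁, hδ₁, hfam⟩ := famA_primes C hC α θ' hall ε hε
  refine ⟨δ₁, hδ₁, fun L => ?_⟩
  obtain ⟨N₂, hN₂⟩ := hfam L
  have hpow : ∀ᶠ y : ℕ in atTop, 2 ≤ (y : ℝ) ^ b :=
    ((tendsto_rpow_atTop hb).comp tendsto_natCast_atTop_atTop).eventually_ge_atTop _
  obtain ⟨N₃, hN₃⟩ := eventually_atTop.1 hpow
  refine ⟨max N₃ (max N₂ 1), fun y hy m hm hmy E hEc hE => ?_⟩
  have hA3 : N₃ ≤ y := (le_max_left _ _).trans hy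
  have hA2 : N₂ ≤ y := (le_max_left _ _).trans ((le_max_right _ _).trans hy)
  have hA4 : 1 ≤ y := (le_max_right _ _).trans ((le_max_right _ _).trans hy)
  have hy1 : (1 : ℝ) ≤ y := by exact_mod_cast hA4
  have hy0 : (0 : ℝ) < y := by linarith
  have hm0 : (0 : ℝ) < m := by exact_mod_cast hm
  have hml : Real.log m ≤ √(y : ℝ) := by
    rw [Real.log_le_iff_le_exp hm0]
    exact hmy
  have k3 := hN₃ y hA3
  set Bd := (Finset.range (y + 1)).filter (fun q : ℕ => q.Prime ∧ ∃ r ∈ E,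
        ∃ x : ℕ, ((y : ℝ) ^ C ≤ x ∧ (x : ℝ) ≤ Real.exp ((y : ℝ) ^ α)) ∧
          ε * (Nat.primeCounting x : ℝ) <
            |(P r (m * q) x : ℝ) - A * (Nat.primeCounting x : ℝ)|) with hBd
  set F : ℕ → Finset ℕ := fun r =>
    if h : 0 < r then badG (datA ⟨r, h⟩) ε (C * Real.log y) ((y : ℝ) ^ α) m y else ∅ with hF
  have hsub : Bd ⊆ E.biUnion F := by
    intro q hq
    rw [hBd, mem_filter] at hq
    obtain ⟨hqr, hqp, r, hrE, x, ⟨hx1, hx2⟩, hx3⟩ := hq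
    rw [mem_biUnion]
    refine ⟨r, hrE, ?_⟩
    have hr0 : 0 < r := (hE r hrE).1
    simp only [hF]
    rw [dif_pos hr0, badG, mem_filter]
    refine ⟨?_, x, ?_, ?_, ?_⟩
    · rw [Pool.Agent.H386R2.Artin.PP, mem_filter]
      exact ⟨hqr, hqp⟩
    · rw [← Real.log_rpow hy0]
      exact Real.log_le_log (by positivity) hx1
    · have hx0 : (0 : ℝ) < x := lt_of_lt_of_le (by positivity) hx1
      rw [Real.log_le_iff_le_exp hx0]
      exact hx2
    · rw [← P_eq r hr0, A_eq]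
      exact hx3
  have h4 := (card_le_card hsub).trans card_biUnion_le
  have h5 : (#Bd : ℝ) ≤ ∑ r ∈ E, (#(F r) : ℝ) := by exact_mod_cast h4
  have h6 : ∑ r ∈ E, (#(F r) : ℝ) ≤ (y : ℝ) ^ b * (2 * (y : ℝ) ^ θ') := by
    calc ∑ r ∈ E, (#(F r) : ℝ)
        ≤ ∑ r ∈ E, 2 * (y : ℝ) ^ θ' := by
          refine sum_le_sum fun r hr => ?_
          have hr0 : 0 < r := (hE r hr).1
          simp only [hF]
          rw [dif_pos hr0]
          exact hN₂ y hA2 ⟨r, hr0⟩ (hE r hr).2 m hm hml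
      _ = (E.card : ℝ) * (2 * (y : ℝ) ^ θ') := by
          rw [sum_const, nsmul_eq_mul]
      _ ≤ _ := by gcongr
  refine h5.trans (h6.trans ?_)
  have h7 : (y : ℝ) ^ θ = (y : ℝ) ^ b * ((y : ℝ) ^ b * (y : ℝ) ^ θ') := by
    rw [← Real.rpow_add hy0, ← Real.rpow_add hy0]
    congr 1
    rw [hbdef]
    ring
  rw [h7]
  gcongr

end Pool.Agent.V11150.TwA
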